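import Pool.Agent.Lib_helper41.SapR.FinalDefs

/-!
Definitions for the final theorem on column-convex self-avoiding polygons with all moments:
the moments of the area and the moments of the Airy law.
-/

set_option autoImplicit false

namespace Pool.Agent.KCC

open Finset Pool.Agent.AreaLaw

/-- the `r`-th moment of `A / E[A]` for a uniform word of `F`: `E[A ^ r] / E[A] ^ r` -/
noncomputable def areaMoment (n : ℕ) (F : Finset (Fin (2 * n) → Fin 4)) (r : ℕ) : ℝ :=
  ((∑ s ∈ F, area n s ^ r) / (F.card : ℝ)) / ((∑ s ∈ F, area n s) / (F.card : ℝ)) ^ r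

end Pool.Agent.KCC

namespace Pool.Agent.KCS

/-- the numbers `Ω_r` of the Airy distribution (Louchard, Takacs): `-1, 1/2, 5/4, 45/4, ...`,
`2 Ω_r = (3 r - 4) r Ω_{r-1} + ∑_{0 < j < r} C(r, j) Ω_j Ω_{r-j}` -/
noncomputable def airyOm : ℕ → ℝ
  | 0 => -1
  | (r + 1) => ((3 * (r : ℝ) - 1) * ((r : ℝ) + 1) * airyOm r + ∑ j : Fin r,
      ((r + 1).choose (j.1 + 1) : ℝ) * airyOm (j.1 + 1) * airyOm (r - j.1)) / 2
  decreasing_by all_goals omega

/-- moments of the Airy distribution, normalised to mean one -/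
noncomputable def airyMoment (r : ℕ) : ℝ :=
  2 * Real.sqrt Real.pi * airyOm r /
    (Real.Gamma ((3 * (r : ℝ) - 1) / 2) * Real.pi ^ ((r : ℝ) / 2))

end Pool.Agent.KCS
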