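import Pool.Agent.KCS.StC
import Mathlib.Combinatorics.Enumerative.Catalan
import Mathlib.RingTheory.PowerSeries.Basic

/-!
# Project KCS (MP_f6626d_co), part M: the moments of the universal law are those of the Airy law

The staircase model is `Gap.stair`, caps `cap1` (`Lib_helper79/Gap/Defs.lean`, `Defs2.lean`). Every doc
string contains the complete proof.

Notation: `α r = (3 r - 1) / 2`, `E = MS 0 0`, the hat of a power series `f` is the sequence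
`coeff n f / 4 ^ n` (so `hat (f * g) n = ∑_{m ≤ n} hat f m * hat g (n - m)`, `hat (X * f) (n+1) = hat f n / 4`).
-/

set_option autoImplicit false

namespace Pool.Agent.KCS

open Finset Filter Topology MeasureTheory Pool.Agent.Gap
open Pool.Agent.KCG (mr)

/-- generating polynomial (in the area variable) of the closed staircase model -/
noncomputable def eP : ℕ → Polynomial ℝ
  | 0 => 1
  | (n + 1) => 2 * Polynomial.X ^ 2 * eP n + Polynomial.X ^ 6 *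
      ∑ a : Fin n, eP a.1 * Polynomial.X ^ (2 * (n - 1 - a.1)) * eP (n - 1 - a.1)
  decreasing_by all_goals omega

/-- constants of the moments of `eP n` -/
noncomputable def kap (r : ℕ) : ℝ := 8 * (1 / 2) ^ r * airyOm r / Real.Gamma ((3 * (r : ℝ) - 1) / 2)

/-- FEQ (module KCS_FEQ). PROOF. `B0 0 g = 0`, and for `g ≥ 1`, as `nnT 0 = 2`, `nnT (± 1) = 1`,
`B0 (n+1) g = [n = 0, g = 1] + 2 X^(2g) B0 n g + X^(2g+1) B0 n (g+1) + X^(2g-1) B0 n (g-1)` (the last one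
is `0` for `g = 1`). Show by strong induction on `n` for all `g ≥ 1` at once that `B0 (n+1) g = U g n`,
where `U 1 n = eP n` and `U (g+1) n = X^(2g+1) ∑_{a+b=n-1} X^(2 g a) eP a * U g b` (empty for `n = 0`); it
suffices that `U` satisfies the same recursion. In power series over `R[X]` (variable `t`,
`e = ∑ eP n t^n`, `σ` = `rescale (X^2)`, `e_g = σ^g e = rescale (X^(2g)) e`, `U_g = ∑ U g n t^n`): `e = 1 + 2X²t e +
X⁶t² e σe`, `U_1 = e`, `U_{g+1} = X^(2g+1) t e_g U_g`. To show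
`U_g = [g=1] + 2X^(2g) t U_g + X^(2g+1) t U_{g+1} + X^(2g-1) t U_{g-1}`. For `g = 1` this is the equation of
`e` (`U_2 = X³ t (σe) e`). For `g ≥ 2`: `U_g = X^(2g-1) t e_{g-1} U_{g-1}`, and the equation
`e_{g-1} = 1 + 2 X^(2g) t e_{g-1} + X^(4g+2) t² e_{g-1} e_g` (`rescale (X^(2(g-1)))` applied to the
equation of `e`) multiplied by `X^(2g-1) t U_{g-1}` gives the claim, since
`X^(2g+1) t U_{g+1} = X^(4g+2) t² e_g U_g`. The second formula: `closeP 1 cap1 B0 (n+2) = B0 (n+1) 1`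
(only `m = 1`, `g = 1`). -/
def FEQ_Stmt : Prop := ∀ B0, Gap.IsSol stair cap1 B0 → ∀ n : ℕ,
  B0 (n + 1) 1 = eP n ∧ closeP 1 cap1 B0 (n + 2) = eP n

/-- `∑ n^l mr r (eP n) z^n` -/
noncomputable def MS (r l : ℕ) : PowerSeries ℝ := PowerSeries.mk fun n => (n : ℝ) ^ l * mr r (eP n)

/-- moments of order `j` of `X^6 eP` -/
noncomputable def US (j : ℕ) : PowerSeries ℝ :=
  ∑ i ∈ range (j + 1), ((j.choose i : ℝ) * 6 ^ (j - i)) • MS i 0

/-- moments of order `m` of `X^(2 b) eP b` -/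
noncomputable def VS (m : ℕ) : PowerSeries ℝ :=
  ∑ l ∈ range (m + 1), ((m.choose l : ℝ) * 2 ^ l) • MS (m - l) l

/-- right side of the equation of the moments of order `r` -/
noncomputable def RS (r : ℕ) : PowerSeries ℝ :=
  2 * PowerSeries.X * ∑ j ∈ range r, ((r.choose j : ℝ) * 2 ^ (r - j)) • MS j 0 +
  PowerSeries.X ^ 2 * ((∑ i ∈ range r, ((r.choose i : ℝ) * 6 ^ (r - i)) • MS i 0) * MS 0 0 +
    MS 0 0 * ∑ l ∈ range r, ((r.choose (l + 1) : ℝ) * 2 ^ (l + 1)) • MS (r - 1 - l) (l + 1) +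
    ∑ j ∈ Ico 1 r, (r.choose j : ℝ) • (US j * VS (r - j)))

/-- MRC (module KCS_MRC). PROOF. `mr` is additive, `mr r (X^c * P) = ∑_j C(r,j) c^(r-j) mr j P` and
`mr r (P * Q) = ∑_j C(r,j) mr j P * mr (r-j) Q` (binomial theorem, bilinear in monomials). Zeroth
moments: `mr 0 (eP n) = (eP n).eval 1`, `eP` at `1` satisfies `e(n+1) = 2 e n + ∑_{a+b=n-1} e a e b`, and
so does `catalan (n+1)` (`catalan_succ'` : `catalan (n+2) = ∑_{i+j=n+1} catalan i catalan j`; the terms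
`i = 0` and `j = 0` give `2 catalan (n+1)`). Moments of order `r ≥ 1` (coefficientwise, or with `mk`):
`MS r 0 = 2 X ∑_{j ≤ r} C(r,j) 2^(r-j) MS j 0 + X² ∑_{j ≤ r} C(r,j) US j * VS (r-j)`; the constant
coefficient is `mr r 1 = 0`. Move the terms `2 X MS r 0`, `X² MS r 0 * VS 0` (part `i = r` of `US r`) and
`X² US 0 * MS r 0` (part `l = 0` of `VS r`) to the left; `US 0 = VS 0 = MS 0 0`. -/
def MRC_Stmt : Prop := (∀ n : ℕ, mr 0 (eP n) = (catalan (n + 1) : ℝ)) ∧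
  (∀ r n : ℕ, 0 ≤ mr r (eP n)) ∧
  ∀ r : ℕ, 1 ≤ r → (1 - 2 * PowerSeries.X - 2 * PowerSeries.X ^ 2 * MS 0 0) * MS r 0 = RS r

/-- normalised coefficients of order `n ^ (β - 1)` -/
def Asy (β c : ℝ) (f : PowerSeries ℝ) : Prop :=
  Tendsto (fun n : ℕ => PowerSeries.coeff n f / 4 ^ n * (n : ℝ) ^ (1 - β)) atTop (𝓝 c)

/-- CV1 (module KCS_CV1): convolution. PROOF. `x m = hat f m`, `y m = hat g m`. The terms `m = 0` and
`m = n` contribute `O(n^(β-1)) + O(n^(α-1)) = o(n^(α+β-1))`. The others: `n^(1-α-β) ∑_{1 ≤ m < n} x m y (n-m) =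
∫_0^1 φ_n(t) dt`, `φ_n(t) = n^(2-α-β) x ⌊nt⌋ y (n-⌊nt⌋)` for `1 ≤ ⌊nt⌋ < n`, else `0`. Pointwise for
`0 < t < 1`: `φ_n(t) → a b t^(α-1) (1-t)^(β-1)`. Domination: `|x m| ≤ C (m+1)^(α-1)`, `|y m| ≤ C (m+1)^(β-1)`
(all `m ≥ 0`, from the convergence; `m ≥ 1` is enough), and with `m = ⌊nt⌋`, `m + 1 ≥ nt`, `m + 1 ≤ 2 n`, `n - m + 1 ≥ n (1 - t)`:
`|φ_n(t)| ≤ C' t^(min(α,1)-1) (1-t)^(min(β,1)-1)`, integrable. `∫_0^1 t^(α-1)(1-t)^(β-1) = Γ(α)Γ(β)/Γ(α+β)`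
(`Complex.betaIntegral`, `Complex.Gamma_mul_Gamma_eq_betaIntegral`, or the real versions in Mathlib). -/
def CV1_Stmt : Prop := ∀ (α β a b : ℝ) (f g : PowerSeries ℝ), 0 < α → 0 < β → Asy α a f → Asy β b g →
  Asy (α + β) (a * b * (Real.Gamma α * Real.Gamma β / Real.Gamma (α + β))) (f * g)

/-- CV2 (module KCS_CV2): convolution with a summable sequence. PROOF. `x = hat f`, `y = hat g`,
`n^(1-β) ∑_{m ≤ n} x m y (n-m)`. Part `m ≤ n/2`: the term is `x m * (y (n-m) (n-m)^(1-β)) * (n/(n-m))^(1-β)`,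
dominated by `C' |x m|` (`1 ≤ n/(n-m) ≤ 2`) and converges to `x m * b`: Tannery
(`tendsto_tsum_of_dominated_convergence`) gives `S b`. Part `m > n/2`: `|x m| ≤ C (n/2)^(-3/2)` and
`∑_{k ≤ n/2} |y k| ≤ C' n^β` (`β > 0`; `|y k| ≤ C'' (k+1)^(β-1)`), so it is `O(n^(1-β-3/2+β)) = O(n^(-1/2))`. -/
def CV2_Stmt : Prop := ∀ (β b S C : ℝ) (f g : PowerSeries ℝ), 0 < β →
  (∀ n : ℕ, |PowerSeries.coeff n f / 4 ^ n| ≤ C * ((n : ℝ) + 1) ^ (-(3 / 2) : ℝ)) →
  HasSum (fun n : ℕ => PowerSeries.coeff n f / 4 ^ n) S → Asy β b g → Asy β (S * b) (f * g)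

/-- the series `(1 - 4 z) ^ (-1/2)` -/
noncomputable def yS : PowerSeries ℝ := PowerSeries.mk fun n => (n.centralBinom : ℝ)

/-- the series of the `catalan (n+1)` -/
noncomputable def cS : PowerSeries ℝ := PowerSeries.mk fun n => (catalan (n + 1) : ℝ)

/-- CBA (module KCS_CBA). PROOF. Let `b n = centralBinom n / 4^n`. (1) `b n √n → 1/√π`: Wallis or Stirling
(`Real.Wallis.tendsto_W_nhds_pi_div_two`, `Real.Wallis.W_eq_factorial_ratio`,
`Stirling.tendsto_stirlingSeq_sqrt_pi`). (2) `catalan (n+1) / 4^n = 4 b (n+1) / (n+2) = 8 (b (n+1) - b (n+2))`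
(`catalan_eq_centralBinom_div`, `Nat.succ_mul_centralBinom_succ`), so it is `~ (4/√π) n^(-3/2)` and the sum
is `8 b 1 = 4`. (3) `D = 1 - 2 X - 2 X² cS = 1 - 2 X c` with `c = ∑ catalan n z^n`, `c = 1 + X c²`, so
`D² = 1 - 4 X c + 4 X² c² = 1 - 4 X`. `yS² = (1 - 4X)^(-1)`: from `(n+1) yS_{n+1} = (4n+2) yS_n`,
`(1 - 4X) yS' = 2 yS`, so `((1 - 4X) yS²)' = 0`, hence `(1 - 4 X) yS² = 1` and `(D yS)² = 1`, constant
coefficient `1`, so `D yS = 1` (`(D yS - 1)(D yS + 1) = 0`, domain). (Or use what Mathlib has on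
`catalanSeries` and central binomials.) -/
def CBA_Stmt : Prop :=
  (1 - 2 * PowerSeries.X - 2 * PowerSeries.X ^ 2 * cS) * yS = 1 ∧
  Asy (1 / 2) (1 / Real.Gamma (1 / 2)) yS ∧ Asy (-(1 / 2)) (4 / Real.sqrt Real.pi) cS ∧
  (∃ C : ℝ, ∀ n : ℕ, |PowerSeries.coeff n cS / 4 ^ n| ≤ C * ((n : ℝ) + 1) ^ (-(3 / 2) : ℝ)) ∧
  HasSum (fun n : ℕ => PowerSeries.coeff n cS / 4 ^ n) 4

/-- CRA (module KCS_CRA, from MRC, CV1, CV2, CBA): moments of `eP n`. PROOF by strong induction on `r`.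
`K r = 8 (1/2)^r airyOm r`, `kap r = K r / Γ(α r)`. `r = 0`: `MS 0 0 = cS`, `K 0 = -8`, `Γ(-1/2) = -2√π`.
`r ≥ 1`: multiply the equation of MRC by `yS`: `MS r 0 = yS * RS r`. With `β = (3r-2)/2 ≥ 1/2` we show
`Asy β ρ (RS r)` with `ρ = (1/16) (∑_{0<j<r} C(r,j) K j K (r-j) + 4 r (3r-4) K (r-1)) / Γ(β)`, then by CV1
(`α = 1/2`) `Asy (α r) (ρ Γ(β) / Γ(α r))`, and `ρ Γ(β) = K r` is the recursion of `airyOm`.
Known for `j < r`, all `l`: `Asy (α j + l) (kap j) (MS j l)` (multiply by `n^l`), hence `Asy β' 0` for every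
`β' > α j + l`. Terms of `RS r`. (a) `2 X MS j 0`, `j < r`: `α j < β`, limit `0` (a factor `X` shifts `n`: limit
times `1/4`, `((n+1)/n)^(1-β) → 1`). (b) `MS i 0 * MS 0 0`, `i < r`: CV2 with `f = cS`, `b = 0`. (c)
`MS 0 0 * MS (r-1-l) (l+1)`: `α (r-1-l) + l + 1 = β - l/2`, so `l ≥ 1` gives `0`, `l = 0` gives
`4 kap (r-1)` by CV2; with the factors `C(r,1) 2` and `X²` (`1/16`): `(1/16) 8 r kap (r-1)`, and
`kap (r-1) Γ(β) = K (r-1) (3r-4)/2` (`Γ(s+1) = s Γ(s)`, `s = α (r-1) = (3r-4)/2 ≠ 0`). (d) `US j * VS (r-j)`,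
`0 < j < r`: `US j` and `VS m` satisfy `Asy (α j) (kap j)`, `Asy (α m) (kap m)` (the other terms have
smaller exponents: `α i < α j` for `i < j`, `α (m-l) + l = α m - l/2`), CV1 gives
`Asy (α j + α (r-j)) (K j K (r-j) / Γ(β))`, `α j + α (r-j) = β`. -/
def CRA_Stmt : Prop := ∀ r : ℕ,
  Tendsto (fun n : ℕ => mr r (eP n) / 4 ^ n * (n : ℝ) ^ (3 / 2 - 3 / 2 * (r : ℝ))) atTop (𝓝 (kap r))

/-- AMG (general form of `KCC.AMO_Stmt`, proved by helper22 with it): convergence in law and a bound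
of the moment of order `r + 1` give the convergence of the moment of order `r`. -/
def AMG_Stmt : Prop := ∀ ν : Measure ℝ, IsProbabilityMeasure ν →
  ∀ (W : ℕ → Type) (hW : ∀ n, Fintype (W n)) (T : ∀ n, W n → ℝ), (∀ n y, 0 ≤ T n y) →
    (∀ᶠ n : ℕ in atTop, 0 < ∑ y, T n y) →
    (∀ x : ℝ, ν {x} = 0 → Tendsto (fun n : ℕ =>
      open Classical in
      ((univ.filter fun y : W n => T n y * (Fintype.card (W n) : ℝ) ≤ x * ∑ y', T n y').card : ℝ)
        / (Fintype.card (W n) : ℝ)) atTop (𝓝 (ν (Set.Iic x)).toReal)) →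
    ∀ (r : ℕ) (C : ℝ), (∀ᶠ n : ℕ in atTop, ((∑ y, T n y ^ (r + 1)) / (Fintype.card (W n) : ℝ)) /
        ((∑ y, T n y) / (Fintype.card (W n) : ℝ)) ^ (r + 1) ≤ C) →
      Integrable (fun x : ℝ => x ^ r) ν ∧
        Tendsto (fun n : ℕ => ((∑ y, T n y ^ r) / (Fintype.card (W n) : ℝ)) /
          ((∑ y, T n y) / (Fintype.card (W n) : ℝ)) ^ r) atTop (𝓝 (∫ x, x ^ r ∂ν))

/-- IDN (module KCS_IDN, from FEQ, CRA, AMG): the moments of the universal law. PROOF. Let `B0` be the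
solution (existence: see the proof of `KCG.GFIN.stair_side`). `eP n` has natural coefficients
(strong induction), so for `n ≥ 2` there is a finite type `Omega n` (pairs: exponent `m`, element of
`Fin (coefficient)`) with `∑ X ^ A = eP (n-2) = closeP 1 cap1 B0 n` (FEQ). The area model with `G = stair`,
`C0 = 1`, `s = t = cap1`, `T = A`, `C1 = 0`, `n1 = 2`, `c = 1` converges to `ν` by hypothesis, which is the
hypothesis of AMG for `W = Omega`, `T = A`. `∑ A ^ r = mr r (eP (n-2))`, `card = mr 0 (eP (n-2))`. By CRA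
`(∑ A^r / card) / (∑ A / card)^r → kap r * kap 0 ^ (r-1) / kap 1 ^ r` (the powers of `4^n` and `n` cancel;
`kap 0 = 4/√π > 0`, `kap 1 = 2`), for `r` and for `r + 1`, so the ratio of order `r + 1` is bounded and AMG
gives `∫ x^r dν = kap r * kap 0 ^ (r-1) / kap 1 ^ r = airyMoment r` (for `r = 0` both sides are `1`). -/
def IDN_Stmt : Prop := ∀ ν : Measure ℝ, IsProbabilityMeasure ν → (∀ M : AreaModel, M.Conv ν) →
  ∀ r : ℕ, Integrable (fun x : ℝ => x ^ r) ν ∧ ∫ x, x ^ r ∂ν = airyMoment r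

end Pool.Agent.KCS
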