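import Pool.Agent.KCS.StM
import Pool.Agent.Lib_helper35.Gap.FA

/-!
# Project KCS (MP_f6626d_co): module IDN, the moments of the universal law
-/

set_option autoImplicit false

namespace Pool.Agent.KCS

open Finset Filter Topology MeasureTheory Pool.Agent.Gap
open Pool.Agent.KCG (mr)

namespace IDN

theorem eP_zero : eP 0 = 1 := by rw [eP]

theorem eP_succ (n : ℕ) : eP (n + 1) = 2 * Polynomial.X ^ 2 * eP n + Polynomial.X ^ 6 *
    ∑ a : Fin n, eP a.1 * Polynomial.X ^ (2 * (n - 1 - a.1)) * eP (n - 1 - a.1) := by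
  rw [eP]

/-- the polynomials have natural coefficients -/
theorem nat_coeff (n : ℕ) : ∃ P : Polynomial ℕ, eP n = P.map (Nat.castRingHom ℝ) := by
  induction n using Nat.strong_induction_on with
  | _ n ih =>
    cases n with
    | zero => exact ⟨1, by rw [eP_zero, Polynomial.map_one]⟩
    | succ n =>
      have h : ∀ m : ℕ, ∃ P : Polynomial ℕ, m < n + 1 → eP m = P.map (Nat.castRingHom ℝ) := by
        intro m
        by_cases hm : m < n + 1
        · obtain ⟨P, hP⟩ := ih m hm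
          exact ⟨P, fun _ => hP⟩
        · exact ⟨0, fun h => absurd h hm⟩
      choose P hP using h
      refine ⟨2 * Polynomial.X ^ 2 * P n + Polynomial.X ^ 6 *
        ∑ a : Fin n, P a.1 * Polynomial.X ^ (2 * (n - 1 - a.1)) * P (n - 1 - a.1), ?_⟩
      rw [eP_succ, Polynomial.map_add, Polynomial.map_mul, Polynomial.map_mul, Polynomial.map_mul,
        Polynomial.map_pow, Polynomial.map_pow, Polynomial.map_X, Polynomial.map_ofNat,
        Polynomial.map_sum, hP n (by omega)]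
      congr 2
      refine Finset.sum_congr rfl fun a _ => ?_
      have ha := a.2
      rw [Polynomial.map_mul, Polynomial.map_mul, Polynomial.map_pow, Polynomial.map_X,
        hP a.1 (by omega), hP (n - 1 - a.1) (by omega)]

/-- natural version of the polynomials -/
noncomputable def pN (n : ℕ) : Polynomial ℕ := (nat_coeff n).choose

theorem pN_spec (n : ℕ) : eP n = (pN n).map (Nat.castRingHom ℝ) := (nat_coeff n).choose_spec

/-- a finite set with the given generating polynomial -/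
def Om (n : ℕ) : Type := Σ m : Fin ((pN (n - 2)).natDegree + 1), Fin ((pN (n - 2)).coeff m)

noncomputable instance (n : ℕ) : Fintype (Om n) := by unfold Om; infer_instance

/-- the exponent -/
def ex (n : ℕ) (x : Om n) : ℕ := x.1.1

theorem sum_Om (n : ℕ) {M : Type} [AddCommMonoid M] (f : ℕ → M) :
    ∑ x : Om n, f (ex n x) =
      ∑ m ∈ range ((pN (n - 2)).natDegree + 1), (pN (n - 2)).coeff m • f m := by
  unfold Om ex
  have h1 : ∑ x : (Σ m : Fin ((pN (n - 2)).natDegree + 1), Fin ((pN (n - 2)).coeff m)),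
      f x.1.1 = ∑ m : Fin ((pN (n - 2)).natDegree + 1), (pN (n - 2)).coeff m • f m := by
    rw [Fintype.sum_sigma]
    refine Finset.sum_congr rfl fun m _ => ?_
    simp
  rw [← Fin.sum_univ_eq_sum_range (fun m => (pN (n - 2)).coeff m • f m)]
  convert h1

theorem count_eq (n : ℕ) : ∑ x : Om n, (Polynomial.X : Polynomial ℝ) ^ (ex n x) = eP (n - 2) := by
  rw [sum_Om n (fun m => (Polynomial.X : Polynomial ℝ) ^ m), pN_spec]
  conv_rhs => rw [Polynomial.as_sum_range_C_mul_X_pow (pN (n - 2)), Polynomial.map_sum]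
  refine Finset.sum_congr rfl fun m _ => ?_
  rw [Polynomial.map_mul, Polynomial.map_C, Polynomial.map_pow, Polynomial.map_X, nsmul_eq_mul]
  simp

theorem mr_eq (r n : ℕ) : mr r (eP (n - 2)) = ∑ x : Om n, (ex n x : ℝ) ^ r := by
  rw [sum_Om n (fun m => (m : ℝ) ^ r), pN_spec]
  unfold mr
  rw [Polynomial.sum_over_range' _ (by intro m; simp) ((pN (n - 2)).natDegree + 1)]
  · refine Finset.sum_congr rfl fun m _ => ?_
    rw [Polynomial.coeff_map, nsmul_eq_mul]
    rfl
  · exact Nat.lt_succ_of_le Polynomial.natDegree_map_le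

theorem card_eq (n : ℕ) : (Fintype.card (Om n) : ℝ) = mr 0 (eP (n - 2)) := by
  rw [mr_eq]
  simp

/-- the staircase model -/
noncomputable def mdl (hF : FEQ_Stmt) : AreaModel where
  G := stair
  C0 := 1
  s := cap1
  t := cap1
  cap_s := isCap_cap1_35
  cap_t := isCap_cap1_35
  B := B0
  sol := B0_isSol
  Omega := Om
  fin := fun n => inferInstance
  A := ex
  T := fun n x => (ex n x : ℝ)
  T_nonneg := fun n x => Nat.cast_nonneg _
  C1 := 0
  n1 := 2
  near := by intro n _ x; simp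
  c := fun _ => 1
  c_pos := fun _ => one_pos
  count := by
    intro n hn
    obtain ⟨m, rfl⟩ := Nat.exists_eq_add_of_le' hn
    rw [count_eq, (hF B0 B0_isSol m).2]
    simp

/-! ### The limits of the moments -/

theorem kap_zero : kap 0 = 4 / Real.sqrt Real.pi := by
  have h1 : Real.Gamma ((3 * ((0 : ℕ) : ℝ) - 1) / 2) = -2 * Real.sqrt Real.pi := by
    have h2 : Real.Gamma (-(1 / 2) + 1) = (-(1 / 2)) * Real.Gamma (-(1 / 2)) :=
      Real.Gamma_add_one (by norm_num)
    have h3 : Real.Gamma (-(1 / 2) + 1) = Real.sqrt Real.pi := by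
      rw [show (-(1 / 2) + 1 : ℝ) = 1 / 2 by norm_num]
      exact Real.Gamma_one_half_eq
    have h4 : ((3 * ((0 : ℕ) : ℝ) - 1) / 2) = -(1 / 2) := by norm_num
    rw [h4]
    rw [h3] at h2
    linarith
  have h5 : airyOm 0 = -1 := by rw [airyOm]
  have hpi : 0 < Real.sqrt Real.pi := Real.sqrt_pos.2 Real.pi_pos
  unfold kap
  rw [h1, h5]
  field_simp
  norm_num

theorem kap_zero_pos : 0 < kap 0 := by
  rw [kap_zero]
  have hpi : 0 < Real.sqrt Real.pi := Real.sqrt_pos.2 Real.pi_pos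
  positivity

theorem kap_one : kap 1 = 2 := by
  have h1 : Real.Gamma ((3 * ((1 : ℕ) : ℝ) - 1) / 2) = 1 := by
    rw [show ((3 * ((1 : ℕ) : ℝ) - 1) / 2) = 1 by norm_num]
    exact Real.Gamma_one
  have h5 : airyOm 1 = 1 / 2 := by
    have h0 : airyOm 0 = -1 := by rw [airyOm]
    rw [airyOm, h0]
    simp
  unfold kap
  rw [h1, h5]
  norm_num

theorem kap_ratio (r : ℕ) : kap r / kap 0 / (kap 1 / kap 0) ^ r = airyMoment r := by
  rw [kap_one, kap_zero]
  unfold kap airyMoment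
  have hpi : 0 < Real.sqrt Real.pi := Real.sqrt_pos.2 Real.pi_pos
  have h1 : Real.pi ^ ((r : ℝ) / 2) = Real.sqrt Real.pi ^ r := by
    rw [Real.sqrt_eq_rpow, ← Real.rpow_natCast, ← Real.rpow_mul Real.pi_pos.le]
    congr 1
    ring
  rw [h1]
  set s := Real.sqrt Real.pi with hs
  set G := Real.Gamma ((3 * (r : ℝ) - 1) / 2)
  have h2 : (2 / (4 / s)) ^ r = s ^ r * (1 / 2) ^ r := by
    rw [← mul_pow]
    congr 1
    field_simp
    norm_num
  rw [h2]
  have h3 : ((1 : ℝ) / 2) ^ r ≠ 0 := by positivity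
  have h4 : s ^ r ≠ 0 := by positivity
  by_cases hG : G = 0
  · rw [hG]; simp
  · field_simp
    ring

theorem alg_ratio (x0 x1 xr q y : ℝ) (r : ℕ) (hq : 0 < q) (hy : 0 < y) :
    xr / q * (y / y ^ r) / (x0 / q * y) / (x1 / q * 1 / (x0 / q * y)) ^ r =
      xr / x0 / (x1 / x0) ^ r := by
  by_cases hx0 : x0 = 0
  · rw [hx0]; simp
  have e1 : x1 / q * 1 / (x0 / q * y) = x1 / x0 / y := by field_simp
  have e2 : xr / q * (y / y ^ r) / (x0 / q * y) = xr / x0 / y ^ r := by field_simp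
  rw [e1, e2, div_pow (x1 / x0) y r, div_div_div_cancel_right₀ (by positivity)]

/-- the ratio of the moments -/
theorem ratio_tendsto (hC : CRA_Stmt) (r : ℕ) :
    Tendsto (fun n : ℕ => (mr r (eP n) / mr 0 (eP n)) / (mr 1 (eP n) / mr 0 (eP n)) ^ r) atTop
      (𝓝 (airyMoment r)) := by
  have h0 := hC 0
  have h1 := hC 1
  have hr := hC r
  have hk0 := kap_zero_pos
  have hk1 : 0 < kap 1 := by rw [kap_one]; norm_num
  have hlim := (hr.div h0 hk0.ne').div ((h1.div h0 hk0.ne').pow r)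
    (pow_ne_zero r (div_pos hk1 hk0).ne')
  rw [kap_ratio] at hlim
  refine hlim.congr' ?_
  filter_upwards [eventually_ge_atTop 1] with n hn
  have hn0 : (0 : ℝ) < n := by exact_mod_cast hn
  have e0 : (n : ℝ) ^ (3 / 2 - 3 / 2 * ((0 : ℕ) : ℝ)) = (n : ℝ) ^ (3 / 2 : ℝ) := by
    congr 1; norm_num
  have e1 : (n : ℝ) ^ (3 / 2 - 3 / 2 * ((1 : ℕ) : ℝ)) = 1 := by
    rw [show (3 / 2 - 3 / 2 * ((1 : ℕ) : ℝ) : ℝ) = 0 by norm_num, Real.rpow_zero]
  have er : (n : ℝ) ^ (3 / 2 - 3 / 2 * (r : ℝ)) =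
      (n : ℝ) ^ (3 / 2 : ℝ) / ((n : ℝ) ^ (3 / 2 : ℝ)) ^ r := by
    rw [Real.rpow_sub hn0, Real.rpow_mul hn0.le, Real.rpow_natCast]
  simp only [Pi.div_apply]
  rw [e0, e1, er]
  exact alg_ratio _ _ _ _ _ r (by positivity) (Real.rpow_pos_of_pos hn0 _)

end IDN

open IDN in
/-- IDN : the moments of the universal law are those of the Airy law. -/
theorem idn (hF : FEQ_Stmt) (hC : CRA_Stmt) (hA : AMG_Stmt) : IDN_Stmt := by
  intro ν hν hconv r
  have hM := hconv (mdl hF)
  have hlim : ∀ r : ℕ, Tendsto (fun n : ℕ => ((∑ y : Om n, (ex n y : ℝ) ^ r) /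
      (Fintype.card (Om n) : ℝ)) / ((∑ y : Om n, (ex n y : ℝ)) / (Fintype.card (Om n) : ℝ)) ^ r)
      atTop (𝓝 (airyMoment r)) := by
    intro r
    have h1 := (ratio_tendsto hC r).comp (tendsto_sub_atTop_nat 2)
    refine h1.congr fun n => ?_
    simp only [Function.comp]
    rw [mr_eq, card_eq, mr_eq 1 n]
    simp only [pow_one]
  have hpos : ∀ᶠ n : ℕ in atTop, 0 < ∑ y : Om n, (ex n y : ℝ) := by
    have h1 : Tendsto (fun n : ℕ => mr 1 (eP n) / 4 ^ n) atTop (𝓝 (kap 1)) := by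
      refine (hC 1).congr fun n => ?_
      rw [show (3 / 2 - 3 / 2 * ((1 : ℕ) : ℝ) : ℝ) = 0 by norm_num, Real.rpow_zero, mul_one]
    have h2 : ∀ᶠ n : ℕ in atTop, 0 < mr 1 (eP n) / 4 ^ n :=
      h1.eventually (lt_mem_nhds (by rw [kap_one]; norm_num))
    have h3 := (tendsto_sub_atTop_nat 2).eventually h2
    filter_upwards [h3] with n hn
    have h4 : (0 : ℝ) < 4 ^ (n - 2) := by positivity
    have h5 := (div_pos_iff_of_pos_right h4).1 hn
    rw [mr_eq 1 n] at h5
    simpa only [pow_one] using h5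
  have hbd : ∀ᶠ n : ℕ in atTop, ((∑ y : Om n, (ex n y : ℝ) ^ (r + 1)) /
      (Fintype.card (Om n) : ℝ)) / ((∑ y : Om n, (ex n y : ℝ)) / (Fintype.card (Om n) : ℝ)) ^
        (r + 1) ≤ airyMoment (r + 1) + 1 :=
    ((hlim (r + 1)).eventually (gt_mem_nhds (lt_add_one _))).mono fun n h => h.le
  have hres := hA ν hν Om (fun n => inferInstance) (fun n x => (ex n x : ℝ))
    (fun n x => Nat.cast_nonneg _) hpos (fun x hx => hM x hx) r _ hbd
  exact ⟨hres.1, tendsto_nhds_unique hres.2 (hlim r)⟩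

end Pool.Agent.KCS
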