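import Pool.Agent.KCS.StM
import Mathlib.RingTheory.PowerSeries.Catalan
import Mathlib.RingTheory.PowerSeries.Derivative
import Mathlib.Analysis.Real.Pi.Wallis

/-!
# Project KCS (MP_f6626d_co): module CBA, central binomial coefficients and Catalan numbers
-/

set_option autoImplicit false

namespace Pool.Agent.KCS

open Finset Filter Topology

namespace CBA

/-! ### Formal identity -/

open PowerSeries in
theorem formal : (1 - 2 * PowerSeries.X - 2 * PowerSeries.X ^ 2 * cS) * yS = 1 := by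
  set c : PowerSeries ℝ := (catalanSeries).map (Nat.castRingHom ℝ) with hc
  have h1 : c ^ 2 * X + 1 = c := by
    have := congrArg (PowerSeries.map (Nat.castRingHom ℝ)) catalanSeries_sq_mul_X_add_one
    simpa using this
  have h2 : c = 1 + X * cS := by
    ext n
    cases n with
    | zero =>
      simp [hc]
    | succ n =>
      rw [map_add, PowerSeries.coeff_succ_X_mul, hc, PowerSeries.coeff_map, catalanSeries_coeff,
        PowerSeries.coeff_one, if_neg (by omega), cS, PowerSeries.coeff_mk]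
      simp
  obtain ⟨D, hD⟩ : ∃ D : PowerSeries ℝ, D = 1 - 2 * X - 2 * X ^ 2 * cS := ⟨_, rfl⟩
  rw [← hD]
  have h3 : D = 1 - 2 * X * c := by rw [h2, hD]; ring
  have h4 : D * D = 1 - 4 * X := by
    have : D * D = 1 - 4 * X * (c - c ^ 2 * X) := by rw [h3]; ring
    rw [this]
    have h5 : c - c ^ 2 * X = 1 := by
      rw [sub_eq_iff_eq_add, add_comm]
      exact h1.symm
    rw [h5, mul_one]
  have h5 : D * (d⁄dX ℝ D) = -2 := by
    have h := congrArg (d⁄dX ℝ) h4
    rw [Derivation.leibniz, map_sub, Derivation.leibniz] at h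
    have e1 : (d⁄dX ℝ) (1 : PowerSeries ℝ) = 0 := derivative_one
    have e2 : (d⁄dX ℝ) (4 : PowerSeries ℝ) = 0 := by
      have : (4 : PowerSeries ℝ) = C (4 : ℝ) := (map_ofNat (C (R := ℝ)) 4).symm
      rw [this, derivative_C]
    rw [e1, e2, derivative_X] at h
    simp only [smul_eq_mul, mul_one, mul_zero, add_zero, zero_sub] at h
    have h6 : (2 : PowerSeries ℝ) * (D * (d⁄dX ℝ D)) = 2 * (-2) := by
      linear_combination h
    have h7 : (2 : PowerSeries ℝ) ≠ 0 := by
      intro h0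
      have := congrArg (PowerSeries.constantCoeff (R := ℝ)) h0
      rw [map_ofNat, map_zero] at this
      norm_num at this
    exact mul_left_cancel₀ h7 h6
  have h6 : (1 - 4 * X) * (d⁄dX ℝ yS) = 2 * yS := by
    ext n
    have hd : ∀ m : ℕ, PowerSeries.coeff m (d⁄dX ℝ yS) = ((m + 1).centralBinom : ℝ) * (m + 1) := by
      intro m
      rw [coeff_derivative, yS, PowerSeries.coeff_mk]
    have hs : ∀ m : ℕ, ((m : ℝ) + 1) * ((m + 1).centralBinom : ℝ) =
        2 * (2 * m + 1) * (m.centralBinom : ℝ) := by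
      intro m
      exact_mod_cast Nat.succ_mul_centralBinom_succ m
    have e2 : (2 : PowerSeries ℝ) = C (2 : ℝ) := (map_ofNat (C (R := ℝ)) 2).symm
    have e4 : (4 : PowerSeries ℝ) = C (4 : ℝ) := (map_ofNat (C (R := ℝ)) 4).symm
    rw [sub_mul, one_mul, map_sub, e2, PowerSeries.coeff_C_mul, e4, mul_assoc,
      PowerSeries.coeff_C_mul, hd]
    have hy : PowerSeries.coeff n yS = (n.centralBinom : ℝ) := by rw [yS, PowerSeries.coeff_mk]
    rw [hy]
    cases n with
    | zero =>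
      have := hs 0
      simp only [CharP.cast_eq_zero, zero_add, mul_zero] at this ⊢
      simp at this ⊢
      linarith
    | succ n =>
      rw [PowerSeries.coeff_succ_X_mul, hd]
      have := hs (n + 1)
      push_cast at this ⊢
      linear_combination this
  have h7 : D * (d⁄dX ℝ (D * yS)) = 0 := by
    rw [Derivation.leibniz]
    simp only [smul_eq_mul]
    calc D * (D * (d⁄dX ℝ) yS + yS * (d⁄dX ℝ) D)
        = D * D * (d⁄dX ℝ) yS + (D * (d⁄dX ℝ) D) * yS := by ring
      _ = 0 := by rw [h4, h5, h6]; ring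
  have hD0 : D ≠ 0 := by
    intro h0
    rw [h0, zero_mul] at h5
    have h9 := congrArg (PowerSeries.constantCoeff (R := ℝ)) h5
    rw [map_neg, map_ofNat, map_zero] at h9
    norm_num at h9
  have h8 : d⁄dX ℝ (D * yS) = 0 := (mul_eq_zero.1 h7).resolve_left hD0
  apply derivative.ext
  · rw [h8, derivative_one]
  · rw [h3]
    simp [yS]

/-! ### Asymptotics -/

/-- normalised central binomial coefficients -/
noncomputable def b (n : ℕ) : ℝ := (n.centralBinom : ℝ) / 4 ^ n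

theorem b_pos (n : ℕ) : 0 < b n := by
  unfold b
  have := Nat.centralBinom_pos n
  positivity

theorem b_sq (n : ℕ) : b n ^ 2 = 1 / (Real.Wallis.W n * (2 * n + 1)) := by
  have h1 : (n.centralBinom : ℝ) * (n.factorial : ℝ) * (n.factorial : ℝ) =
      ((2 * n).factorial : ℝ) := by
    have h := Nat.choose_mul_factorial_mul_factorial (show n ≤ 2 * n by omega)
    rw [show 2 * n - n = n by omega] at h
    rw [Nat.centralBinom_eq_two_mul_choose]
    exact_mod_cast h
  have h2 : (0 : ℝ) < n.factorial := by exact_mod_cast n.factorial_pos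
  have h3 : (0 : ℝ) < n.centralBinom := by exact_mod_cast n.centralBinom_pos
  rw [Real.Wallis.W_eq_factorial_ratio, ← h1]
  unfold b
  have h4 : (2 : ℝ) ^ (4 * n) = (4 ^ n) ^ 2 := by
    rw [← pow_mul, mul_comm n 2, pow_mul, pow_mul]
    norm_num
  rw [h4]
  have h5 : (0 : ℝ) < 4 ^ n := by positivity
  have h6 : (0 : ℝ) < 2 * (n : ℝ) + 1 := by positivity
  field_simp

theorem b_lim : Tendsto (fun n : ℕ => b n * Real.sqrt n) atTop (𝓝 (1 / Real.sqrt Real.pi)) := by
  have h1 : Tendsto (fun n : ℕ => (n : ℝ) / (2 * n + 1)) atTop (𝓝 (1 / 2)) := by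
    have h : Tendsto (fun n : ℕ => (2 + 1 / (n : ℝ))⁻¹) atTop (𝓝 ((2 + 0 : ℝ)⁻¹)) :=
      ((tendsto_const_nhds).add tendsto_one_div_atTop_nhds_zero_nat).inv₀ (by norm_num)
    rw [show ((2 + 0 : ℝ)⁻¹) = 1 / 2 by norm_num] at h
    refine h.congr' ?_
    filter_upwards [eventually_ge_atTop 1] with n hn
    have : (0 : ℝ) < n := by exact_mod_cast hn
    field_simp
  have h2 : Tendsto (fun n : ℕ => (n : ℝ) / (2 * n + 1) / Real.Wallis.W n) atTop
      (𝓝 (1 / 2 / (Real.pi / 2))) :=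
    h1.div Real.Wallis.tendsto_W_nhds_pi_div_two (by have := Real.pi_pos; positivity)
  have h3 := (Real.continuous_sqrt.tendsto _).comp h2
  have e : Real.sqrt (1 / 2 / (Real.pi / 2)) = 1 / Real.sqrt Real.pi := by
    rw [show (1 / 2 / (Real.pi / 2) : ℝ) = 1 / Real.pi by field_simp, Real.sqrt_div zero_le_one,
      Real.sqrt_one]
  rw [e] at h3
  refine h3.congr fun n => ?_
  simp only [Function.comp]
  have h4 : (n : ℝ) / (2 * n + 1) / Real.Wallis.W n = (b n) ^ 2 * n := by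
    rw [b_sq]
    have := Real.Wallis.W_pos n
    have h6 : (0 : ℝ) < 2 * (n : ℝ) + 1 := by positivity
    field_simp
  rw [h4, Real.sqrt_mul (by positivity), Real.sqrt_sq (b_pos n).le]

theorem b_succ (n : ℕ) : b (n + 1) * (2 * (n : ℝ) + 2) = b n * (2 * n + 1) := by
  have hs : ((n : ℝ) + 1) * ((n + 1).centralBinom : ℝ) =
      2 * (2 * n + 1) * (n.centralBinom : ℝ) := by
    exact_mod_cast Nat.succ_mul_centralBinom_succ n
  unfold b
  rw [pow_succ]
  have h5 : (0 : ℝ) < 4 ^ n := by positivity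
  field_simp
  linear_combination hs * 2

theorem cat_eq (n : ℕ) : (catalan (n + 1) : ℝ) / 4 ^ n = 4 * b (n + 1) / ((n : ℝ) + 2) := by
  have h : ((n : ℝ) + 1 + 1) * (catalan (n + 1) : ℝ) = ((n + 1).centralBinom : ℝ) := by
    exact_mod_cast succ_mul_catalan_eq_centralBinom (n + 1)
  unfold b
  rw [← h, pow_succ]
  have h5 : (0 : ℝ) < 4 ^ n := by positivity
  have h6 : (0 : ℝ) < (n : ℝ) + 2 := by positivity
  field_simp
  ring

theorem cat_tel (n : ℕ) : (catalan (n + 1) : ℝ) / 4 ^ n = 8 * (b (n + 1) - b (n + 2)) := by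
  rw [cat_eq]
  have h := b_succ (n + 1)
  push_cast at h
  have h6 : (0 : ℝ) < (n : ℝ) + 2 := by positivity
  rw [div_eq_iff h6.ne']
  linear_combination 4 * h

theorem b_zero_lim : Tendsto b atTop (𝓝 0) := by
  have h1 : Tendsto (fun n : ℕ => (Real.sqrt n)⁻¹) atTop (𝓝 0) :=
    tendsto_inv_atTop_zero.comp (Real.tendsto_sqrt_atTop.comp tendsto_natCast_atTop_atTop)
  have h2 := b_lim.mul h1
  rw [mul_zero] at h2
  refine h2.congr' ?_
  filter_upwards [eventually_ge_atTop 1] with n hn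
  have : (0 : ℝ) < Real.sqrt n := Real.sqrt_pos.2 (by exact_mod_cast hn)
  field_simp

theorem sum_cat : HasSum (fun n : ℕ => (catalan (n + 1) : ℝ) / 4 ^ n) 4 := by
  rw [hasSum_iff_tendsto_nat_of_nonneg (fun n => by positivity)]
  have h1 : ∀ n : ℕ, ∑ i ∈ range n, (catalan (i + 1) : ℝ) / 4 ^ i = 8 * (b 1 - b (n + 1)) := by
    intro n
    induction n with
    | zero => simp
    | succ n ih => rw [Finset.sum_range_succ, ih, cat_tel]; ring
  have h2 : b 1 = 1 / 2 := by
    unfold b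
    norm_num [Nat.centralBinom]
  have h3 : Tendsto (fun n : ℕ => 8 * (b 1 - b (n + 1))) atTop (𝓝 (8 * (b 1 - 0))) :=
    (tendsto_const_nhds.sub (b_zero_lim.comp (tendsto_add_atTop_nat 1))).const_mul 8
  rw [h2] at h3
  norm_num at h3
  refine h3.congr fun n => ?_
  rw [h1, h2]

theorem rpow_three_half (x : ℝ) (hx : 0 < x) : x ^ (3 / 2 : ℝ) = x * Real.sqrt x := by
  rw [show (3 / 2 : ℝ) = 1 + 1 / 2 by norm_num, Real.rpow_add hx, Real.rpow_one,
    Real.sqrt_eq_rpow]

theorem cat_lim : Tendsto (fun n : ℕ => (catalan (n + 1) : ℝ) / 4 ^ n * (n : ℝ) ^ (3 / 2 : ℝ)) atTop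
    (𝓝 (4 / Real.sqrt Real.pi)) := by
  have h1 := b_lim.comp (tendsto_add_atTop_nat 1)
  have h2 : Tendsto (fun n : ℕ => (n : ℝ) / (n + 2)) atTop (𝓝 1) := by
    have h : Tendsto (fun n : ℕ => (1 + 2 * (1 / (n : ℝ)))⁻¹) atTop (𝓝 ((1 + 2 * 0 : ℝ)⁻¹)) :=
      ((tendsto_const_nhds).add (tendsto_one_div_atTop_nhds_zero_nat.const_mul 2)).inv₀
        (by norm_num)
    rw [show ((1 + 2 * 0 : ℝ)⁻¹) = 1 by norm_num] at h
    refine h.congr' ?_
    filter_upwards [eventually_ge_atTop 1] with n hn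
    have : (0 : ℝ) < n := by exact_mod_cast hn
    field_simp
  have h3 : Tendsto (fun n : ℕ => Real.sqrt ((n : ℝ) / (n + 1))) atTop (𝓝 1) := by
    have h := (Real.continuous_sqrt.tendsto _).comp (tendsto_natCast_div_add_atTop (1 : ℝ))
    rw [Real.sqrt_one] at h
    exact h
  have h4 := ((h1.mul h2).mul h3).const_mul 4
  rw [show 4 * (1 / Real.sqrt Real.pi * 1 * 1) = 4 / Real.sqrt Real.pi by ring] at h4
  refine h4.congr' ?_
  filter_upwards [eventually_ge_atTop 1] with n hn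
  have hn0 : (0 : ℝ) < n := by exact_mod_cast hn
  simp only [Function.comp]
  rw [cat_eq, rpow_three_half _ hn0, Real.sqrt_div hn0.le]
  push_cast
  have h5 : 0 < Real.sqrt ((n : ℝ) + 1) := Real.sqrt_pos.2 (by positivity)
  have h6 : (0 : ℝ) < (n : ℝ) + 2 := by positivity
  field_simp

theorem cat_bound : ∃ C : ℝ, ∀ n : ℕ,
    |(catalan (n + 1) : ℝ) / 4 ^ n| ≤ C * ((n : ℝ) + 1) ^ (-(3 / 2) : ℝ) := by
  obtain ⟨B, hB⟩ := b_lim.bddAbove_range
  have hB' : ∀ n : ℕ, b n * Real.sqrt n ≤ B := fun n => hB ⟨n, rfl⟩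
  refine ⟨4 * B, fun n => ?_⟩
  have hn1 : (0 : ℝ) < (n : ℝ) + 1 := by positivity
  rw [abs_of_nonneg (by positivity), cat_eq, Real.rpow_neg hn1.le, rpow_three_half _ hn1]
  have h1 := hB' (n + 1)
  push_cast at h1
  have h2 : 0 < Real.sqrt ((n : ℝ) + 1) := Real.sqrt_pos.2 hn1
  have h3 : 0 < b (n + 1) := b_pos _
  rw [div_le_iff₀ (by positivity)]
  have h4 : b (n + 1) ≤ B * (Real.sqrt ((n : ℝ) + 1))⁻¹ := by
    rw [← div_eq_mul_inv, le_div_iff₀ h2]
    exact h1
  have hB0 : 0 ≤ B := le_trans (by positivity) h1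
  calc 4 * b (n + 1) ≤ 4 * (B * (Real.sqrt ((n : ℝ) + 1))⁻¹) := by linarith
    _ = 4 * B * (((n : ℝ) + 1) * Real.sqrt ((n : ℝ) + 1))⁻¹ * ((n : ℝ) + 1) := by
        field_simp
    _ ≤ 4 * B * (((n : ℝ) + 1) * Real.sqrt ((n : ℝ) + 1))⁻¹ * ((n : ℝ) + 2) := by
        refine mul_le_mul_of_nonneg_left (by linarith) (by positivity)

end CBA

open CBA in
/-- CBA -/
theorem cba : CBA_Stmt := by
  have hc : ∀ n : ℕ, PowerSeries.coeff n cS = (catalan (n + 1) : ℝ) := by
    intro n; rw [cS, PowerSeries.coeff_mk]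
  refine ⟨formal, ?_, ?_, ?_, ?_⟩
  · unfold Asy
    rw [Real.Gamma_one_half_eq]
    refine b_lim.congr fun n => ?_
    rw [yS, PowerSeries.coeff_mk, Real.sqrt_eq_rpow, show (1 - 1 / 2 : ℝ) = 1 / 2 by norm_num]
    rfl
  · unfold Asy
    refine cat_lim.congr fun n => ?_
    rw [hc, show (1 - -(1 / 2) : ℝ) = 3 / 2 by norm_num]
  · obtain ⟨C, hC⟩ := cat_bound
    exact ⟨C, fun n => by rw [hc]; exact hC n⟩
  · simp only [hc]
    exact sum_cat

end Pool.Agent.KCS
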