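import Pool.Agent.KCS.StM

/-!
# KCS_CRA: the moments of the closed staircase polynomials
-/

set_option autoImplicit false

namespace Pool.Agent.KCS

open Finset Filter Topology MeasureTheory Pool.Agent.Gap
open Pool.Agent.KCG (mr)

/-- the exponent -/
private noncomputable def al (r : ℕ) : ℝ := (3 * (r : ℝ) - 1) / 2

private lemma Asy.cast {β β' c c' : ℝ} {f g : PowerSeries ℝ} (h : Asy β c f) (hβ : β = β')
    (hc : c = c') (hf : f = g) : Asy β' c' g := by
  subst hβ hc hf
  exact h

private lemma Asy.add {β c d : ℝ} {f g : PowerSeries ℝ} (hf : Asy β c f) (hg : Asy β d g) :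
    Asy β (c + d) (f + g) := by
  unfold Asy at *
  refine (hf.add hg).congr fun n => ?_
  rw [map_add]
  ring

private lemma Asy.smul {β c : ℝ} {f : PowerSeries ℝ} (a : ℝ) (hf : Asy β c f) :
    Asy β (a * c) (a • f) := by
  unfold Asy at *
  refine (hf.const_mul a).congr fun n => ?_
  rw [PowerSeries.coeff_smul]
  ring

private lemma Asy.zero (β : ℝ) : Asy β 0 (0 : PowerSeries ℝ) := by
  unfold Asy
  simp

private lemma Asy.sum {ι : Type} (s : Finset ι) {β : ℝ} {c : ι → ℝ} {f : ι → PowerSeries ℝ}
    (h : ∀ i ∈ s, Asy β (c i) (f i)) : Asy β (∑ i ∈ s, c i) (∑ i ∈ s, f i) := by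
  classical
  induction s using Finset.induction_on with
  | empty => simpa using Asy.zero β
  | insert a s ha ih =>
    rw [sum_insert ha, sum_insert ha]
    exact (h a (mem_insert_self _ _)).add (ih fun i hi => h i (mem_insert_of_mem hi))

private lemma Asy.weak {β β' c : ℝ} {f : PowerSeries ℝ} (h : Asy β c f) (hβ : β < β') :
    Asy β' 0 f := by
  unfold Asy at *
  have h1 : Tendsto (fun n : ℕ => (n : ℝ) ^ (-(β' - β))) atTop (𝓝 0) :=
    (tendsto_rpow_neg_atTop (by linarith)).comp tendsto_natCast_atTop_atTop
  have h2 := h.mul h1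
  rw [mul_zero] at h2
  refine h2.congr' ?_
  filter_upwards [eventually_gt_atTop 0] with n hn
  have hn' : (0 : ℝ) < n := by exact_mod_cast hn
  rw [mul_assoc, ← Real.rpow_add hn']
  congr 2
  ring

private lemma Asy.X_mul {β c : ℝ} {f : PowerSeries ℝ} (h : Asy β c f) :
    Asy β (c / 4) (PowerSeries.X * f) := by
  unfold Asy at *
  rw [← tendsto_add_atTop_iff_nat 1]
  have h1 : Tendsto (fun n : ℕ => (((n : ℝ) + 1) / n) ^ (1 - β)) atTop (𝓝 1) := by
    have h2 : Tendsto (fun n : ℕ => ((n : ℝ) + 1) / n) atTop (𝓝 1) := by
      have h3 : Tendsto (fun n : ℕ => 1 + 1 / (n : ℝ)) atTop (𝓝 (1 + 0)) :=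
        tendsto_const_nhds.add tendsto_one_div_atTop_nhds_zero_nat
      rw [add_zero] at h3
      refine h3.congr' ?_
      filter_upwards [eventually_gt_atTop 0] with n hn
      have hn' : (0 : ℝ) < n := by exact_mod_cast hn
      field_simp
    have h4 := h2.rpow_const (p := 1 - β) (Or.inl one_ne_zero)
    rwa [Real.one_rpow] at h4
  have h5 := (h.div_const 4).mul h1
  rw [mul_one] at h5
  refine h5.congr' ?_
  filter_upwards [eventually_gt_atTop 0] with n hn
  have hn' : (0 : ℝ) < n := by exact_mod_cast hn
  rw [Real.div_rpow (by positivity) (by positivity)]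
  have h6 : (n : ℝ) ^ (1 - β) ≠ 0 := (Real.rpow_pos_of_pos hn' _).ne'
  rw [PowerSeries.coeff_succ_X_mul]
  push_cast
  rw [pow_succ]
  field_simp

private lemma Asy.MSl {β c : ℝ} {j : ℕ} (l : ℕ) (h : Asy β c (MS j 0)) :
    Asy (β + l) c (MS j l) := by
  unfold Asy at *
  refine h.congr' ?_
  filter_upwards [eventually_gt_atTop 0] with n hn
  have hn' : (0 : ℝ) < n := by exact_mod_cast hn
  simp only [MS, PowerSeries.coeff_mk, pow_zero, one_mul]
  have h1 : (n : ℝ) ^ (1 - β) = (n : ℝ) ^ l * (n : ℝ) ^ (1 - (β + l)) := by
    rw [← Real.rpow_natCast, ← Real.rpow_add hn']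
    congr 1
    ring
  rw [h1]
  ring

private lemma Gam_half : Real.Gamma (al 0) = -2 * Real.sqrt Real.pi := by
  have h1 := Real.Gamma_add_one (s := al 0) (by unfold al; norm_num)
  have h2 : al 0 + 1 = 1 / 2 := by unfold al; norm_num
  rw [h2, Real.Gamma_one_half_eq] at h1
  have h3 : al 0 = -(1 / 2) := by unfold al; norm_num
  rw [h3] at h1 ⊢
  linarith

private lemma Gam_ne (r : ℕ) : Real.Gamma (al r) ≠ 0 := by
  rcases Nat.eq_zero_or_pos r with rfl | hr
  · rw [Gam_half]
    have := Real.sqrt_pos.mpr Real.pi_pos
    nlinarith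
  · apply (Real.Gamma_pos_of_pos _).ne'
    unfold al
    have : (1 : ℝ) ≤ r := by exact_mod_cast hr
    linarith

private lemma al_pos {r : ℕ} (hr : 0 < r) : 0 < al r := by
  unfold al
  have : (1 : ℝ) ≤ r := by exact_mod_cast hr
  linarith

private lemma kap_mul (r : ℕ) : kap r * Real.Gamma (al r) = 8 * (1 / 2) ^ r * airyOm r := by
  unfold kap
  have := Gam_ne r
  unfold al at *
  field_simp

private lemma al_lt {i j : ℕ} (h : i < j) : al i < al j := by
  unfold al
  have : (i : ℝ) < j := by exact_mod_cast h
  linarith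

/-- the limits of `US j` and `VS j` -/
private lemma asy_US {r : ℕ} (ih : ∀ j < r, Asy (al j) (kap j) (MS j 0)) {j : ℕ} (hj : j < r) :
    Asy (al j) (kap j) (US j) := by
  unfold US
  have h1 : ∀ i ∈ range (j + 1), Asy (al j) (if i = j then kap j else 0)
      (((j.choose i : ℝ) * 6 ^ (j - i)) • MS i 0) := by
    intro i hi
    rw [mem_range] at hi
    rcases Nat.lt_or_ge i j with h | h
    · rw [if_neg h.ne]
      exact (((ih i (h.trans hj)).weak (al_lt h)).smul _).cast rfl (mul_zero _) rfl
    · have : i = j := by omega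
      subst this
      rw [if_pos rfl]
      refine ((ih i hj).smul _).cast rfl ?_ rfl
      simp
  refine (Asy.sum _ h1).cast rfl ?_ rfl
  rw [sum_ite_eq', if_pos (by simp)]

private lemma asy_VS {r : ℕ} (ih : ∀ j < r, Asy (al j) (kap j) (MS j 0)) {m : ℕ} (hm : m < r) :
    Asy (al m) (kap m) (VS m) := by
  unfold VS
  have h1 : ∀ l ∈ range (m + 1), Asy (al m) (if l = 0 then kap m else 0)
      (((m.choose l : ℝ) * 2 ^ l) • MS (m - l) l) := by
    intro l hl
    rw [mem_range] at hl
    have h2 := (ih (m - l) (by omega)).MSl l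
    rcases Nat.eq_zero_or_pos l with rfl | h
    · rw [if_pos rfl]
      refine ((ih m hm).smul _).cast rfl ?_ rfl
      simp
    · rw [if_neg h.ne']
      refine ((h2.weak (β' := al m) ?_).smul _).cast rfl (mul_zero _) rfl
      unfold al
      rw [Nat.cast_sub (by omega)]
      have : (1 : ℝ) ≤ l := by exact_mod_cast h
      linarith
  refine (Asy.sum _ h1).cast rfl ?_ rfl
  rw [sum_ite_eq', if_pos (by simp)]

theorem t_CRA (hM : MRC_Stmt) (h1 : CV1_Stmt) (h2 : CV2_Stmt) (hB : CBA_Stmt) : CRA_Stmt := by
  obtain ⟨hM0, -, hMr⟩ := hM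
  obtain ⟨hB1, hB2, hB3, ⟨C, hB4⟩, hB5⟩ := hB
  have hcS : MS 0 0 = cS := by
    ext n
    simp only [MS, cS, PowerSeries.coeff_mk, pow_zero, one_mul, hM0]
  have key : ∀ r : ℕ, Asy (al r) (kap r) (MS r 0) := by
    intro r
    induction r using Nat.strong_induction_on with
    | _ r ih =>
      rcases Nat.eq_zero_or_pos r with rfl | hr
      · rw [hcS]
        refine hB3.cast ?_ ?_ rfl
        · unfold al; norm_num
        · have h3 := kap_mul 0
          rw [Gam_half] at h3
          have h4 : airyOm 0 = -1 := by simp [airyOm]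
          rw [h4] at h3
          have h5 : 0 < Real.sqrt Real.pi := Real.sqrt_pos.mpr Real.pi_pos
          rw [div_eq_iff h5.ne']
          linarith
      · obtain ⟨k, rfl⟩ : ∃ k, r = k + 1 := ⟨r - 1, by omega⟩
        obtain ⟨β, hβ⟩ : ∃ β : ℝ, β = al k + 1 := ⟨_, rfl⟩
        have hβ' : β = (3 * (k : ℝ) + 1) / 2 := by rw [hβ]; unfold al; ring
        have hβ0 : 0 < β := by rw [hβ']; positivity
        have hlow : ∀ j < k + 1, Asy β 0 (MS j 0) := by
          intro j hj
          refine (ih j hj).weak ?_
          rw [hβ]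
          unfold al
          have : (j : ℝ) ≤ k := by exact_mod_cast Nat.lt_succ_iff.mp hj
          linarith
        -- (a)
        have ha : Asy β 0 (∑ j ∈ range (k + 1), (((k + 1).choose j : ℝ) * 2 ^ (k + 1 - j)) •
            MS j 0) := by
          refine (Asy.sum _ (c := fun _ => 0) fun j hj => ?_).cast rfl sum_const_zero rfl
          exact ((hlow j (mem_range.mp hj)).smul _).cast rfl (mul_zero _) rfl
        have hb : Asy β 0 (∑ i ∈ range (k + 1), (((k + 1).choose i : ℝ) * 6 ^ (k + 1 - i)) •
            MS i 0) := by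
          refine (Asy.sum _ (c := fun _ => 0) fun j hj => ?_).cast rfl sum_const_zero rfl
          exact ((hlow j (mem_range.mp hj)).smul _).cast rfl (mul_zero _) rfl
        have hc : Asy β (((k : ℝ) + 1) * 2 * kap k) (∑ l ∈ range (k + 1),
            (((k + 1).choose (l + 1) : ℝ) * 2 ^ (l + 1)) • MS (k + 1 - 1 - l) (l + 1)) := by
          have h3 : ∀ l ∈ range (k + 1), Asy β (if l = 0 then ((k : ℝ) + 1) * 2 * kap k else 0)
              ((((k + 1).choose (l + 1) : ℝ) * 2 ^ (l + 1)) • MS (k + 1 - 1 - l) (l + 1)) := by
            intro l hl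
            rw [mem_range] at hl
            have h4 := (ih (k - l) (by omega)).MSl (l + 1)
            rcases Nat.eq_zero_or_pos l with rfl | h
            · rw [if_pos rfl]
              refine (h4.smul _).cast ?_ ?_ rfl
              · rw [hβ]; simp
              · simp
            · rw [if_neg h.ne']
              refine ((h4.weak (β' := β) ?_).smul _).cast rfl (mul_zero _) rfl
              rw [hβ]
              unfold al
              rw [Nat.cast_sub (by omega)]
              have : (1 : ℝ) ≤ l := by exact_mod_cast h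
              push_cast
              linarith
          refine (Asy.sum _ h3).cast rfl ?_ rfl
          rw [sum_ite_eq', if_pos (by simp)]
        have hd : Asy β (∑ j ∈ Ico 1 (k + 1), ((k + 1).choose j : ℝ) *
              (kap j * kap (k + 1 - j) * (Real.Gamma (al j) * Real.Gamma (al (k + 1 - j)) /
                Real.Gamma β)))
            (∑ j ∈ Ico 1 (k + 1), ((k + 1).choose j : ℝ) • (US j * VS (k + 1 - j))) := by
          refine Asy.sum _ fun j hj => ?_
          rw [mem_Ico] at hj
          refine Asy.smul _ ?_
          have h3 := h1 _ _ _ _ _ _ (al_pos (r := j) (by omega))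
            (al_pos (r := k + 1 - j) (by omega)) (asy_US ih (j := j) (by omega))
            (asy_VS ih (m := k + 1 - j) (by omega))
          have h4 : al j + al (k + 1 - j) = β := by
            rw [hβ]
            unfold al
            rw [Nat.cast_sub (by omega)]
            push_cast
            ring
          rw [h4] at h3
          exact h3
        have hb' := h2 β 0 4 C cS _ hβ0 hB4 hB5 hb
        have hc' := h2 β _ 4 C cS _ hβ0 hB4 hB5 hc
        have hR := hMr (k + 1) (by omega)
        have hRS : MS (k + 1) 0 = yS * RS (k + 1) := by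
          rw [← hR, hcS, ← mul_assoc, mul_comm yS, hB1, one_mul]
        obtain ⟨ρ, hρ⟩ : ∃ ρ : ℝ, ρ = 1 / 16 * (8 * ((k : ℝ) + 1) * kap k +
            ∑ j ∈ Ico 1 (k + 1), ((k + 1).choose j : ℝ) *
              (kap j * kap (k + 1 - j) * (Real.Gamma (al j) * Real.Gamma (al (k + 1 - j)) /
                Real.Gamma β))) := ⟨_, rfl⟩
        have hRSa : Asy β ρ (RS (k + 1)) := by
          have h5 := ((ha.smul 2).X_mul).add (((hb'.add hc').add hd).X_mul.X_mul)
          refine h5.cast rfl ?_ ?_
          · rw [hρ]
            ring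
          · unfold RS
            rw [hcS, two_smul]
            ring
        have hfin := h1 _ _ _ _ _ _ (by norm_num : (0 : ℝ) < 1 / 2) hβ0 hB2 hRSa
        rw [hRS]
        refine hfin.cast ?_ ?_ rfl
        · rw [hβ]; unfold al; push_cast; ring
        · have hg1 : Real.Gamma (1 / 2) ≠ 0 := by
            rw [Real.Gamma_one_half_eq]
            exact (Real.sqrt_pos.mpr Real.pi_pos).ne'
          have hg2 : Real.Gamma β ≠ 0 := (Real.Gamma_pos_of_pos hβ0).ne'
          have hg3 := Gam_ne (k + 1)
          have hal : (1 : ℝ) / 2 + β = al (k + 1) := by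
            rw [hβ]; unfold al; push_cast; ring
          rw [hal]
          have hk := kap_mul (k + 1)
          have hgβ : Real.Gamma β = al k * Real.Gamma (al k) := by
            rw [hβ]
            apply Real.Gamma_add_one
            unfold al
            intro h0
            have h6 : (3 * (k : ℝ) - 1) = 0 := by linarith
            have h7 : 3 * k = 1 := by
              have : (3 * (k : ℝ)) = 1 := by linarith
              exact_mod_cast this
            omega
          have h8 : ρ * Real.Gamma β = 8 * (1 / 2) ^ (k + 1) * airyOm (k + 1) := by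
            rw [hρ]
            have h9 : ∀ j ∈ Ico 1 (k + 1), ((k + 1).choose j : ℝ) *
              (kap j * kap (k + 1 - j) * (Real.Gamma (al j) * Real.Gamma (al (k + 1 - j)) /
                Real.Gamma β)) = 64 * (1 / 2) ^ (k + 1) * (((k + 1).choose j : ℝ) * airyOm j *
                  airyOm (k + 1 - j)) / Real.Gamma β := by
              intro j hj
              rw [mem_Ico] at hj
              have h10 : kap j * kap (k + 1 - j) * (Real.Gamma (al j) *
                  Real.Gamma (al (k + 1 - j)) / Real.Gamma β) = (kap j * Real.Gamma (al j)) *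
                    (kap (k + 1 - j) * Real.Gamma (al (k + 1 - j))) / Real.Gamma β := by ring
              rw [h10, kap_mul, kap_mul]
              have h11 : ((1 : ℝ) / 2) ^ (k + 1) = (1 / 2) ^ j * (1 / 2) ^ (k + 1 - j) := by
                rw [← pow_add]
                congr 1
                omega
              rw [h11]
              ring
            rw [sum_congr rfl h9, ← sum_div, ← mul_sum]
            have h12 : kap k * Real.Gamma β = al k * (8 * (1 / 2) ^ k * airyOm k) := by
              rw [hgβ, ← kap_mul]
              ring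
            have h13 : ∑ j ∈ Ico 1 (k + 1), ((k + 1).choose j : ℝ) * airyOm j *
                airyOm (k + 1 - j) = ∑ j : Fin k, ((k + 1).choose (j.1 + 1) : ℝ) *
                  airyOm (j.1 + 1) * airyOm (k - j.1) := by
              rw [Fin.sum_univ_eq_sum_range (fun j => ((k + 1).choose (j + 1) : ℝ) *
                  airyOm (j + 1) * airyOm (k - j)) k, sum_Ico_eq_sum_range]
              refine sum_congr (by simp) fun j hj => ?_
              have h14 : k + 1 - (1 + j) = k - j := by omega
              rw [h14, add_comm 1 j]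
            have h15 : airyOm (k + 1) = ((3 * (k : ℝ) - 1) * ((k : ℝ) + 1) * airyOm k +
                ∑ j : Fin k, ((k + 1).choose (j.1 + 1) : ℝ) * airyOm (j.1 + 1) *
                  airyOm (k - j.1)) / 2 := by
              rw [airyOm]
            rw [h13]
            have h16 : 1 / 16 * (8 * ((k : ℝ) + 1) * kap k + 64 * (1 / 2) ^ (k + 1) *
                (∑ j : Fin k, ((k + 1).choose (j.1 + 1) : ℝ) * airyOm (j.1 + 1) *
                  airyOm (k - j.1)) / Real.Gamma β) * Real.Gamma β =
                1 / 2 * ((k : ℝ) + 1) * (kap k * Real.Gamma β) + 4 * (1 / 2) ^ (k + 1) *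
                (∑ j : Fin k, ((k + 1).choose (j.1 + 1) : ℝ) * airyOm (j.1 + 1) *
                  airyOm (k - j.1)) := by
              field_simp
              ring
            rw [h16, h12, h15, pow_succ]
            unfold al
            ring
          have h17 : 1 / Real.Gamma (1 / 2) * ρ * (Real.Gamma (1 / 2) * Real.Gamma β /
              Real.Gamma (al (k + 1))) = ρ * Real.Gamma β / Real.Gamma (al (k + 1)) := by
            field_simp
          rw [h17, h8, ← hk]
          field_simp
  intro r
  have h3 := key r
  unfold Asy at h3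
  refine h3.congr fun n => ?_
  simp only [MS, PowerSeries.coeff_mk, pow_zero, one_mul]
  congr 2
  unfold al
  ring

end Pool.Agent.KCS
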