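import Pool.Agent.KCS.StM
import Mathlib.Analysis.SpecialFunctions.Gamma.Beta

/-!
# KCS_CV1: convolution of two sequences of regular growth (MP_f6626d_co, by helper30)

The sequences `c α n = α (α + 1) ... (α + n - 1) / n!` satisfy `c α * c β = c (α + β)` (convolution)
and `c α n ~ n ^ (α - 1) / Γ(α)`; the general case follows by a weighted mean of null sequences.
-/

set_option autoImplicit false

namespace Pool.Agent.KCS

open Finset Filter Topology

namespace CV1

/-- the coefficients of `(1 - z) ^ (-α)` -/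
noncomputable def c (α : ℝ) (n : ℕ) : ℝ := ∏ i ∈ range n, (α + i) / (i + 1)

lemma c_succ (α : ℝ) (n : ℕ) : c α (n + 1) = c α n * ((α + n) / (n + 1)) := prod_range_succ _ _

lemma c_zero (α : ℝ) : c α 0 = 1 := prod_range_zero _

lemma c_pos {α : ℝ} (hα : 0 < α) (n : ℕ) : 0 < c α n := prod_pos fun i _ => by positivity

lemma c_rec (α : ℝ) (n : ℕ) : ((n : ℝ) + 1) * c α (n + 1) = (α + n) * c α n := by
  have h : (n : ℝ) + 1 ≠ 0 := by positivity
  rw [c_succ]
  field_simp

/-- Vandermonde's identity -/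
lemma c_conv (α β : ℝ) (n : ℕ) : ∑ p ∈ antidiagonal n, c α p.1 * c β p.2 = c (α + β) n := by
  induction n with
  | zero => simp [c_zero]
  | succ n ih =>
    have h0 : (n : ℝ) + 1 ≠ 0 := by positivity
    have h1 : ((n : ℝ) + 1) * ∑ p ∈ antidiagonal (n + 1), c α p.1 * c β p.2 =
        (∑ p ∈ antidiagonal (n + 1), (p.1 : ℝ) * (c α p.1 * c β p.2)) +
        ∑ p ∈ antidiagonal (n + 1), (p.2 : ℝ) * (c α p.1 * c β p.2) := by
      rw [mul_sum, ← sum_add_distrib]
      refine sum_congr rfl fun p hp => ?_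
      have h2 : ((p.1 : ℝ) + p.2) = n + 1 := by
        have := mem_antidiagonal.1 hp
        exact_mod_cast this
      rw [← h2]
      ring
    have h3 : ∑ p ∈ antidiagonal (n + 1), (p.1 : ℝ) * (c α p.1 * c β p.2) =
        ∑ p ∈ antidiagonal n, (α + p.1) * (c α p.1 * c β p.2) := by
      rw [Finset.Nat.sum_antidiagonal_succ]
      simp only [Nat.cast_zero, zero_mul, zero_add]
      refine sum_congr rfl fun p _ => ?_
      have := c_rec α p.1
      push_cast
      linear_combination c β p.2 * this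
    have h4 : ∑ p ∈ antidiagonal (n + 1), (p.2 : ℝ) * (c α p.1 * c β p.2) =
        ∑ p ∈ antidiagonal n, (β + p.2) * (c α p.1 * c β p.2) := by
      rw [Finset.Nat.sum_antidiagonal_succ']
      simp only [Nat.cast_zero, zero_mul, zero_add]
      refine sum_congr rfl fun p _ => ?_
      have := c_rec β p.2
      push_cast
      linear_combination c α p.1 * this
    have h5 : ((n : ℝ) + 1) * ∑ p ∈ antidiagonal (n + 1), c α p.1 * c β p.2 =
        ((n : ℝ) + 1) * c (α + β) (n + 1) := by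
      rw [h1, h3, h4, ← sum_add_distrib, c_rec, ← ih, mul_sum]
      refine sum_congr rfl fun p hp => ?_
      have h2 : ((p.1 : ℝ) + p.2) = n := by
        have := mem_antidiagonal.1 hp
        exact_mod_cast this
      rw [← h2]
      ring
    exact mul_left_cancel₀ h0 h5

lemma c_gamma {α : ℝ} (hα : 0 < α) (n : ℕ) (hn : 1 ≤ n) :
    c α n * (n : ℝ) ^ (1 - α) = (Real.GammaSeq α n)⁻¹ * ((n : ℝ) / (n + α)) := by
  have hn0 : (0 : ℝ) < n := by exact_mod_cast hn
  have h1 : c α n = (∏ j ∈ range n, (α + j)) / (n.factorial : ℝ) := by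
    unfold c
    rw [prod_div_distrib, ← prod_range_add_one_eq_factorial]
    push_cast
    rfl
  have h2 : (0 : ℝ) < ∏ j ∈ range n, (α + (j : ℝ)) := prod_pos fun i _ => by positivity
  have h3 : (0 : ℝ) < (n.factorial : ℝ) := by exact_mod_cast n.factorial_pos
  have h4 : (0 : ℝ) < (n : ℝ) ^ α := Real.rpow_pos_of_pos hn0 _
  have h5 : (0 : ℝ) < n + α := by positivity
  rw [h1, Real.GammaSeq, prod_range_succ, Real.rpow_sub hn0, Real.rpow_one]
  have h6 : (α + (n : ℝ)) = n + α := add_comm _ _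
  rw [h6]
  field_simp

lemma c_asy {α : ℝ} (hα : 0 < α) :
    Tendsto (fun n : ℕ => c α n * (n : ℝ) ^ (1 - α)) atTop (𝓝 (Real.Gamma α)⁻¹) := by
  have hG : Real.Gamma α ≠ 0 := (Real.Gamma_pos_of_pos hα).ne'
  have h1 := (Real.GammaSeq_tendsto_Gamma α).inv₀ hG
  have h2 : Tendsto (fun n : ℕ => (n : ℝ) / (n + α)) atTop (𝓝 1) :=
    tendsto_natCast_div_add_atTop α
  have h3 := h1.mul h2
  rw [mul_one] at h3
  refine h3.congr' ?_
  filter_upwards [eventually_ge_atTop 1] with n hn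
  rw [c_gamma hα n hn]

lemma to_ratio {α : ℝ} (hα : 0 < α) {x : ℕ → ℝ} {a : ℝ}
    (hx : Tendsto (fun n : ℕ => x n * (n : ℝ) ^ (1 - α)) atTop (𝓝 a)) :
    Tendsto (fun n : ℕ => x n / c α n) atTop (𝓝 (a * Real.Gamma α)) := by
  have hG : Real.Gamma α ≠ 0 := (Real.Gamma_pos_of_pos hα).ne'
  have h1 := hx.div (c_asy hα) (inv_ne_zero hG)
  rw [div_inv_eq_mul] at h1
  refine h1.congr' ?_
  filter_upwards [eventually_ge_atTop 1] with n hn
  have hn0 : (0 : ℝ) < n := by exact_mod_cast hn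
  have h4 : (n : ℝ) ^ (1 - α) ≠ 0 := (Real.rpow_pos_of_pos hn0 _).ne'
  exact mul_div_mul_right _ _ h4

lemma of_ratio {α : ℝ} (hα : 0 < α) {x : ℕ → ℝ} {a : ℝ}
    (hx : Tendsto (fun n : ℕ => x n / c α n) atTop (𝓝 a)) :
    Tendsto (fun n : ℕ => x n * (n : ℝ) ^ (1 - α)) atTop (𝓝 (a * (Real.Gamma α)⁻¹)) := by
  refine (hx.mul (c_asy hα)).congr fun n => ?_
  have := (c_pos hα n).ne'
  field_simp

lemma c_shift {β : ℝ} (hβ : 0 < β) (m : ℕ) :
    Tendsto (fun n : ℕ => c β n / c β (n + m)) atTop (𝓝 1) := by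
  induction m with
  | zero =>
    refine tendsto_const_nhds.congr fun n => ?_
    rw [add_zero, div_self (c_pos hβ n).ne']
  | succ m ih =>
    have h1 : Tendsto (fun n : ℕ => ((n : ℝ) + 1) / (n + β)) atTop (𝓝 1) := by
      have h2 : Tendsto (fun n : ℕ => (n : ℝ) / (n + β)) atTop (𝓝 1) :=
        tendsto_natCast_div_add_atTop β
      have h3 : Tendsto (fun n : ℕ => (1 : ℝ) / ((n : ℝ) + β)) atTop (𝓝 0) := by
        have h4 : Tendsto (fun n : ℕ => (n : ℝ) + β) atTop atTop :=
          tendsto_atTop_add_const_right _ _ tendsto_natCast_atTop_atTop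
        exact tendsto_const_nhds.div_atTop h4
      have h5 := h2.add h3
      rw [add_zero] at h5
      refine h5.congr fun n => ?_
      rw [← add_div]
    have h6 := ih.mul (h1.comp (tendsto_add_atTop_nat m))
    rw [one_mul] at h6
    refine h6.congr fun n => ?_
    have h7 := c_rec β (n + m)
    have h8 := (c_pos hβ (n + m)).ne'
    have h9 := (c_pos hβ (n + (m + 1))).ne'
    have h10 : c β (n + (m + 1)) = c β (n + m + 1) := rfl
    have h11 : (((n + m : ℕ) : ℝ) + β) ≠ 0 := by positivity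
    simp only [Function.comp_apply]
    rw [h10] at h9 ⊢
    rw [div_mul_div_comm, div_eq_div_iff (mul_ne_zero h8 h11) h9]
    linear_combination c β n * h7

lemma c_null {α β : ℝ} (hα : 0 < α) (hβ : 0 < β) :
    Tendsto (fun n : ℕ => c β n / c (α + β) n) atTop (𝓝 0) := by
  have hs : 0 < α + β := by positivity
  have h1 : Tendsto (fun n : ℕ => c β n * (n : ℝ) ^ (1 - (α + β))) atTop (𝓝 0) := by
    have h2 : Tendsto (fun n : ℕ => (n : ℝ) ^ (-α)) atTop (𝓝 0) :=
      (tendsto_rpow_neg_atTop hα).comp tendsto_natCast_atTop_atTop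
    have h3 := (c_asy hβ).mul h2
    rw [mul_zero] at h3
    refine h3.congr' ?_
    filter_upwards [eventually_ge_atTop 1] with n hn
    have hn0 : (0 : ℝ) < n := by exact_mod_cast hn
    rw [mul_assoc, ← Real.rpow_add hn0]
    congr 2
    ring
  have h4 := to_ratio hs h1
  rwa [zero_mul] at h4

lemma w_null {α β : ℝ} (hα : 0 < α) (hβ : 0 < β) (m : ℕ) :
    Tendsto (fun n : ℕ => c β (n - m) / c (α + β) n) atTop (𝓝 0) := by
  rw [← tendsto_add_atTop_iff_nat m]
  have h1 := (c_shift hβ m).mul ((c_null hα hβ).comp (tendsto_add_atTop_nat m))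
  rw [mul_zero] at h1
  refine h1.congr fun n => ?_
  have h2 := (c_pos hβ (n + m)).ne'
  simp only [Function.comp_apply, Nat.add_sub_cancel]
  rw [div_mul_div_cancel₀ h2]

/-- weighted means of null sequences -/
lemma mean_null {α β : ℝ} (hα : 0 < α) (hβ : 0 < β) (d : ℕ → ℝ) (hd0 : ∀ n, 0 ≤ d n)
    (hd : Tendsto d atTop (𝓝 0)) :
    Tendsto (fun n : ℕ => (∑ p ∈ antidiagonal n, c α p.1 * c β p.2 * d p.1) / c (α + β) n) atTop
      (𝓝 0) := by
  have hs : 0 < α + β := by positivity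
  obtain ⟨K, hK⟩ := (Metric.isBounded_range_of_tendsto d hd).exists_norm_le
  have hK' : ∀ n, d n ≤ K := fun n => (le_abs_self _).trans (hK _ ⟨n, rfl⟩)
  have hK0 : 0 ≤ K := (hd0 0).trans (hK' 0)
  rw [Metric.tendsto_atTop] at hd ⊢
  intro ε hε
  obtain ⟨M, hM⟩ := hd (ε / 2) (by positivity)
  have h1 : Tendsto (fun n : ℕ => ∑ m ∈ range M, K * c α m * (c β (n - m) / c (α + β) n)) atTop
      (𝓝 0) := by
    have h2 : Tendsto (fun n : ℕ => ∑ m ∈ range M, K * c α m * (c β (n - m) / c (α + β) n)) atTop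
        (𝓝 (∑ m ∈ range M, K * c α m * 0)) :=
      tendsto_finsetSum _ fun m _ => (w_null hα hβ m).const_mul _
    simpa using h2
  rw [Metric.tendsto_atTop] at h1
  obtain ⟨N, hN⟩ := h1 (ε / 2) (by positivity)
  refine ⟨N, fun n hn => ?_⟩
  have h3 := hN n hn
  have hc := c_pos hs n
  rw [Real.dist_eq, sub_zero] at h3 ⊢
  have h4 : ∑ p ∈ antidiagonal n, c α p.1 * c β p.2 * d p.1 ≤
      (∑ m ∈ range M, K * c α m * c β (n - m)) + ε / 2 * c (α + β) n := by
    have h5 : ∀ p ∈ antidiagonal n, c α p.1 * c β p.2 * d p.1 ≤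
        (if p.1 < M then K * c α p.1 * c β p.2 else 0) + ε / 2 * (c α p.1 * c β p.2) := by
      intro p _
      have h6 : 0 < c α p.1 * c β p.2 := mul_pos (c_pos hα _) (c_pos hβ _)
      split_ifs with h7
      · have h8 := hK' p.1
        nlinarith
      · have h8 := hM p.1 (not_lt.1 h7)
        rw [Real.dist_eq, sub_zero, abs_of_nonneg (hd0 _)] at h8
        nlinarith
    refine (sum_le_sum h5).trans ?_
    rw [sum_add_distrib, ← mul_sum, c_conv]
    refine add_le_add ?_ le_rfl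
    rw [Finset.Nat.sum_antidiagonal_eq_sum_range_succ
      (fun i j => if i < M then K * c α i * c β j else 0) n, ← sum_filter]
    refine sum_le_sum_of_subset_of_nonneg ?_ fun m _ _ => ?_
    · intro m hm
      rw [mem_filter] at hm
      exact mem_range.2 hm.2
    · exact mul_nonneg (mul_nonneg hK0 (c_pos hα _).le) (c_pos hβ _).le
  have h9 : 0 ≤ ∑ p ∈ antidiagonal n, c α p.1 * c β p.2 * d p.1 :=
    sum_nonneg fun p _ => mul_nonneg (mul_nonneg (c_pos hα _).le (c_pos hβ _).le) (hd0 _)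
  rw [abs_of_nonneg (div_nonneg h9 hc.le)]
  have h10 : (∑ m ∈ range M, K * c α m * c β (n - m)) / c (α + β) n < ε / 2 := by
    have h11 := (le_abs_self _).trans_lt h3
    have h12 : (∑ m ∈ range M, K * c α m * c β (n - m)) / c (α + β) n =
        ∑ m ∈ range M, K * c α m * (c β (n - m) / c (α + β) n) := by
      rw [sum_div]
      exact sum_congr rfl fun m _ => by ring
    rw [h12]
    exact h11
  calc (∑ p ∈ antidiagonal n, c α p.1 * c β p.2 * d p.1) / c (α + β) n ≤
      ((∑ m ∈ range M, K * c α m * c β (n - m)) + ε / 2 * c (α + β) n) / c (α + β) n :=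
        div_le_div_of_nonneg_right h4 hc.le
    _ = (∑ m ∈ range M, K * c α m * c β (n - m)) / c (α + β) n + ε / 2 := by
      rw [add_div, mul_div_assoc, div_self hc.ne', mul_one]
    _ < ε := by linarith

/-- the convolution of two sequences -/
lemma conv_ratio {α β : ℝ} (hα : 0 < α) (hβ : 0 < β) (x y : ℕ → ℝ) (A B : ℝ)
    (hx : Tendsto (fun n : ℕ => x n / c α n) atTop (𝓝 A))
    (hy : Tendsto (fun n : ℕ => y n / c β n) atTop (𝓝 B)) :
    Tendsto (fun n : ℕ => (∑ p ∈ antidiagonal n, x p.1 * y p.2) / c (α + β) n) atTop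
      (𝓝 (A * B)) := by
  have hs : 0 < α + β := by positivity
  obtain ⟨u, hu⟩ : ∃ u : ℕ → ℝ, u = fun n => x n / c α n := ⟨_, rfl⟩
  obtain ⟨v, hv⟩ : ∃ v : ℕ → ℝ, v = fun n => y n / c β n := ⟨_, rfl⟩
  rw [← hu] at hx
  rw [← hv] at hy
  have hxu : ∀ n, x n = c α n * u n := fun n => by
    rw [hu]
    have := (c_pos hα n).ne'
    field_simp
  have hyv : ∀ n, y n = c β n * v n := fun n => by
    rw [hv]
    have := (c_pos hβ n).ne'
    field_simp
  obtain ⟨K, hK⟩ := (Metric.isBounded_range_of_tendsto v hy).exists_norm_le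
  have hK' : ∀ n, |v n| ≤ K := fun n => hK _ ⟨n, rfl⟩
  have hd1 : Tendsto (fun n => |u n - A|) atTop (𝓝 0) := by
    have h1 := (hx.sub_const A).abs
    rwa [sub_self, abs_zero] at h1
  have hd2 : Tendsto (fun n => |v n - B|) atTop (𝓝 0) := by
    have h1 := (hy.sub_const B).abs
    rwa [sub_self, abs_zero] at h1
  have t1 := mean_null hα hβ _ (fun n => abs_nonneg _) hd1
  have t2 := mean_null hβ hα _ (fun n => abs_nonneg _) hd2
  have t3 := (t1.const_mul K).add (t2.const_mul |A|)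
  rw [mul_zero, mul_zero, add_zero] at t3
  rw [tendsto_iff_norm_sub_tendsto_zero]
  refine squeeze_zero (fun n => norm_nonneg _) (fun n => ?_) t3
  have hc := c_pos hs n
  have e1 : (∑ p ∈ antidiagonal n, c β p.1 * c α p.2 * |v p.1 - B|) =
      ∑ p ∈ antidiagonal n, c α p.1 * c β p.2 * |v p.2 - B| := by
    rw [← Finset.Nat.sum_antidiagonal_swap]
    refine sum_congr rfl fun p _ => ?_
    rw [Prod.fst_swap, Prod.snd_swap]
    ring
  have e2 : (∑ p ∈ antidiagonal n, x p.1 * y p.2) / c (α + β) n - A * B =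
      (∑ p ∈ antidiagonal n, c α p.1 * c β p.2 * ((u p.1 - A) * v p.2 + A * (v p.2 - B))) /
        c (α + β) n := by
    rw [div_sub' hc.ne', ← c_conv, sum_mul, ← sum_sub_distrib]
    congr 1
    refine sum_congr rfl fun p _ => ?_
    rw [hxu, hyv]
    ring
  have e3 : |∑ p ∈ antidiagonal n, c α p.1 * c β p.2 * ((u p.1 - A) * v p.2 + A * (v p.2 - B))| ≤
      K * (∑ p ∈ antidiagonal n, c α p.1 * c β p.2 * |u p.1 - A|) +
        |A| * ∑ p ∈ antidiagonal n, c α p.1 * c β p.2 * |v p.2 - B| := by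
    refine (abs_sum_le_sum_abs _ _).trans ?_
    rw [mul_sum, mul_sum, ← sum_add_distrib]
    refine sum_le_sum fun p _ => ?_
    have h6 : 0 < c α p.1 * c β p.2 := mul_pos (c_pos hα _) (c_pos hβ _)
    rw [abs_mul, abs_of_pos h6]
    have h7 : |(u p.1 - A) * v p.2 + A * (v p.2 - B)| ≤
        K * |u p.1 - A| + |A| * |v p.2 - B| := by
      refine (abs_add_le _ _).trans ?_
      rw [abs_mul, abs_mul, mul_comm K]
      exact add_le_add (mul_le_mul_of_nonneg_left (hK' _) (abs_nonneg _)) le_rfl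
    calc c α p.1 * c β p.2 * |(u p.1 - A) * v p.2 + A * (v p.2 - B)| ≤
        c α p.1 * c β p.2 * (K * |u p.1 - A| + |A| * |v p.2 - B|) :=
          mul_le_mul_of_nonneg_left h7 h6.le
      _ = _ := by ring
  rw [e2, Real.norm_eq_abs, abs_div, abs_of_pos hc, add_comm β α, e1]
  calc _ ≤ (K * (∑ p ∈ antidiagonal n, c α p.1 * c β p.2 * |u p.1 - A|) +
        |A| * ∑ p ∈ antidiagonal n, c α p.1 * c β p.2 * |v p.2 - B|) / c (α + β) n :=
        div_le_div_of_nonneg_right e3 hc.le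
    _ = _ := by ring

end CV1

/-- **Module KCS_CV1** -/
theorem cv1 : CV1_Stmt := by
  intro α β a b f g hα hβ hf hg
  have hs : 0 < α + β := by positivity
  have h1 := CV1.conv_ratio hα hβ (fun n => PowerSeries.coeff n f / 4 ^ n)
    (fun n => PowerSeries.coeff n g / 4 ^ n) _ _ (CV1.to_ratio hα hf) (CV1.to_ratio hβ hg)
  have h2 := CV1.of_ratio hs h1
  have h3 : a * Real.Gamma α * (b * Real.Gamma β) * (Real.Gamma (α + β))⁻¹ =
      a * b * (Real.Gamma α * Real.Gamma β / Real.Gamma (α + β)) := by ring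
  rw [h3] at h2
  refine h2.congr fun n => ?_
  congr 1
  rw [PowerSeries.coeff_mul, sum_div]
  refine sum_congr rfl fun p hp => ?_
  have h4 : (4 : ℝ) ^ n = 4 ^ p.1 * 4 ^ p.2 := by
    rw [← pow_add, mem_antidiagonal.1 hp]
  rw [h4]
  ring

end Pool.Agent.KCS
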