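import Pool.Agent.KCS.StM

/-!
# Project KCS (MP_f6626d_co): module CV2, convolution with a summable sequence
-/

set_option autoImplicit false

namespace Pool.Agent.KCS

open Finset Filter Topology

namespace CV2

theorem coeff_conv (f g : PowerSeries ℝ) (n : ℕ) : PowerSeries.coeff n (f * g) / 4 ^ n =
    ∑ m ∈ range (n + 1), (PowerSeries.coeff m f / 4 ^ m) *
      (PowerSeries.coeff (n - m) g / 4 ^ (n - m)) := by
  rw [PowerSeries.coeff_mul, Finset.Nat.sum_antidiagonal_eq_sum_range_succ_mk, Finset.sum_div]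
  refine Finset.sum_congr rfl fun m hm => ?_
  have hm' : m ≤ n := Nat.lt_succ_iff.1 (Finset.mem_range.1 hm)
  have h4 : (4 : ℝ) ^ n = 4 ^ m * 4 ^ (n - m) := by
    rw [← pow_add]; congr 1; omega
  simp only
  rw [h4]
  field_simp

theorem rpow_le (r p : ℝ) (h1 : 1 / 2 ≤ r) (h2 : r ≤ 2) : r ^ p ≤ 2 ^ |p| := by
  have hr : 0 < r := by linarith
  rcases le_or_gt 0 p with hp | hp
  · rw [abs_of_nonneg hp]
    exact Real.rpow_le_rpow hr.le h2 hp
  · rw [abs_of_neg hp]
    have h3 : r ^ p = (r⁻¹) ^ (-p) := by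
      rw [Real.inv_rpow hr.le, ← Real.rpow_neg hr.le, neg_neg]
    rw [h3]
    refine Real.rpow_le_rpow (by positivity) ?_ (by linarith)
    rw [inv_le_comm₀ hr (by norm_num)]
    linarith

/-- shift by one in the normalisation -/
theorem shift {y : ℕ → ℝ} {p b : ℝ} (h : Tendsto (fun n : ℕ => y n * (n : ℝ) ^ p) atTop (𝓝 b)) :
    Tendsto (fun n : ℕ => y n * ((n : ℝ) + 1) ^ p) atTop (𝓝 b) := by
  have h1 : Tendsto (fun n : ℕ => ((n : ℝ) / ((n : ℝ) + 1)) ^ (-p)) atTop (𝓝 (1 ^ (-p))) := by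
    refine (tendsto_natCast_div_add_atTop (1 : ℝ)).rpow_const (Or.inl one_ne_zero)
  rw [Real.one_rpow] at h1
  have h2 := h.mul h1
  rw [mul_one] at h2
  refine h2.congr' ?_
  filter_upwards [eventually_ge_atTop 1] with n hn
  have hn0 : (0 : ℝ) < n := by exact_mod_cast hn
  have hn1 : (0 : ℝ) < (n : ℝ) + 1 := by linarith
  rw [Real.div_rpow hn0.le hn1.le, Real.rpow_neg hn0.le, Real.rpow_neg hn1.le]
  have : (0 : ℝ) < (n : ℝ) ^ p := Real.rpow_pos_of_pos hn0 p
  have : (0 : ℝ) < ((n : ℝ) + 1) ^ p := Real.rpow_pos_of_pos hn1 p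
  field_simp

theorem log_small : Tendsto (fun n : ℕ => (1 + Real.log n) * (n : ℝ) ^ (-(1 / 2) : ℝ)) atTop
    (𝓝 0) := by
  have h1 : Tendsto (fun x : ℝ => Real.log x * x ^ (-(1 / 2) : ℝ)) atTop (𝓝 0) := by
    have h := isLittleO_log_rpow_atTop (show (0 : ℝ) < 1 / 2 by norm_num)
    have h' := h.tendsto_div_nhds_zero
    refine h'.congr' ?_
    filter_upwards [eventually_gt_atTop 0] with x hx
    rw [Real.rpow_neg hx.le, div_eq_mul_inv]
  have h2 : Tendsto (fun x : ℝ => x ^ (-(1 / 2) : ℝ)) atTop (𝓝 0) :=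
    tendsto_rpow_neg_atTop (by norm_num)
  have h3 := (h2.add h1).comp tendsto_natCast_atTop_atTop
  rw [add_zero] at h3
  refine h3.congr fun n => ?_
  simp only [Function.comp]
  ring

theorem sum_y {y : ℕ → ℝ} {β B : ℝ} (hβ : 0 < β) (hB : 0 ≤ B)
    (h : ∀ n : ℕ, |y n| * ((n : ℝ) + 1) ^ (1 - β) ≤ B) (n : ℕ) (hn : 1 ≤ n) :
    ∑ k ∈ range n, |y k| ≤ B * (n : ℝ) ^ β * (1 + Real.log n) := by
  have hn0 : (0 : ℝ) < n := by exact_mod_cast hn
  have h1 : ∀ k ∈ range n, |y k| ≤ B * (n : ℝ) ^ β * ((k : ℝ) + 1)⁻¹ := by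
    intro k hk
    have hk0 : (0 : ℝ) < (k : ℝ) + 1 := by positivity
    have hkn : (k : ℝ) + 1 ≤ n := by exact_mod_cast Finset.mem_range.1 hk
    have e : ((k : ℝ) + 1) ^ (1 - β) = ((k : ℝ) + 1) / ((k : ℝ) + 1) ^ β := by
      rw [Real.rpow_sub hk0, Real.rpow_one]
    have hp : (0 : ℝ) < ((k : ℝ) + 1) ^ β := Real.rpow_pos_of_pos hk0 β
    have h2 := h k
    rw [e] at h2
    have h3 : |y k| ≤ B * (((k : ℝ) + 1) ^ β * ((k : ℝ) + 1)⁻¹) := by
      have : |y k| = |y k| * (((k : ℝ) + 1) / ((k : ℝ) + 1) ^ β) *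
          (((k : ℝ) + 1) ^ β * ((k : ℝ) + 1)⁻¹) := by field_simp
      rw [this]
      exact mul_le_mul_of_nonneg_right h2 (by positivity)
    have h4 : ((k : ℝ) + 1) ^ β ≤ (n : ℝ) ^ β := Real.rpow_le_rpow hk0.le hkn hβ.le
    calc |y k| ≤ B * (((k : ℝ) + 1) ^ β * ((k : ℝ) + 1)⁻¹) := h3
      _ ≤ B * ((n : ℝ) ^ β * ((k : ℝ) + 1)⁻¹) := by
          refine mul_le_mul_of_nonneg_left (mul_le_mul_of_nonneg_right h4 (by positivity)) hB
      _ = _ := by ring
  refine (Finset.sum_le_sum h1).trans ?_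
  rw [← Finset.mul_sum]
  refine mul_le_mul_of_nonneg_left ?_ (by positivity)
  have h5 := harmonic_le_one_add_log n
  have h6 : ((harmonic n : ℚ) : ℝ) = ∑ k ∈ range n, ((k : ℝ) + 1)⁻¹ := by
    unfold harmonic
    push_cast
    rfl
  rw [← h6]
  exact h5

theorem conv {x y : ℕ → ℝ} {β b S C : ℝ} (hβ : 0 < β)
    (hx : ∀ n : ℕ, |x n| ≤ C * ((n : ℝ) + 1) ^ (-(3 / 2) : ℝ)) (hS : HasSum x S)
    (hy : Tendsto (fun n : ℕ => y n * (n : ℝ) ^ (1 - β)) atTop (𝓝 b)) :
    Tendsto (fun n : ℕ => (∑ m ∈ range (n + 1), x m * y (n - m)) * (n : ℝ) ^ (1 - β)) atTop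
      (𝓝 (S * b)) := by
  have hC0 : 0 ≤ C := by
    have := hx 0
    simp at this
    exact (abs_nonneg _).trans this
  have hy1 := shift hy
  obtain ⟨B, hB⟩ := hy1.abs.bddAbove_range
  have hB1 : ∀ n : ℕ, |y n * ((n : ℝ) + 1) ^ (1 - β)| ≤ B := fun n => hB ⟨n, rfl⟩
  have hB0 : 0 ≤ B := (abs_nonneg _).trans (hB1 0)
  have hB2 : ∀ n : ℕ, |y n| * ((n : ℝ) + 1) ^ (1 - β) ≤ B := by
    intro n
    have := hB1 n
    rwa [abs_mul, abs_of_nonneg (Real.rpow_nonneg (by positivity) _)] at this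
  -- first part
  set F : ℕ → ℕ → ℝ := fun n m => if 2 * m ≤ n then x m * (y (n - m) * (n : ℝ) ^ (1 - β)) else 0
    with hF
  have hdec : ∀ n m : ℕ, 1 ≤ n → 2 * m ≤ n → (n : ℝ) ^ (1 - β) =
      (((n - m : ℕ) : ℝ) + 1) ^ (1 - β) * ((n : ℝ) / (((n - m : ℕ) : ℝ) + 1)) ^ (1 - β) := by
    intro n m hn hm
    have h1 : (0 : ℝ) < (n : ℝ) / (((n - m : ℕ) : ℝ) + 1) := by
      have : (0 : ℝ) < n := by exact_mod_cast hn
      positivity
    rw [← Real.mul_rpow (by positivity) h1.le]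
    congr 1
    field_simp
  have hpart1 : Tendsto (fun n : ℕ => ∑' m, F n m) atTop (𝓝 (∑' m, x m * b)) := by
    refine tendsto_tsum_of_dominated_convergence (bound := fun m => |x m| * (B * 2 ^ |1 - β|))
      ?_ ?_ ?_
    · exact (hS.summable.abs).mul_right _
    · intro m
      have h1 : Tendsto (fun n : ℕ => n - m) atTop atTop := tendsto_sub_atTop_nat m
      have h2 := hy1.comp h1
      have h3 : Tendsto (fun n : ℕ => ((n : ℝ) / (((n - m : ℕ) : ℝ) + 1)) ^ (1 - β)) atTop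
          (𝓝 (1 ^ (1 - β))) := by
        refine Tendsto.rpow_const ?_ (Or.inl one_ne_zero)
        have h4 : Tendsto (fun n : ℕ => (n : ℝ) / ((n : ℝ) + (1 - m))) atTop (𝓝 1) :=
          tendsto_natCast_div_add_atTop _
        refine h4.congr' ?_
        filter_upwards [eventually_ge_atTop m] with n hn
        rw [Nat.cast_sub hn]
        congr 1
        ring
      rw [Real.one_rpow] at h3
      have h5 := ((h2.mul h3).const_mul (x m))
      rw [mul_one] at h5
      refine h5.congr' ?_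
      filter_upwards [eventually_ge_atTop (2 * m), eventually_ge_atTop 1] with n hn hn1
      simp only [Function.comp, hF]
      rw [if_pos hn, hdec n m hn1 hn]
      ring
    · filter_upwards [eventually_ge_atTop 1] with n hn m
      simp only [hF]
      split_ifs with h
      · rw [Real.norm_eq_abs, abs_mul]
        refine mul_le_mul_of_nonneg_left ?_ (abs_nonneg _)
        rw [hdec n m hn h, ← mul_assoc, abs_mul]
        have hn0 : (0 : ℝ) < n := by exact_mod_cast hn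
        have h1 : (0 : ℝ) < (((n - m : ℕ) : ℝ) + 1) := by positivity
        have h2 : (((n - m : ℕ) : ℝ)) = (n : ℝ) - m := Nat.cast_sub (by omega)
        have h3 : 2 * (m : ℝ) ≤ n := by exact_mod_cast h
        have h4 : (1 : ℝ) ≤ n := by exact_mod_cast hn
        have h5 : (0 : ℝ) ≤ m := Nat.cast_nonneg m
        have h6 : 1 / 2 ≤ (n : ℝ) / (((n - m : ℕ) : ℝ) + 1) := by
          rw [le_div_iff₀ h1, h2]
          linarith
        have h7 : (n : ℝ) / (((n - m : ℕ) : ℝ) + 1) ≤ 2 := by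
          rw [div_le_iff₀ h1, h2]
          linarith
        refine mul_le_mul (hB1 (n - m)) ?_ (abs_nonneg _) hB0
        rw [abs_of_nonneg (Real.rpow_nonneg (by positivity) _)]
        exact rpow_le _ _ h6 h7
      · rw [norm_zero]
        positivity
  rw [tsum_mul_right, hS.tsum_eq] at hpart1
  -- second part
  have hpart2 : Tendsto (fun n : ℕ => ∑ m ∈ (range (n + 1)).filter (fun m => ¬ 2 * m ≤ n),
      x m * (y (n - m) * (n : ℝ) ^ (1 - β))) atTop (𝓝 0) := by
    have hlim := log_small.const_mul (C * 2 ^ (3 / 2 : ℝ) * B)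
    rw [mul_zero] at hlim
    refine squeeze_zero_norm' ?_ hlim
    filter_upwards [eventually_ge_atTop 1] with n hn
    have hn0 : (0 : ℝ) < n := by exact_mod_cast hn
    have hn2 : (0 : ℝ) < (n : ℝ) / 2 := by positivity
    refine (norm_sum_le _ _).trans ?_
    have h1 : ∀ m ∈ (range (n + 1)).filter (fun m => ¬ 2 * m ≤ n),
        ‖x m * (y (n - m) * (n : ℝ) ^ (1 - β))‖ ≤
          (C * ((n : ℝ) / 2) ^ (-(3 / 2) : ℝ) * (n : ℝ) ^ (1 - β)) * |y (n - m)| := by
      intro m hm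
      rw [Finset.mem_filter, Finset.mem_range, not_le] at hm
      have h2 : (n : ℝ) < 2 * m := by exact_mod_cast hm.2
      rw [Real.norm_eq_abs, abs_mul, abs_mul, abs_of_nonneg (Real.rpow_nonneg hn0.le (1 - β))]
      have h3 : |x m| ≤ C * ((n : ℝ) / 2) ^ (-(3 / 2) : ℝ) := by
        refine (hx m).trans (mul_le_mul_of_nonneg_left ?_ hC0)
        rw [Real.rpow_neg (by positivity), Real.rpow_neg hn2.le]
        refine inv_anti₀ (Real.rpow_pos_of_pos hn2 _) ?_
        exact Real.rpow_le_rpow hn2.le (by linarith) (by norm_num)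
      calc |x m| * (|y (n - m)| * (n : ℝ) ^ (1 - β))
          ≤ (C * ((n : ℝ) / 2) ^ (-(3 / 2) : ℝ)) * (|y (n - m)| * (n : ℝ) ^ (1 - β)) :=
            mul_le_mul_of_nonneg_right h3 (by positivity)
        _ = _ := by ring
    refine (Finset.sum_le_sum h1).trans ?_
    rw [← Finset.mul_sum]
    have h4 : ∑ m ∈ (range (n + 1)).filter (fun m => ¬ 2 * m ≤ n), |y (n - m)| ≤
        ∑ k ∈ range n, |y k| := by
      have hinj : ∀ a ∈ (range (n + 1)).filter (fun m => ¬ 2 * m ≤ n),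
          ∀ c ∈ (range (n + 1)).filter (fun m => ¬ 2 * m ≤ n), n - a = n - c → a = c := by
        intro a ha c hc hac
        rw [Finset.mem_filter, Finset.mem_range] at ha hc
        omega
      rw [← Finset.sum_image (f := fun k => |y k|) hinj]
      refine Finset.sum_le_sum_of_subset_of_nonneg ?_ (fun k _ _ => abs_nonneg _)
      intro k hk
      rw [Finset.mem_image] at hk
      obtain ⟨m, hm, rfl⟩ := hk
      rw [Finset.mem_filter, Finset.mem_range] at hm
      rw [Finset.mem_range]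
      omega
    have h5 := h4.trans (sum_y hβ hB0 hB2 n hn)
    refine (mul_le_mul_of_nonneg_left h5 (by positivity)).trans (le_of_eq ?_)
    have e1 : ((n : ℝ) / 2) ^ (-(3 / 2) : ℝ) = 2 ^ (3 / 2 : ℝ) * (n : ℝ) ^ (-(3 / 2) : ℝ) := by
      rw [Real.div_rpow hn0.le (by norm_num), Real.rpow_neg (by norm_num : (0 : ℝ) ≤ 2),
        div_inv_eq_mul, mul_comm]
    have e2 : (n : ℝ) ^ (-(3 / 2) : ℝ) * (n : ℝ) ^ (1 - β) * (n : ℝ) ^ β =
        (n : ℝ) ^ (-(1 / 2) : ℝ) := by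
      rw [← Real.rpow_add hn0, ← Real.rpow_add hn0]
      congr 1
      ring
    rw [e1]
    calc C * (2 ^ (3 / 2 : ℝ) * (n : ℝ) ^ (-(3 / 2) : ℝ)) * (n : ℝ) ^ (1 - β) *
          (B * (n : ℝ) ^ β * (1 + Real.log n))
        = C * 2 ^ (3 / 2 : ℝ) * B * ((1 + Real.log n) *
          ((n : ℝ) ^ (-(3 / 2) : ℝ) * (n : ℝ) ^ (1 - β) * (n : ℝ) ^ β)) := by ring
      _ = _ := by rw [e2]
  have hsum := hpart1.add hpart2
  rw [add_zero] at hsum
  refine hsum.congr fun n => ?_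
  have h1 : ∑' m, F n m = ∑ m ∈ (range (n + 1)).filter (fun m => 2 * m ≤ n),
      x m * (y (n - m) * (n : ℝ) ^ (1 - β)) := by
    rw [Finset.sum_filter]
    refine tsum_eq_sum fun m hm => ?_
    simp only [hF]
    rw [if_neg]
    rw [Finset.mem_range] at hm
    omega
  rw [h1, Finset.sum_filter_add_sum_filter_not, Finset.sum_mul]
  refine Finset.sum_congr rfl fun m _ => by ring

end CV2

/-- CV2 -/
theorem cv2 : CV2_Stmt := by
  intro β b S C f g hβ hf hS hg
  unfold Asy at hg ⊢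
  refine (CV2.conv hβ hf hS hg).congr fun n => ?_
  rw [CV2.coeff_conv]

end Pool.Agent.KCS
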