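import Pool.Agent.KCS.StM
import Mathlib.RingTheory.PowerSeries.Basic

/-!
# Project KCS (MP_f6626d_co): module FEQ, the functional equation of the staircase model
-/

set_option autoImplicit false

namespace Pool.Agent.KCS

open Finset Filter Topology MeasureTheory Pool.Agent.Gap

namespace FEQ

open PowerSeries (C X coeff mk rescale)

/-- the area variable -/
noncomputable abbrev x : Polynomial ℝ := Polynomial.X

/-- generating function of `eP` -/
noncomputable def e : PowerSeries (Polynomial ℝ) := mk eP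

theorem eP_zero : eP 0 = 1 := by rw [eP]

theorem eP_succ (n : ℕ) : eP (n + 1) = 2 * x ^ 2 * eP n + x ^ 6 *
    ∑ a : Fin n, eP a.1 * x ^ (2 * (n - 1 - a.1)) * eP (n - 1 - a.1) := by
  rw [eP]

theorem e_eq : e = 1 + C (2 * x ^ 2) * X * e + C (x ^ 6) * X ^ 2 * (rescale (x ^ 2) e * e) := by
  ext1 n
  cases n with
  | zero =>
    simp [e, eP_zero, pow_two]
  | succ n =>
    have h1 : coeff (n + 1) e = eP (n + 1) := by simp [e]
    have h2 : coeff (n + 1) (C (2 * x ^ 2) * X * e) = 2 * x ^ 2 * eP n := by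
      rw [mul_assoc, PowerSeries.coeff_C_mul, PowerSeries.coeff_succ_X_mul]
      simp [e]
    have h3 : coeff (n + 1) (C (x ^ 6) * X ^ 2 * (rescale (x ^ 2) e * e)) = x ^ 6 *
        ∑ a : Fin n, eP a.1 * x ^ (2 * (n - 1 - a.1)) * eP (n - 1 - a.1) := by
      rw [mul_assoc, PowerSeries.coeff_C_mul, pow_two, mul_assoc, PowerSeries.coeff_succ_X_mul]
      cases n with
      | zero => simp
      | succ n =>
        rw [PowerSeries.coeff_succ_X_mul, PowerSeries.coeff_mul]
        congr 1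
        rw [Finset.Nat.sum_antidiagonal_eq_sum_range_succ_mk, ← Finset.sum_range_reflect]
        rw [Fin.sum_univ_eq_sum_range
          (fun a => eP a * x ^ (2 * (n + 1 - 1 - a)) * eP (n + 1 - 1 - a)) (n + 1)]
        refine Finset.sum_congr rfl fun a ha => ?_
        have ha' := Finset.mem_range.1 ha
        have e1 : n + 1 - 1 - a = n - a := by omega
        have e2 : n - (n - a) = a := by omega
        rw [e1, e2, PowerSeries.coeff_rescale]
        simp only [e, PowerSeries.coeff_mk]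
        rw [← pow_mul]
        ring
    rw [map_add, map_add, h1, h2, h3, eP_succ, PowerSeries.coeff_one, if_neg (by omega)]
    ring

/-- shifted generating functions -/
noncomputable def eg (g : ℕ) : PowerSeries (Polynomial ℝ) := rescale (x ^ (2 * g)) e

theorem rescale_C' (a c : Polynomial ℝ) : rescale a (C c) = C c := by
  ext1 n
  rw [PowerSeries.coeff_rescale, PowerSeries.coeff_C]
  split_ifs with hn
  · rw [hn]; simp
  · simp

theorem coeff_CX (c : Polynomial ℝ) (f : PowerSeries (Polynomial ℝ)) (n : ℕ) :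
    coeff (n + 1) (C c * X * f) = c * coeff n f := by
  rw [mul_assoc, PowerSeries.coeff_C_mul, PowerSeries.coeff_succ_X_mul]

theorem eg_eq (g : ℕ) : eg g = 1 + C (2 * x ^ (2 * g + 2)) * X * eg g +
    C (x ^ (4 * g + 6)) * X ^ 2 * (eg (g + 1) * eg g) := by
  have hgen : ∀ c1 c2 : PowerSeries (Polynomial ℝ), rescale (x ^ (2 * g)) c1 = c1 →
      rescale (x ^ (2 * g)) c2 = c2 → e = 1 + c1 * X * e + c2 * X ^ 2 * (rescale (x ^ 2) e * e) →
      eg g = 1 + c1 * (C (x ^ (2 * g)) * X) * eg g +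
        c2 * (C (x ^ (2 * g)) * X) ^ 2 * (eg (g + 1) * eg g) := by
    intro c1 c2 h1 h2 h
    have h' := congrArg (rescale (x ^ (2 * g))) h
    simp only [map_add, map_one, map_mul, map_pow, h1, h2, PowerSeries.rescale_rescale] at h'
    have hX : rescale (x ^ (2 * g)) (X : PowerSeries (Polynomial ℝ)) = C (x ^ (2 * g)) * X :=
      PowerSeries.rescale_X _
    have hr : rescale (x ^ 2 * x ^ (2 * g)) e = eg (g + 1) := by
      unfold eg
      congr 2
      ring
    have hr' : rescale (x ^ (2 * g)) e = eg g := rfl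
    simp only [hX, hr, hr'] at h'
    simpa only [map_pow] using h'
  refine (hgen _ _ (rescale_C' _ _) (rescale_C' _ _) e_eq).trans ?_
  have h3 : C (2 * x ^ (2 * g + 2)) = C (2 * x ^ 2) * C (x ^ (2 * g)) := by
    rw [← map_mul]; congr 1; ring
  have h4 : C (x ^ (4 * g + 6)) = C (x ^ 6) * (C (x ^ (2 * g))) ^ 2 := by
    rw [← map_pow, ← map_mul]; congr 1; ring
  rw [h3, h4]
  ring

/-- generating function for the gap `g + 1` -/
noncomputable def W : ℕ → PowerSeries (Polynomial ℝ)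
  | 0 => e
  | (g + 1) => C (x ^ (2 * g + 3)) * X * (eg (g + 1) * W g)

theorem W_zero_eq : W 0 = 1 + C (2 * x ^ 2) * X * W 0 + C (x ^ 3) * X * W 1 := by
  have h1 : W 0 = e := rfl
  have h2 : W 1 = C (x ^ 3) * X * (eg 1 * W 0) := rfl
  rw [h2, h1]
  conv_lhs => rw [e_eq]
  have h3 : C (x ^ 6) = C (x ^ 3) * C (x ^ 3) := by rw [← map_mul]; congr 1; ring
  have h4 : eg 1 = rescale (x ^ 2) e := by unfold eg; norm_num
  rw [h3, h4]
  ring

theorem W_succ_eq (h : ℕ) : W (h + 1) = C (2 * x ^ (2 * h + 4)) * X * W (h + 1) +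
    C (x ^ (2 * h + 5)) * X * W (h + 2) + C (x ^ (2 * h + 3)) * X * W h := by
  have h1 : W (h + 1) = C (x ^ (2 * h + 3)) * X * (eg (h + 1) * W h) := rfl
  have h2 : W (h + 2) = C (x ^ (2 * (h + 1) + 3)) * X * (eg (h + 2) * W (h + 1)) := rfl
  have h3 := eg_eq (h + 1)
  have e1 : 2 * (h + 1) + 3 = 2 * h + 5 := by ring
  have e2 : 2 * (h + 1) + 2 = 2 * h + 4 := by ring
  have e3 : 4 * (h + 1) + 6 = (2 * h + 5) + (2 * h + 5) := by ring
  have e4 : C (x ^ ((2 * h + 5) + (2 * h + 5))) = C (x ^ (2 * h + 5)) * C (x ^ (2 * h + 5)) := by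
    rw [← map_mul, ← pow_add]
  rw [e2, e3, e4] at h3
  rw [e1] at h2
  rw [h2, h1]
  set a := C (x ^ (2 * h + 3))
  set b := C (2 * x ^ (2 * h + 4))
  set c := C (x ^ (2 * h + 5))
  set E1 := eg (h + 1)
  set E2 := eg (h + 2)
  have h4 : a * X * (E1 * W h) = a * X * W h * E1 := by ring
  conv_lhs => rw [h4, h3]
  ring

variable {B : ℕ → ℤ → Polynomial ℝ}

theorem B_zero (hB : IsSol stair cap1 B) (g : ℤ) : B 0 g = 0 := by
  rcases lt_or_ge g 1 with hg | hg
  · exact hB.zero 0 g hg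
  · have h := hB.step 0 g hg
    have hS : stair.S = {(1, 1)} := rfl
    rw [hS, Finset.sum_singleton, if_neg (by norm_num)] at h
    rw [h]
    have : cap1 0 g = 0 := by unfold cap1; rw [if_neg]; omega
    rw [this]; simp

theorem Icc_three (a : ℤ) : Icc (a - 1) (a + 1) = {a - 1, a, a + 1} := by
  ext y; simp only [mem_Icc, mem_insert, mem_singleton]; omega

theorem B_succ (hB : IsSol stair cap1 B) (n g : ℕ) : B (n + 1) ((g : ℤ) + 1) =
    Polynomial.C (cap1 (n + 1) ((g : ℤ) + 1)) + (x ^ (2 * g + 1) * B n g +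
      2 * x ^ (2 * g + 2) * B n ((g : ℤ) + 1) + x ^ (2 * g + 3) * B n ((g : ℤ) + 2)) := by
  have h := hB.step (n + 1) ((g : ℤ) + 1) (by omega)
  have hS : stair.S = {(1, 1)} := rfl
  have hR : (stair.R : ℤ) = 1 := rfl
  rw [hS, Finset.sum_singleton, if_pos (by simp), hR, Icc_three] at h
  rw [Finset.sum_insert (by simp; omega), Finset.sum_pair (by omega)] at h
  rw [h]
  congr 1
  have hn : n + 1 - ((1 : ℕ), (1 : ℕ)).1 = n := by simp
  rw [hn]
  have k1 : stair.K (1, 1) ((g : ℤ) + 1) ((g : ℤ) + 1) = 2 := by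
    show (if 1 ≤ (g : ℤ) + 1 ∧ 1 ≤ (g : ℤ) + 1 then nnT ((g : ℤ) + 1 - ((g : ℤ) + 1)) else 0) = 2
    rw [if_pos (by omega)]; simp [nnT]
  have k2 : stair.K (1, 1) ((g : ℤ) + 1) ((g : ℤ) + 1 + 1) = 1 := by
    show (if 1 ≤ (g : ℤ) + 1 ∧ 1 ≤ (g : ℤ) + 1 + 1 then
      nnT ((g : ℤ) + 1 + 1 - ((g : ℤ) + 1)) else 0) = 1
    rw [if_pos (by omega)]; simp [nnT]
  have k3 : Polynomial.C (stair.K (1, 1) ((g : ℤ) + 1) ((g : ℤ) + 1 - 1)) *
      x ^ (((1 : ℕ) : ℤ) * ((g : ℤ) + 1 + ((g : ℤ) + 1 - 1))).toNat *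
        B n ((g : ℤ) + 1 - 1) = x ^ (2 * g + 1) * B n g := by
    have e1 : (g : ℤ) + 1 - 1 = g := by ring
    rw [e1]
    have e2 : (((1 : ℕ) : ℤ) * ((g : ℤ) + 1 + (g : ℤ))).toNat = 2 * g + 1 := by omega
    rw [e2]
    rcases Nat.eq_zero_or_pos g with hg | hg
    · rw [hg]
      have : B n ((0 : ℕ) : ℤ) = 0 := hB.zero n _ (by simp)
      rw [this]; simp
    · have k4 : stair.K (1, 1) ((g : ℤ) + 1) (g : ℤ) = 1 := by
        show (if 1 ≤ (g : ℤ) + 1 ∧ 1 ≤ (g : ℤ) then nnT ((g : ℤ) - ((g : ℤ) + 1)) else 0) = 1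
        rw [if_pos (by omega)]; simp [nnT]
      rw [k4]; simp
  have e4 : (((1 : ℕ) : ℤ) * ((g : ℤ) + 1 + ((g : ℤ) + 1))).toNat = 2 * g + 2 := by omega
  have e5 : (((1 : ℕ) : ℤ) * ((g : ℤ) + 1 + ((g : ℤ) + 1 + 1))).toNat = 2 * g + 3 := by omega
  have e6 : (g : ℤ) + 1 + 1 = (g : ℤ) + 2 := by ring
  have e7 : (((1, 1) : ℕ × ℕ).2 : ℤ) = ((1 : ℕ) : ℤ) := rfl
  rw [e7, k3, k1, k2, e4, e5, e6]
  simp only [map_one, one_mul, Polynomial.C_ofNat]
  ring

theorem B_eq (hB : IsSol stair cap1 B) (n : ℕ) : ∀ g : ℕ, B (n + 1) ((g : ℤ) + 1) = coeff n (W g) := by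
  induction n with
  | zero =>
    intro g
    rw [B_succ hB, B_zero hB, B_zero hB, B_zero hB]
    cases g with
    | zero =>
      have : W 0 = e := rfl
      rw [this]
      simp [e, eP_zero, cap1]
    | succ g =>
      have : W (g + 1) = C (x ^ (2 * g + 3)) * X * (eg (g + 1) * W g) := rfl
      rw [this]
      have h1 : cap1 (0 + 1) (((g + 1 : ℕ) : ℤ) + 1) = 0 := by
        unfold cap1; rw [if_neg]; push_cast; omega
      rw [h1]
      simp
  | succ n ih =>
    intro g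
    rw [B_succ hB]
    have hc : cap1 (n + 1 + 1) ((g : ℤ) + 1) = 0 := by
      unfold cap1; rw [if_neg]; omega
    rw [hc]
    have h2 : B (n + 1) ((g : ℤ) + 2) = coeff n (W (g + 1)) := by
      have e : (g : ℤ) + 2 = ((g + 1 : ℕ) : ℤ) + 1 := by push_cast; ring
      rw [e, ih]
    rw [ih g, h2]
    cases g with
    | zero =>
      have hz : B (n + 1) ((0 : ℕ) : ℤ) = 0 := hB.zero _ _ (by simp)
      rw [hz]
      conv_rhs => rw [W_zero_eq]
      rw [map_add, map_add, coeff_CX, coeff_CX, PowerSeries.coeff_one, if_neg (by omega)]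
      simp
    | succ g =>
      have h3 : B (n + 1) ((g + 1 : ℕ) : ℤ) = coeff n (W g) := by
        rw [← ih g]
        push_cast
        rfl
      rw [h3]
      conv_rhs => rw [W_succ_eq]
      rw [map_add, map_add, coeff_CX, coeff_CX, coeff_CX]
      have e1 : 2 * (g + 1) + 1 = 2 * g + 3 := by ring
      have e2 : 2 * (g + 1) + 2 = 2 * g + 4 := by ring
      have e3 : 2 * (g + 1) + 3 = 2 * g + 5 := by ring
      rw [e1, e2, e3]
      simp only [map_zero, zero_add]
      ring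

end FEQ

open FEQ in
/-- FEQ : the closed staircase model is `eP`. -/
theorem feq : FEQ_Stmt := by
  intro B0 hB n
  have h1 : B0 (n + 1) 1 = eP n := by
    have := B_eq hB n 0
    rw [show (((0 : ℕ) : ℤ) + 1) = 1 by norm_num] at this
    rw [this]
    show PowerSeries.coeff n e = _
    simp [e]
  refine ⟨h1, ?_⟩
  unfold closeP
  rw [Finset.sum_eq_single 1]
  · rw [show Icc (1 : ℤ) ((1 : ℕ) : ℤ) = {1} by simp, Finset.sum_singleton,
      show n + 2 - 1 = n + 1 by omega, h1]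
    simp [cap1]
  · intro m _ hm
    refine Finset.sum_eq_zero fun g _ => ?_
    have : cap1 m g = 0 := by unfold cap1; rw [if_neg]; omega
    rw [this]; simp
  · intro h
    exact absurd (Finset.mem_range.2 (by omega)) h

end Pool.Agent.KCS
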