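import Pool.Agent.KCS.StM

/-!
# Module KCS_MRC: the equation of the moments
-/

set_option autoImplicit false

namespace Pool.Agent.KCS

open Finset Filter Topology MeasureTheory Pool.Agent.Gap
open Pool.Agent.KCG (mr)

namespace MRC

open Polynomial in
lemma mr_add (r : ℕ) (P Q : Polynomial ℝ) : mr r (P + Q) = mr r P + mr r Q := by
  unfold KCG.mr
  apply Polynomial.sum_add_index
  · intro i; simp
  · intro i a b; ring

lemma mr_zero' (r : ℕ) : mr r (0 : Polynomial ℝ) = 0 := by
  unfold KCG.mr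
  simp

lemma mr_monomial (r n : ℕ) (c : ℝ) : mr r (Polynomial.monomial n c) = c * (n : ℝ) ^ r := by
  unfold KCG.mr
  rw [Polynomial.sum_monomial_index]
  simp

lemma mr_sum {ι : Type*} (r : ℕ) (s : Finset ι) (f : ι → Polynomial ℝ) :
    mr r (∑ i ∈ s, f i) = ∑ i ∈ s, mr r (f i) := by
  classical
  induction s using Finset.induction_on with
  | empty => simp [mr_zero']
  | insert a s ha ih => rw [sum_insert ha, sum_insert ha, mr_add, ih]

lemma mr_mul (r : ℕ) (P Q : Polynomial ℝ) :
    mr r (P * Q) = ∑ j ∈ range (r + 1), (r.choose j : ℝ) * (mr j P * mr (r - j) Q) := by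
  induction P using Polynomial.induction_on' with
  | add P P' h h' =>
    rw [add_mul, mr_add, h, h', ← sum_add_distrib]
    refine sum_congr rfl fun j _ => ?_
    rw [mr_add]
    ring
  | monomial a c =>
    induction Q using Polynomial.induction_on' with
    | add Q Q' h h' =>
      rw [mul_add, mr_add, h, h', ← sum_add_distrib]
      refine sum_congr rfl fun j _ => ?_
      rw [mr_add]
      ring
    | monomial b d =>
      rw [Polynomial.monomial_mul_monomial, mr_monomial]
      push_cast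
      rw [add_pow, mul_sum]
      refine sum_congr rfl fun j _ => ?_
      rw [mr_monomial, mr_monomial]
      ring

lemma mr_X_pow (r c : ℕ) : mr r ((Polynomial.X : Polynomial ℝ) ^ c) = (c : ℝ) ^ r := by
  rw [← Polynomial.monomial_one_right_eq_X_pow, mr_monomial, one_mul]

lemma mr_two_mul (r : ℕ) (P : Polynomial ℝ) : mr r (2 * P) = 2 * mr r P := by
  rw [two_mul, mr_add, two_mul]

lemma pol_rearr (A B C D : Polynomial ℝ) : A * (B * C * D) = (A * B) * (C * D) := by ring

/-- the recursion -/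
lemma eP_succ' (n : ℕ) : eP (n + 1) = 2 * (eP n * Polynomial.X ^ 2) + ∑ a ∈ range n,
      (Polynomial.X ^ 6 * eP a) * (Polynomial.X ^ (2 * (n - 1 - a)) * eP (n - 1 - a)) := by
  have h2 : ∑ a ∈ range n,
      (Polynomial.X ^ 6 * eP a) * (Polynomial.X ^ (2 * (n - 1 - a)) * eP (n - 1 - a)) =
      ∑ a : Fin n, (Polynomial.X ^ 6 * eP a.1) *
        (Polynomial.X ^ (2 * (n - 1 - a.1)) * eP (n - 1 - a.1)) :=
    (Fin.sum_univ_eq_sum_range (fun a => (Polynomial.X ^ 6 * eP a) *
      (Polynomial.X ^ (2 * (n - 1 - a)) * eP (n - 1 - a))) n).symm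
  rw [h2, eP, mul_assoc, mul_comm (Polynomial.X ^ 2) (eP n), mul_sum]
  simp only [pol_rearr]

/-- the recursion for the moments -/
lemma mr_eP_succ (r n : ℕ) : mr r (eP (n + 1)) =
    2 * mr r (eP n * Polynomial.X ^ 2) + ∑ a ∈ range n,
      mr r ((Polynomial.X ^ 6 * eP a) * (Polynomial.X ^ (2 * (n - 1 - a)) * eP (n - 1 - a))) := by
  rw [eP_succ', mr_add, mr_two_mul, mr_sum]

lemma eP_zero : eP 0 = 1 := by rw [eP]

lemma mr_one (r : ℕ) : mr r (1 : Polynomial ℝ) = (0 : ℝ) ^ r := by
  have := mr_X_pow r 0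
  rw [pow_zero] at this
  rw [this]
  simp

lemma mr_mul_zero (P Q : Polynomial ℝ) : mr 0 (P * Q) = mr 0 P * mr 0 Q := by
  rw [mr_mul]
  simp

lemma mr_nonneg_mul (P Q : Polynomial ℝ) (hP : ∀ r, 0 ≤ mr r P) (hQ : ∀ r, 0 ≤ mr r Q) (r : ℕ) :
    0 ≤ mr r (P * Q) := by
  rw [mr_mul]
  exact sum_nonneg fun j _ => mul_nonneg (Nat.cast_nonneg _) (mul_nonneg (hP _) (hQ _))

lemma mr_X_nonneg (c r : ℕ) : 0 ≤ mr r ((Polynomial.X : Polynomial ℝ) ^ c) := by
  rw [mr_X_pow]; positivity

lemma mr_eP_nonneg (n : ℕ) : ∀ r, 0 ≤ mr r (eP n) := by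
  induction n using Nat.strong_induction_on with
  | _ n ih =>
    intro r
    rcases n with _ | n
    · rw [eP_zero, mr_one]; positivity
    · rw [mr_eP_succ]
      apply add_nonneg
      · exact mul_nonneg (by norm_num)
          (mr_nonneg_mul _ _ (ih n (by omega)) (mr_X_nonneg 2) r)
      · refine sum_nonneg fun a ha => ?_
        rw [mem_range] at ha
        exact mr_nonneg_mul _ _
          (mr_nonneg_mul _ _ (mr_X_nonneg 6) (ih a (by omega)))
          (mr_nonneg_mul _ _ (mr_X_nonneg _) (ih _ (by omega))) r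

lemma mr_eP_catalan (n : ℕ) : mr 0 (eP n) = (catalan (n + 1) : ℝ) := by
  induction n using Nat.strong_induction_on with
  | _ n ih =>
    rcases n with _ | n
    · rw [eP_zero, mr_one]; simp
    · rw [mr_eP_succ, mr_mul_zero, mr_X_pow, ih n (by omega)]
      have e1 : ∀ a ∈ range n, mr 0 ((Polynomial.X ^ 6 * eP a) *
          (Polynomial.X ^ (2 * (n - 1 - a)) * eP (n - 1 - a))) =
          (catalan (a + 1) : ℝ) * catalan (n - a) := by
        intro a ha
        rw [mem_range] at ha
        rw [mr_mul_zero, mr_mul_zero, mr_mul_zero, mr_X_pow, mr_X_pow, ih a (by omega),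
          ih (n - 1 - a) (by omega), show n - 1 - a + 1 = n - a by omega]
        ring
      rw [sum_congr rfl e1]
      have e2 : catalan (n + 1 + 1) = ∑ i ∈ range (n + 1 + 1), catalan i * catalan (n + 1 - i) := by
        rw [catalan_succ, ← Fin.sum_univ_eq_sum_range (fun i => catalan i * catalan (n + 1 - i))]
      rw [e2, sum_range_succ, sum_range_succ']
      push_cast
      rw [Nat.sub_self, catalan_zero, pow_zero]
      push_cast
      ring

/-- coefficients of `US` -/
lemma coeff_US (j a : ℕ) : PowerSeries.coeff a (US j) = mr j (Polynomial.X ^ 6 * eP a) := by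
  unfold US
  rw [map_sum, mul_comm (Polynomial.X ^ 6), mr_mul]
  refine sum_congr rfl fun i _ => ?_
  rw [PowerSeries.coeff_smul, MS, PowerSeries.coeff_mk, mr_X_pow]
  push_cast
  rw [smul_eq_mul, pow_zero]
  ring

/-- coefficients of `VS` -/
lemma coeff_VS (m b : ℕ) :
    PowerSeries.coeff b (VS m) = mr m (Polynomial.X ^ (2 * b) * eP b) := by
  unfold VS
  rw [map_sum, mr_mul]
  refine sum_congr rfl fun l _ => ?_
  rw [PowerSeries.coeff_smul, MS, PowerSeries.coeff_mk, mr_X_pow]
  push_cast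
  rw [smul_eq_mul, mul_pow]
  ring

/-- the equation before the rearrangement -/
lemma eq_raw (r : ℕ) (hr : 1 ≤ r) : MS r 0 =
    2 * PowerSeries.X * (∑ j ∈ range (r + 1), ((r.choose j : ℝ) * 2 ^ (r - j)) • MS j 0) +
    PowerSeries.X ^ 2 * ∑ j ∈ range (r + 1), (r.choose j : ℝ) • (US j * VS (r - j)) := by
  ext n
  rw [MS, PowerSeries.coeff_mk, pow_zero, one_mul, map_add]
  rcases n with _ | n
  · rw [eP_zero, mr_one, zero_pow (by omega)]
    rw [mul_assoc, PowerSeries.coeff_zero_eq_constantCoeff_apply,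
      PowerSeries.coeff_zero_eq_constantCoeff_apply]
    simp
  · rw [mr_eP_succ]
    congr 1
    · rw [mul_assoc, show (2 : PowerSeries ℝ) = PowerSeries.C (2 : ℝ) from (map_ofNat PowerSeries.C 2).symm,
        PowerSeries.coeff_C_mul, PowerSeries.coeff_succ_X_mul, map_sum, mr_mul]
      congr 1
      refine sum_congr rfl fun j _ => ?_
      rw [PowerSeries.coeff_smul, MS, PowerSeries.coeff_mk, mr_X_pow]
      push_cast
      rw [smul_eq_mul, pow_zero]
      ring
    · rw [pow_two, mul_assoc, PowerSeries.coeff_succ_X_mul]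
      rcases n with _ | k
      · rw [PowerSeries.coeff_zero_eq_constantCoeff_apply]
        simp
      · rw [PowerSeries.coeff_succ_X_mul, map_sum]
        simp only [PowerSeries.coeff_smul, PowerSeries.coeff_mul, smul_eq_mul]
        have e1 : ∀ j ∈ range (r + 1), (r.choose j : ℝ) *
            ∑ p ∈ antidiagonal k, PowerSeries.coeff p.1 (US j) *
              PowerSeries.coeff p.2 (VS (r - j)) =
            ∑ a ∈ range (k + 1), (r.choose j : ℝ) * (mr j (Polynomial.X ^ 6 * eP a) *
              mr (r - j) (Polynomial.X ^ (2 * (k - a)) * eP (k - a))) := by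
          intro j _
          rw [Finset.Nat.sum_antidiagonal_eq_sum_range_succ (fun a b =>
            PowerSeries.coeff a (US j) * PowerSeries.coeff b (VS (r - j))), mul_sum]
          refine sum_congr rfl fun a _ => ?_
          rw [coeff_US, coeff_VS]
        rw [sum_congr rfl e1, sum_comm]
        refine sum_congr rfl fun a _ => ?_
        rw [show k + 1 - 1 - a = k - a by omega, mr_mul]

lemma US_zero : US 0 = MS 0 0 := by
  unfold US
  simp

lemma VS_zero : VS 0 = MS 0 0 := by
  unfold VS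
  simp

lemma VS_eq (r : ℕ) : VS r = MS r 0 +
    ∑ l ∈ range r, ((r.choose (l + 1) : ℝ) * 2 ^ (l + 1)) • MS (r - 1 - l) (l + 1) := by
  unfold VS
  rw [sum_range_succ', add_comm]
  congr 1
  · simp
  · refine sum_congr rfl fun l _ => ?_
    rw [show r - (l + 1) = r - 1 - l by omega]

lemma US_eq (r : ℕ) : US r =
    (∑ i ∈ range r, ((r.choose i : ℝ) * 6 ^ (r - i)) • MS i 0) + MS r 0 := by
  unfold US
  rw [sum_range_succ]
  congr 1
  simp

lemma eq_main (r : ℕ) (hr : 1 ≤ r) :
    (1 - 2 * PowerSeries.X - 2 * PowerSeries.X ^ 2 * MS 0 0) * MS r 0 = RS r := by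
  have h := eq_raw r hr
  have e1 : (∑ j ∈ range (r + 1), ((r.choose j : ℝ) * 2 ^ (r - j)) • MS j 0) =
      (∑ j ∈ range r, ((r.choose j : ℝ) * 2 ^ (r - j)) • MS j 0) + MS r 0 := by
    rw [sum_range_succ]
    congr 1
    simp
  have e2 : ∑ j ∈ range (r + 1), (r.choose j : ℝ) • (US j * VS (r - j)) =
      MS 0 0 * VS r + ∑ j ∈ Ico 1 r, (r.choose j : ℝ) • (US j * VS (r - j)) +
        US r * MS 0 0 := by
    rw [sum_range_succ, Finset.range_eq_Ico, Finset.sum_eq_sum_Ico_succ_bot (by omega)]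
    congr 1
    · congr 1
      rw [US_zero]
      simp
    · rw [Nat.sub_self, VS_zero]
      simp
  rw [e1, e2, VS_eq r, US_eq r] at h
  unfold RS
  linear_combination h

end MRC

theorem mrc : MRC_Stmt :=
  ⟨MRC.mr_eP_catalan, fun r n => MRC.mr_eP_nonneg n r, fun r hr => MRC.eq_main r hr⟩

end Pool.Agent.KCS
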