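import Pool.Agent.KCS.StA
import Pool.Agent.KCG.GW

/-!
# KCS, module ACV: convergence of the limits at infinity of the critical solutions (helper27)
-/

set_option autoImplicit false

open Finset Filter Topology

namespace Pool.Agent.KCG

open Pool.Agent.Gap Pool.Agent.KCG.H22

namespace ACVx

/-- the cutoff: `1` up to `L`, `0` from `2 L` on -/
noncomputable def chi (L : ℕ) (g : ℤ) : ℝ := max 0 (min 1 (2 - (g : ℝ) / L))

lemma chi_nonneg (L : ℕ) (g : ℤ) : 0 ≤ chi L g := le_max_left _ _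

lemma chi_le (L : ℕ) (g : ℤ) : chi L g ≤ 1 := max_le zero_le_one (min_le_left _ _)

lemma chi_one {L : ℕ} (hL : 1 ≤ L) {g : ℤ} (hg : g ≤ L) : chi L g = 1 := by
  have hL0 : (0 : ℝ) < L := by exact_mod_cast hL
  have h1 : (g : ℝ) ≤ L := by exact_mod_cast hg
  have h2 : (g : ℝ) / L ≤ 1 := by rw [div_le_one hL0]; exact h1
  unfold chi
  rw [min_eq_left (by linarith), max_eq_right zero_le_one]

lemma chi_zero {L : ℕ} (hL : 1 ≤ L) {g : ℤ} (hg : 2 * (L : ℤ) ≤ g) : chi L g = 0 := by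
  have hL0 : (0 : ℝ) < L := by exact_mod_cast hL
  have h1 : 2 * (L : ℝ) ≤ g := by exact_mod_cast hg
  have h2 : 2 ≤ (g : ℝ) / L := by rw [le_div_iff₀ hL0]; exact h1
  unfold chi
  refine max_eq_left ((min_le_right _ _).trans (by linarith))

lemma chi_lip {L : ℕ} (hL : 1 ≤ L) (g g' : ℤ) :
    |chi L g - chi L g'| ≤ |((g' - g : ℤ) : ℝ)| / L := by
  have hL0 : (0 : ℝ) < L := by exact_mod_cast hL
  unfold chi
  refine (abs_max_sub_max_le_max _ _ _ _).trans ?_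
  rw [sub_self, abs_zero]
  refine max_le (by positivity) ((abs_min_sub_min_le_max _ _ _ _).trans ?_)
  rw [sub_self, abs_zero]
  refine max_le (by positivity) (le_of_eq ?_)
  have h1 : 2 - (g : ℝ) / L - (2 - (g' : ℝ) / L) = ((g' : ℝ) - g) / L := by ring
  rw [h1, abs_div, abs_of_pos hL0]
  push_cast
  rfl

/-- the majorant of the commutator -/
noncomputable def BB (C1 : ℝ) (L : ℕ) (d g : ℤ) : ℝ :=
  if g ≤ 2 * (L : ℤ) + |d| then |(d : ℝ)| / L * C1 else 0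

lemma BB_nonneg {C1 : ℝ} (hC1 : 0 < C1) (L : ℕ) (d g : ℤ) : 0 ≤ BB C1 L d g := by
  unfold BB
  split_ifs
  · positivity
  · exact le_rfl

lemma BB_even (C1 : ℝ) (L : ℕ) (d g : ℤ) : BB C1 L (-d) g = BB C1 L d g := by
  unfold BB
  rw [abs_neg]
  push_cast
  rw [abs_neg]

lemma BB_sum {C1 : ℝ} {L : ℕ} (hL : 1 ≤ L) (N : ℕ) (d : ℤ) :
    ∑ g ∈ Icc (1 : ℤ) N, BB C1 L d g ^ 2 ≤ C1 ^ 2 * (|(d : ℝ)| + 2) ^ 4 / L := by
  have hL0 : (0 : ℝ) < L := by exact_mod_cast hL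
  have hL1 : (1 : ℝ) ≤ L := by exact_mod_cast hL
  have h1 : ∑ g ∈ Icc (1 : ℤ) N, BB C1 L d g ^ 2 ≤
      ∑ g ∈ Icc (1 : ℤ) (2 * (L : ℤ) + |d|), (|(d : ℝ)| / L * C1) ^ 2 := by
    have h2 : ∑ g ∈ Icc (1 : ℤ) N, BB C1 L d g ^ 2 =
        ∑ g ∈ (Icc (1 : ℤ) N).filter (fun g => g ≤ 2 * (L : ℤ) + |d|),
          (|(d : ℝ)| / L * C1) ^ 2 := by
      rw [Finset.sum_filter]
      refine Finset.sum_congr rfl fun g _ => ?_
      unfold BB
      split_ifs
      · rfl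
      · simp
    rw [h2]
    refine Finset.sum_le_sum_of_subset_of_nonneg ?_ (fun g _ _ => sq_nonneg _)
    intro g hg
    rw [Finset.mem_filter, Finset.mem_Icc] at hg
    rw [Finset.mem_Icc]
    exact ⟨hg.1.1, hg.2⟩
  refine h1.trans ?_
  rw [Finset.sum_const, Int.card_Icc, nsmul_eq_mul]
  have h3 : (((2 * (L : ℤ) + |d| + 1 - 1).toNat : ℕ) : ℝ) = 2 * L + |(d : ℝ)| := by
    have h4 : (((2 * (L : ℤ) + |d| + 1 - 1).toNat : ℕ) : ℤ) = 2 * (L : ℤ) + |d| := by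
      have := abs_nonneg d
      omega
    have h5 : ((((2 * (L : ℤ) + |d| + 1 - 1).toNat : ℕ) : ℤ) : ℝ) = ((2 * (L : ℤ) + |d| : ℤ) : ℝ) := by
      rw [h4]
    rw [Int.cast_natCast] at h5
    rw [h5]
    push_cast
    rfl
  rw [h3]
  set x : ℝ := |(d : ℝ)| with hx
  have hx0 : 0 ≤ x := abs_nonneg _
  have h6 : (2 * L + x) * (x / L * C1) ^ 2 = C1 ^ 2 * ((2 + x / L) * x ^ 2) / L := by
    field_simp
  rw [h6]
  refine div_le_div_of_nonneg_right (mul_le_mul_of_nonneg_left ?_ (sq_nonneg _)) hL0.le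
  have h7 : x / L ≤ x := div_le_self hx0 hL1
  calc (2 + x / L) * x ^ 2 ≤ (x + 2) * (x + 2) ^ 2 := by
        refine mul_le_mul (by linarith) (pow_le_pow_left₀ hx0 (by linarith) 2) (sq_nonneg _)
          (by linarith)
    _ = (x + 2) ^ 3 := by ring
    _ ≤ (x + 2) ^ 4 := pow_le_pow_right₀ (by linarith) (by norm_num)

/-- comparison of two critical solutions -/
lemma key {C θ C1 c δ : ℝ} (hC : 0 < C) (hθ : 0 < θ) (hθ1 : θ < 1) (hC1 : 0 < C1) (hc : 0 < c)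
    (hδ : 0 ≤ δ) {G G' : GapKernel} (hG : Cls C θ G) (hCo : Coer G c) {s s' v v' : ℤ → ℝ}
    (hv : CritSol C1 G s v) (hv' : CritSol C1 G' s' v')
    (hker : ∀ (M : ℕ) (g : ℤ), 1 ≤ g → ∑ g' ∈ Icc (1 : ℤ) M, |G.Kc g g' - G'.Kc g g'| ≤ δ)
    (hsrc : ∀ g : ℤ, 1 ≤ g → |s g - s' g| ≤ δ) {L : ℕ} (hL : 1 ≤ L) {g0 : ℤ} (hg0 : 1 ≤ g0)
    (hg0L : g0 ≤ L) :
    c / 2 * (v g0 - v' g0) ^ 2 ≤ g0 * (2 * L * (C1 * ((1 + C1) * δ)) +
      ((GW.Mom C θ + 1) / (2 * c) + 1 / 2) * (C1 ^ 2 * GW.Mom C θ / L)) := by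
  have hL0 : (0 : ℝ) < L := by exact_mod_cast hL
  have hMom := GW.mom_nonneg hC hθ
  set N : ℕ := 2 * L + G.R + G'.R with hN
  -- bounds for the solutions
  have hb : ∀ g, 0 ≤ v g ∧ v g ≤ C1 := by
    intro g
    refine ⟨?_, hv.up g⟩
    rcases le_or_gt g 0 with h | h
    · rw [hv.zero g h]
    · exact (inv_pos.2 hC1).le.trans (hv.low g (by omega))
  have hb' : ∀ g, 0 ≤ v' g ∧ v' g ≤ C1 := by
    intro g
    refine ⟨?_, hv'.up g⟩
    rcases le_or_gt g 0 with h | h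
    · rw [hv'.zero g h]
    · exact (inv_pos.2 hC1).le.trans (hv'.low g (by omega))
  have hwb : ∀ g, |v g - v' g| ≤ C1 := by
    intro g
    rw [abs_le]
    have h1 := hb g
    have h2 := hb' g
    constructor <;> linarith [h1.1, h1.2, h2.1, h2.2]
  set w : ℤ → ℂ := fun g => if 1 ≤ g ∧ g ≤ (N : ℤ) then ((v g - v' g : ℝ) : ℂ) else 0 with hw
  have hwn : ∀ g, ‖w g‖ ≤ C1 := by
    intro g
    simp only [hw]
    split_ifs
    · rw [Complex.norm_real, Real.norm_eq_abs]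
      exact hwb g
    · rw [norm_zero]
      exact hC1.le
  set e : ℤ → ℂ := fun g => G.Lop 0 (G.rho : ℂ) N w g with he
  have hs : G.Solves 0 (G.rho : ℂ) N w e := by
    refine ⟨fun g hg => ?_, fun g _ => rfl⟩
    simp only [hw]
    rw [if_neg (by omega)]
  have hz : ‖(G.rho : ℂ)‖ ≤ G.rho := by
    rw [Complex.norm_real, Real.norm_eq_abs, abs_of_pos G.rho_pos]
  have hMd : ∀ f : ℤ → ℂ, Supp N f → ∑ g ∈ Icc (1 : ℤ) N, ∑ g' ∈ Icc (1 : ℤ) N,
      G.kk (g' - g) * ‖f g' - f g‖ ^ 2 ≤ (GW.Mom C θ + 1) * En N f := fun f hf =>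
    (GW.kk_diff hC hθ hθ1 hG hf).trans (mul_le_mul_of_nonneg_right (by linarith) (En_nonneg N f))
  have hζ : ∀ g ∈ Icc (1 : ℤ) N, ∀ g' ∈ Icc (1 : ℤ) N,
      |chi L g - chi L g'| * ‖w g'‖ ≤ BB C1 L (g' - g) g' := by
    intro g _ g' _
    unfold BB
    split_ifs with h
    · exact mul_le_mul (chi_lip hL g g') (hwn g') (norm_nonneg _) (by positivity)
    · push Not at h
      have h1 := le_abs_self (g' - g)
      have h2 := abs_nonneg (g' - g)
      rw [chi_zero hL (by omega), chi_zero hL (by omega), sub_self, abs_zero, zero_mul]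
  have h1 := GW.weighted hc (by linarith : 0 < GW.Mom C θ + 1) hCo le_rfl hz hs hMd (chi L)
    (BB C1 L) (BB_nonneg hC1 L) (BB_even C1 L) hζ
  rw [sub_self, norm_zero, zero_mul, zero_add] at h1
  -- the kernel term
  have h2 : ∑ g ∈ Icc (1 : ℤ) N, ∑ g' ∈ Icc (1 : ℤ) N, G.kk (g' - g) * BB C1 L (g' - g) g' ^ 2 ≤
      C1 ^ 2 * GW.Mom C θ / L := by
    refine (GW.sum_dg_le N (fun d g' => G.kk d * BB C1 L d g' ^ 2)
      (fun d g => mul_nonneg (G.kk_nonneg d) (sq_nonneg _))).trans ?_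
    have h3 : ∀ d ∈ Icc (-(N : ℤ)) N, ∑ g' ∈ Icc (1 : ℤ) N, G.kk d * BB C1 L d g' ^ 2 ≤
        C1 ^ 2 / L * (G.kk d * (|(d : ℝ)| + 2) ^ 4) := by
      intro d _
      rw [← Finset.mul_sum]
      refine (mul_le_mul_of_nonneg_left (BB_sum hL N d) (G.kk_nonneg d)).trans (le_of_eq ?_)
      ring
    refine (Finset.sum_le_sum h3).trans ?_
    rw [← Finset.mul_sum]
    refine (mul_le_mul_of_nonneg_left (GW.mom_le hC hθ hθ1 hG _) (by positivity)).trans
      (le_of_eq ?_)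
    ring
  -- the source
  have h4 : ∀ g ∈ Icc (1 : ℤ) N, g ≤ 2 * (L : ℤ) → ‖e g‖ ≤ (1 + C1) * δ := by
    intro g hg hgL
    rw [Finset.mem_Icc] at hg
    have h5 : e g = ((v g - v' g - ∑ g' ∈ Icc (1 : ℤ) N, G.Kc g g' * (v g' - v' g') : ℝ) : ℂ) := by
      simp only [he]
      unfold GapKernel.Lop GapKernel.Kap
      have h6 : w g = ((v g - v' g : ℝ) : ℂ) := by
        simp only [hw]
        rw [if_pos hg]
      have h7 : ∑ g' ∈ Icc (1 : ℤ) N, G.Kz 0 0 (G.rho : ℂ) g g' * w g' =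
          ((∑ g' ∈ Icc (1 : ℤ) N, G.Kc g g' * (v g' - v' g') : ℝ) : ℂ) := by
        rw [Complex.ofReal_sum]
        refine Finset.sum_congr rfl fun g' hg' => ?_
        rw [Finset.mem_Icc] at hg'
        rw [G.Kz_crit]
        simp only [hw]
        rw [if_pos hg', Complex.ofReal_mul]
      rw [h6, h7, ← Complex.ofReal_sub]
    have h8 : ∀ (H : GapKernel) (f : ℤ → ℝ), H.R ≤ G.R + G'.R →
        ∑ g' ∈ Icc (g - H.R) (g + H.R), H.Kc g g' * f g' =
          ∑ g' ∈ Icc (1 : ℤ) N, H.Kc g g' * f g' := by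
      intro H f hH
      have h9 : ∑ g' ∈ Icc (g - H.R) (g + H.R), H.Kc g g' * f g' =
          ∑ g' ∈ Icc (g - H.R) (g + H.R) ∪ Icc (1 : ℤ) N, H.Kc g g' * f g' := by
        refine Finset.sum_subset Finset.subset_union_left fun g' _ h => ?_
        rw [Finset.mem_Icc] at h
        rw [H.Kc_range g g' (by
          by_contra hcon
          push Not at hcon
          have := abs_le.1 hcon
          omega), zero_mul]
      have h10 : ∑ g' ∈ Icc (1 : ℤ) N, H.Kc g g' * f g' =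
          ∑ g' ∈ Icc (g - H.R) (g + H.R) ∪ Icc (1 : ℤ) N, H.Kc g g' * f g' := by
        refine Finset.sum_subset Finset.subset_union_right fun g' h' h => ?_
        rw [Finset.mem_Icc] at h
        rw [Finset.mem_union, Finset.mem_Icc, Finset.mem_Icc] at h'
        rw [H.Kc_out g g' (by omega), zero_mul]
      rw [h9, h10]
    have h11 := hv.eq g hg.1
    have h12 := hv'.eq g hg.1
    rw [h8 G v (by omega)] at h11
    rw [h8 G' v' (by omega)] at h12
    have h13 : v g - v' g - ∑ g' ∈ Icc (1 : ℤ) N, G.Kc g g' * (v g' - v' g') =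
        (s g - s' g) + ∑ g' ∈ Icc (1 : ℤ) N, (G.Kc g g' - G'.Kc g g') * v' g' := by
      rw [h11, h12]
      simp only [mul_sub, sub_mul, Finset.sum_sub_distrib]
      ring
    rw [h5, Complex.norm_real, Real.norm_eq_abs, h13]
    refine (abs_add_le _ _).trans ?_
    have h14 : |∑ g' ∈ Icc (1 : ℤ) N, (G.Kc g g' - G'.Kc g g') * v' g'| ≤ C1 * δ := by
      refine (Finset.abs_sum_le_sum_abs _ _).trans ?_
      have h15 : ∀ g' ∈ Icc (1 : ℤ) N, |(G.Kc g g' - G'.Kc g g') * v' g'| ≤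
          C1 * |G.Kc g g' - G'.Kc g g'| := by
        intro g' _
        rw [abs_mul, mul_comm, abs_of_nonneg (hb' g').1]
        exact mul_le_mul_of_nonneg_right (hb' g').2 (abs_nonneg _)
      refine (Finset.sum_le_sum h15).trans ?_
      rw [← Finset.mul_sum]
      exact mul_le_mul_of_nonneg_left (hker N g hg.1) hC1.le
    have h16 := hsrc g hg.1
    linarith
  have h5 : ∑ g ∈ Icc (1 : ℤ) N, chi L g ^ 2 * (‖w g‖ * ‖e g‖) ≤
      2 * L * (C1 * ((1 + C1) * δ)) := by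
    have h6 : ∀ g ∈ Icc (1 : ℤ) N, chi L g ^ 2 * (‖w g‖ * ‖e g‖) ≤
        if g ≤ 2 * (L : ℤ) then C1 * ((1 + C1) * δ) else 0 := by
      intro g hg
      split_ifs with h
      · have h7 : chi L g ^ 2 ≤ 1 := pow_le_one₀ (chi_nonneg L g) (chi_le L g)
        have h8 : ‖w g‖ * ‖e g‖ ≤ C1 * ((1 + C1) * δ) :=
          mul_le_mul (hwn g) (h4 g hg h) (norm_nonneg _) hC1.le
        have h9 : 0 ≤ ‖w g‖ * ‖e g‖ := by positivity
        calc chi L g ^ 2 * (‖w g‖ * ‖e g‖) ≤ 1 * (‖w g‖ * ‖e g‖) :=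
              mul_le_mul_of_nonneg_right h7 h9
          _ ≤ _ := by rw [one_mul]; exact h8
      · push Not at h
        rw [chi_zero hL h.le]
        simp
    refine (Finset.sum_le_sum h6).trans ?_
    rw [← Finset.sum_filter, Finset.sum_const, nsmul_eq_mul]
    have h7 : ((Icc (1 : ℤ) N).filter (fun g => g ≤ 2 * (L : ℤ))).card ≤ 2 * L := by
      have h8 : (Icc (1 : ℤ) N).filter (fun g => g ≤ 2 * (L : ℤ)) ⊆ Icc (1 : ℤ) (2 * (L : ℤ)) := by
        intro g hg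
        rw [Finset.mem_filter, Finset.mem_Icc] at hg
        rw [Finset.mem_Icc]
        exact ⟨hg.1.1, hg.2⟩
      have h9 := Finset.card_le_card h8
      rw [Int.card_Icc] at h9
      omega
    have h8 : ((((Icc (1 : ℤ) N).filter (fun g => g ≤ 2 * (L : ℤ))).card : ℕ) : ℝ) ≤ 2 * L := by
      exact_mod_cast h7
    exact mul_le_mul_of_nonneg_right h8 (by positivity)
  -- the energy
  set f : ℤ → ℂ := fun g => (chi L g : ℂ) * w g with hf
  have hsupp : Supp N f := fun g hg => by simp only [hf]; rw [hs.1 g hg, mul_zero]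
  have h6 := normsq_le_En hsupp g0 (by omega)
  have hg0r : (0 : ℝ) ≤ g0 := by exact_mod_cast (by omega : (0 : ℤ) ≤ g0)
  have h7 : ‖f g0‖ ^ 2 = (v g0 - v' g0) ^ 2 := by
    simp only [hf, hw]
    rw [chi_one hL hg0L, if_pos ⟨hg0, by omega⟩, Complex.ofReal_one, one_mul, Complex.norm_real,
      Real.norm_eq_abs, sq_abs]
  rw [h7] at h6
  have hP := Pot_nonneg le_rfl N f (eps := 0)
  have hcoef : 0 ≤ (GW.Mom C θ + 1) / (2 * c) + 1 / 2 := by positivity
  have h8 := mul_le_mul_of_nonneg_left h2 hcoef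
  have h9 : c / 2 * En N f ≤ 2 * L * (C1 * ((1 + C1) * δ)) +
      ((GW.Mom C θ + 1) / (2 * c) + 1 / 2) * (C1 ^ 2 * GW.Mom C θ / L) := by
    have h10 : c / 2 * (En N f + Pot 0 N f) = c / 2 * En N f + c / 2 * Pot 0 N f := by ring
    have h11 : 0 ≤ c / 2 * Pot 0 N f := mul_nonneg (by positivity) hP
    linarith
  calc c / 2 * (v g0 - v' g0) ^ 2 ≤ c / 2 * (g0 * En N f) :=
        mul_le_mul_of_nonneg_left h6 (by positivity)
    _ = g0 * (c / 2 * En N f) := by ring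
    _ ≤ _ := mul_le_mul_of_nonneg_left h9 hg0r

end ACVx

open ACVx in
/-- MODULE ACV -/
theorem acv (hC : GC_Stmt) : ACV_Stmt := by
  intro C θ C1 Cv hC0 hθ hθ1 hC1 G s v A hcls hsol hlim hcau
  obtain ⟨c, hc, hCo⟩ := hC C θ hC0 hθ hθ1
  have hMom := GW.mom_nonneg hC0 hθ
  set K : ℝ := ((GW.Mom C θ + 1) / (2 * c) + 1 / 2) * (C1 ^ 2 * GW.Mom C θ) with hK
  have hK0 : 0 ≤ K := by positivity
  have hCv : 0 ≤ Cv := by
    have := hlim 0 0
    simpa using this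
  -- one term of the sum
  have hpt : ∀ (n : ℕ) (g : ℕ), 1 ≤ g → |v n g - A n| ≤ Real.sqrt Cv / g := by
    intro n g hg
    have hg0 : (0 : ℝ) < g := by exact_mod_cast hg
    have h1 := hlim n g
    have h2 : ((g : ℤ) : ℝ) ^ 2 * (v n g - A n) ^ 2 ≤ Cv := by
      refine le_trans ?_ h1
      refine Finset.single_le_sum (f := fun g : ℤ => (g : ℝ) ^ 2 * (v n g - A n) ^ 2)
        (fun g _ => by positivity) ?_
      rw [Finset.mem_Icc]
      omega
    rw [le_div_iff₀ hg0]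
    apply Real.le_sqrt_of_sq_le
    rw [mul_pow, sq_abs]
    push_cast at h2
    linarith
  suffices hc2 : CauchySeq A by exact cauchySeq_tendsto_of_complete hc2
  rw [Metric.cauchySeq_iff]
  intro ε hε
  -- choice of the gap
  obtain ⟨g, hg⟩ := exists_nat_gt (8 * Real.sqrt Cv / ε)
  set g1 : ℕ := g + 1 with hg1
  have hg10 : (0 : ℝ) < g1 := by rw [hg1]; positivity
  have hA1 : Real.sqrt Cv / g1 ≤ ε / 8 := by
    rw [div_le_iff₀ hg10]
    have h1 : 8 * Real.sqrt Cv / ε < g1 := hg.trans (by rw [hg1]; push_cast; linarith)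
    rw [div_lt_iff₀ hε] at h1
    linarith
  -- choice of the cutoff
  obtain ⟨l, hl⟩ := exists_nat_gt (2 * g1 / c * K / (ε ^ 2 / 8))
  set L : ℕ := l + g1 with hLd
  have hL1 : 1 ≤ L := by omega
  have hL0 : (0 : ℝ) < L := by exact_mod_cast hL1
  have hKL : 2 * g1 / c * (K / L) ≤ ε ^ 2 / 8 := by
    have h1 : 2 * g1 / c * K / (ε ^ 2 / 8) < L := hl.trans_le (by rw [hLd]; push_cast; linarith)
    rw [div_lt_iff₀ (by positivity)] at h1
    have h2 : 2 * g1 / c * (K / L) = 2 * g1 / c * K / L := by ring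
    rw [h2, div_le_iff₀ hL0]
    linarith
  -- choice of the tolerance
  set D : ℝ := 2 * g1 / c * (2 * L * (C1 * (1 + C1))) with hD
  have hD0 : 0 < D := by positivity
  set δ : ℝ := ε ^ 2 / 8 / D with hδd
  have hδ : 0 < δ := by positivity
  obtain ⟨n1, hn1⟩ := hcau.ker δ hδ
  obtain ⟨n2, hn2⟩ := hcau.src δ hδ
  refine ⟨max n1 n2, fun n hn m hm => ?_⟩
  have hkey := key hC0 hθ hθ1 hC1 hc hδ.le (hcls n)
    (fun N eps z f h1 h2 h3 => hCo (G n) (hcls n) N eps z f h1 h2 h3) (hsol n) (hsol m)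
    (fun M g hg => hn1 n m ((le_max_left _ _).trans hn) ((le_max_left _ _).trans hm) M g hg)
    (fun g hg => hn2 n m ((le_max_right _ _).trans hn) ((le_max_right _ _).trans hm) g hg)
    hL1 (g0 := (g1 : ℤ)) (by omega) (by omega)
  have h1 : (v n g1 - v m g1) ^ 2 ≤ ε ^ 2 / 4 := by
    have h2 : (v n g1 - v m g1) ^ 2 ≤ 2 / c * (g1 * (2 * L * (C1 * ((1 + C1) * δ)) + K / L)) := by
      have h3 : (v n g1 - v m g1) ^ 2 = 2 / c * (c / 2 * (v n g1 - v m g1) ^ 2) := by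
        field_simp
      rw [h3]
      refine mul_le_mul_of_nonneg_left (hkey.trans (le_of_eq ?_)) (by positivity)
      rw [hK]
      push_cast
      ring
    have h4 : 2 / c * (g1 * (2 * L * (C1 * ((1 + C1) * δ)) + K / L)) =
        D * δ + 2 * g1 / c * (K / L) := by
      rw [hD]
      ring
    have h5 : D * δ = ε ^ 2 / 8 := by
      rw [hδd]
      field_simp
    rw [h4, h5] at h2
    linarith
  have h2 : |v n g1 - v m g1| ≤ ε / 2 := by
    apply abs_le_of_sq_le_sq _ (by positivity)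
    calc (v n g1 - v m g1) ^ 2 ≤ ε ^ 2 / 4 := h1
      _ = (ε / 2) ^ 2 := by ring
  have h3 := hpt n g1 (by omega)
  have h4 := hpt m g1 (by omega)
  rw [Real.dist_eq]
  have h5 : A n - A m = -(v n g1 - A n) + (v n g1 - v m g1) + (v m g1 - A m) := by ring
  rw [h5]
  calc |-(v n g1 - A n) + (v n g1 - v m g1) + (v m g1 - A m)|
      ≤ |-(v n g1 - A n)| + |v n g1 - v m g1| + |v m g1 - A m| := abs_add_three _ _ _
    _ ≤ ε / 8 + ε / 2 + ε / 8 := by
        rw [abs_neg]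
        exact add_le_add (add_le_add (h3.trans hA1) h2) (h4.trans hA1)
    _ < ε := by linarith

end Pool.Agent.KCG
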