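import Mathlib

/-!
# Convergence in law and a moment bound give convergence of moments (helper22)

`amg`: finite probability spaces `W n` with the uniform law and nonnegative functions `T n` on them,
divided by their means.
-/

set_option autoImplicit false

namespace Pool.Agent.KCS.AMG

open Finset Filter Topology MeasureTheory
open scoped ENNReal

/-- layer cake, natural exponents -/
lemma cake (μ : Measure ℝ) (h0 : μ (Set.Iio 0) = 0) (r : ℕ) (hr : 1 ≤ r) :
    ∫⁻ x, ENNReal.ofReal (x ^ r) ∂μ =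
      ENNReal.ofReal r * ∫⁻ t in Set.Ioi (0 : ℝ), μ (Set.Ioi t) * ENNReal.ofReal (t ^ (r - 1)) := by
  have h1 : 0 ≤ᵐ[μ] (fun x : ℝ => x) := by
    rw [Filter.EventuallyLE, ae_iff]
    have e : {a : ℝ | ¬ (0 : ℝ → ℝ) a ≤ a} = Set.Iio 0 := by
      ext a
      simp
    rw [e, h0]
  have h2 := lintegral_rpow_eq_lintegral_meas_lt_mul (μ := μ) (f := fun x : ℝ => x) h1
    aemeasurable_id (p := (r : ℝ)) (by exact_mod_cast hr)
  have e1 : ∫⁻ x, ENNReal.ofReal (x ^ r) ∂μ = ∫⁻ x, ENNReal.ofReal (x ^ (r : ℝ)) ∂μ := by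
    refine lintegral_congr fun x => ?_
    rw [Real.rpow_natCast]
  rw [e1, h2]
  congr 1
  refine setLIntegral_congr_fun measurableSet_Ioi fun t ht => ?_
  have e2 : {a : ℝ | t < a} = Set.Ioi t := rfl
  have e3 : t ^ ((r : ℝ) - 1) = t ^ (r - 1) := by
    rw [← Real.rpow_natCast, Nat.cast_sub hr, Nat.cast_one]
  show μ {a : ℝ | t < a} * ENNReal.ofReal (t ^ ((r : ℝ) - 1)) = _
  rw [e2, e3]

/-- Markov -/
lemma markov (μ : Measure ℝ) (s : ℕ) (t : ℝ) (ht : 0 < t) :
    μ (Set.Ioi t) * ENNReal.ofReal (t ^ s) ≤ ∫⁻ x, ENNReal.ofReal (x ^ s) ∂μ := by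
  calc μ (Set.Ioi t) * ENNReal.ofReal (t ^ s)
      = ∫⁻ _ in Set.Ioi t, ENNReal.ofReal (t ^ s) ∂μ := by
        rw [setLIntegral_const, mul_comm]
    _ ≤ ∫⁻ x in Set.Ioi t, ENNReal.ofReal (x ^ s) ∂μ := by
        refine setLIntegral_mono' measurableSet_Ioi fun x hx => ?_
        exact ENNReal.ofReal_le_ofReal (pow_le_pow_left₀ ht.le (le_of_lt hx) s)
    _ ≤ _ := setLIntegral_le_lintegral _ _

/-- the dominating function -/
noncomputable def bd (C : ℝ≥0∞) (t : ℝ) : ℝ≥0∞ :=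
  if t ≤ 1 then 1 else C * ENNReal.ofReal (t ^ (-2 : ℝ))

lemma bd_fin (C : ℝ≥0∞) (hC : C ≠ ∞) : ∫⁻ t in Set.Ioi (0 : ℝ), bd C t ≠ ∞ := by
  have e : Set.Ioi (0 : ℝ) = Set.Ioc 0 1 ∪ Set.Ioi 1 := by
    rw [Set.Ioc_union_Ioi_eq_Ioi zero_le_one]
  rw [e, lintegral_union measurableSet_Ioi (Set.Ioc_disjoint_Ioi le_rfl)]
  have h1 : ∫⁻ t in Set.Ioc (0 : ℝ) 1, bd C t = 1 := by
    have : ∫⁻ t in Set.Ioc (0 : ℝ) 1, bd C t = ∫⁻ _ in Set.Ioc (0 : ℝ) 1, 1 := by
      refine setLIntegral_congr_fun measurableSet_Ioc fun t ht => ?_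
      simp only [bd, if_pos ht.2]
    rw [this, setLIntegral_const, Real.volume_Ioc]
    simp
  have h2 : ∫⁻ t in Set.Ioi (1 : ℝ), bd C t =
      C * ∫⁻ t in Set.Ioi (1 : ℝ), ENNReal.ofReal (t ^ (-2 : ℝ)) := by
    rw [← lintegral_const_mul' _ _ hC]
    refine setLIntegral_congr_fun measurableSet_Ioi fun t ht => ?_
    have : ¬ t ≤ 1 := not_le.2 ht
    simp only [bd, if_neg this]
  have h3 : ∫⁻ t in Set.Ioi (1 : ℝ), ENNReal.ofReal (t ^ (-2 : ℝ)) ≠ ∞ := by
    have h4 : IntegrableOn (fun t : ℝ => t ^ (-2 : ℝ)) (Set.Ioi 1) :=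
      integrableOn_Ioi_rpow_of_lt (by norm_num) zero_lt_one
    exact (h4.lintegral_lt_top).ne
  rw [h1, h2]
  exact ENNReal.add_ne_top.2 ⟨ENNReal.one_ne_top, ENNReal.mul_ne_top hC h3⟩

lemma le_bd (μ : Measure ℝ) (hμ : μ Set.univ ≤ 1) (r : ℕ) (hr : 1 ≤ r) (C : ℝ≥0∞)
    (hC : ∫⁻ x, ENNReal.ofReal (x ^ (r + 1)) ∂μ ≤ C) (t : ℝ) (ht : 0 < t) :
    μ (Set.Ioi t) * ENNReal.ofReal (t ^ (r - 1)) ≤ bd C t := by
  unfold bd
  split_ifs with h
  · calc μ (Set.Ioi t) * ENNReal.ofReal (t ^ (r - 1)) ≤ 1 * 1 := by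
          refine mul_le_mul' ((measure_mono (Set.subset_univ _)).trans hμ) ?_
          rw [← ENNReal.ofReal_one]
          exact ENNReal.ofReal_le_ofReal (pow_le_one₀ ht.le h)
      _ = 1 := one_mul 1
  · have h1 := (markov μ (r + 1) t ht).trans hC
    have e : t ^ (r - 1) = t ^ (r + 1) * t ^ (-2 : ℝ) := by
      rw [← Real.rpow_natCast, ← Real.rpow_natCast, ← Real.rpow_add ht]
      congr 1
      rw [Nat.cast_sub hr]
      push_cast
      ring
    rw [e, ENNReal.ofReal_mul (by positivity), ← mul_assoc]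
    exact mul_le_mul' h1 le_rfl

/-- the atoms form a null set -/
lemma ae_not_atom (ν : Measure ℝ) [IsProbabilityMeasure ν] :
    ∀ᵐ x : ℝ, ν {x} = 0 := by
  have h1 : Set.Countable {x : ℝ | 0 < ν {x}} :=
    Measure.countable_meas_pos_of_disjoint_iUnion (fun x => measurableSet_singleton x)
      (fun x y hxy => Set.disjoint_singleton.2 hxy)
  rw [ae_iff]
  refine measure_mono_null (fun x hx => ?_) (h1.measure_zero volume)
  exact pos_iff_ne_zero.2 hx

lemma exists_not_atom (ν : Measure ℝ) [IsProbabilityMeasure ν] (a b : ℝ) (hab : a < b) :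
    ∃ x, a < x ∧ x < b ∧ ν {x} = 0 := by
  by_contra hcon
  push Not at hcon
  have h1 := ae_not_atom ν
  rw [ae_iff] at h1
  have h2 : volume (Set.Ioo a b) ≤ volume {x : ℝ | ¬ ν {x} = 0} :=
    measure_mono fun x hx => hcon x hx.1 hx.2
  rw [h1, Real.volume_Ioo] at h2
  have h3 : ENNReal.ofReal (b - a) = 0 := le_antisymm h2 zero_le
  rw [ENNReal.ofReal_eq_zero] at h3
  linarith

lemma key (ν : Measure ℝ) [IsProbabilityMeasure ν] (hν : ν (Set.Iio 0) = 0) (μ : ℕ → Measure ℝ)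
    (hμ : ∀ᶠ n in atTop, μ n Set.univ ≤ 1 ∧ μ n (Set.Iio 0) = 0)
    (hconv : ∀ x : ℝ, 0 < x → ν {x} = 0 →
      Tendsto (fun n => μ n (Set.Ioi x)) atTop (𝓝 (ν (Set.Ioi x))))
    (r : ℕ) (hr : 1 ≤ r) (C : ℝ≥0∞) (hCt : C ≠ ∞)
    (hC : ∀ᶠ n in atTop, ∫⁻ x, ENNReal.ofReal (x ^ (r + 1)) ∂(μ n) ≤ C) :
    ∫⁻ x, ENNReal.ofReal (x ^ r) ∂ν ≠ ∞ ∧
      Tendsto (fun n => ∫⁻ x, ENNReal.ofReal (x ^ r) ∂(μ n)) atTop
        (𝓝 (∫⁻ x, ENNReal.ofReal (x ^ r) ∂ν)) := by
  have hanti : ∀ m : Measure ℝ, Measurable (fun t : ℝ => m (Set.Ioi t)) := by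
    intro m
    have : Antitone (fun t : ℝ => m (Set.Ioi t)) := fun a b hab =>
      measure_mono (Set.Ioi_subset_Ioi hab)
    exact this.measurable
  have hmeas : ∀ m : Measure ℝ, Measurable
      (fun t : ℝ => m (Set.Ioi t) * ENNReal.ofReal (t ^ (r - 1))) := by
    intro m
    exact (hanti m).mul (by fun_prop)
  have hlim : Tendsto (fun n => ∫⁻ t in Set.Ioi (0 : ℝ),
      μ n (Set.Ioi t) * ENNReal.ofReal (t ^ (r - 1))) atTop
      (𝓝 (∫⁻ t in Set.Ioi (0 : ℝ), ν (Set.Ioi t) * ENNReal.ofReal (t ^ (r - 1)))) := by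
    refine tendsto_lintegral_filter_of_dominated_convergence (bd C)
      (Eventually.of_forall fun n => hmeas (μ n)) ?_ (bd_fin C hCt) ?_
    · filter_upwards [hμ, hC] with n h1 h2
      rw [ae_restrict_iff' measurableSet_Ioi]
      exact Eventually.of_forall fun t ht => le_bd (μ n) h1.1 r hr C h2 t ht
    · rw [ae_restrict_iff' measurableSet_Ioi]
      filter_upwards [ae_not_atom ν] with t h1 ht
      exact ENNReal.Tendsto.mul_const (hconv t ht h1) (Or.inr ENNReal.ofReal_ne_top)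
  have hle : ∫⁻ t in Set.Ioi (0 : ℝ), ν (Set.Ioi t) * ENNReal.ofReal (t ^ (r - 1)) ≤
      ∫⁻ t in Set.Ioi (0 : ℝ), bd C t := by
    refine le_of_tendsto hlim ?_
    filter_upwards [hμ, hC] with n h1 h2
    exact setLIntegral_mono' measurableSet_Ioi fun t ht => le_bd (μ n) h1.1 r hr C h2 t ht
  refine ⟨?_, ?_⟩
  · rw [cake ν hν r hr]
    exact ENNReal.mul_ne_top ENNReal.ofReal_ne_top
      (ne_top_of_le_ne_top (bd_fin C hCt) hle)
  · rw [cake ν hν r hr]
    have h3 := ENNReal.Tendsto.const_mul (a := ENNReal.ofReal r) hlim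
      (Or.inr ENNReal.ofReal_ne_top)
    refine h3.congr' ?_
    filter_upwards [hμ] with n h1
    rw [cake (μ n) h1.2 r hr]

/-- the law of `X` for the uniform law on a finite type -/
noncomputable def law {V : Type} [Fintype V] (X : V → ℝ) : Measure ℝ :=
  ((Fintype.card V : ℝ≥0∞))⁻¹ • ∑ y : V, Measure.dirac (X y)

lemma law_lintegral {V : Type} [Fintype V] (X : V → ℝ) (f : ℝ → ℝ≥0∞) (hf : Measurable f) :
    ∫⁻ x, f x ∂(law X) = ((Fintype.card V : ℝ≥0∞))⁻¹ * ∑ y : V, f (X y) := by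
  unfold law
  rw [lintegral_smul_measure, lintegral_finsetSum_measure, smul_eq_mul]
  congr 1
  exact Finset.sum_congr rfl fun y _ => lintegral_dirac' _ hf

lemma law_apply {V : Type} [Fintype V] (X : V → ℝ) (s : Set ℝ) (hs : MeasurableSet s)
    [DecidablePred fun y => X y ∈ s] :
    law X s = ((Fintype.card V : ℝ≥0∞))⁻¹ * ((univ.filter fun y => X y ∈ s).card : ℝ≥0∞) := by
  unfold law
  rw [Measure.smul_apply, Measure.finsetSum_apply, smul_eq_mul]
  congr 1
  rw [Finset.card_filter, Nat.cast_sum]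
  refine Finset.sum_congr rfl fun y _ => ?_
  rw [Measure.dirac_apply' _ hs]
  by_cases h : X y ∈ s
  · simp [h]
  · simp [h]

open Classical in
theorem amg (ν : Measure ℝ) [IsProbabilityMeasure ν] (W : ℕ → Type) [∀ n, Fintype (W n)]
    (T : ∀ n, W n → ℝ) (hT : ∀ᶠ n in atTop, ∀ y, 0 ≤ T n y)
    (hpos : ∀ᶠ n in atTop, 0 < ∑ y, T n y)
    (hconv : ∀ x : ℝ, ν {x} = 0 → Tendsto (fun n : ℕ =>
      ((univ.filter fun y : W n =>
        T n y * (Fintype.card (W n) : ℝ) ≤ x * ∑ y' : W n, T n y').card : ℝ) /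
          (Fintype.card (W n) : ℝ)) atTop (𝓝 (ν (Set.Iic x)).toReal))
    (r : ℕ) (C : ℝ) (hC : ∀ᶠ n in atTop,
      ((∑ y, T n y ^ (r + 1)) / (Fintype.card (W n) : ℝ)) /
        ((∑ y, T n y) / (Fintype.card (W n) : ℝ)) ^ (r + 1) ≤ C) :
    Integrable (fun x : ℝ => x ^ r) ν ∧
      Tendsto (fun n : ℕ => ((∑ y, T n y ^ r) / (Fintype.card (W n) : ℝ)) /
        ((∑ y, T n y) / (Fintype.card (W n) : ℝ)) ^ r) atTop (𝓝 (∫ x, x ^ r ∂ν)) := by
  -- positivity of the cardinality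
  have hcard : ∀ᶠ n in atTop, 0 < (Fintype.card (W n) : ℝ) := by
    filter_upwards [hpos] with n hn
    have : Nonempty (W n) := by
      by_contra h
      rw [not_nonempty_iff] at h
      simp at hn
    exact_mod_cast Fintype.card_pos
  rcases Nat.eq_zero_or_pos r with rfl | hr
  · refine ⟨by simp, ?_⟩
    simp only [pow_zero, integral_const, smul_eq_mul, mul_one, div_one, Finset.sum_const,
      Finset.card_univ, nsmul_eq_mul, probReal_univ]
    refine tendsto_const_nhds.congr' ?_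
    filter_upwards [hcard] with n hn
    rw [div_self hn.ne']
  -- the normalised variables
  set X : ∀ n, W n → ℝ := fun n y => T n y / ((∑ y', T n y') / (Fintype.card (W n) : ℝ)) with hX
  have hX0 : ∀ᶠ n in atTop, ∀ y, 0 ≤ X n y := by
    filter_upwards [hT, hpos, hcard] with n h1 h2 h3 y
    exact div_nonneg (h1 y) (div_pos h2 h3).le
  have hXle : ∀ᶠ n in atTop, ∀ y x, (X n y ≤ x ↔
      T n y * (Fintype.card (W n) : ℝ) ≤ x * ∑ y' : W n, T n y') := by
    filter_upwards [hpos, hcard] with n h2 h3 y x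
    simp only [hX]
    rw [div_le_iff₀ (div_pos h2 h3), mul_div_assoc', le_div_iff₀ h3]
  have hmom : ∀ k : ℕ, ∀ᶠ n in atTop, ∫⁻ x, ENNReal.ofReal (x ^ k) ∂(law (X n)) =
      ENNReal.ofReal (((∑ y, T n y ^ k) / (Fintype.card (W n) : ℝ)) /
        ((∑ y, T n y) / (Fintype.card (W n) : ℝ)) ^ k) := by
    intro k
    filter_upwards [hX0, hcard, hT] with n h1 h3 h4
    rw [law_lintegral _ _ (by fun_prop), ← ENNReal.ofReal_sum_of_nonneg
      (fun y _ => pow_nonneg (h1 y) k), ← ENNReal.ofReal_natCast, ← ENNReal.ofReal_inv_of_pos h3,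
      ← ENNReal.ofReal_mul (inv_nonneg.2 h3.le)]
    congr 1
    simp only [hX, div_pow]
    rw [← Finset.sum_div, inv_mul_eq_div, div_right_comm]
  have hlaw : ∀ᶠ n in atTop, law (X n) Set.univ ≤ 1 ∧ law (X n) (Set.Iio 0) = 0 := by
    filter_upwards [hX0, hcard] with n h1 h3
    have h4 : (Fintype.card (W n) : ℝ≥0∞) ≠ 0 := by
      intro h0
      rw [Nat.cast_eq_zero] at h0
      rw [h0, Nat.cast_zero] at h3
      exact lt_irrefl _ h3
    constructor
    · rw [law_apply _ _ MeasurableSet.univ]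
      simp only [Set.mem_univ, Finset.filter_true, Finset.card_univ]
      rw [ENNReal.inv_mul_cancel h4 (ENNReal.natCast_ne_top _)]
    · rw [law_apply _ _ measurableSet_Iio]
      have : (univ.filter fun y => X n y ∈ Set.Iio (0 : ℝ)) = ∅ := by
        rw [Finset.filter_eq_empty_iff]
        intro y _ hy
        exact absurd (h1 y) (not_le.2 hy)
      rw [this]
      simp
  have hcdf : ∀ x : ℝ, ∀ᶠ n in atTop, law (X n) (Set.Ioi x) =
      ENNReal.ofReal (1 - ((univ.filter fun y : W n =>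
        T n y * (Fintype.card (W n) : ℝ) ≤ x * ∑ y' : W n, T n y').card : ℝ) /
          (Fintype.card (W n) : ℝ)) := by
    intro x
    filter_upwards [hXle, hcard] with n h1 h3
    rw [law_apply _ _ measurableSet_Ioi]
    have e1 : (univ.filter fun y : W n =>
        T n y * (Fintype.card (W n) : ℝ) ≤ x * ∑ y' : W n, T n y') =
        univ.filter fun y => ¬ X n y ∈ Set.Ioi x := by
      ext y
      simp only [Finset.mem_filter, Finset.mem_univ, true_and, Set.mem_Ioi, not_lt]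
      exact (h1 y x).symm
    have e2 := Finset.card_filter_add_card_filter_not (s := (univ : Finset (W n)))
      (fun y => X n y ∈ Set.Ioi x)
    rw [Finset.card_univ] at e2
    rw [e1]
    have e3 : ((univ.filter fun y => X n y ∈ Set.Ioi x).card : ℝ) +
        ((univ.filter fun y => ¬ X n y ∈ Set.Ioi x).card : ℝ) = (Fintype.card (W n) : ℝ) := by
      exact_mod_cast e2
    have e4 : 1 - ((univ.filter fun y => ¬ X n y ∈ Set.Ioi x).card : ℝ) /
        (Fintype.card (W n) : ℝ) = (Fintype.card (W n) : ℝ)⁻¹ *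
          ((univ.filter fun y => X n y ∈ Set.Ioi x).card : ℝ) := by
      rw [← e3] at h3 ⊢
      field_simp
      ring
    rw [e4, ENNReal.ofReal_mul (inv_nonneg.2 h3.le), ENNReal.ofReal_inv_of_pos h3,
      ENNReal.ofReal_natCast, ENNReal.ofReal_natCast]
  -- `ν` lives on the nonnegative numbers
  have hν0 : ∀ x : ℝ, x < 0 → ν (Set.Iic x) = 0 := by
    intro x hx
    obtain ⟨z, hz1, hz2, hz3⟩ := exists_not_atom ν x 0 hx
    have h1 := hconv z hz3
    have h2 : Tendsto (fun n : ℕ => ((univ.filter fun y : W n =>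
        T n y * (Fintype.card (W n) : ℝ) ≤ z * ∑ y' : W n, T n y').card : ℝ) /
          (Fintype.card (W n) : ℝ)) atTop (𝓝 0) := by
      refine tendsto_const_nhds.congr' ?_
      filter_upwards [hT, hpos, hcard] with n h4 h5 h6
      have : (univ.filter fun y : W n =>
          T n y * (Fintype.card (W n) : ℝ) ≤ z * ∑ y' : W n, T n y') = ∅ := by
        rw [Finset.filter_eq_empty_iff]
        intro y _ hy
        have h7 : 0 ≤ T n y * (Fintype.card (W n) : ℝ) := mul_nonneg (h4 y) h6.le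
        have h8 : z * ∑ y' : W n, T n y' < 0 := mul_neg_of_neg_of_pos hz2 h5
        linarith
      rw [this]
      simp
    have h3 := tendsto_nhds_unique h1 h2
    have h4 : ν (Set.Iic z) = 0 := by
      rcases (ENNReal.toReal_eq_zero_iff _).1 h3 with h | h
      · exact h
      · exact absurd h (measure_ne_top ν _)
    exact measure_mono_null (Set.Iic_subset_Iic.2 hz1.le) h4
  have hν : ν (Set.Iio 0) = 0 := by
    have e : Set.Iio (0 : ℝ) = ⋃ k : ℕ, Set.Iic (-(1 / ((k : ℝ) + 1))) := by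
      ext x
      simp only [Set.mem_Iio, Set.mem_iUnion, Set.mem_Iic]
      constructor
      · intro hx
        obtain ⟨k, hk⟩ := exists_nat_one_div_lt (neg_pos.2 hx)
        exact ⟨k, by linarith⟩
      · rintro ⟨k, hk⟩
        have : 0 < 1 / ((k : ℝ) + 1) := by positivity
        linarith
    rw [e, measure_iUnion_null_iff]
    intro k
    apply hν0
    have : 0 < 1 / ((k : ℝ) + 1) := by positivity
    linarith
  obtain ⟨hfin, hlim⟩ := key ν hν (fun n => law (X n)) hlaw (by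
    intro x hx hx2
    have h1 := hconv x hx2
    have h2 : ν (Set.Ioi x) = ENNReal.ofReal (1 - (ν (Set.Iic x)).toReal) := by
      rw [← Set.compl_Iic, prob_compl_eq_one_sub measurableSet_Iic,
        ENNReal.ofReal_sub _ ENNReal.toReal_nonneg, ENNReal.ofReal_one,
        ENNReal.ofReal_toReal (measure_ne_top ν _)]
    rw [h2]
    refine (ENNReal.tendsto_ofReal (tendsto_const_nhds.sub h1)).congr' ?_
    filter_upwards [hcdf x] with n hn
    exact hn.symm) r hr (ENNReal.ofReal C) ENNReal.ofReal_ne_top (by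
    filter_upwards [hmom (r + 1), hC] with n h1 h2
    rw [h1]
    exact ENNReal.ofReal_le_ofReal h2)
  have hnn : 0 ≤ᵐ[ν] fun x : ℝ => x ^ r := by
    have h1 : ∀ᵐ x ∂ν, 0 ≤ x := by
      rw [ae_iff]
      have : {a : ℝ | ¬ 0 ≤ a} = Set.Iio 0 := by
        ext a
        simp
      rw [this, hν]
    filter_upwards [h1] with x hx
    exact pow_nonneg hx r
  have hint : Integrable (fun x : ℝ => x ^ r) ν := by
    refine ⟨by fun_prop, ?_⟩
    rw [hasFiniteIntegral_iff_ofReal hnn]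
    exact hfin.lt_top
  refine ⟨hint, ?_⟩
  rw [integral_eq_lintegral_of_nonneg_ae hnn hint.1]
  have h5 := (ENNReal.tendsto_toReal hfin).comp hlim
  refine h5.congr' ?_
  filter_upwards [hmom r, hT, hcard, hpos] with n h1 h2 h3 h4
  show (∫⁻ x, ENNReal.ofReal (x ^ r) ∂(law (X n))).toReal = _
  rw [h1, ENNReal.toReal_ofReal]
  exact div_nonneg (div_nonneg (Finset.sum_nonneg fun y _ => pow_nonneg (h2 y) r) h3.le)
    (pow_nonneg (div_pos h4 h3).le r)

end Pool.Agent.KCS.AMG
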