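import Pool.Agent.KCS.StC

/-!
# CMO: for fixed `k` all moments converge
-/

set_option autoImplicit false

namespace Pool.Agent.KCC

open Finset Filter Topology MeasureTheory Pool.Agent.Lib27 Pool.Agent.AreaLaw

namespace CMOP

lemma area_nonneg (n : ℕ) (s : Fin (2 * n) → Fin 4) : 0 ≤ area n s := by
  unfold area
  positivity

lemma pow_le (x : ℝ) (r : ℕ) : x ^ r ≤ 1 + x ^ (2 * r) := by
  have h : x ^ (2 * r) = (x ^ r) ^ 2 := by rw [← pow_mul, mul_comm]
  rw [h]
  nlinarith [sq_nonneg (x ^ r - 1)]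

/-- the bound of the normalised moment -/
lemma bound {n r : ℕ} {F : Finset (Fin (2 * n) → Fin 4)} {u b C1 : ℝ} (hu : 0 < u) (hb : 0 < b)
    (hF : 0 < (F.card : ℝ))
    (hm : b / 2 * u ≤ (∑ s ∈ F, area n s) / (F.card : ℝ))
    (hM : ∑ s ∈ F, area n s ^ (2 * r) ≤ C1 * u ^ (2 * r) * (F.card : ℝ)) :
    areaMoment n F r ≤ (1 + C1) / (b / 2) ^ r := by
  have h1 : ∀ s, area n s ^ r ≤ u ^ r + area n s ^ (2 * r) / u ^ r := by
    intro s
    have e1 := pow_le (area n s / u) r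
    rw [div_pow, div_pow] at e1
    have hur : 0 < u ^ r := by positivity
    have e2 := mul_le_mul_of_nonneg_left e1 hur.le
    have e3 : u ^ r * (area n s ^ r / u ^ r) = area n s ^ r := by field_simp
    have e4 : u ^ r * (1 + area n s ^ (2 * r) / u ^ (2 * r)) =
        u ^ r + area n s ^ (2 * r) / u ^ r := by
      have : u ^ (2 * r) = u ^ r * u ^ r := by rw [two_mul, pow_add]
      rw [this]
      field_simp
    rw [e3, e4] at e2
    exact e2
  have h2 : ∑ s ∈ F, area n s ^ r ≤ (1 + C1) * u ^ r * F.card := by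
    refine (Finset.sum_le_sum fun s _ => h1 s).trans ?_
    rw [Finset.sum_add_distrib, Finset.sum_const, nsmul_eq_mul, ← Finset.sum_div]
    have hur : 0 < u ^ r := by positivity
    have e1 : (∑ s ∈ F, area n s ^ (2 * r)) / u ^ r ≤ C1 * u ^ (2 * r) * F.card / u ^ r :=
      div_le_div_of_nonneg_right hM hur.le
    have e2 : C1 * u ^ (2 * r) * F.card / u ^ r = C1 * u ^ r * F.card := by
      have : u ^ (2 * r) = u ^ r * u ^ r := by rw [two_mul, pow_add]
      rw [this]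
      field_simp
    rw [e2] at e1
    linarith
  have hbu : 0 < b / 2 * u := by positivity
  have h3 : (b / 2 * u) ^ r ≤ ((∑ s ∈ F, area n s) / (F.card : ℝ)) ^ r :=
    pow_le_pow_left₀ hbu.le hm r
  have h4 : (∑ s ∈ F, area n s ^ r) / (F.card : ℝ) ≤ (1 + C1) * u ^ r := by
    rw [div_le_iff₀ hF]
    exact h2
  have h5 : 0 ≤ (∑ s ∈ F, area n s ^ r) / (F.card : ℝ) :=
    div_nonneg (Finset.sum_nonneg fun s _ => pow_nonneg (area_nonneg n s) r) hF.le
  unfold areaMoment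
  calc _ ≤ ((∑ s ∈ F, area n s ^ r) / (F.card : ℝ)) / (b / 2 * u) ^ r :=
        div_le_div_of_nonneg_left h5 (by positivity) h3
    _ ≤ ((1 + C1) * u ^ r) / (b / 2 * u) ^ r := div_le_div_of_nonneg_right h4 (by positivity)
    _ = (1 + C1) / (b / 2) ^ r := by
        rw [mul_pow]
        field_simp

end CMOP

theorem cmo (hC : CNX_Stmt) (hM : MCC_Stmt) (hA : AMO_Stmt) (hT : TAIL_Stmt) : CMO_Stmt := by
  intro ν hν k hk hcdf r
  obtain ⟨q, eta, C0, hTP⟩ := hT k hk
  obtain ⟨a, b, ha, hb, _, hmean⟩ := hC k q eta C0 hk hTP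
  obtain ⟨C1, hC1⟩ := hM k (r + 1) q eta C0 hk (by omega) hTP
  have hev : ∀ᶠ n : ℕ in atTop, b / 2 < ((∑ s ∈ ColConvex k n, area n s) /
      ((ColConvex k n).card : ℝ)) / ((n : ℝ) * Real.sqrt n) :=
    hmean.eventually (lt_mem_nhds (by linarith))
  have hkey : ∀ᶠ n : ℕ in atTop, 0 < (n : ℝ) * Real.sqrt n ∧
      b / 2 * ((n : ℝ) * Real.sqrt n) ≤
        (∑ s ∈ ColConvex k n, area n s) / ((ColConvex k n).card : ℝ) := by
    filter_upwards [hev, eventually_gt_atTop 0] with n h1 h2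
    have hn : (0 : ℝ) < n := by exact_mod_cast h2
    have hu : 0 < (n : ℝ) * Real.sqrt n := mul_pos hn (Real.sqrt_pos.mpr hn)
    exact ⟨hu, ((lt_div_iff₀ hu).mp h1).le⟩
  have hpos : ∀ n : ℕ, 0 < (n : ℝ) * Real.sqrt n → b / 2 * ((n : ℝ) * Real.sqrt n) ≤
        (∑ s ∈ ColConvex k n, area n s) / ((ColConvex k n).card : ℝ) →
      0 < ((ColConvex k n).card : ℝ) ∧ 0 < ∑ s ∈ ColConvex k n, area n s := by
    intro n h1 h2
    have h3 : 0 < (∑ s ∈ ColConvex k n, area n s) / ((ColConvex k n).card : ℝ) :=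
      lt_of_lt_of_le (by positivity) h2
    have h4 : (0 : ℝ) ≤ ((ColConvex k n).card : ℝ) := Nat.cast_nonneg _
    have h5 : 0 < ((ColConvex k n).card : ℝ) := by
      rcases h4.lt_or_eq with h | h
      · exact h
      · rw [← h, div_zero] at h3
        exact absurd h3 (lt_irrefl _)
    exact ⟨h5, (div_pos_iff_of_pos_right h5).mp h3⟩
  refine hA ν hν (fun n => ColConvex k n) ?_ hcdf r ((1 + C1) / (b / 2) ^ (r + 1)) ?_
  · filter_upwards [hkey] with n h
    exact (hpos n h.1 h.2).2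
  · filter_upwards [hkey, hC1] with n h h1
    refine CMOP.bound h.1 hb (hpos n h.1 h.2).1 h.2 ?_
    refine h1.trans (le_of_eq ?_)
    have e1 : ((n : ℝ) * Real.sqrt n) ^ (2 * (r + 1)) = (n : ℝ) ^ (3 * (r + 1)) := by
      rw [pow_mul, pow_mul]
      congr 1
      rw [mul_pow, Real.sq_sqrt (Nat.cast_nonneg n)]
      ring
    rw [e1]

end Pool.Agent.KCC
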