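import Pool.Agent.KCS.StC
import Pool.Agent.KCC.Cnt

/-! MODULE KCS_CNX: number of polygons and mean area with constants. -/

set_option autoImplicit false

namespace Pool.Agent.KCC

open Finset Filter Topology MeasureTheory Pool.Agent.Lib27 Pool.Agent.AreaLaw

namespace CNXaux

/-- exponential decay against `n ^ 2` -/
lemma tendsto_exp {eta : ℝ} (h : 0 < eta) (C : ℝ) :
    Tendsto (fun n : ℕ => C * ((n : ℝ) ^ 2 * ((1 + eta)⁻¹) ^ n)) atTop (𝓝 0) := by
  have h1 : |(1 + eta)⁻¹| < 1 := by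
    rw [abs_of_pos (by positivity)]
    exact inv_lt_one_of_one_lt₀ (by linarith)
  have h2 := (tendsto_pow_const_mul_const_pow_of_abs_lt_one 2 h1).const_mul C
  rw [mul_zero] at h2
  exact h2

/-- the words without even cut are negligible -/
lemma nocut_lim {k : ℕ} {q eta C0 : ℝ} (hTP : TP k q eta C0) :
    Tendsto (fun n : ℕ => (n : ℝ) * ((NoCut k n).card : ℝ) * q ^ n) atTop (𝓝 0) := by
  obtain ⟨hq, heta, hC0, -, -, -, -, hN⟩ := hTP
  refine squeeze_zero' (Eventually.of_forall fun n => by positivity) ?_ (tendsto_exp heta C0)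
  filter_upwards [eventually_ge_atTop 1] with n hn
  have h1 := hN n hn
  rw [mul_pow] at h1
  have h2 : (0 : ℝ) < (1 + eta) ^ n := by positivity
  have h3 : ((NoCut k n).card : ℝ) * q ^ n ≤ C0 * n * ((1 + eta) ^ n)⁻¹ := by
    rw [← div_eq_mul_inv, le_div_iff₀ h2]
    calc ((NoCut k n).card : ℝ) * q ^ n * (1 + eta) ^ n
        = ((NoCut k n).card : ℝ) * ((1 + eta) ^ n * q ^ n) := by ring
      _ ≤ C0 * n := h1
  rw [inv_pow]
  calc (n : ℝ) * ((NoCut k n).card : ℝ) * q ^ n = n * (((NoCut k n).card : ℝ) * q ^ n) := by ring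
    _ ≤ n * (C0 * n * ((1 + eta) ^ n)⁻¹) := mul_le_mul_of_nonneg_left h3 (by positivity)
    _ = C0 * ((n : ℝ) ^ 2 * ((1 + eta) ^ n)⁻¹) := by ring

lemma sqrt_le_self {n : ℕ} (hn : 1 ≤ n) : Real.sqrt n ≤ n := by
  have h1 : (1 : ℝ) ≤ n := by exact_mod_cast hn
  rw [Real.sqrt_le_left (by linarith)]
  nlinarith

end CNXaux

open CNT CNXaux

/-- CNX. -/
theorem cnx (hO : OMX_Stmt) (hD : DTX_Stmt) (hP : PSM_Stmt) (hN : NEAR_Stmt) (hTR : TR_Stmt)
    (hV : VCR_Stmt) (hPOS : POS_Stmt) : CNX_Stmt := by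
  have _ := hPOS
  intro k q eta C0 hk hTP
  have hq : 0 < q := hTP.1
  obtain ⟨a, b, ha, hb, hlim1, hlim2⟩ := hO k q eta C0 hk hTP
  obtain ⟨C, θ, hC, hθ, hθ1, N0, hN0, hDn⟩ := hD k q eta C0 hk hTP
  have hR : ∀ n : ℕ, ∃ r : ℝ, N0 ≤ n → 0 < r ∧ r ≤ 1 ∧ ∑ p ∈ Pc k n, r ^ hl p = 1 ∧
      Tails C θ k n r := by
    intro n
    by_cases hn : N0 ≤ n
    · obtain ⟨D, -⟩ := hDn n hn
      exact ⟨D.G.rho, fun _ => ⟨D.G.rho_pos, D.rho_le, D.crit, D.tails⟩⟩
    · exact ⟨0, fun h => absurd h hn⟩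
  choose rho hrho using hR
  obtain ⟨C5, hC5, hNear⟩ := hN C θ hC hθ hθ1
  obtain ⟨-, hPr⟩ := hP k q eta C0 hk hTP
  obtain ⟨hqr, -, -⟩ := hPr rho (by
    filter_upwards [eventually_ge_atTop N0] with n hn
    exact ⟨(hrho n hn).1, (hrho n hn).2.2.1⟩)
  have hz := nocut_lim hTP
  -- abbreviations
  set E : ℕ → ℝ := fun n => ((Om k n).card : ℝ) with hE
  set A : ℕ → ℝ := fun n => ∑ x ∈ Om k n, (Ar k n x.2.2.2 : ℝ) with hA
  set S : ℕ → ℝ := fun n => ∑ x ∈ Om k n, ((|dq x| : ℤ) : ℝ) / 2 with hS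
  set Nc : ℕ → ℝ := fun n => ((NoCut k n).card : ℝ) with hNc
  set Sn : ℕ → ℝ := fun n => ∑ w ∈ NoCut k n, ((|dbl 0 w| : ℤ) : ℝ) / 2 with hSn
  set X : ℕ → ℝ := fun n => E n * ((n : ℝ) * Real.sqrt n) * q ^ n with hX
  have hXa : Tendsto X atTop (𝓝 a) := hlim1
  have hXpos : ∀ᶠ n : ℕ in atTop, a / 2 < X n := hXa.eventually (lt_mem_nhds (by linarith))
  have hz' : Tendsto (fun n : ℕ => (n : ℝ) * Nc n * q ^ n) atTop (𝓝 0) := hz
  -- square root version
  have hz2 : Tendsto (fun n : ℕ => Nc n * Real.sqrt n * q ^ n) atTop (𝓝 0) := by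
    refine squeeze_zero' (Eventually.of_forall fun n => ?_) ?_ hz'
    · have : 0 ≤ Nc n := Nat.cast_nonneg _
      positivity
    · filter_upwards [eventually_ge_atTop 1] with n hn
      have h1 : 0 ≤ Nc n := Nat.cast_nonneg _
      have h2 := sqrt_le_self hn
      calc Nc n * Real.sqrt n * q ^ n ≤ Nc n * n * q ^ n := by gcongr
        _ = (n : ℝ) * Nc n * q ^ n := by ring
  -- number of polygons
  have hcard : ∀ᶠ n : ℕ in atTop, ((ColConvex k n).card : ℝ) = 4 * n * E n + Nc n ∧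
      ∑ s ∈ ColConvex k n, area n s = 4 * n * S n + Sn n := by
    filter_upwards [eventually_ge_atTop 2] with n hn
    exact split hTR k n hk hn
  refine ⟨4 * a, b, by linarith, hb, ?_, ?_⟩
  · have h1 : Tendsto (fun n : ℕ => 4 * X n + Nc n * Real.sqrt n * q ^ n) atTop (𝓝 (4 * a + 0)) :=
      (hXa.const_mul 4).add hz2
    rw [add_zero] at h1
    refine h1.congr' ?_
    filter_upwards [hcard] with n hn
    rw [hn.1]
    simp only [hX]
    ring
  · -- the error of the area
    have hSA : Tendsto (fun n : ℕ => (S n - A n) / (E n * ((n : ℝ) * Real.sqrt n))) atTop (𝓝 0) := by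
      have h0 : Tendsto (fun n : ℕ => C5 * (Real.log n / Real.sqrt n) + (C5 * (2 / a)) / (n : ℝ) ^ 5)
          atTop (𝓝 0) := tendsto_err C5 (C5 * (2 / a))
      refine squeeze_zero_norm' ?_ h0
      filter_upwards [hXpos, hqr, eventually_ge_atTop N0, eventually_ge_atTop 2] with n hx hqn hn0 hn2
      have hn : (0 : ℝ) < n := by exact_mod_cast (by omega : 0 < n)
      have hs : 0 < Real.sqrt n := Real.sqrt_pos.2 hn
      have hqn0 : 0 < q ^ n := by positivity
      have hX0 : 0 < X n := by linarith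
      have hE0 : 0 < E n := by
        have h1 : 0 ≤ E n := Nat.cast_nonneg _
        rcases h1.lt_or_eq with h2 | h2
        · exact h2
        · exfalso
          simp only [hX, ← h2, zero_mul] at hX0
          exact lt_irrefl _ hX0
      obtain ⟨hr0, hr1, hr2, hr3⟩ := hrho n hn0
      have hnear := hNear k n (rho n) hk hn2 hr0 hr1 hr2 hr3
      have h3 : |S n - A n| ≤ C5 * n * Real.log n * E n + C5 / ((n : ℝ) ^ 5 * rho n ^ n) := by
        simp only [hS, hA]
        rw [← sum_sub_distrib]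
        exact (abs_sum_le_sum_abs _ _).trans hnear
      have h4 : C5 / ((n : ℝ) ^ 5 * rho n ^ n) ≤ C5 / ((n : ℝ) ^ 5 * q ^ n) := by
        have h5 : q ^ n ≤ rho n ^ n := pow_le_pow_left₀ hq.le hqn n
        gcongr
      have hden : 0 < E n * ((n : ℝ) * Real.sqrt n) := by positivity
      rw [Real.norm_eq_abs, abs_div, abs_of_pos hden, div_le_iff₀ hden]
      have e1 : C5 * (Real.log n / Real.sqrt n) * (E n * ((n : ℝ) * Real.sqrt n)) =
          C5 * n * Real.log n * E n := by
        field_simp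
      have e2 : C5 / ((n : ℝ) ^ 5 * q ^ n) ≤
          (C5 * (2 / a)) / (n : ℝ) ^ 5 * (E n * ((n : ℝ) * Real.sqrt n)) := by
        have h6 : 1 ≤ (2 / a) * X n := by
          rw [div_mul_eq_mul_div, le_div_iff₀ ha]
          linarith
        have h7 : (1 : ℝ) / q ^ n ≤ (2 / a) * (E n * ((n : ℝ) * Real.sqrt n)) := by
          rw [div_le_iff₀ hqn0]
          calc (1 : ℝ) ≤ (2 / a) * X n := h6
            _ = _ := by simp only [hX]; ring
        calc C5 / ((n : ℝ) ^ 5 * q ^ n) = C5 / (n : ℝ) ^ 5 * (1 / q ^ n) := by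
              field_simp
          _ ≤ C5 / (n : ℝ) ^ 5 * ((2 / a) * (E n * ((n : ℝ) * Real.sqrt n))) := by gcongr
          _ = _ := by ring
      rw [add_mul, e1]
      linarith
    have hSb : Tendsto (fun n : ℕ => S n / (E n * ((n : ℝ) * Real.sqrt n))) atTop (𝓝 b) := by
      have h1 := hSA.add hlim2
      rw [zero_add] at h1
      refine h1.congr fun n => ?_
      simp only [hE, hA, hS]
      rw [← add_div, sub_add_cancel]
    -- the words without cut, divided by X
    have hinv : Tendsto (fun n : ℕ => (X n)⁻¹) atTop (𝓝 a⁻¹) := hXa.inv₀ ha.ne'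
    have hw1 : Tendsto (fun n : ℕ => (Nc n * Real.sqrt n * q ^ n) * (X n)⁻¹ / 4) atTop (𝓝 0) := by
      have := (hz2.mul hinv).div_const 4
      simpa using this
    have hw2 : Tendsto (fun n : ℕ => Sn n / (4 * n * (E n * ((n : ℝ) * Real.sqrt n)))) atTop
        (𝓝 0) := by
      have h1 : Tendsto (fun n : ℕ => ((n : ℝ) * Nc n * q ^ n) * (X n)⁻¹ / 2) atTop (𝓝 0) := by
        have := (hz'.mul hinv).div_const 2
        simpa using this
      refine squeeze_zero' ?_ ?_ h1
      · refine Eventually.of_forall fun n => ?_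
        have h2 : 0 ≤ Sn n := sum_nonneg fun w _ => by positivity
        have h3 : 0 ≤ E n := Nat.cast_nonneg _
        positivity
      · filter_upwards [hXpos, eventually_ge_atTop 2] with n hx hn2
        have hn : (0 : ℝ) < n := by exact_mod_cast (by omega : 0 < n)
        have hs : 0 < Real.sqrt n := Real.sqrt_pos.2 hn
        have hss : Real.sqrt n ^ 2 = n := Real.sq_sqrt hn.le
        have hqn0 : 0 < q ^ n := by positivity
        have hX0 : 0 < X n := by linarith
        have hE0 : 0 < E n := by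
          have h1 : 0 ≤ E n := Nat.cast_nonneg _
          rcases h1.lt_or_eq with h2 | h2
          · exact h2
          · exfalso
            simp only [hX, ← h2, zero_mul] at hX0
            exact lt_irrefl _ hX0
        have hS1 : Sn n ≤ 2 * (n : ℝ) ^ 2 * Nc n := noCut_area k n
        have hNc0 : 0 ≤ Nc n := Nat.cast_nonneg _
        have h2 : Sn n / (4 * n * (E n * ((n : ℝ) * Real.sqrt n))) ≤
            2 * (n : ℝ) ^ 2 * Nc n / (4 * n * (E n * ((n : ℝ) * Real.sqrt n))) := by gcongr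
        refine h2.trans ?_
        have h3 : 2 * (n : ℝ) ^ 2 * Nc n / (4 * n * (E n * ((n : ℝ) * Real.sqrt n))) =
            Nc n / (2 * (E n * Real.sqrt n)) := by
          field_simp
          ring
        have h4 : ((n : ℝ) * Nc n * q ^ n) * (X n)⁻¹ / 2 = Nc n / (2 * (E n * Real.sqrt n)) := by
          simp only [hX]
          field_simp
        rw [h3, h4]
    have hfin : Tendsto (fun n : ℕ => (S n / (E n * ((n : ℝ) * Real.sqrt n)) +
        Sn n / (4 * n * (E n * ((n : ℝ) * Real.sqrt n)))) /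
        (1 + (Nc n * Real.sqrt n * q ^ n) * (X n)⁻¹ / 4)) atTop (𝓝 ((b + 0) / (1 + 0))) :=
      (hSb.add hw2).div (hw1.const_add 1) (by norm_num)
    rw [add_zero, add_zero, div_one] at hfin
    refine hfin.congr' ?_
    filter_upwards [hXpos, hcard, eventually_ge_atTop 2] with n hx hc hn2
    have hn : (0 : ℝ) < n := by exact_mod_cast (by omega : 0 < n)
    have hs : 0 < Real.sqrt n := Real.sqrt_pos.2 hn
    have hqn0 : 0 < q ^ n := by positivity
    have hX0 : 0 < X n := by linarith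
    have hE0 : 0 < E n := by
      have h1 : 0 ≤ E n := Nat.cast_nonneg _
      rcases h1.lt_or_eq with h2 | h2
      · exact h2
      · exfalso
        simp only [hX, ← h2, zero_mul] at hX0
        exact lt_irrefl _ hX0
    have hNc0 : 0 ≤ Nc n := Nat.cast_nonneg _
    rw [hc.1, hc.2]
    have h1 : 1 + (Nc n * Real.sqrt n * q ^ n) * (X n)⁻¹ / 4 = (4 * n * E n + Nc n) / (4 * n * E n) := by
      simp only [hX]
      field_simp
    have h2 : S n / (E n * ((n : ℝ) * Real.sqrt n)) +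
        Sn n / (4 * n * (E n * ((n : ℝ) * Real.sqrt n))) =
        (4 * n * S n + Sn n) / (4 * n * E n * ((n : ℝ) * Real.sqrt n)) := by
      field_simp
    rw [h1, h2]
    have hK : 0 < 4 * n * E n + Nc n := by positivity
    field_simp

end Pool.Agent.KCC
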