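import Pool.Agent.KCS.StC
import Pool.Agent.KCC.Dat
import Pool.Agent.KCC.Kw

/-!
# Column-convex polygons, sharp constants: the data with the explicit kernel (module DTX, helper83)
-/

set_option autoImplicit false

namespace Pool.Agent.KCC

open Finset Pool.Agent.Lib27 Pool.Agent.Gap
open Pool.Agent.SapR (rot2 wordsUpTo)

open DAT in
/-- DTX. -/
theorem dtx (hK2 : K2_Stmt) (h5S : K5S_Stmt) (h5F : K5F_Stmt) (h5R : K5R_Stmt) (h5B : K5B_Stmt)
    (h5C : K5C_Stmt) (hAR : AR_Stmt) : DTX_Stmt := by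
  intro k q eta C0 hk1 hTP
  obtain ⟨hq, heta, hC0, t1, t2, t3, t4, t5⟩ := hTP
  have hq' : q < (1 + eta / 2) * q := by nlinarith
  obtain ⟨n0, hn0⟩ := t2 _ hq'
  have hr : 0 < (1 + eta) * q := by positivity
  have hθ : 0 < (1 + eta / 2) / (1 + eta) := by positivity
  have hθ1 : (1 + eta / 2) / (1 + eta) < 1 := by
    rw [div_lt_one (by positivity)]
    linarith
  have hθr : (1 + eta / 2) / (1 + eta) * ((1 + eta) * q) = (1 + eta / 2) * q := by
    field_simp
  set θ : ℝ := (1 + eta / 2) / (1 + eta) with hθdef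
  have hCle : C0 ≤ C0 / θ := by
    rw [le_div_iff₀ hθ]
    nlinarith
  refine ⟨max (C0 / θ) (max q⁻¹ 1), θ, lt_max_of_lt_left (by positivity), hθ, hθ1, max n0 2,
    le_max_right _ _, ?_⟩
  intro n hn
  have hn0' : n0 ≤ n := (le_max_left _ _).trans hn
  have hn2 : 2 ≤ n := (le_max_right _ _).trans hn
  have hloc := KW.kern_loc h5S h5F h5R h5B k n hk1 hn2
  have hcrit := KW.kern_crit h5S h5F h5R h5B k n hk1 hn2
  have htot := KW.kern_level h5S h5F h5R h5B k n hk1 hn2
  have hcs := KW.isCapS h5C k n hk1 hn2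
  have hct := KW.isCapT h5C k n hk1 hn2
  have hones := KW.capS_one h5C k n hk1 hn2
  have honet := KW.capT_one h5C k n hk1 hn2
  have hsol := KW.Bv_sol (KW.kern h5S h5F h5R h5B k n hk1 hn2) (capS k n)
  have hcount := KW.count hK2 h5S h5F h5R h5B hAR k n hk1 hn2
  have hS : (KW.kern h5S h5F h5R h5B k n hk1 hn2).S = KW.SS n := rfl
  have hR : (KW.kern h5S h5F h5R h5B k n hk1 hn2).R = n := rfl
  have hK : ∀ i g g', (KW.kern h5S h5F h5R h5B k n hk1 hn2).K i g g' =
      ((KW.alT k n i g g').card : ℝ) := fun _ _ _ => rfl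
  have hT' : ∀ i d, (KW.kern h5S h5F h5R h5B k n hk1 hn2).T i d =
      ((KW.PcT k n i d).card : ℝ) := fun _ _ => rfl
  generalize KW.kern h5S h5F h5R h5B k n hk1 hn2 = G at *
  have hcr : pgf k n G.rho = 1 := hcrit
  have hrho : G.rho ≤ (1 + eta / 2) * q := by
    by_contra hcon
    have h1 : pgf k n ((1 + eta / 2) * q) ≤ pgf k n G.rho :=
      pgf_mono (by positivity) (not_le.1 hcon).le
    have h2 : pgf k n0 ((1 + eta / 2) * q) ≤ pgf k n ((1 + eta / 2) * q) :=
      pgf_mono_n k hn0' (by positivity)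
    have h3 : 1 < pgf k n0 ((1 + eta / 2) * q) := hn0
    linarith
  have hrho' : q ≤ G.rho := by
    by_contra hcon
    have h1 := pgf_strict h5B hk1 hn2 G.rho_pos.le (not_le.1 hcon)
    have h2 : pgf k n q ≤ 1 := t1 n
    linarith
  have hrho1 : G.rho ≤ 1 := by
    have h1 : G.rho ^ hl (([0], [2]) : Wd × Wd) ≤ pgf k n G.rho :=
      single_le_sum (f := fun p : Wd × Wd => G.rho ^ hl p)
        (fun _ _ => pow_nonneg G.rho_pos.le _) (straight_mem h5B k n hk1 hn2)
    rw [hl_straight, pow_one, hcr] at h1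
    exact h1
  have hT0 : Tails C0 θ k n G.rho := by
    refine DAT.tails (by omega) G.rho_pos hθ hr ?_ (t3 n) t4 (t5 n (by omega))
    rw [hθr]
    exact hrho
  set C : ℝ := max (C0 / θ) (max q⁻¹ 1) with hCdef
  have hC1 : 1 ≤ C := (le_max_right _ _).trans (le_max_right _ _)
  have hCpos : 0 < C := by linarith
  have hCC0 : C0 ≤ C := hCle.trans (le_max_left _ _)
  have hT : Tails C θ k n G.rho := Tails.mono hθ hCC0 hT0
  have hCi : C⁻¹ ≤ 1 := inv_le_one_of_one_le₀ hC1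
  have hCq : C⁻¹ ≤ q := by
    rw [inv_le_comm₀ hCpos hq]
    exact (le_max_left _ _).trans (le_max_right _ _)
  refine ⟨⟨G, KW.Bv G (capS k n), ⟨hloc, hCq.trans hrho', fun m => ?_⟩,
    ⟨hcs, Or.inr (hCi.trans hones), fun m g h => KW.capS_supp h5C k n m g h, fun m => ?_⟩,
    ⟨hct, Or.inl (hCi.trans honet), fun m g h => KW.capT_supp h5C k n m g h, fun m => ?_⟩,
    hsol, hcount, hcrit, hrho1, hT⟩, hS, hR, hK, hT'⟩
  · rw [← mul_sum, htot m, mul_comm]
    exact hT.1 m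
  · exact dec_s h5C G.rho_pos hrho1 hθ hC0 (le_max_left _ _) hT0 m
  · exact dec_t hθ hCpos hT m

end Pool.Agent.KCC
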