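import Pool.Agent.KCS.StM
import Pool.Agent.KCC.Fin

/-!
# Project KCS (MP_f6626d_co): the final theorem with constants and moments, assembly
-/

set_option autoImplicit false

namespace Pool.Agent.KCC

open Finset Filter Topology MeasureTheory Pool.Agent.Lib27 Pool.Agent.AreaLaw
open Pool.Agent.KCS (airyMoment)

/-- the final theorem: limit law, all moments, exhaustion, sharp asymptotics for fixed `k` -/
def FINAL3_Stmt : Prop := ∃ ν : Measure ℝ, IsProbabilityMeasure ν ∧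
  (∀ r : ℕ, Integrable (fun x : ℝ => x ^ r) ν ∧ ∫ x, x ^ r ∂ν = airyMoment r) ∧
  (∀ x : ℝ, ν {x} = 0 →
    Tendsto (fun n : ℕ => areaCdf n (Staircase n) x) atTop (𝓝 (ν (Set.Iic x)).toReal)) ∧
  (∃ K : ℕ → ℕ, Tendsto K atTop atTop ∧
    (∀ k : ℕ → ℕ, (∀ᶠ n : ℕ in atTop, 1 ≤ k n ∧ k n ≤ K n) →
      (∀ x : ℝ, ν {x} = 0 →
        Tendsto (fun n : ℕ => areaCdf n (ColConvex (k n) n) x) atTop (𝓝 (ν (Set.Iic x)).toReal)) ∧
      ∀ r : ℕ, Tendsto (fun n : ℕ => areaMoment n (ColConvex (k n) n) r) atTop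
        (𝓝 (airyMoment r))) ∧
    ∀ ε : ℝ, 0 < ε → ∀ᶠ n : ℕ in atTop,
      Real.exp (-(ε * n)) * ((SAP n).card : ℝ) ≤ ((ColConvex (K n) n).card : ℝ)) ∧
  ∃ (μ : ℕ → ℝ) (M : ℝ), (∀ k, 1 ≤ k → 0 < μ k ∧ μ k < μ (k + 1)) ∧ Tendsto μ atTop (𝓝 M) ∧
    Tendsto (fun n : ℕ => ((SAP n).card : ℝ) ^ ((1 : ℝ) / n)) atTop (𝓝 M) ∧
    ∀ k, 1 ≤ k → ∃ a b : ℝ, 0 < a ∧ 0 < b ∧
      Tendsto (fun n : ℕ => ((ColConvex k n).card : ℝ) * Real.sqrt n / μ k ^ n) atTop (𝓝 a) ∧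
      Tendsto (fun n : ℕ => (∑ s ∈ ColConvex k n, area n s) / ((ColConvex k n).card : ℝ) /
        ((n : ℝ) * Real.sqrt n)) atTop (𝓝 b)

namespace FN3

/-- diagonal argument for countably many convergent families -/
lemma diag_seq (f : ℕ → ℕ → ℕ → ℝ) (m : ℕ → ℝ)
    (h : ∀ k : ℕ, 1 ≤ k → ∀ r : ℕ, Tendsto (fun n : ℕ => f k n r) atTop (𝓝 (m r))) :
    ∃ K : ℕ → ℕ, Tendsto K atTop atTop ∧ ∀ k : ℕ → ℕ, (∀ᶠ n in atTop, 1 ≤ k n ∧ k n ≤ K n) →
      ∀ r : ℕ, Tendsto (fun n : ℕ => f (k n) n r) atTop (𝓝 (m r)) := by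
  classical
  set P : ℕ → ℕ → Prop := fun n k => ∀ i ∈ Finset.range (k + 1), ∀ j ∈ Finset.Icc 1 k,
    |f j n i - m i| ≤ 1 / ((k : ℝ) + 1) with hP
  have hPk : ∀ k, ∀ᶠ n in atTop, P n k := by
    intro k
    rw [hP]
    simp only
    rw [Filter.eventually_all_finset]
    intro i _
    rw [Filter.eventually_all_finset]
    intro j hj
    have h1 := h j (Finset.mem_Icc.1 hj).1 i
    obtain ⟨N, hN⟩ := (Metric.tendsto_atTop.1 h1) (1 / ((k : ℝ) + 1)) (by positivity)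
    filter_upwards [eventually_ge_atTop N] with n hn
    have := hN n hn
    rw [Real.dist_eq] at this
    exact this.le
  have hR : Tendsto (fun n => Nat.findGreatest (P n) n) atTop atTop := by
    rw [tendsto_atTop]
    intro k
    filter_upwards [hPk k, eventually_ge_atTop k] with n h1 h2
    exact Nat.le_findGreatest h2 h1
  refine ⟨fun n => Nat.findGreatest (P n) n, hR, ?_⟩
  intro k hk i
  rw [tendsto_iff_dist_tendsto_zero]
  have hinv : Tendsto (fun n => 1 / (((Nat.findGreatest (P n) n : ℕ) : ℝ) + 1)) atTop (𝓝 0) :=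
    tendsto_one_div_add_atTop_nhds_zero_nat.comp hR
  refine squeeze_zero' (Eventually.of_forall fun n => dist_nonneg) ?_ hinv
  filter_upwards [hk, hR.eventually_ge_atTop (i + 1)] with n h1 h2
  have hne : Nat.findGreatest (P n) n ≠ 0 := by omega
  have hPn : P n (Nat.findGreatest (P n) n) := Nat.findGreatest_of_ne_zero rfl hne
  rw [Real.dist_eq]
  exact hPn i (Finset.mem_range.2 (by omega)) (k n) (Finset.mem_Icc.2 h1)

end FN3

/-- FN3 : assembly. -/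
theorem fn3_thm (hG : KCG.GFINE_Stmt) (hCONV : CONV_Stmt) (hSTC : STC_Stmt) (hGRO : GRO_Stmt)
    (hT : TAIL_Stmt) (hC : CNX_Stmt) (hM : MUM_Stmt) (hL : LMQ_Stmt) (hMom : CMO_Stmt)
    (hI : KCS.IDN_Stmt) : FINAL3_Stmt := by
  obtain ⟨ν, hν, hG1, hG2⟩ := hG
  have hGF : GF ν := ⟨hG1, hG2⟩
  have hid := hI ν hν hG1
  obtain ⟨K1, hK1, hd1⟩ := SapR.M41.diagonal ν (fun k n x => areaCdf n (ColConvex k n) x)
    (fun k n => FIN.areaCdf_mono n (ColConvex k n)) (fun x hx k hk => hCONV ν hν hGF k hk x hx)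
  obtain ⟨K2, hK2, hd2⟩ := FN3.diag_seq (fun k n r => areaMoment n (ColConvex k n) r) airyMoment
    (fun k hk r => by
      have := (hMom ν hν k hk (fun x hx => hCONV ν hν hGF k hk x hx) r).2
      rwa [(hid r).2] at this)
  have hT' : ∀ k : ℕ, ∃ q eta C : ℝ, 1 ≤ k → TP k q eta C := by
    intro k
    by_cases hk : 1 ≤ k
    · obtain ⟨q, eta, C, h⟩ := hT k hk
      exact ⟨q, eta, C, fun _ => h⟩
    · exact ⟨1, 1, 1, fun h => absurd h hk⟩
  choose q eta C hq using hT'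
  obtain ⟨M, hM1, hM2⟩ := hL q (fun k hk => ⟨eta k, C k, hq k hk⟩)
  have hK : Tendsto (fun n => min (K1 n) (K2 n)) atTop atTop := by
    rw [tendsto_atTop]
    intro k
    filter_upwards [hK1.eventually_ge_atTop k, hK2.eventually_ge_atTop k] with n h1 h2
    exact le_min h1 h2
  refine ⟨ν, hν, hid, hSTC ν hGF, ⟨fun n => min (K1 n) (K2 n), hK, fun k hk => ⟨?_, ?_⟩, ?_⟩,
    fun k => (q k)⁻¹, M, fun k hk => ?_, hM2, hM1, fun k hk => ?_⟩
  · exact hd1 k (hk.mono fun n h => ⟨h.1, h.2.trans (min_le_left _ _)⟩)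
  · exact hd2 k (hk.mono fun n h => ⟨h.1, h.2.trans (min_le_right _ _)⟩)
  · intro ε hε
    obtain ⟨k, -, hk⟩ := hGRO ε hε
    filter_upwards [hk, hK.eventually_ge_atTop k] with n h1 h2
    refine h1.trans ?_
    exact_mod_cast card_le_card (FIN.colConvex_mono h2 n)
  · have ha := (hq k hk).1
    have hb := (hq (k + 1) (by omega)).1
    refine ⟨inv_pos.2 ha, ?_⟩
    exact (inv_lt_inv₀ ha hb).2 (hM k _ _ _ _ _ _ hk (hq k hk) (hq (k + 1) (by omega)))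
  · obtain ⟨a, b, ha, hb, h1, h2⟩ := hC k _ _ _ hk (hq k hk)
    refine ⟨a, b, ha, hb, h1.congr fun n => ?_, h2⟩
    rw [inv_pow, div_inv_eq_mul]

end Pool.Agent.KCC
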