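import Pool.Agent.KCS.StA
import Pool.Agent.KCG.GE

/-!
# Project KCS: module GEX, the comparison theorem GE with the meaning of the constants
-/

set_option autoImplicit false

open Finset Filter Topology

namespace Pool.Agent.KCG

open Pool.Agent.Gap

/-- GEX : comparison of the solutions for sequences of kernels, with the critical limits -/
theorem gex (hRE : GRE_Stmt) (_hSUP : GSUP_Stmt) (hW : GW_Stmt) (hV : GV_Stmt) (hVL : GVL_Stmt)
    (hST : Gap.ST1_Stmt) (hEB : GEB_Stmt) (hSUP0 : Gap.SUP_Stmt) (hW0 : Gap.W_Stmt) : GEX_Stmt := by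
  intro C θ hC hθ hθ1
  have h1θ : 0 < 1 - θ := by linarith
  set Ca : ℝ := C ^ 3 + C ^ 2 + C / (1 - θ) with hCa
  have hCa0 : 0 < Ca := by positivity
  have hCCa : C ≤ Ca := by
    have h1 : C ≤ C / (1 - θ) := by
      rw [le_div_iff₀ h1θ]
      nlinarith
    have h2 : 0 < C ^ 2 := by positivity
    have h3 : 0 < C ^ 3 := by positivity
    rw [hCa]
    linarith
  obtain ⟨Cb, hCb, hV'⟩ := hV Ca θ hCa0 hθ hθ1
  set Cc : ℝ := Ca + Cb with hCc
  have hCc0 : 0 < Cc := by positivity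
  have hac : Ca ≤ Cc := by rw [hCc]; linarith
  have hbc : Cb ≤ Cc := by rw [hCc]; linarith
  obtain ⟨Cv, hCv0, hVL'⟩ := hVL Cc θ hCc0 hθ hθ1
  obtain ⟨Cr, hCr, hr⟩ := hRE C θ hC hθ hθ1
  obtain ⟨Cw, hCw, hw'⟩ := hW C θ hC hθ hθ1
  obtain ⟨CE, θE, hCE, hθE, hθE1, hE⟩ := hEB C θ hC hθ hθ1
  obtain ⟨B, hB, hBsum⟩ := GSum.sum_pow hC hθ hθ1 2
  refine ⟨Cc, Cv, hCc0, hCv0, ?_⟩
  intro G mb hb sg C0 s hK hs
  have hG := hK.cls
  -- the critical solutions
  have hcrit : ∀ n, ∃ (vc : ℤ → ℝ) (A : ℝ), CritSol Cc (G n) (GE.sr (G n).rho (C0 n) (s n)) vc ∧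
      Cc⁻¹ ≤ A ∧ A ≤ Cc ∧ ∀ M : ℕ, ∑ g ∈ Icc (1 : ℤ) M, (g : ℝ) ^ 2 * (vc g - A) ^ 2 ≤ Cv := by
    intro n
    have hsrc := GE.critSrc_sr hC hθ hθ1 (hG n) (hs n)
    rw [← hCa] at hsrc
    obtain ⟨vc, hvc⟩ := hV' (G n) (GE.cls_mono hC hCCa hθ (hG n)) (C0 n) _ hsrc
    have hvc' := GE.critSol_mono hCb hbc hvc
    obtain ⟨A, hA1, hA2, hA3⟩ := hVL' (G n) (GE.cls_mono hC (hCCa.trans hac) hθ (hG n)) (C0 n) _ vc
      (GE.critSrc_mono hCa0 hac hθ hsrc) hvc'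
    exact ⟨vc, A, hvc', hA1, hA2, hA3⟩
  choose vc A hvc hA1 hA2 hCv using hcrit
  refine ⟨A, ⟨vc, fun n => ⟨hvc n, hA1 n, hA2 n, hCv n⟩⟩, ?_⟩
  intro n0 N hn0 hN lam w hlam hw v v0 hsol
  have hA0 : ∀ n, 0 ≤ A n := fun n => le_trans (inv_pos.mpr hCc0).le (hA1 n)
  -- the parameters
  have hmb1 : 1 ≤ mb := ge_of_tendsto' hK.lim_m fun n => GE.one_le_mbar (G n)
  have hmb : 0 < mb := by linarith
  have hsg1 : C⁻¹ ^ 2 ≤ sg := ge_of_tendsto' hK.lim_s fun n =>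
    (pow_le_pow_left₀ (inv_pos.mpr hC).le (hG n).rho_ge 2).trans (G n).rho_le_sig2
  have hsg : 0 < sg := lt_of_lt_of_le (pow_pos (inv_pos.mpr hC) 2) hsg1
  have hhb : 0 ≤ hb := ge_of_tendsto' hK.lim_h fun n => (G n).hbar_pos.le
  have hβ : 0 < 2 * sg / mb := by positivity
  have hl : 0 ≤ lamS mb hb sg lam := by
    unfold lamS
    positivity
  have hv0 : ∀ n, 1 ≤ n → 1 ≤ n0 n →
      stair.Solves (epsn (lamS mb hb sg lam) (n0 n)) (zn (1 / 4) w (n0 n)) (N n) (v0 n)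
          (src1 (zn (1 / 4) w (n0 n))) := fun n h1 h2 => (hsol n h1 h2).2
  -- abbreviations
  set ε : ℕ → ℝ := fun n => epsn lam n with hε
  set ε' : ℕ → ℝ := fun n => epsn (lamS mb hb sg lam) (n0 n) with hε'
  set z : ℕ → ℂ := fun n => zn (G n).rho w n with hz
  set z' : ℕ → ℂ := fun n => zn (1 / 4) w (n0 n) with hz'
  set τ : ℕ → ℝ := fun n => ‖1 - zn 1 w n‖ with hτ
  set δ : ℕ → ℝ := fun n => ‖((G n).rho : ℂ) - z n‖ with hδ
  set δ' : ℕ → ℝ := fun n => ‖(1 / 4 : ℂ) - z' n‖ with hδ'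
  have hε0 : ∀ n, 0 ≤ ε n := fun n => epsn_nonneg _ hlam _
  have hε'0 : ∀ n, 0 ≤ ε' n := fun n => epsn_nonneg _ hl _
  have hzle : ∀ n, ‖z n‖ ≤ (G n).rho := fun n => zn_norm_le _ (G n).rho_pos w hw n
  have hz'le : ∀ n, ‖z' n‖ ≤ 1 / 4 := fun n => zn_norm_le (1 / 4) (by norm_num) w hw _
  have hδτ : ∀ n, δ n = (G n).rho * τ n := fun n => GE.norm_rho_sub _ (G n).rho_pos w n
  have hτ0 : ∀ n, 0 ≤ τ n := fun n => norm_nonneg _
  have hδle : ∀ n, δ n ≤ τ n := by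
    intro n
    rw [hδτ]
    have h1 := GSum.rho_le (G n)
    have h2 := hτ0 n
    nlinarith
  have hδge : ∀ n, C⁻¹ * τ n ≤ δ n := by
    intro n
    rw [hδτ]
    exact mul_le_mul_of_nonneg_right (hG n).rho_ge (hτ0 n)
  have hwn : 0 < ‖w‖ := by
    rw [norm_pos_iff]
    rintro rfl
    simp at hw
  have hnτ : Tendsto (fun n : ℕ => (n : ℝ) * τ n) atTop (𝓝 ‖w‖) := GE.tendsto_tau_norm w
  -- small quantities
  have htoz : ∀ f : ℕ → ℝ, ∀ l : ℝ, Tendsto (fun n : ℕ => (n : ℝ) * f n) atTop (𝓝 l) →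
      Tendsto f atTop (𝓝 0) := by
    intro f l hf
    have h1 := hf.mul (tendsto_inv_atTop_nhds_zero_nat (𝕜 := ℝ))
    rw [mul_zero] at h1
    refine h1.congr' ?_
    filter_upwards [eventually_ge_atTop 1] with n hn
    have : (n : ℝ) ≠ 0 := by
      have : (0 : ℝ) < n := by exact_mod_cast hn
      exact this.ne'
    field_simp
  have hτto : Tendsto τ atTop (𝓝 0) := htoz _ _ hnτ
  have hδto : Tendsto δ atTop (𝓝 0) :=
    squeeze_zero (fun n => norm_nonneg _) hδle hτto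
  have hδ'to : Tendsto δ' atTop (𝓝 0) := htoz _ _ (GE.tendsto_zn'_norm hβ hn0 w)
  have hεto : Tendsto ε atTop (𝓝 0) := epsn_to lam
  have hn0top := GE.n0_atTop hβ hn0
  have hε'to : Tendsto ε' atTop (𝓝 0) := (epsn_to (lamS mb hb sg lam)).comp hn0top
  obtain ⟨Ce, hCe, hηev⟩ := GE.v0_eta hST hβ hn0 hN _ hl w hw v0 hv0
  set η : ℕ → ℝ := fun n => Ce * (qn (n0 n))⁻¹ with hη
  have hη0 : ∀ n, 0 ≤ η n := fun n => mul_nonneg hCe.le (inv_nonneg.mpr (qn_nonneg _))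
  have hηto : Tendsto η atTop (𝓝 0) := by
    have := (inv_qn.comp hn0top).const_mul Ce
    simpa using this
  have hNto : Tendsto (fun n : ℕ => ((N n : ℕ) : ℝ)⁻¹) atTop (𝓝 0) := by
    refine squeeze_zero' (Eventually.of_forall fun n => by positivity) ?_
      (tendsto_inv_atTop_nhds_zero_nat (𝕜 := ℝ))
    filter_upwards [eventually_ge_atTop 1] with n hn
    have hn' : (0 : ℝ) < n := by exact_mod_cast hn
    refine inv_anti₀ hn' ?_
    have h1 := hN n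
    have : n ≤ N n := by nlinarith
    exact_mod_cast this
  set S : ℕ → ℝ := fun n => η n + δ n + δ' n + ε n + ε' n + ((N n : ℕ) : ℝ)⁻¹ with hS
  have hS0 : ∀ n, 0 ≤ S n := by
    intro n
    have h1 := hη0 n
    have h2 := hε0 n
    have h3 := hε'0 n
    have h4 : 0 ≤ δ n := norm_nonneg _
    have h5 : 0 ≤ δ' n := norm_nonneg _
    have h6 : 0 ≤ ((N n : ℕ) : ℝ)⁻¹ := by positivity
    simp only [hS]
    linarith
  have hSto : Tendsto S atTop (𝓝 0) := by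
    have := ((((hηto.add hδto).add hδ'to).add hεto).add hε'to).add hNto
    simpa using this
  -- the residual of the staircase solution
  set P : ℕ → Prop := fun n => 1 ≤ n ∧ 1 ≤ n0 n ∧ ε n ≤ 1 ∧ ε' n ≤ 1 ∧ δ' n ≤ 1 / 8 ∧
    ∀ g ∈ Icc (1 : ℤ) (N n), ‖v0 n g - 1‖ ≤ η n * g with hP
  have hPev : ∀ᶠ n in atTop, P n := by
    filter_upwards [eventually_ge_atTop 1, hn0top.eventually_ge_atTop 1,
      hεto.eventually_le_const (by norm_num : (0:ℝ) < 1),
      hε'to.eventually_le_const (by norm_num : (0:ℝ) < 1),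
      hδ'to.eventually_le_const (by norm_num : (0:ℝ) < 1 / 8), hηev] with n h1 h2 h3 h4 h5 h6
    exact ⟨h1, h2, h3, h4, h5, h6⟩
  set bd : ℕ → ℝ := fun n =>
      ‖2 * ((G n).sig2 : ℂ) * (1 - 4 * zn (1 / 4) w (n0 n))
        - ((G n).mbar : ℂ) * (1 - zn (G n).rho w n / ((G n).rho : ℂ))‖
            * Real.sqrt (nsq (N n) (v0 n))
      + 2 * |2 * (G n).sig2 * epsn (lamS mb hb sg lam) (n0 n) - (G n).hbar * epsn lam n|
            * Real.sqrt (nsq (N n) (mulg 1 (v0 n)))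
      + CE * ((‖((G n).rho : ℂ) - zn (G n).rho w n‖ + ‖(1 / 4 : ℂ) - zn (1 / 4) w (n0 n)‖)
            * Real.sqrt (En (N n) (v0 n))
          + (epsn lam n + epsn (lamS mb hb sg lam) (n0 n))
            * (Real.sqrt (En (N n) (mulg 1 (v0 n))) + Real.sqrt (nsq (N n) (v0 n)))
          + (‖((G n).rho : ℂ) - zn (G n).rho w n‖ + ‖(1 / 4 : ℂ) - zn (1 / 4) w (n0 n)‖) ^ 2
            * Real.sqrt (nsq (N n) (v0 n))
          + (epsn lam n + epsn (lamS mb hb sg lam) (n0 n)) ^ 2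
            * Real.sqrt (nsq (N n) (mulg 2 (v0 n)))
          + ‖v0 n (N n)‖) with hbd
  have hbdto : Tendsto (fun n => qn n ^ 3 * bd n) atTop (𝓝 0) :=
    GE.rb_small hSUP0 hW0 hK.lim_m hK.lim_h hK.lim_s hmb hsg hn0 hN lam hlam hl w hw v0 hv0 CE hCE
  have hrr : ∀ n, ∃ rb rl : ℤ → ℂ, P n →
      (∀ g ∈ Icc (1 : ℤ) (N n), (G n).Lop (ε n) (z n) (N n) (v0 n) g
        = ((G n).kap g : ℂ) + rb g + rl g) ∧
      Real.sqrt (nsq (N n) rb) ≤ bd n ∧
      ∀ g ∈ Icc (1 : ℤ) (N n), ‖rl g‖ ≤ CE * θE ^ g.toNat * S n := by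
    intro n
    by_cases hPn : P n
    · obtain ⟨h1, h2, h3, h4, h5, h6⟩ := hPn
      obtain ⟨rb, rl, ha, hb', hc⟩ := hE (G n) (hG n) (N n) (ε n) (ε' n) (η n) (z n) (z' n) (v0 n)
        (hε0 n) h3 (hε'0 n) h4 (hzle n) (hz'le n) h5 (hη0 n) (hv0 n h1 h2) h6
      exact ⟨rb, rl, fun _ => ⟨ha, hb', hc⟩⟩
    · exact ⟨0, 0, fun h => absurd h hPn⟩
  choose rb rl hres using hrr
  -- the two parts of the source
  set cd : ℕ → ℤ → ℂ := fun n g =>
    capz (C0 n) (s n) 0 (z n) g - (GE.sr (G n).rho (C0 n) (s n) g : ℂ) with hcd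
  set e1 : ℕ → ℤ → ℂ := fun n g => cd n g - (A n : ℂ) * rl n g with he1
  set edge : ℕ → ℤ → ℂ := fun n g =>
    ((∑ g' ∈ (Icc (g - (G n).R) (g + (G n).R)).filter (fun g' => ((N n : ℕ) : ℤ) < g'),
      (G n).Kc g g' * (vc n g' - A n) : ℝ) : ℂ) with hedge
  set D : ℕ → ℤ → ℂ := fun n => Df (G n) (ε n) (z n) (N n) (Yf (N n) (vc n) (A n)) with hDdef
  set e2 : ℕ → ℤ → ℂ := fun n g => (-((A n : ℂ) * rb n g)) + (-edge n g) + (-D n g) with he2
  set W : ℕ → ℤ → ℂ := fun n g => v n g - (A n : ℂ) * v0 n g - Yf (N n) (vc n) (A n) g with hWdef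
  have hex : ∀ n : ℕ, ∃ u : ℤ → ℂ, (G n).Solves (ε n) (z n) (N n) u (e1 n) := fun n =>
    (hr (G n) (hG n) (N n) (ε n) (z n) (hε0 n) (hzle n)).1 (e1 n)
  choose W1 hW1 using hex
  have hLsub : ∀ (n : ℕ) (f k : ℤ → ℂ) (g : ℤ),
      (G n).Lop (ε n) (z n) (N n) (fun x => f x - k x) g
      = (G n).Lop (ε n) (z n) (N n) f g - (G n).Lop (ε n) (z n) (N n) k g := by
    intro n f k g
    unfold GapKernel.Lop
    rw [Kap_sub]
    ring
  have hLsmul : ∀ (n : ℕ) (c : ℂ) (f : ℤ → ℂ) (g : ℤ),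
      (G n).Lop (ε n) (z n) (N n) (fun x => c * f x) g
      = c * (G n).Lop (ε n) (z n) (N n) f g := by
    intro n c f g
    unfold GapKernel.Lop
    rw [Kap_smul]
    ring
  have hWeq : ∀ n, P n → ∀ g ∈ Icc (1 : ℤ) (N n),
      (G n).Lop (ε n) (z n) (N n) (W n) g = e1 n g + e2 n g := by
    intro n hPn g hg
    have hL : (G n).Lop (ε n) (z n) (N n) (W n) g
        = capz (C0 n) (s n) 0 (z n) g - (A n : ℂ) * (G n).Lop (ε n) (z n) (N n) (v0 n) g
          - (G n).Lop (ε n) (z n) (N n) (Yf (N n) (vc n) (A n)) g := by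
      have e3 : W n = fun x => (fun y => v n y - (fun u => (A n : ℂ) * v0 n u) y) x
          - Yf (N n) (vc n) (A n) x := rfl
      rw [e3, hLsub, hLsub, hLsmul, (hsol n hPn.1 hPn.2.1).1.2 g hg]
    rw [hL, Lop_eq_crit (G n) (ε n) (z n) (N n) (Yf (N n) (vc n) (A n)) g,
      Lop_Yf (G n) (N n) (GE.sr (G n).rho (C0 n) (s n)) (vc n) (A n) (hvc n).eq g hg,
      (hres n hPn).1 g hg]
    simp only [he1, he2, hedge, hDdef, hcd]
    push_cast
    ring
  have hW2 : ∀ n, P n →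
      (G n).Solves (ε n) (z n) (N n) (fun g => W n g - W1 n g) (e2 n) := by
    intro n hPn
    refine ⟨fun g hg => ?_, fun g hg => ?_⟩
    · have h1 := (hsol n hPn.1 hPn.2.1).1.1 g hg
      have h2 := (hsol n hPn.1 hPn.2.1).2.1 g hg
      have h3 := (hW1 n).1 g hg
      have h4 : Yf (N n) (vc n) (A n) g = 0 := by
        unfold Yf
        rw [if_neg]
        omega
      simp only [hWdef, h1, h2, h3, h4]
      ring
    · rw [hLsub, hWeq n hPn g hg, (hW1 n).2 g hg]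
      ring
  -- weighted norm of `e1`
  set T4 : ℝ := ∑' m : ℕ, (m : ℝ) ^ 4 * θE ^ m with hT4
  have hT40 : 0 ≤ T4 := tsum_nonneg fun m => by positivity
  set T5 : ℝ := C * (C * ∑' m : ℕ, (m : ℝ) ^ 5 * θ ^ m) with hT5
  have hlw : Tendsto (fun n : ℕ => lw 4 (N n) (e1 n)) atTop (𝓝 0) := by
    have hb1 : Tendsto (fun n : ℕ => T5 * δ n + Cc * (CE * S n * T4)) atTop (𝓝 0) := by
      have := (hδto.const_mul T5).add (((hSto.const_mul CE).mul_const T4).const_mul Cc)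
      simpa using this
    refine squeeze_zero' (Eventually.of_forall fun n => GE.lw_nonneg _ _ _) ?_ hb1
    filter_upwards [hPev] with n hPn
    have h1 := GE.lw_sub_smul 4 (N n) (cd n) (rl n) (A n : ℂ)
    have h2 := GE.lw_capdiff hC hθ hθ1 (hG n) (hs n) (N n) (z n) (hzle n)
    have h3 := GE.lw_exp hθE hθE1 (N n) (rl n) CE (S n) hCE.le (hS0 n) (hres n hPn).2.2
    have h4 : ‖(A n : ℂ)‖ ≤ Cc := by
      rw [Complex.norm_real, Real.norm_of_nonneg (hA0 n)]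
      exact hA2 n
    have h5 : ‖(A n : ℂ)‖ * lw 4 (N n) (rl n) ≤ Cc * (CE * S n * T4) :=
      mul_le_mul h4 h3 (GE.lw_nonneg _ _ _) hCc0.le
    exact h1.trans (add_le_add h2 h5)
  -- W1
  have hCinv : 0 < C⁻¹ := inv_pos.mpr hC
  have hne : ∀ n, 1 ≤ n → z n ≠ ((G n).rho : ℂ) := fun n hn => zn_ne _ (G n).rho_pos w hw n hn
  have hT1 : Tendsto (fun n : ℕ => nsq (N n) (W1 n) / Real.sqrt n) atTop (𝓝 0) := by
    have hb1 : Tendsto (fun n : ℕ => Cw * (lw 4 (N n) (e1 n)) ^ 2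
        / Real.sqrt (C⁻¹ * ((n : ℝ) * τ n))) atTop (𝓝 0) := by
      have h1 : Tendsto (fun n : ℕ => Cw * (lw 4 (N n) (e1 n)) ^ 2
          / Real.sqrt (C⁻¹ * ((n : ℝ) * τ n))) atTop
          (𝓝 (Cw * 0 ^ 2 / Real.sqrt (C⁻¹ * ‖w‖))) :=
        ((hlw.pow 2).const_mul Cw).div ((Real.continuous_sqrt.tendsto _).comp (hnτ.const_mul C⁻¹))
          (Real.sqrt_pos.mpr (by positivity)).ne'
      have e3 : Cw * 0 ^ 2 / Real.sqrt (C⁻¹ * ‖w‖) = 0 := by simp
      rw [e3] at h1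
      exact h1
    refine squeeze_zero' (Eventually.of_forall fun n => div_nonneg (nsq_nonneg _ _)
      (Real.sqrt_nonneg _)) ?_ hb1
    filter_upwards [eventually_ge_atTop 1, hnτ.eventually_const_lt hwn] with n hn hnt
    have h1 := (hw' (G n) (hG n) (N n) (ε n) (z n) (W1 n) (e1 n) (hε0 n) (hzle n) (hne n hn)
      (hW1 n)).1 0 (by norm_num)
    rw [nsq_mulg_zero, pow_zero, mul_one] at h1
    have hδpos : 0 < δ n := norm_pos_iff.mpr (sub_ne_zero.mpr (hne n hn).symm)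
    have hn' : (0 : ℝ) < n := by exact_mod_cast hn
    have hle : Real.sqrt (C⁻¹ * ((n : ℝ) * τ n)) ≤ Real.sqrt (δ n) * Real.sqrt n := by
      rw [← Real.sqrt_mul hδpos.le]
      refine Real.sqrt_le_sqrt ?_
      have := hδge n
      nlinarith
    have hpos : 0 < Real.sqrt (C⁻¹ * ((n : ℝ) * τ n)) := Real.sqrt_pos.mpr (by positivity)
    calc nsq (N n) (W1 n) / Real.sqrt n
        ≤ (Cw * (lw 4 (N n) (e1 n)) ^ 2 / Real.sqrt (δ n)) / Real.sqrt n := by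
          gcongr
      _ = Cw * (lw 4 (N n) (e1 n)) ^ 2 / (Real.sqrt (δ n) * Real.sqrt n) := by rw [div_div]
      _ ≤ _ := by gcongr
  -- e2
  set CD : ℝ := ((C + 1) * (4 * B)) ^ 2 with hCD
  have hCD0 : 0 ≤ CD := sq_nonneg _
  have hE2 : Tendsto (fun n : ℕ => qn n ^ 6 * nsq (N n) (e2 n)) atTop (𝓝 0) := by
    have hi := inv_qn
    have hee : Tendsto (fun n : ℕ => (n : ℝ) * ε n) atTop (𝓝 0) := by
      have h1 : Tendsto (fun n : ℕ => lam / Real.sqrt n) atTop (𝓝 0) := sqrt_atTop.const_div_atTop lam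
      refine h1.congr' ?_
      filter_upwards [eventually_ge_atTop 1] with n hn
      have hn' : (0 : ℝ) < n := by exact_mod_cast hn
      simp only [hε]
      unfold epsn
      field_simp
    have hb1 : Tendsto (fun n : ℕ => 3 * (Cc ^ 2 * (qn n ^ 3 * bd n) ^ 2
        + Cv * ((qn n)⁻¹) ^ 2
        + CD * Cv * ((n : ℝ) * τ n + (n : ℝ) * ε n) ^ 2 * ((qn n)⁻¹) ^ 2)) atTop (𝓝 0) := by
      have h1 := (((hbdto.pow 2).const_mul (Cc ^ 2)).add ((hi.pow 2).const_mul Cv)).add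
        ((((hnτ.add hee).pow 2).const_mul (CD * Cv)).mul (hi.pow 2)) |>.const_mul 3
      simpa using h1
    refine squeeze_zero' (Eventually.of_forall fun n =>
      mul_nonneg (by have := qn_nonneg n; positivity) (nsq_nonneg _ _)) ?_ hb1
    filter_upwards [hPev] with n hPn
    have hn := hPn.1
    have hq := qn_pos n hn
    have hn' : (0 : ℝ) < n := by exact_mod_cast hn
    have hNn : 1 ≤ N n := by
      have := hN n
      nlinarith
    have hN8 : qn n ^ 8 ≤ (N n : ℝ) := by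
      have h1 : 4 * n ^ 2 ≤ N n := by have := hN n; omega
      have h2 : (4 : ℝ) * n ^ 2 ≤ N n := by exact_mod_cast h1
      have h3 : qn n ^ 8 = (qn n ^ 4) ^ 2 := by ring
      rw [h3, qn_four]
      nlinarith [sq_nonneg (n : ℝ)]
    have h3 := nsq_add3 (N n) (fun g => -((A n : ℂ) * rb n g)) (fun g => -edge n g)
      (fun g => -D n g)
    have hbd0 : 0 ≤ bd n := le_trans (Real.sqrt_nonneg _) (hres n hPn).2.1
    have h4 : nsq (N n) (fun g => -((A n : ℂ) * rb n g)) ≤ Cc ^ 2 * bd n ^ 2 := by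
      have h5 : nsq (N n) (fun g => -((A n : ℂ) * rb n g)) = (A n) ^ 2 * nsq (N n) (rb n) := by
        unfold nsq
        rw [Finset.mul_sum]
        refine Finset.sum_congr rfl fun g _ => ?_
        rw [norm_neg, norm_mul, mul_pow, Complex.norm_real, Real.norm_eq_abs, sq_abs]
      rw [h5]
      have h6 : nsq (N n) (rb n) ≤ bd n ^ 2 := by
        rw [← Real.sq_sqrt (nsq_nonneg (N n) (rb n))]
        exact pow_le_pow_left₀ (Real.sqrt_nonneg _) (hres n hPn).2.1 2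
      have h7 : (A n) ^ 2 ≤ Cc ^ 2 := pow_le_pow_left₀ (hA0 n) (hA2 n) 2
      exact mul_le_mul h7 h6 (nsq_nonneg _ _) (sq_nonneg _)
    have h5 : nsq (N n) (fun g => -edge n g) ≤ Cv / N n := by
      have := GE.nsq_edge' (G n) (vc n) (A n) Cv (hCv n) (N n) hNn
      refine le_trans (le_of_eq ?_) this
      unfold nsq
      refine Finset.sum_congr rfl fun g _ => ?_
      rw [norm_neg]
    have h6 : nsq (N n) (fun g => -D n g) ≤ CD * (δ n + ε n) ^ 2 * Cv := by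
      have := GE.nsq_Df' hC hB.le (hG n) (hBsum (G n) (hG n)) (ε n) (z n) (N n) (vc n) (A n) Cv
        (hε0 n) (hzle n) (hCv n (N n))
      refine le_trans (le_of_eq ?_) this
      unfold nsq
      refine Finset.sum_congr rfl fun g _ => ?_
      rw [norm_neg]
    have h7 : Cv / (N n : ℝ) ≤ Cv * ((qn n)⁻¹) ^ 8 := by
      rw [div_eq_mul_inv]
      gcongr
      rw [inv_pow]
      gcongr
    have h8 : CD * (δ n + ε n) ^ 2 * Cv ≤ CD * (τ n + ε n) ^ 2 * Cv := by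
      have h9 := hδle n
      have h10 : 0 ≤ δ n := norm_nonneg _
      have h11 := hε0 n
      gcongr
    have h9 : nsq (N n) (e2 n) ≤ 3 * (Cc ^ 2 * bd n ^ 2 + Cv * ((qn n)⁻¹) ^ 8
        + CD * (τ n + ε n) ^ 2 * Cv) := by
      refine h3.trans ?_
      have h10 := h5.trans h7
      have h11 := h6.trans h8
      linarith
    calc qn n ^ 6 * nsq (N n) (e2 n) ≤ qn n ^ 6 * (3 * (Cc ^ 2 * bd n ^ 2
          + Cv * ((qn n)⁻¹) ^ 8 + CD * (τ n + ε n) ^ 2 * Cv)) := by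
          gcongr
      _ = _ := by
          rw [← qn_four n]
          field_simp
  -- W2
  have hT2 : Tendsto (fun n : ℕ => nsq (N n) (fun g => W n g - W1 n g) / Real.sqrt n) atTop
      (𝓝 0) := by
    have hb1 : Tendsto (fun n : ℕ => Cr ^ 2 / (C⁻¹ * ((n : ℝ) * τ n)) ^ 2
        * (qn n ^ 6 * nsq (N n) (e2 n))) atTop (𝓝 0) := by
      have h1 : Tendsto (fun n : ℕ => Cr ^ 2 / (C⁻¹ * ((n : ℝ) * τ n)) ^ 2) atTop
          (𝓝 (Cr ^ 2 / (C⁻¹ * ‖w‖) ^ 2)) :=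
        tendsto_const_nhds.div ((hnτ.const_mul C⁻¹).pow 2) (by positivity)
      simpa using h1.mul hE2
    refine squeeze_zero' (Eventually.of_forall fun n => div_nonneg (nsq_nonneg _ _)
      (Real.sqrt_nonneg _)) ?_ hb1
    filter_upwards [hPev, hnτ.eventually_const_lt hwn] with n hPn hnt
    have hn := hPn.1
    have hδpos : 0 < δ n := norm_pos_iff.mpr (sub_ne_zero.mpr (hne n hn).symm)
    have hn' : (0 : ℝ) < n := by exact_mod_cast hn
    have hq := qn_pos n hn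
    have h1 := ((hr (G n) (hG n) (N n) (ε n) (z n) (hε0 n) (hzle n)).2.2 _ _ (hW2 n hPn)).1
    set X := nsq (N n) (fun g => W n g - W1 n g) with hX
    have hX0 : 0 ≤ X := nsq_nonneg _ _
    have hE0 := nsq_nonneg (N n) (e2 n)
    have h2 : δ n ^ 2 * X ≤ Cr ^ 2 * nsq (N n) (e2 n) := by
      have h3 : (δ n * Real.sqrt X) ^ 2 ≤ (Cr * Real.sqrt (nsq (N n) (e2 n))) ^ 2 := by
        gcongr
      rw [mul_pow, mul_pow, Real.sq_sqrt hX0, Real.sq_sqrt hE0] at h3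
      exact h3
    have h4 : X ≤ Cr ^ 2 * nsq (N n) (e2 n) / δ n ^ 2 := by
      rw [le_div_iff₀ (by positivity)]
      linarith
    have h5 : C⁻¹ * ((n : ℝ) * τ n) ≤ (n : ℝ) * δ n := by
      have := hδge n
      nlinarith
    have h6 : 0 < C⁻¹ * ((n : ℝ) * τ n) := by positivity
    calc X / Real.sqrt n ≤ (Cr ^ 2 * nsq (N n) (e2 n) / δ n ^ 2) / Real.sqrt n := by gcongr
      _ = Cr ^ 2 / ((n : ℝ) * δ n) ^ 2 * (qn n ^ 6 * nsq (N n) (e2 n)) := by
          rw [← qn_sq n, ← qn_four n]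
          field_simp
      _ ≤ _ := by gcongr
  -- Y
  have hT3 : Tendsto (fun n : ℕ => nsq (N n) (Yf (N n) (vc n) (A n)) / Real.sqrt n) atTop
      (𝓝 0) := by
    refine squeeze_zero (fun n => div_nonneg (nsq_nonneg _ _) (Real.sqrt_nonneg _)) (fun n => ?_)
      (sqrt_atTop.const_div_atTop Cv)
    have := nsq_Yf (N n) (vc n) (A n) Cv (hCv n (N n))
    gcongr
  -- conclusion
  have hfin : Tendsto (fun n : ℕ => 3 * (nsq (N n) (W1 n) / Real.sqrt n
      + nsq (N n) (fun g => W n g - W1 n g) / Real.sqrt n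
      + nsq (N n) (Yf (N n) (vc n) (A n)) / Real.sqrt n)) atTop (𝓝 0) := by
    have := ((hT1.add hT2).add hT3).const_mul 3
    simpa using this
  refine squeeze_zero (fun n => div_nonneg (nsq_nonneg _ _) (Real.sqrt_nonneg _)) (fun n => ?_) hfin
  have h1 := nsq_add3 (N n) (W1 n) (fun g => W n g - W1 n g) (Yf (N n) (vc n) (A n))
  have h2 : nsq (N n) (fun g => W1 n g + (W n g - W1 n g) + Yf (N n) (vc n) (A n) g)
      = nsq (N n) (fun g => v n g - (A n : ℂ) * v0 n g) := by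
    refine nsq_congr _ _ _ fun g _ => ?_
    simp only [hWdef]
    ring
  rw [h2] at h1
  calc nsq (N n) (fun g => v n g - (A n : ℂ) * v0 n g) / Real.sqrt n
      ≤ (3 * (nsq (N n) (W1 n) + nsq (N n) (fun g => W n g - W1 n g)
        + nsq (N n) (Yf (N n) (vc n) (A n)))) / Real.sqrt n := by gcongr
    _ = _ := by ring

end Pool.Agent.KCG
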