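import Pool.Agent.KCS.StA
import Pool.Agent.KCG.GLT

/-!
# Project KCS: module GLTX, the local limit theorem GLT with an explicit factor
-/

set_option autoImplicit false

open Finset Filter Topology

namespace Pool.Agent.KCG

open Pool.Agent.Gap

open GLT in
/-- module GLTX, from GEX, GJ2 and the old modules -/
theorem gltx_of (hE : GEX_Stmt) (hJ2 : GJ2_Stmt) (hW : Gap.W_Stmt) (hJ1 : J1_Stmt)
    (hJ1o : Gap.J1_Stmt) (hJ2s : Gap.J2_Stmt) (hX : X_Stmt) (hB1 : B1_Stmt)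
    (hB1o : Gap.B1_Stmt) : GLTX_Stmt := by
  intro C θ hC hθ hθ1
  obtain ⟨CE, Cv, hCE, hCv0, hE'⟩ := hE C θ hC hθ hθ1
  obtain ⟨C1, hC1, hJ⟩ := hJ2 C θ hC hθ hθ1
  obtain ⟨C2, hC2, hJ0⟩ := hJ2s stair 1 cap1 cap1 isCap_cap1 isCap_cap1
  -- uniform bounds of mbar and sig2
  set M : ℝ := C * ∑' m : ℕ, (m : ℝ) ^ 1 * θ ^ m with hM
  set S : ℝ := 4 * (C * ∑' m : ℕ, (m : ℝ) ^ 2 * θ ^ m) with hS
  -- lower and upper bound of cr
  set lo : ℝ := (CE⁻¹ * CE⁻¹) * Real.sqrt (2 * C⁻¹ ^ 2 / M) with hlo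
  set up : ℝ := M * (CE * CE) * Real.sqrt (2 * S) with hup
  refine ⟨CE, Cv, hCE, hCv0, ?_⟩
  intro G mb hb sg C0 s t B hK hs ht hB B0 hB0
  have hmb1 : 1 ≤ mb := ge_of_tendsto' hK.lim_m fun n => one_le_mbar (G n)
  have hmbM : mb ≤ M := le_of_tendsto' hK.lim_m fun n => mbar_le (hK.cls n) hC hθ hθ1
  have hsg1 : C⁻¹ ^ 2 ≤ sg := ge_of_tendsto' hK.lim_s fun n =>
    (pow_le_pow_left₀ (inv_pos.mpr hC).le (hK.cls n).rho_ge 2).trans (G n).rho_le_sig2
  have hsgS : sg ≤ S := le_of_tendsto' hK.lim_s fun n => sig2_le (hK.cls n) hC hθ hθ1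
  have hhb : 0 ≤ hb := ge_of_tendsto' hK.lim_h fun n => (G n).hbar_pos.le
  have hCi : 0 < C⁻¹ := inv_pos.mpr hC
  have hsg : 0 < sg := lt_of_lt_of_le (pow_pos hCi 2) hsg1
  have hmb : 0 < mb := by linarith
  have hMpos : 0 < M := by linarith
  have hSpos : 0 < S := by linarith
  obtain ⟨As, hLs, hEs⟩ := hE' G mb hb sg C0 s hK hs
  obtain ⟨At, hLt, hEt⟩ := hE' G mb hb sg C0 t hK ht
  have hAs : ∀ n, CE⁻¹ ≤ As n ∧ As n ≤ CE := by
    obtain ⟨vc, hvc⟩ := hLs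
    exact fun n => ⟨(hvc n).2.1, (hvc n).2.2.1⟩
  have hAt : ∀ n, CE⁻¹ ≤ At n ∧ At n ≤ CE := by
    obtain ⟨vc, hvc⟩ := hLt
    exact fun n => ⟨(hvc n).2.1, (hvc n).2.2.1⟩
  have hCEi : 0 < CE⁻¹ := inv_pos.mpr hCE
  have hAs0 : ∀ n, 0 < As n := fun n => lt_of_lt_of_le hCEi (hAs n).1
  have hAt0 : ∀ n, 0 < At n := fun n => lt_of_lt_of_le hCEi (hAt n).1
  set β := 2 * sg / mb with hβ
  have hβ0 : 0 < β := by positivity
  set F : ℕ → ℝ := fun n => (G n).mbar * (As n * At n) with hF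
  have hmn : ∀ n, 0 < (G n).mbar := fun n => (G n).mbar_pos
  have hF0 : ∀ n, 0 ≤ F n := fun n => by
    have := hmn n
    have := hAs0 n
    have := hAt0 n
    simp only [hF]
    positivity
  have hFlo : ∀ n, CE⁻¹ * CE⁻¹ ≤ F n := fun n => by
    have h1 := one_le_mbar (G n)
    have h2 : CE⁻¹ * CE⁻¹ ≤ As n * At n := mul_le_mul (hAs n).1 (hAt n).1 hCEi.le (hAs0 n).le
    have h3 : 0 ≤ As n * At n := mul_nonneg (hAs0 n).le (hAt0 n).le
    simp only [hF]
    nlinarith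
  have hFup : ∀ n, F n ≤ M * (CE * CE) := fun n => by
    have h1 : (G n).mbar ≤ M := mbar_le (hK.cls n) hC hθ hθ1
    have h2 : As n * At n ≤ CE * CE := mul_le_mul (hAs n).2 (hAt n).2 (hAt0 n).le hCE.le
    exact mul_le_mul h1 h2 (mul_nonneg (hAs0 n).le (hAt0 n).le) hMpos.le
  have hβlo : 2 * C⁻¹ ^ 2 / M ≤ β := by
    rw [hβ]
    gcongr
  have hβup : β ≤ 2 * S := by
    rw [hβ, div_le_iff₀ hmb]
    nlinarith
  have hlo0 : 0 < lo := by
    rw [hlo]
    positivity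
  have hup0 : 0 < up := by
    rw [hup]
    positivity
  refine ⟨As, At, hLs, hLt, ?_⟩
  intro n0 hn0 lam hlam
  have hl0 : 0 ≤ lamS mb hb sg lam := by
    unfold lamS
    have : 0 < 2 * sg / mb := hβ0
    positivity
  set lam' := lamS mb hb sg lam with hlam'
  set N : ℕ → ℕ := fun n => 4 * n ^ 2 + 4 * (n0 n) ^ 2 + C0 n + ((G n).R + 1) * (n + 1)
    + 2 * (n0 n + 1) + 1 with hN
  have hNbig : ∀ n, 4 * n ^ 2 + 4 * (n0 n) ^ 2 ≤ N n := fun n => by simp only [hN]; omega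
  -- arrays
  have hex : ∀ n, ∃ b, IsArr (G n) (s n) (epsn lam n) (N n) b := fun n =>
    (hJ1 (G n) (C0 n) (s n) (hs n).cap (N n) (epsn lam n) (epsn_nonneg _ hlam _)).1
  choose b hbA using hex
  have hex' : ∀ n, ∃ b, IsArr (G n) (t n) (epsn lam n) (N n) b := fun n =>
    (hJ1 (G n) (C0 n) (t n) (ht n).cap (N n) (epsn lam n) (epsn_nonneg _ hlam _)).1
  choose b' hbA' using hex'
  have hex0 : ∀ n, ∃ b, Gap.IsArr stair cap1 (epsn lam' (n0 n)) (N n) b := fun n =>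
    (hJ1o stair 1 cap1 isCap_cap1 (N n) (epsn lam' (n0 n)) (epsn_nonneg _ hl0 _)).1
  choose b0 hbA0 using hex0
  have hC0N : ∀ n, C0 n ≤ N n := fun n => by simp only [hN]; omega
  have h1N : ∀ n, 1 ≤ N n := fun n => by simp only [hN]; omega
  set K1 : ℝ := C1 / (C⁻¹ * Real.sqrt C⁻¹) + C1 / (C⁻¹ ^ 2 * Real.sqrt C⁻¹) with hK1
  set K2 : ℝ := M * (CE * CE) * C2 with hK2
  have key := hX 1 (1 / 4) β 1 (max K1 K2) n0
    (fun n m => close (C0 n) (t n) (b n) m * (G n).rho ^ m)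
    (fun n m => F n * close 1 cap1 (b0 n) m) one_pos (by norm_num) hβ0 hn0
    (by
      intro n z hz
      obtain ⟨a1, a2, a3⟩ := bounds_scale (a := close (C0 n) (t n) (b n)) (r := (G n).rho)
        (κ := C⁻¹) (C1 := C1) (G n).rho_pos hCi (hK.cls n).rho_ge hC1
        (by
          intro z hz
          obtain ⟨a1, _, a3, a4⟩ := hJ (G n) (hK.cls n) (C0 n) (s n) (t n) (hs n) (ht n) (N n)
            (epsn lam n) (epsn_nonneg _ hlam _) (hC0N n) (b n) (b' n) (hbA n) (hbA' n) z hz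
          exact ⟨a1, a3, a4⟩) z hz
      exact ⟨a1, a2.trans (le_max_left _ _), a3.trans (le_max_left _ _)⟩)
    (by
      intro n z hz
      obtain ⟨a1, a2, a3⟩ := bounds_const (a := close 1 cap1 (b0 n)) (r := 1 / 4)
        (F := F n) (M := M * (CE * CE)) (C1 := C2) hC2 (hF0 n) (hFup n)
        (by
          intro z hz
          obtain ⟨a1, _, a3, a4⟩ := hJ0 (N n) (epsn lam' (n0 n)) (epsn_nonneg _ hl0 _) (h1N n)
            (b0 n) (b0 n) (hbA0 n) (hbA0 n) z hz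
          have e4 : ((stair.rho : ℝ) : ℂ) = (((1 / 4 : ℝ) : ℝ) : ℂ) := rfl
          rw [e4] at a3 a4
          exact ⟨a1, a3, a4⟩) z hz
      exact ⟨a1, a2.trans (le_max_right _ _), a3.trans (le_max_right _ _)⟩)
    (by
      intro w hw
      -- the solutions
      have hsol : ∀ n, 1 ≤ n → 1 ≤ n0 n →
          (G n).Solves (epsn lam n) (zn (G n).rho w n) (N n) (gf 0 (b n) (zn (G n).rho w n))
            (capz (C0 n) (s n) 0 (zn (G n).rho w n)) := by
        intro n hn1 _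
        have := ((hJ1 (G n) (C0 n) (s n) (hs n).cap (N n) (epsn lam n)
          (epsn_nonneg _ hlam _)).2 (b n) (hbA n)).2.2.2
          (zn (G n).rho w n) (zn_norm_lt _ (G n).rho_pos w hw n hn1) 0
        simpa using this
      have hsol' : ∀ n, 1 ≤ n → 1 ≤ n0 n →
          (G n).Solves (epsn lam n) (zn (G n).rho w n) (N n) (gf 0 (b' n) (zn (G n).rho w n))
            (capz (C0 n) (t n) 0 (zn (G n).rho w n)) := by
        intro n hn1 _
        have := ((hJ1 (G n) (C0 n) (t n) (ht n).cap (N n) (epsn lam n)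
          (epsn_nonneg _ hlam _)).2 (b' n) (hbA' n)).2.2.2
          (zn (G n).rho w n) (zn_norm_lt _ (G n).rho_pos w hw n hn1) 0
        simpa using this
      have hsol0 : ∀ n, 1 ≤ n → 1 ≤ n0 n →
          stair.Solves (epsn lam' (n0 n)) (zn (1 / 4) w (n0 n)) (N n)
            (gf 0 (b0 n) (zn (1 / 4) w (n0 n))) (src1 (zn (1 / 4) w (n0 n))) := by
        intro n _ hn0'
        have := ((hJ1o stair 1 cap1 isCap_cap1 (N n) (epsn lam' (n0 n))
          (epsn_nonneg _ hl0 _)).2 (b0 n) (hbA0 n)).2.2.2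
          (zn (1 / 4) w (n0 n)) (zn_norm_lt _ (by norm_num) w hw _ hn0') 0
        rw [← capz_cap1]
        simpa using this
      have c1 := hEs n0 N hn0 hNbig lam w hlam hw (fun n => gf 0 (b n) (zn (G n).rho w n))
        (fun n => gf 0 (b0 n) (zn (1 / 4) w (n0 n))) (fun n h1 h2 => ⟨hsol n h1 h2, hsol0 n h1 h2⟩)
      have c2 := hEt n0 N hn0 hNbig lam w hlam hw (fun n => gf 0 (b' n) (zn (G n).rho w n))
        (fun n => gf 0 (b0 n) (zn (1 / 4) w (n0 n))) (fun n h1 h2 => ⟨hsol' n h1 h2, hsol0 n h1 h2⟩)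
      obtain ⟨Cq, hCq, hq⟩ := v0_bound hW hβ0 hn0 N (fun n => epsn lam' (n0 n))
        (fun n => epsn_nonneg _ hl0 _) w hw (fun n => gf 0 (b0 n) (zn (1 / 4) w (n0 n))) hsol0
      have hp := pairing_limit N (fun n => gf 0 (b n) (zn (G n).rho w n))
        (fun n => gf 0 (b' n) (zn (G n).rho w n)) (fun n => gf 0 (b0 n) (zn (1 / 4) w (n0 n)))
        As At Cq CE hCq.le (fun n => by rw [abs_of_pos (hAs0 n)]; exact (hAs n).2)
        (fun n => by rw [abs_of_pos (hAt0 n)]; exact (hAt n).2) hq c1 c2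
      -- assemble
      have hsq : Tendsto (fun n : ℕ => (C1 + M * (CE * CE) * C2) / Real.sqrt n) atTop (𝓝 0) :=
        sqrt_atTop.const_div_atTop _
      have hp2 := (hp.norm.const_mul M).add hsq
      rw [norm_zero, mul_zero, add_zero] at hp2
      rw [tendsto_zero_iff_norm_tendsto_zero]
      refine squeeze_zero' (Eventually.of_forall fun n => norm_nonneg _) ?_ hp2
      filter_upwards [eventually_ge_atTop 1, (n0_atTop hβ0 hn0).eventually_ge_atTop 1]
        with n hn1 hn0'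
      have hz := zn_norm_lt (G n).rho (G n).rho_pos w hw n hn1
      have hz0 := zn_norm_lt (1 / 4) (by norm_num) w hw (n0 n) hn0'
      obtain ⟨_, a2, _, _⟩ := hJ (G n) (hK.cls n) (C0 n) (s n) (t n) (hs n) (ht n) (N n)
        (epsn lam n) (epsn_nonneg _ hlam _) (hC0N n) (b n) (b' n) (hbA n) (hbA' n) _ hz
      obtain ⟨_, d2, _, _⟩ := hJ0 (N n) (epsn lam' (n0 n)) (epsn_nonneg _ hl0 _) (h1N n)
        (b0 n) (b0 n) (hbA0 n) (hbA0 n) _ hz0
      rw [mbar_stair] at d2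
      rw [sgf_scale, sgf_const_mul, zn_scale]
      set P := ∑ g ∈ Icc (1 : ℤ) (N n), gf 0 (b n) (zn (G n).rho w n) g
        * gf 0 (b' n) (zn (G n).rho w n) g with hP
      set Q := ∑ g ∈ Icc (1 : ℤ) (N n), gf 0 (b0 n) (zn (1 / 4) w (n0 n)) g
        * gf 0 (b0 n) (zn (1 / 4) w (n0 n)) g with hQ
      have hsn : 0 < Real.sqrt n := by
        have : (0 : ℝ) < n := by exact_mod_cast hn1
        positivity
      have e1 : sgf 1 (close (C0 n) (t n) (b n)) (zn (G n).rho w n)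
          - ((1 : ℝ) : ℂ) * ((F n : ℂ) * sgf 1 (close 1 cap1 (b0 n)) (zn (1 / 4) w (n0 n)))
          = (sgf 1 (close (C0 n) (t n) (b n)) (zn (G n).rho w n) - ((G n).mbar : ℂ) * P)
            + ((G n).mbar : ℂ) * (P - ((As n * At n : ℝ) : ℂ) * Q)
            + -((F n : ℂ) *
              (sgf 1 (close 1 cap1 (b0 n)) (zn (1 / 4) w (n0 n)) - ((1 : ℝ) : ℂ) * Q)) := by
        simp only [hF]
        push_cast
        ring
      rw [e1, norm_div, Complex.norm_real, Real.norm_of_nonneg hsn.le, norm_div,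
        Complex.norm_real, Real.norm_of_nonneg hsn.le]
      have n3 := norm_add₃_le
        (a := sgf 1 (close (C0 n) (t n) (b n)) (zn (G n).rho w n) - ((G n).mbar : ℂ) * P)
        (b := ((G n).mbar : ℂ) * (P - ((As n * At n : ℝ) : ℂ) * Q))
        (c := -((F n : ℂ) *
              (sgf 1 (close 1 cap1 (b0 n)) (zn (1 / 4) w (n0 n)) - ((1 : ℝ) : ℂ) * Q)))
      rw [norm_neg, norm_mul, norm_mul, Complex.norm_real, Complex.norm_real,
        Real.norm_of_nonneg (hmn n).le, Real.norm_of_nonneg (hF0 n)] at n3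
      have hmM : (G n).mbar ≤ M := mbar_le (hK.cls n) hC hθ hθ1
      have hFM := hFup n
      have hMC : 0 ≤ M * (CE * CE) := (hF0 n).trans hFM
      calc _ ≤ (C1 + M * ‖P - ((As n * At n : ℝ) : ℂ) * Q‖ + M * (CE * CE) * C2) / Real.sqrt n := by
            gcongr
            refine n3.trans ?_
            gcongr
        _ = _ := by ring)
  refine key.congr fun n => ?_
  have ev1 : close (C0 n) (t n) (b n) n
      = (closeP (C0 n) (t n) (B n) n).eval (Real.exp (-(epsn lam n))) := by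
    refine eval_closeP (C0 n) (t n) (B n) (b n) _ n fun m hmn g => ?_
    refine hB1 (G n) (C0 n) (s n) (hs n).cap (B n) (hB n) (N n) (epsn lam n) (b n)
      (epsn_nonneg _ hlam _) (hbA n) m ?_ g
    have : ((G n).R + 1) * (m + 1) ≤ ((G n).R + 1) * (n + 1) := Nat.mul_le_mul_left _ (by omega)
    simp only [hN]
    omega
  have ev0 : close 1 cap1 (b0 n) (n0 n)
      = (closeP 1 cap1 B0 (n0 n)).eval (Real.exp (-(epsn lam' (n0 n)))) := by
    refine eval_closeP 1 cap1 B0 (b0 n) _ (n0 n) fun m hmn g => ?_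
    refine hB1o stair 1 cap1 isCap_cap1 B0 hB0 (N n) (epsn lam' (n0 n)) (b0 n)
      (epsn_nonneg _ hl0 _) (hbA0 n) m ?_ g
    have hR : stair.R = 1 := rfl
    rw [hR]
    simp only [hN]
    have h1 : n0 n ≤ (n0 n) ^ 2 := by nlinarith [Nat.zero_le (n0 n)]
    omega
  simp only [ev1, ev0]
  ring

/-- **Module GLTX.** -/
theorem gltx (hE : GEX_Stmt) (hJ2 : GJ2_Stmt) : GLTX_Stmt := by
  have hC2 : Gap.C2_Stmt := Gap.C2
  have hC : Gap.C_Stmt := Gap.C hC2
  have hRE : Gap.RE_Stmt := Gap.RE hC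
  exact gltx_of hE hJ2 (Gap.W hC) J1 Gap.J1 (Gap.J2 hC2 hC hRE) Gap.X B1 Gap.B1

end Pool.Agent.KCG
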