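import Pool.Agent.KCS.StA
import Pool.Agent.KCG.GM2

/-! MODULE KCS_GMC: coefficients from a singularity of order `k + 1/2`. -/

set_option autoImplicit false

open Finset Filter Topology MeasureTheory Complex

namespace Pool.Agent.KCG.GMC

open Pool.Agent.Gap

/-- Coefficient bound on the unit disc: a generating function which is `O(|1 - z|^{-(k + 1/2)})`
has coefficients `O(n^{k - 1/2})`. -/
lemma coef_unit (k : ℕ) (hk : 1 ≤ k) (C : ℝ) (hC : 0 ≤ C) : ∃ C' : ℝ, 0 ≤ C' ∧ ∀ a : ℕ → ℝ,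
    (∀ z : ℂ, ‖z‖ < 1 → Summable fun m : ℕ => ‖((a m : ℝ) : ℂ) * z ^ m‖) →
    (∀ z : ℂ, ‖z‖ < 1 → ‖∑' m : ℕ, ((a m : ℝ) : ℂ) * z ^ m‖ *
      (Real.sqrt ‖1 - z‖ * ‖1 - z‖ ^ k) ≤ C) →
    ∀ n : ℕ, 1 ≤ n → |a n| * Real.sqrt n ≤ C' * (n : ℝ) ^ k := by
  set q : ℝ := 1 / 10 with hq
  have hq0 : 0 < q := by positivity
  set c1 : ℝ := C / (Real.sqrt q * q ^ k) with hc1
  have hc10 : 0 ≤ c1 := by positivity
  refine ⟨Real.exp 1 * (4 * c1), by positivity, fun a hs hF n hn => ?_⟩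
  have hn' : (0 : ℝ) < n := by exact_mod_cast hn
  have hpi := Real.pi_pos
  set r : ℝ := Real.exp (-(1 / (n : ℝ))) with hrdef
  have hr0 : 0 < r := by positivity
  have hrlt : r < 1 := by
    rw [hrdef, Real.exp_lt_one_iff]
    have : 0 < 1 / (n : ℝ) := by positivity
    linarith
  have hsr : Summable fun m : ℕ => ‖((a m : ℝ) : ℂ) * (r : ℂ) ^ m‖ := by
    apply hs
    rw [Complex.norm_real, Real.norm_of_nonneg hr0.le]
    exact hrlt
  have h1 := coef_integral a r hsr n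
  set c2 : ℝ := c1 * (n : ℝ) ^ (k - 1) with hc2
  have hc20 : 0 ≤ c2 := by positivity
  -- pointwise bound
  have h2 : ∀ θ : ℝ, |θ| ≤ Real.pi → ‖(∑' m : ℕ, ((a m : ℝ) : ℂ) *
      ((r : ℂ) * Complex.exp (θ * I)) ^ m) * Complex.exp (-(n * θ * I))‖ ≤
      c2 * (1 / (n : ℝ) + |θ|) ^ (-(3 / 2) : ℝ) := by
    intro θ hθ
    have h3 : ‖Complex.exp (-(n * θ * I))‖ = 1 := by
      have h1 : -((n : ℂ) * θ * I) = ((-(n * θ) : ℝ) : ℂ) * I := by push_cast; ring
      rw [h1, Complex.norm_exp_ofReal_mul_I]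
    rw [norm_mul, h3, mul_one]
    set z : ℂ := (r : ℂ) * Complex.exp (θ * I) with hz
    have hz1 : ‖z‖ < 1 := by
      rw [hz, norm_mul, Complex.norm_exp_ofReal_mul_I, mul_one, Complex.norm_real,
        Real.norm_of_nonneg hr0.le]
      exact hrlt
    have hz2 : z = Complex.exp (((-(1 / (n : ℝ)) : ℝ) : ℂ) + θ * I) := by
      rw [hz, hrdef, Complex.exp_add]
      push_cast
      ring
    set x : ℝ := 1 / (n : ℝ) + |θ| with hxdef
    have hx : 0 < x := by positivity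
    have hxn : 1 / (n : ℝ) ≤ x := by
      rw [hxdef]
      linarith [abs_nonneg θ]
    have hd : q * x ≤ ‖1 - z‖ := by
      have h4 := dist_circle n hn θ hθ
      rw [hz2]
      calc q * x = (1 / (n : ℝ) + |θ|) / 10 := by rw [hq, hxdef]; ring
        _ ≤ _ := h4
    have hqx : 0 < q * x := by positivity
    have h6 := hF z hz1
    have h7 : Real.sqrt (q * x) * (q * x) ^ k ≤ Real.sqrt ‖1 - z‖ * ‖1 - z‖ ^ k :=
      mul_le_mul (Real.sqrt_le_sqrt hd) (pow_le_pow_left₀ hqx.le hd k) (by positivity)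
        (Real.sqrt_nonneg _)
    have h8 : ‖∑' m : ℕ, ((a m : ℝ) : ℂ) * z ^ m‖ * (Real.sqrt (q * x) * (q * x) ^ k) ≤ C :=
      (mul_le_mul_of_nonneg_left h7 (norm_nonneg _)).trans h6
    have h9 : (Real.sqrt q * q ^ k) * (x ^ ((3 / 2) : ℝ) * (1 / (n : ℝ)) ^ (k - 1)) ≤
        Real.sqrt (q * x) * (q * x) ^ k := by
      rw [Real.sqrt_mul hq0.le, mul_pow]
      have h10 : x ^ ((3 / 2) : ℝ) = Real.sqrt x * x := by
        rw [Real.sqrt_eq_rpow, ← Real.rpow_add_one hx.ne']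
        norm_num
      have h11 : x ^ k = x * x ^ (k - 1) := by
        rw [← pow_succ']
        congr 1
        omega
      rw [h10, h11]
      have h12 : (1 / (n : ℝ)) ^ (k - 1) ≤ x ^ (k - 1) := pow_le_pow_left₀ (by positivity) hxn _
      calc (Real.sqrt q * q ^ k) * (Real.sqrt x * x * (1 / (n : ℝ)) ^ (k - 1))
          ≤ (Real.sqrt q * q ^ k) * (Real.sqrt x * x * x ^ (k - 1)) := by gcongr
        _ = _ := by ring
    have h10 : ‖∑' m : ℕ, ((a m : ℝ) : ℂ) * z ^ m‖ *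
        ((Real.sqrt q * q ^ k) * (x ^ ((3 / 2) : ℝ) * (1 / (n : ℝ)) ^ (k - 1))) ≤ C :=
      (mul_le_mul_of_nonneg_left h9 (norm_nonneg _)).trans h8
    have hnk : (1 / (n : ℝ)) ^ (k - 1) * (n : ℝ) ^ (k - 1) = 1 := by
      rw [← mul_pow, one_div, inv_mul_cancel₀ hn'.ne', one_pow]
    have hxp : 0 < x ^ ((3 / 2) : ℝ) := by positivity
    have hS : 0 < Real.sqrt q * q ^ k := by positivity
    rw [Real.rpow_neg hx.le, ← div_eq_mul_inv, le_div_iff₀ hxp, hc2, hc1]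
    set F := ‖∑' m : ℕ, ((a m : ℝ) : ℂ) * z ^ m‖ with hFdef
    calc F * x ^ ((3 / 2) : ℝ) = (F * ((Real.sqrt q * q ^ k) * (x ^ ((3 / 2) : ℝ) *
          (1 / (n : ℝ)) ^ (k - 1)))) / (Real.sqrt q * q ^ k) * (n : ℝ) ^ (k - 1) := by
          rw [div_mul_eq_mul_div, eq_div_iff hS.ne']
          calc F * x ^ ((3 / 2) : ℝ) * (Real.sqrt q * q ^ k) =
              F * x ^ ((3 / 2) : ℝ) * (Real.sqrt q * q ^ k) * 1 := (mul_one _).symm
            _ = F * x ^ ((3 / 2) : ℝ) * (Real.sqrt q * q ^ k) *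
              ((1 / (n : ℝ)) ^ (k - 1) * (n : ℝ) ^ (k - 1)) := by rw [hnk]
            _ = _ := by ring
      _ ≤ C / (Real.sqrt q * q ^ k) * (n : ℝ) ^ (k - 1) := by gcongr
  -- integrate
  have hcont' : Continuous (fun θ : ℝ => c2 * (1 / (n : ℝ) + |θ|) ^ (-(3 / 2) : ℝ)) := by
    refine continuous_const.mul ?_
    apply Continuous.rpow_const (by fun_prop)
    intro θ
    left
    have : 0 < 1 / (n : ℝ) + |θ| := by positivity
    exact this.ne'
  have h3 : ‖∫ θ in (-Real.pi)..Real.pi, (∑' m : ℕ, ((a m : ℝ) : ℂ) *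
      ((r : ℂ) * Complex.exp (θ * I)) ^ m) * Complex.exp (-(n * θ * I))‖ ≤
      ∫ θ in (-Real.pi)..Real.pi, c2 * (1 / (n : ℝ) + |θ|) ^ (-(3 / 2) : ℝ) := by
    apply intervalIntegral.norm_integral_le_of_norm_le (by linarith)
    · filter_upwards with θ hθ
      apply h2
      rw [abs_le]
      exact ⟨hθ.1.le, hθ.2⟩
    · exact hcont'.intervalIntegrable _ _
  have h4 : ∫ θ in (-Real.pi)..Real.pi, c2 * (1 / (n : ℝ) + |θ|) ^ (-(3 / 2) : ℝ) ≤
      c2 * (4 * Real.sqrt n) := by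
    rw [intervalIntegral.integral_const_mul]
    refine mul_le_mul_of_nonneg_left ?_ hc20
    have hc2 : Continuous (fun θ : ℝ => (1 / (n : ℝ) + |θ|) ^ (-(3 / 2) : ℝ)) := by
      apply Continuous.rpow_const (by fun_prop)
      intro θ
      left
      have : 0 < 1 / (n : ℝ) + |θ| := by positivity
      exact this.ne'
    rw [← intervalIntegral.integral_add_adjacent_intervals (b := 0)
      (hc2.intervalIntegrable _ _) (hc2.intervalIntegrable _ _)]
    have h5 : ∫ θ in (0 : ℝ)..Real.pi, (1 / (n : ℝ) + |θ|) ^ (-(3 / 2) : ℝ) =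
        ∫ θ in (0 : ℝ)..Real.pi, (1 / (n : ℝ) + θ) ^ (-(3 / 2) : ℝ) := by
      apply intervalIntegral.integral_congr
      intro θ hθ
      rw [Set.uIcc_of_le hpi.le, Set.mem_Icc] at hθ
      simp only
      rw [abs_of_nonneg hθ.1]
    have h6 : ∫ θ in (-Real.pi)..0, (1 / (n : ℝ) + |θ|) ^ (-(3 / 2) : ℝ) =
        ∫ θ in (0 : ℝ)..Real.pi, (1 / (n : ℝ) + |θ|) ^ (-(3 / 2) : ℝ) := by
      have h7 := intervalIntegral.integral_comp_neg (a := 0) (b := Real.pi)
        (fun θ : ℝ => (1 / (n : ℝ) + |θ|) ^ (-(3 / 2) : ℝ))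
      simp only [abs_neg, neg_zero] at h7
      exact h7.symm
    rw [h6, h5]
    have := integral_shift_rpow n hn
    linarith
  have h5 : ‖2 * (Real.pi : ℂ) * ((a n : ℝ) : ℂ) * (r : ℂ) ^ n‖ = 2 * Real.pi * |a n| * r ^ n := by
    rw [norm_mul, norm_mul, norm_mul, norm_pow, Complex.norm_real, Complex.norm_real,
      Complex.norm_real, Real.norm_of_nonneg hpi.le, Real.norm_of_nonneg hr0.le, Real.norm_eq_abs]
    norm_num
  rw [h1, h5] at h3
  have h6 : r ^ n = Real.exp (-1) := by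
    rw [hrdef, ← Real.exp_nat_mul]
    congr 1
    field_simp
  have h7 : 2 * Real.pi * |a n| * r ^ n ≤ c2 * (4 * Real.sqrt n) := h3.trans h4
  rw [h6] at h7
  have h8 : (1 : ℝ) ≤ 2 * Real.pi := by
    have := Real.pi_gt_three
    linarith
  have h9 : |a n| * Real.exp (-1) ≤ c2 * (4 * Real.sqrt n) := by
    refine le_trans ?_ h7
    have h10 : 0 ≤ |a n| * Real.exp (-1) := by positivity
    calc |a n| * Real.exp (-1) = 1 * (|a n| * Real.exp (-1)) := by ring
      _ ≤ 2 * Real.pi * (|a n| * Real.exp (-1)) := mul_le_mul_of_nonneg_right h8 h10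
      _ = _ := by ring
  have h10 : Real.exp 1 * Real.exp (-1) = 1 := by rw [← Real.exp_add]; simp
  have h11 : |a n| ≤ Real.exp 1 * (c2 * (4 * Real.sqrt n)) := by
    calc |a n| = Real.exp 1 * (|a n| * Real.exp (-1)) := by
          rw [mul_comm (|a n|), ← mul_assoc, h10, one_mul]
      _ ≤ _ := mul_le_mul_of_nonneg_left h9 (Real.exp_pos _).le
  have hnk : (n : ℝ) ^ k = (n : ℝ) ^ (k - 1) * n := by
    rw [← pow_succ]
    congr 1
    omega
  have hsq : Real.sqrt n * Real.sqrt n = n := Real.mul_self_sqrt hn'.le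
  calc |a n| * Real.sqrt n ≤ Real.exp 1 * (c2 * (4 * Real.sqrt n)) * Real.sqrt n :=
        mul_le_mul_of_nonneg_right h11 (Real.sqrt_nonneg _)
    _ = Real.exp 1 * (4 * c2) * (Real.sqrt n * Real.sqrt n) := by ring
    _ = Real.exp 1 * (4 * c1) * (n : ℝ) ^ k := by
        rw [hsq, hnk, hc2]
        ring

end Pool.Agent.KCG.GMC

namespace Pool.Agent.KCG

open Pool.Agent.Gap

/-- GMC: coefficients from a singularity of order `k + 1/2`. -/
theorem gmc : GMC_Stmt := by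
  intro k A C hk hA hC
  obtain ⟨C', hC'0, hC'⟩ := GMC.coef_unit k hk (A * (Real.sqrt C * C ^ k)) (by positivity)
  refine ⟨C', hC'0, fun rho a hrho hr hs hF n hn => ?_⟩
  have hterm : ∀ (z : ℂ) (m : ℕ), (((a m * rho ^ m : ℝ)) : ℂ) * z ^ m =
      ((a m : ℝ) : ℂ) * ((rho : ℂ) * z) ^ m := by
    intro z m
    push_cast
    rw [mul_pow]
    ring
  have hnorm : ∀ z : ℂ, ‖z‖ < 1 → ‖(rho : ℂ) * z‖ < rho := by
    intro z hz
    rw [norm_mul, Complex.norm_real, Real.norm_of_nonneg hrho.le]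
    calc rho * ‖z‖ < rho * 1 := mul_lt_mul_of_pos_left hz hrho
      _ = rho := mul_one _
  have h1 := hC' (fun m => a m * rho ^ m) ?_ ?_ n hn
  · have h2 : |a n * rho ^ n| = |a n| * rho ^ n := by
      rw [abs_mul, abs_of_nonneg (by positivity : (0 : ℝ) ≤ rho ^ n)]
    rw [← h2]
    exact h1
  · intro z hz
    have h2 := hs _ (hnorm z hz)
    refine h2.congr fun m => ?_
    rw [hterm]
  · intro z hz
    have h2 := hF _ (hnorm z hz)
    have h3 : ∑' m : ℕ, (((a m * rho ^ m : ℝ)) : ℂ) * z ^ m =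
        ∑' m : ℕ, ((a m : ℝ) : ℂ) * ((rho : ℂ) * z) ^ m := tsum_congr fun m => hterm z m
    rw [h3]
    set F := ‖∑' m : ℕ, ((a m : ℝ) : ℂ) * ((rho : ℂ) * z) ^ m‖ with hFdef
    have hF0 : 0 ≤ F := norm_nonneg _
    have h4 : ‖(rho : ℂ) - (rho : ℂ) * z‖ = rho * ‖1 - z‖ := by
      have : (rho : ℂ) - (rho : ℂ) * z = (rho : ℂ) * (1 - z) := by ring
      rw [this, norm_mul, Complex.norm_real, Real.norm_of_nonneg hrho.le]
    rw [h4, Real.sqrt_mul hrho.le, mul_pow] at h2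
    set d := ‖1 - z‖ with hd
    have hd0 : 0 ≤ d := norm_nonneg _
    have hCr : 1 ≤ C * rho := by
      have := mul_le_mul_of_nonneg_left hr hC.le
      rwa [mul_inv_cancel₀ hC.ne'] at this
    have h5 : 1 ≤ Real.sqrt C * Real.sqrt rho := by
      rw [← Real.sqrt_mul hC.le]
      exact Real.one_le_sqrt.2 hCr
    have h6 : 0 ≤ F * (Real.sqrt d * d ^ k) := by positivity
    have h7 : 1 ≤ (Real.sqrt C * Real.sqrt rho) * (C * rho) ^ k := by
      calc (1 : ℝ) = 1 * 1 := (one_mul 1).symm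
        _ ≤ _ := mul_le_mul h5 (one_le_pow₀ hCr) zero_le_one (by positivity)
    calc F * (Real.sqrt d * d ^ k) = F * (Real.sqrt d * d ^ k) * 1 := (mul_one _).symm
      _ ≤ F * (Real.sqrt d * d ^ k) * ((Real.sqrt C * Real.sqrt rho) * (C * rho) ^ k) :=
          mul_le_mul_of_nonneg_left h7 h6
      _ = (F * (Real.sqrt rho * Real.sqrt d * (rho ^ k * d ^ k))) * (Real.sqrt C * C ^ k) := by
          rw [mul_pow]
          ring
      _ ≤ A * (Real.sqrt C * C ^ k) := mul_le_mul_of_nonneg_right h2 (by positivity)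

end Pool.Agent.KCG
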