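import Pool.Agent.KCS.StA
import Pool.Agent.KCG.GM2

/-! MODULE KCS_GMK: moments of order `2 k` of the closed polynomials, uniform over a class of
kernels. -/

set_option autoImplicit false

open Finset Filter Topology

namespace Pool.Agent.KCG.GMKaux

open Pool.Agent.Gap Pool.Agent.KCG.GM2

/-! ### The moments as linear functionals -/

lemma mr_eq (r : ℕ) (P : Polynomial ℝ) :
    mr r P = Polynomial.lsum (fun m => LinearMap.mulRight ℝ ((m : ℝ) ^ r)) P := rfl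

lemma mr_sum (r : ℕ) {ι : Type*} (s : Finset ι) (f : ι → Polynomial ℝ) :
    mr r (∑ i ∈ s, f i) = ∑ i ∈ s, mr r (f i) := by
  simp only [mr_eq, map_sum]

lemma mr_C_mul (r : ℕ) (c : ℝ) (P : Polynomial ℝ) : mr r (Polynomial.C c * P) = c * mr r P := by
  rw [← Polynomial.smul_eq_C_mul, mr_eq, mr_eq, map_smul, smul_eq_mul]

/-! ### The source of powers of areas -/

lemma even_nonneg (k : ℕ) (x : ℝ) : 0 ≤ x ^ (2 * k) := by
  rw [pow_mul]
  exact pow_nonneg (sq_nonneg _) _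

lemma pwS_nonneg {G : GapKernel} {k N : ℕ} {b : ℕ → ℤ → ℝ} (hb : ∀ n g, 0 ≤ b n g) (n : ℕ)
    (g : ℤ) : 0 ≤ pwS G (2 * k) N b n g := by
  refine sum_nonneg fun i _ => ?_
  split_ifs
  · exact sum_nonneg fun g' _ =>
      mul_nonneg (mul_nonneg (G.K_nonneg _ _ _) (even_nonneg _ _)) (hb _ _)
  · exact le_rfl

/-- the constant in the bound of the source -/
noncomputable def Dk (G : GapKernel) (k N : ℕ) (C : ℝ) : ℝ :=
  ∑ i ∈ G.S, G.rho ^ i.1 * (G.tot i * (((i.2 : ℝ) * (2 * (N : ℝ))) ^ (2 * k) * C))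

lemma pwS_bound {G : GapKernel} {k N : ℕ} {b : ℕ → ℤ → ℝ} (hb : ∀ n g, 0 ≤ b n g) (C : ℝ)
    (hC0 : 0 ≤ C) (hC : ∀ n g, b n g * G.rho ^ n ≤ C) (n : ℕ) (g : ℤ) (hg : g ∈ Icc (1 : ℤ) N) :
    pwS G (2 * k) N b n g * G.rho ^ n ≤ Dk G k N C := by
  have hrho := G.rho_pos
  rw [mem_Icc] at hg
  have hgN : (g : ℝ) ≤ N := by exact_mod_cast hg.2
  have hg1 : (1 : ℝ) ≤ g := by exact_mod_cast hg.1
  unfold pwS Dk
  rw [sum_mul]
  refine sum_le_sum fun i hi => ?_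
  have ht := G.tot_nonneg i
  split_ifs with h
  · have h7 : G.rho ^ n = G.rho ^ i.1 * G.rho ^ (n - i.1) := by
      rw [← pow_add]; congr 1; omega
    have h2 : (∑ g' ∈ Icc (1 : ℤ) N, G.K i g g' *
        ((i.2 : ℝ) * ((g : ℝ) + (g' : ℝ))) ^ (2 * k) * b (n - i.1) g') * G.rho ^ (n - i.1) ≤
        ∑ g' ∈ Icc (1 : ℤ) N, G.K i g g' * (((i.2 : ℝ) * (2 * (N : ℝ))) ^ (2 * k) * C) := by
      rw [sum_mul]
      refine sum_le_sum fun g' hg' => ?_
      rw [mem_Icc] at hg'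
      have hgN' : (g' : ℝ) ≤ N := by exact_mod_cast hg'.2
      have hg1' : (1 : ℝ) ≤ g' := by exact_mod_cast hg'.1
      have hi2 : (0 : ℝ) ≤ i.2 := Nat.cast_nonneg _
      have h3 : ((i.2 : ℝ) * ((g : ℝ) + (g' : ℝ))) ^ (2 * k) ≤
          ((i.2 : ℝ) * (2 * (N : ℝ))) ^ (2 * k) := by
        refine pow_le_pow_left₀ (mul_nonneg hi2 (by linarith)) ?_ _
        exact mul_le_mul_of_nonneg_left (by linarith) hi2
      have h4 := hC (n - i.1) g'
      have h5 : 0 ≤ b (n - i.1) g' * G.rho ^ (n - i.1) :=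
        mul_nonneg (hb _ _) (by positivity)
      calc G.K i g g' * ((i.2 : ℝ) * ((g : ℝ) + (g' : ℝ))) ^ (2 * k) * b (n - i.1) g' *
            G.rho ^ (n - i.1)
          = G.K i g g' * (((i.2 : ℝ) * ((g : ℝ) + (g' : ℝ))) ^ (2 * k) *
            (b (n - i.1) g' * G.rho ^ (n - i.1))) := by ring
        _ ≤ G.K i g g' * (((i.2 : ℝ) * (2 * (N : ℝ))) ^ (2 * k) * C) := by
            refine mul_le_mul_of_nonneg_left ?_ (G.K_nonneg _ _ _)
            exact mul_le_mul h3 h4 h5 (even_nonneg _ _)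
    have h8 : ∑ g' ∈ Icc (1 : ℤ) N, G.K i g g' * (((i.2 : ℝ) * (2 * (N : ℝ))) ^ (2 * k) * C) ≤
        G.tot i * (((i.2 : ℝ) * (2 * (N : ℝ))) ^ (2 * k) * C) := by
      rw [← sum_mul]
      exact mul_le_mul_of_nonneg_right (G.sum_K_le i g _) (mul_nonneg (even_nonneg _ _) hC0)
    calc (∑ g' ∈ Icc (1 : ℤ) N, G.K i g g' *
          ((i.2 : ℝ) * ((g : ℝ) + (g' : ℝ))) ^ (2 * k) * b (n - i.1) g') * G.rho ^ n
        = G.rho ^ i.1 * ((∑ g' ∈ Icc (1 : ℤ) N, G.K i g g' *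
          ((i.2 : ℝ) * ((g : ℝ) + (g' : ℝ))) ^ (2 * k) * b (n - i.1) g') *
          G.rho ^ (n - i.1)) := by rw [h7]; ring
      _ ≤ _ := mul_le_mul_of_nonneg_left (h2.trans h8) (by positivity)
  · rw [zero_mul]
    exact mul_nonneg (by positivity) (mul_nonneg ht (mul_nonneg (even_nonneg _ _) hC0))

/-- generating function of the source -/
noncomputable def pwKh (G : GapKernel) (k N : ℕ) (z : ℂ) (V : ℤ → ℂ) (g : ℤ) : ℂ :=
  ∑ i ∈ G.S, ∑ g' ∈ Icc (1 : ℤ) N,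
    ((G.K i g g' * ((i.2 : ℝ) * ((g : ℝ) + (g' : ℝ))) ^ (2 * k) : ℝ) : ℂ) * (z ^ i.1 * V g')

lemma pwS_hasSum {G : GapKernel} {k N : ℕ} {b : ℕ → ℤ → ℝ} {z : ℂ}
    (hs : ∀ g, Summable fun n : ℕ => ‖((b n g : ℝ) : ℂ) * z ^ n‖) (g : ℤ) :
    HasSum (fun n : ℕ => ((pwS G (2 * k) N b n g : ℝ) : ℂ) * z ^ n)
      (pwKh G k N z (gf0 b z) g) := by
  have h2 : HasSum (fun n : ℕ => ∑ i ∈ G.S, ∑ g' ∈ Icc (1 : ℤ) N,
      ((G.K i g g' * ((i.2 : ℝ) * ((g : ℝ) + (g' : ℝ))) ^ (2 * k) : ℝ) : ℂ) * (if i.1 ≤ n then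
        ((b (n - i.1) g' : ℝ) : ℂ) * z ^ n else 0))
      (pwKh G k N z (gf0 b z) g) := by
    refine hasSum_sum fun i _ => hasSum_sum fun g' _ => ?_
    exact (shift_hasSum0 (c := fun n => b n g') (hs g').of_norm.hasSum i.1).mul_left _
  have h3 : (fun n : ℕ => ((pwS G (2 * k) N b n g : ℝ) : ℂ) * z ^ n) = fun n : ℕ =>
      ∑ i ∈ G.S, ∑ g' ∈ Icc (1 : ℤ) N,
      ((G.K i g g' * ((i.2 : ℝ) * ((g : ℝ) + (g' : ℝ))) ^ (2 * k) : ℝ) : ℂ) *
        (if i.1 ≤ n then ((b (n - i.1) g' : ℝ) : ℂ) * z ^ n else 0) := by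
    ext n
    unfold pwS
    rw [Complex.ofReal_sum, sum_mul]
    refine sum_congr rfl fun i _ => ?_
    split_ifs with h
    · rw [Complex.ofReal_sum, sum_mul]
      refine sum_congr rfl fun g' _ => ?_
      rw [Complex.ofReal_mul]
      ring
    · simp
  rw [h3]
  exact h2

/-! ### Sums over the class -/

/-- moments of the class -/
noncomputable def momp (p : ℕ) (C θ : ℝ) : ℝ := ∑' m : ℕ, (m : ℝ) ^ p * (C * θ ^ m)

lemma summable_momp (p : ℕ) (C θ : ℝ) (h0 : 0 < θ) (h1 : θ < 1) :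
    Summable fun m : ℕ => (m : ℝ) ^ p * (C * θ ^ m) := by
  have hr : ‖θ‖ < 1 := by rwa [Real.norm_of_nonneg h0.le]
  have h := (summable_pow_mul_geometric_of_norm_lt_one p hr).mul_left C
  refine h.congr fun m => ?_
  ring

lemma momp_nonneg (p : ℕ) (C θ : ℝ) (hC : 0 < C) (h0 : 0 < θ) : 0 ≤ momp p C θ :=
  tsum_nonneg fun m => by positivity

lemma cls_sum {C θ : ℝ} (p : ℕ) (hC : 0 < C) (h0 : 0 < θ) (h1 : θ < 1) {G : GapKernel}
    (hG : Cls C θ G) : ∑ i ∈ G.S, (i.1 : ℝ) ^ p * (G.rho ^ i.1 * G.tot i) ≤ momp p C θ := by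
  classical
  rw [← sum_fiberwise_of_maps_to (s := G.S) (t := G.S.image Prod.fst) (g := fun i => i.1)
    (fun i hi => mem_image_of_mem _ hi)]
  have h2 : ∀ m ∈ G.S.image Prod.fst, ∑ i ∈ G.S.filter (fun i => i.1 = m),
      (i.1 : ℝ) ^ p * (G.rho ^ i.1 * G.tot i) ≤ (m : ℝ) ^ p * (C * θ ^ m) := by
    intro m _
    have h3 : ∑ i ∈ G.S.filter (fun i => i.1 = m), (i.1 : ℝ) ^ p * (G.rho ^ i.1 * G.tot i) =
        (m : ℝ) ^ p * ∑ i ∈ G.S.filter (fun i => i.1 = m), G.rho ^ m * G.tot i := by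
      rw [mul_sum]
      refine sum_congr rfl fun i hi => ?_
      rw [(mem_filter.1 hi).2]
    rw [h3]
    exact mul_le_mul_of_nonneg_left (hG.dec m) (by positivity)
  refine (sum_le_sum h2).trans ?_
  exact (summable_momp p C θ h0 h1).sum_le_tsum _ fun m _ => by positivity

/-- bound of the bilinear form with powers of area steps -/
lemma form_bound {C θ : ℝ} (k : ℕ) (hC : 0 < C) (h0 : 0 < θ) (h1 : θ < 1) {G : GapKernel}
    (hG : Cls C θ G) (N : ℕ) (z : ℂ) (hz : ‖z‖ ≤ G.rho) (W V : ℤ → ℂ) :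
    ‖∑ g ∈ Icc (1 : ℤ) N, W g * pwKh G k N z V g‖ ≤
      16 ^ k * momp (4 * k) C θ * ((nsq N (mulg k W) + nsq N (mulg k V)) / 2) := by
  have hrho := G.rho_pos
  have hterm : ∀ i ∈ G.S, ∀ g ∈ Icc (1 : ℤ) N, ∀ g' ∈ Icc (1 : ℤ) N,
      ‖W g * (((G.K i g g' * ((i.2 : ℝ) * ((g : ℝ) + (g' : ℝ))) ^ (2 * k) : ℝ) : ℂ) *
        (z ^ i.1 * V g'))‖ ≤
      16 ^ k * (i.1 : ℝ) ^ (4 * k) * G.rho ^ i.1 * (G.K i g g' *
        ((‖mulg k W g‖ ^ 2 + ‖mulg k V g'‖ ^ 2) / 2)) := by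
    intro i hi g hg g' hg'
    rw [mem_Icc] at hg hg'
    by_cases hR : 2 * (i.1 : ℤ) < |g' - g|
    · have hK0 : G.K i g g' = 0 := by
        refine le_antisymm ?_ (G.K_nonneg i g g')
        rw [← hG.loc.T_loc i (g' - g) hR]
        exact G.K_le i g g'
      rw [hK0]
      simp
    · rw [not_lt, abs_le] at hR
      have hg1 : (1 : ℝ) ≤ g := by exact_mod_cast hg.1
      have hg1' : (1 : ℝ) ≤ g' := by exact_mod_cast hg'.1
      have hm1 : (1 : ℝ) ≤ i.1 := by exact_mod_cast (G.pos_mem i hi).1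
      have hhm : (i.2 : ℝ) ≤ i.1 := by exact_mod_cast hG.loc.h_le i hi
      have hh0 : (0 : ℝ) ≤ i.2 := by positivity
      have hR1 : (g' : ℝ) - g ≤ 2 * i.1 := by exact_mod_cast hR.2
      have hR2 : -(2 * (i.1 : ℝ)) ≤ (g' : ℝ) - g := by exact_mod_cast hR.1
      have h1 : (g : ℝ) + g' ≤ (4 * (i.1 : ℝ)) * g := by nlinarith
      have h2 : (g : ℝ) + g' ≤ (4 * (i.1 : ℝ)) * g' := by nlinarith
      have h3 : ((i.2 : ℝ) * ((g : ℝ) + (g' : ℝ))) ^ 2 ≤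
          16 * (i.1 : ℝ) ^ 4 * ((g : ℝ) * g') := by
        have h4 : ((g : ℝ) + (g' : ℝ)) ^ 2 ≤ (4 * (i.1 : ℝ)) ^ 2 * ((g : ℝ) * g') := by
          calc ((g : ℝ) + (g' : ℝ)) ^ 2 = ((g : ℝ) + g') * ((g : ℝ) + g') := sq _
            _ ≤ ((4 * (i.1 : ℝ)) * g) * ((4 * (i.1 : ℝ)) * g') :=
                mul_le_mul h1 h2 (by linarith) (by positivity)
            _ = _ := by ring
        calc ((i.2 : ℝ) * ((g : ℝ) + (g' : ℝ))) ^ 2
            = (i.2 : ℝ) ^ 2 * ((g : ℝ) + (g' : ℝ)) ^ 2 := by ring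
          _ ≤ (i.1 : ℝ) ^ 2 * ((4 * (i.1 : ℝ)) ^ 2 * ((g : ℝ) * g')) :=
              mul_le_mul (pow_le_pow_left₀ hh0 hhm 2) h4 (sq_nonneg _) (sq_nonneg _)
          _ = _ := by ring
      have h3' : ((i.2 : ℝ) * ((g : ℝ) + (g' : ℝ))) ^ (2 * k) ≤
          16 ^ k * (i.1 : ℝ) ^ (4 * k) * ((g : ℝ) ^ k * (g' : ℝ) ^ k) := by
        calc ((i.2 : ℝ) * ((g : ℝ) + (g' : ℝ))) ^ (2 * k)
            = (((i.2 : ℝ) * ((g : ℝ) + (g' : ℝ))) ^ 2) ^ k := by rw [pow_mul]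
          _ ≤ (16 * (i.1 : ℝ) ^ 4 * ((g : ℝ) * g')) ^ k := pow_le_pow_left₀ (sq_nonneg _) h3 k
          _ = _ := by rw [mul_pow, mul_pow, mul_pow, ← pow_mul]
      have hK := G.K_nonneg i g g'
      rw [norm_mul, norm_mul, norm_mul, norm_pow, Complex.norm_real, Real.norm_of_nonneg
        (mul_nonneg hK (even_nonneg _ _))]
      have hzi : ‖z‖ ^ i.1 ≤ G.rho ^ i.1 := pow_le_pow_left₀ (norm_nonneg _) hz _
      have hmW : ‖mulg k W g‖ = (g : ℝ) ^ k * ‖W g‖ := by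
        unfold mulg
        rw [norm_mul, norm_pow, Complex.norm_intCast, abs_of_nonneg (by linarith)]
      have hmV : ‖mulg k V g'‖ = (g' : ℝ) ^ k * ‖V g'‖ := by
        unfold mulg
        rw [norm_mul, norm_pow, Complex.norm_intCast, abs_of_nonneg (by linarith)]
      have hE := even_nonneg k ((i.2 : ℝ) * ((g : ℝ) + (g' : ℝ)))
      have hWV : 0 ≤ ‖W g‖ * ‖V g'‖ := by positivity
      calc ‖W g‖ * (G.K i g g' * ((i.2 : ℝ) * ((g : ℝ) + (g' : ℝ))) ^ (2 * k) *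
            (‖z‖ ^ i.1 * ‖V g'‖))
          = ‖z‖ ^ i.1 * G.K i g g' * (((i.2 : ℝ) * ((g : ℝ) + (g' : ℝ))) ^ (2 * k) *
            (‖W g‖ * ‖V g'‖)) := by ring
        _ ≤ G.rho ^ i.1 * G.K i g g' * ((16 ^ k * (i.1 : ℝ) ^ (4 * k) *
            ((g : ℝ) ^ k * (g' : ℝ) ^ k)) * (‖W g‖ * ‖V g'‖)) :=
            mul_le_mul (mul_le_mul_of_nonneg_right hzi hK)
              (mul_le_mul_of_nonneg_right h3' hWV) (mul_nonneg hE hWV) (by positivity)
        _ = 16 ^ k * (i.1 : ℝ) ^ (4 * k) * G.rho ^ i.1 * (G.K i g g' *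
            (‖mulg k W g‖ * ‖mulg k V g'‖)) := by rw [hmW, hmV]; ring
        _ ≤ _ := by
            have h5 : ‖mulg k W g‖ * ‖mulg k V g'‖ ≤
                (‖mulg k W g‖ ^ 2 + ‖mulg k V g'‖ ^ 2) / 2 := by
              nlinarith [sq_nonneg (‖mulg k W g‖ - ‖mulg k V g'‖)]
            exact mul_le_mul_of_nonneg_left (mul_le_mul_of_nonneg_left h5 hK) (by positivity)
  have h2 : ‖∑ g ∈ Icc (1 : ℤ) N, W g * pwKh G k N z V g‖ ≤
      ∑ g ∈ Icc (1 : ℤ) N, ∑ i ∈ G.S, ∑ g' ∈ Icc (1 : ℤ) N,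
        16 ^ k * (i.1 : ℝ) ^ (4 * k) * G.rho ^ i.1 * (G.K i g g' *
        ((‖mulg k W g‖ ^ 2 + ‖mulg k V g'‖ ^ 2) / 2)) := by
    refine (norm_sum_le _ _).trans (sum_le_sum fun g hg => ?_)
    unfold pwKh
    rw [mul_sum]
    refine (norm_sum_le _ _).trans (sum_le_sum fun i hi => ?_)
    rw [mul_sum]
    refine (norm_sum_le _ _).trans (sum_le_sum fun g' hg' => ?_)
    exact hterm i hi g hg g' hg'
  refine h2.trans ?_
  rw [sum_comm]
  have h3 : ∀ i ∈ G.S, ∑ g ∈ Icc (1 : ℤ) N, ∑ g' ∈ Icc (1 : ℤ) N,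
        16 ^ k * (i.1 : ℝ) ^ (4 * k) * G.rho ^ i.1 * (G.K i g g' *
        ((‖mulg k W g‖ ^ 2 + ‖mulg k V g'‖ ^ 2) / 2)) ≤
      16 ^ k * ((i.1 : ℝ) ^ (4 * k) * (G.rho ^ i.1 * G.tot i)) *
        ((nsq N (mulg k W) + nsq N (mulg k V)) / 2) := by
    intro i _
    have h4 : ∑ g ∈ Icc (1 : ℤ) N, ∑ g' ∈ Icc (1 : ℤ) N,
        16 ^ k * (i.1 : ℝ) ^ (4 * k) * G.rho ^ i.1 * (G.K i g g' *
        ((‖mulg k W g‖ ^ 2 + ‖mulg k V g'‖ ^ 2) / 2)) =
        16 ^ k * (i.1 : ℝ) ^ (4 * k) * G.rho ^ i.1 / 2 * (∑ g ∈ Icc (1 : ℤ) N,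
          (∑ g' ∈ Icc (1 : ℤ) N, G.K i g g') * ‖mulg k W g‖ ^ 2 +
          ∑ g' ∈ Icc (1 : ℤ) N, (∑ g ∈ Icc (1 : ℤ) N, G.K i g g') * ‖mulg k V g'‖ ^ 2) := by
      have h5 : ∑ g' ∈ Icc (1 : ℤ) N, (∑ g ∈ Icc (1 : ℤ) N, G.K i g g') * ‖mulg k V g'‖ ^ 2 =
          ∑ g ∈ Icc (1 : ℤ) N, ∑ g' ∈ Icc (1 : ℤ) N, G.K i g g' * ‖mulg k V g'‖ ^ 2 := by
        rw [sum_comm]
        refine sum_congr rfl fun g' _ => ?_
        rw [sum_mul]
      rw [h5, ← sum_add_distrib, mul_sum]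
      refine sum_congr rfl fun g _ => ?_
      rw [sum_mul, ← sum_add_distrib, mul_sum]
      refine sum_congr rfl fun g' _ => ?_
      ring
    have h5 : ∑ g ∈ Icc (1 : ℤ) N, (∑ g' ∈ Icc (1 : ℤ) N, G.K i g g') * ‖mulg k W g‖ ^ 2 ≤
        G.tot i * nsq N (mulg k W) := by
      unfold nsq
      rw [mul_sum]
      exact sum_le_sum fun g _ => mul_le_mul_of_nonneg_right (G.sum_K_le i g _) (sq_nonneg _)
    have h6 : ∑ g' ∈ Icc (1 : ℤ) N, (∑ g ∈ Icc (1 : ℤ) N, G.K i g g') * ‖mulg k V g'‖ ^ 2 ≤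
        G.tot i * nsq N (mulg k V) := by
      unfold nsq
      rw [mul_sum]
      exact sum_le_sum fun g _ => mul_le_mul_of_nonneg_right (G.sum_K_le' i g _) (sq_nonneg _)
    rw [h4]
    have h7 : (0 : ℝ) ≤ 16 ^ k * (i.1 : ℝ) ^ (4 * k) * G.rho ^ i.1 / 2 := by positivity
    calc 16 ^ k * (i.1 : ℝ) ^ (4 * k) * G.rho ^ i.1 / 2 * _ ≤
          16 ^ k * (i.1 : ℝ) ^ (4 * k) * G.rho ^ i.1 / 2 *
          (G.tot i * nsq N (mulg k W) + G.tot i * nsq N (mulg k V)) :=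
          mul_le_mul_of_nonneg_left (add_le_add h5 h6) h7
      _ = _ := by ring
  refine (sum_le_sum h3).trans ?_
  rw [← sum_mul, ← mul_sum]
  have h4 := cls_sum (4 * k) hC h0 h1 hG
  have h5 : 0 ≤ nsq N (mulg k W) := sum_nonneg fun _ _ => sq_nonneg _
  have h6 : 0 ≤ nsq N (mulg k V) := sum_nonneg fun _ _ => sq_nonneg _
  refine mul_le_mul_of_nonneg_right (mul_le_mul_of_nonneg_left h4 (by positivity)) ?_
  positivity

/-- weighted l1 norm of the cap source -/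
lemma lw_cap {C θ : ℝ} (p : ℕ) (hC : 0 < C) (h0 : 0 < θ) (h1 : θ < 1) {G : GapKernel} {C0 : ℕ}
    {s : ℕ → ℤ → ℝ} (hs : ClsCap C θ G C0 s) (N : ℕ) (z : ℂ) (hz : ‖z‖ ≤ G.rho) :
    lw p N (capz C0 s 0 z) ≤ momp p C θ := by
  have hrho := G.rho_pos
  have h2 : lw p N (capz C0 s 0 z) ≤
      ∑ g ∈ Icc (1 : ℤ) N, ∑ m ∈ range (C0 + 1), (g : ℝ) ^ p * (G.rho ^ m * s m g) := by
    unfold lw
    refine sum_le_sum fun g hg => ?_
    rw [mem_Icc] at hg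
    have hg1 : (1 : ℝ) ≤ g := by exact_mod_cast hg.1
    rw [← mul_sum]
    refine mul_le_mul_of_nonneg_left ?_ (by positivity)
    unfold capz
    refine (norm_sum_le _ _).trans (sum_le_sum fun m _ => ?_)
    rw [norm_mul, norm_mul, norm_pow, norm_pow, Complex.norm_real,
      Real.norm_of_nonneg (hs.cap.nonneg m g), pow_zero, one_mul]
    exact mul_le_mul_of_nonneg_right (pow_le_pow_left₀ (norm_nonneg _) hz _)
      (hs.cap.nonneg m g)
  refine h2.trans ?_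
  rw [sum_comm]
  have h3 : ∀ m ∈ range (C0 + 1), ∑ g ∈ Icc (1 : ℤ) N, (g : ℝ) ^ p * (G.rho ^ m * s m g) ≤
      (m : ℝ) ^ p * (C * θ ^ m) := by
    intro m _
    have h4 : ∑ g ∈ Icc (1 : ℤ) N, (g : ℝ) ^ p * (G.rho ^ m * s m g) =
        ∑ g ∈ Icc (1 : ℤ) N ∩ Icc (1 : ℤ) m, (g : ℝ) ^ p * (G.rho ^ m * s m g) := by
      symm
      refine sum_subset inter_subset_left fun g hg hg' => ?_
      rw [mem_inter, not_and] at hg'
      have h5 := hg' hg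
      rw [mem_Icc] at hg h5
      rw [hs.supp m g (by omega)]
      simp
    rw [h4]
    have hnn : ∀ g ∈ Icc (1 : ℤ) m, (0 : ℝ) ≤ (m : ℝ) ^ p * (G.rho ^ m * s m g) := fun g _ =>
      mul_nonneg (by positivity) (mul_nonneg (by positivity) (hs.cap.nonneg m g))
    calc ∑ g ∈ Icc (1 : ℤ) N ∩ Icc (1 : ℤ) m, (g : ℝ) ^ p * (G.rho ^ m * s m g)
        ≤ ∑ g ∈ Icc (1 : ℤ) N ∩ Icc (1 : ℤ) m, (m : ℝ) ^ p * (G.rho ^ m * s m g) := by
          refine sum_le_sum fun g hg => ?_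
          rw [mem_inter, mem_Icc, mem_Icc] at hg
          have h5 : (0 : ℝ) ≤ g := by
            have : (0 : ℤ) ≤ g := by omega
            exact_mod_cast this
          have h6 : (g : ℝ) ≤ m := by exact_mod_cast hg.2.2
          exact mul_le_mul_of_nonneg_right (pow_le_pow_left₀ h5 h6 p)
            (mul_nonneg (by positivity) (hs.cap.nonneg m g))
      _ ≤ ∑ g ∈ Icc (1 : ℤ) m, (m : ℝ) ^ p * (G.rho ^ m * s m g) :=
          sum_le_sum_of_subset_of_nonneg inter_subset_right fun g hg _ => hnn g hg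
      _ = (m : ℝ) ^ p * ∑ g ∈ Icc (1 : ℤ) m, G.rho ^ m * s m g := by rw [mul_sum]
      _ ≤ _ := mul_le_mul_of_nonneg_left (hs.dec m) (by positivity)
  refine (sum_le_sum h3).trans ?_
  exact (summable_momp p C θ h0 h1).sum_le_tsum _ fun m _ => by positivity

/-- weighted norm of the generating function of an array -/
lemma gf_weighted {C θ C1 : ℝ} (k : ℕ) (hC : 0 < C) (h0 : 0 < θ) (h1 : θ < 1) (hC1 : 0 < C1)
    (hW : ∀ G : GapKernel, Cls C θ G →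
      ∀ (N : ℕ) (z : ℂ) (v e : ℤ → ℂ), ‖z‖ ≤ G.rho → z ≠ (G.rho : ℂ) → G.Solves 0 z N v e →
      nsq N (mulg k v) ≤ C1 * (lw (2 * k + 4) N e) ^ 2 /
        (Real.sqrt ‖(G.rho : ℂ) - z‖ * ‖(G.rho : ℂ) - z‖ ^ k))
    {G : GapKernel} (hG : Cls C θ G) {C0 : ℕ} {s : ℕ → ℤ → ℝ} (hs : ClsCap C θ G C0 s)
    (N : ℕ) (b : ℕ → ℤ → ℝ) (hb : IsArr G s 0 N b) (z : ℂ) (hz : ‖z‖ < G.rho) :
    nsq N (mulg k (gf0 b z)) * (Real.sqrt ‖(G.rho : ℂ) - z‖ * ‖(G.rho : ℂ) - z‖ ^ k) ≤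
      C1 * momp (2 * k + 4) C θ ^ 2 := by
  have hrho := G.rho_pos
  have hne : z ≠ (G.rho : ℂ) := by
    intro h
    rw [h, Complex.norm_real, Real.norm_of_nonneg hrho.le] at hz
    exact lt_irrefl _ hz
  have hd : 0 < ‖(G.rho : ℂ) - z‖ := by
    rw [norm_pos_iff, sub_ne_zero]
    exact hne.symm
  have hsol := ((J1 G C0 s hs.cap N 0 le_rfl).2 b hb).2.2.2 z hz 0
  have hsol' : G.Solves 0 z N (gf0 b z) (capz C0 s 0 z) := by
    rw [← gf_zero_eq]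
    have he : (fun g => capz C0 s 0 z g + ∑ l ∈ range 0, (((0 : ℕ).choose l : ℕ) : ℂ) *
        G.Kap (0 - l) 0 z N (gf l b z) g) = capz C0 s 0 z := by
      ext g
      simp
    rw [he] at hsol
    exact hsol
  have h2 := hW G hG N z (gf0 b z) (capz C0 s 0 z) hz.le hne hsol'
  have h3 : (lw (2 * k + 4) N (capz C0 s 0 z)) ^ 2 ≤ momp (2 * k + 4) C θ ^ 2 := by
    refine pow_le_pow_left₀ ?_ (lw_cap (2 * k + 4) hC h0 h1 hs N z hz.le) 2
    refine sum_nonneg fun g hg => ?_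
    rw [mem_Icc] at hg
    have hg1 : (0 : ℝ) ≤ g := by
      have : (0 : ℤ) ≤ g := by omega
      exact_mod_cast this
    positivity
  have h4 : 0 < Real.sqrt ‖(G.rho : ℂ) - z‖ * ‖(G.rho : ℂ) - z‖ ^ k := by positivity
  rw [← le_div_iff₀ h4]
  refine h2.trans ?_
  gcongr

end Pool.Agent.KCG.GMKaux

namespace Pool.Agent.KCG

open Pool.Agent.Gap GM2 GMKaux

/-- GMK: moments of order `2 k` of the closed polynomials. -/
theorem gmk (hP : GMP_Stmt) (hCo : GMC_Stmt) (hWk : GWK_Stmt) : GMK_Stmt := by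
  intro k C θ hk hC hθ0 hθ1
  obtain ⟨C1, hC1, hW1⟩ := hWk k C θ hC hθ0 hθ1
  have hM := momp_nonneg (4 * k) C θ hC hθ0
  set Q : ℝ := C1 * momp (2 * k + 4) C θ ^ 2 with hQ
  have hQ0 : 0 ≤ Q := by positivity
  obtain ⟨C', hC'0, hC'⟩ := hCo k (16 ^ k * momp (4 * k) C θ * Q) C hk (by positivity) hC
  refine ⟨C' + 1, by positivity, fun G hG C0 s t hs ht B hB n => ?_⟩
  have hrho := G.rho_pos
  rcases Nat.eq_zero_or_pos n with h0 | hn
  · rw [h0]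
    have h1 : 3 * k ≠ 0 := by omega
    simp [h1]
  set N : ℕ := C0 + (G.R + 1) * (n + 1) with hN
  set b := arr G s 0 N with hbdef
  set b' := arr G t 0 N with hb'def
  set q := arr G (pwS G (2 * k) N b) 0 N with hqdef
  have hb : IsArr G s 0 N b := arr_isArr G s 0 N
  have hb' : IsArr G t 0 N b' := arr_isArr G t 0 N
  have hq : IsArr G (pwS G (2 * k) N b) 0 N q := arr_isArr G _ 0 N
  have hb0 := arr_nonneg' hs.cap.nonneg hb
  have hq0 := arr_nonneg' (pwS_nonneg (k := k) hb0) hq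
  obtain ⟨Cb, hCb0, hCb⟩ := arr_bound hs.cap le_rfl hb
  have hC0N : C0 ≤ N := by omega
  -- the closed array of powers of area steps
  have hcl : mr (2 * k) (closeP C0 t B n) ≤ (n : ℝ) ^ (2 * k - 1) * close C0 t q n := by
    unfold closeP close
    rw [GMKaux.mr_sum, mul_sum]
    refine sum_le_sum fun m hm => ?_
    rw [mem_range] at hm
    rw [GMKaux.mr_sum, mul_sum]
    refine sum_le_sum fun g _ => ?_
    rw [GMKaux.mr_C_mul]
    have h1 := hP (2 * k) (by omega) G C0 s hs.cap B hB N b q hb hq (n - m) (by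
      have h2 : (n - m : ℕ) + 1 ≤ n + 1 := by omega
      exact Nat.add_le_add_left (Nat.mul_le_mul_left _ h2) _) g
    have h3 : ((n - m : ℕ) : ℝ) ^ (2 * k - 1) * q (n - m) g ≤
        (n : ℝ) ^ (2 * k - 1) * q (n - m) g := by
      refine mul_le_mul_of_nonneg_right ?_ (hq0 _ _)
      refine pow_le_pow_left₀ (Nat.cast_nonneg _) ?_ _
      exact_mod_cast Nat.sub_le n m
    calc t m g * mr (2 * k) (B (n - m) g) ≤ t m g * ((n : ℝ) ^ (2 * k - 1) * q (n - m) g) :=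
          mul_le_mul_of_nonneg_left (h1.trans h3) (ht.cap.nonneg m g)
      _ = _ := by ring
  have hcl0 : 0 ≤ close C0 t q n :=
    sum_nonneg fun m _ => sum_nonneg fun g _ => mul_nonneg (ht.cap.nonneg m g) (hq0 _ _)
  -- summability
  have hsb : ∀ z : ℂ, ‖z‖ < G.rho → ∀ g, Summable fun n : ℕ => ‖((b n g : ℝ) : ℂ) * z ^ n‖ := by
    intro z hz g
    have := arr_summable hs.cap le_rfl hb z hz 0 g
    simpa using this
  have hsq : ∀ z : ℂ, ‖z‖ < G.rho → ∀ g, Summable fun n : ℕ => ‖((q n g : ℝ) : ℂ) * z ^ n‖ := by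
    intro z hz g
    exact arr_summable' (pwS_nonneg (k := k) hb0) (Dk G k N Cb) le_rfl
      (fun m g hg => pwS_bound hb0 Cb hCb0 hCb m g hg) hq z hz g
  have hF : ∀ z : ℂ, ‖z‖ < G.rho → HasSum (fun n : ℕ => ((close C0 t q n : ℝ) : ℂ) * z ^ n)
      (∑ g ∈ Icc (1 : ℤ) N, gf0 b' z g * pwKh G k N z (gf0 b z) g) := by
    intro z hz
    have h1 := close_hasSum ht.cap (hsq z hz)
    have h2 : ∑ g ∈ Icc (1 : ℤ) C0, capz C0 t 0 z g * gf0 q z g =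
        ∑ g ∈ Icc (1 : ℤ) N, gf0 b' z g * pwKh G k N z (gf0 b z) g := by
      have h3 : ∑ g ∈ Icc (1 : ℤ) C0, capz C0 t 0 z g * gf0 q z g =
          ∑ g ∈ Icc (1 : ℤ) N, capz C0 t 0 z g * gf0 q z g := by
        refine sum_subset (Icc_subset_Icc le_rfl (by exact_mod_cast hC0N)) fun g hg hg' => ?_
        rw [mem_Icc] at hg hg'
        have : capz C0 t 0 z g = 0 := by
          unfold capz
          refine sum_eq_zero fun m _ => ?_
          rw [ht.cap.supp_g m g (by omega)]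
          simp
        rw [this, zero_mul]
      rw [h3]
      have h4 : ∀ g ∈ Icc (1 : ℤ) N, capz C0 t 0 z g = gf0 b' z g - G.Kap 0 0 z N (gf0 b' z) g := by
        intro g hg
        have := gf_eq ht.cap le_rfl hb' z hz 0 g hg
        rw [gf_zero_eq] at this
        rw [this]
        simp [gf_zero_eq]
      have h5 : ∀ g ∈ Icc (1 : ℤ) N, pwKh G k N z (gf0 b z) g =
          gf0 q z g - G.Kap 0 0 z N (gf0 q z) g := by
        intro g hg
        rw [gf0_eq hq (hsq z hz) g hg _ (pwS_hasSum (hsb z hz) g)]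
        ring
      rw [sum_congr rfl (fun g hg => by rw [h4 g hg]), adjoint]
      exact sum_congr rfl (fun g hg => by rw [h5 g hg])
    rw [← h2]
    exact h1
  have h6 := hC' G.rho (close C0 t q) hrho hG.rho_ge ?_ ?_ n hn
  · rw [abs_of_nonneg hcl0] at h6
    have hn' : (0 : ℝ) < n := by exact_mod_cast hn
    have h7 : (0 : ℝ) ≤ (n : ℝ) ^ (3 * k) := by positivity
    have h8 : (n : ℝ) ^ (2 * k - 1) * n = (n : ℝ) ^ (2 * k) := by
      rw [← pow_succ]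
      congr 1
      omega
    calc G.rho ^ n * mr (2 * k) (closeP C0 t B n) * ((n : ℝ) * Real.sqrt n)
        ≤ G.rho ^ n * ((n : ℝ) ^ (2 * k - 1) * close C0 t q n) * ((n : ℝ) * Real.sqrt n) := by
          refine mul_le_mul_of_nonneg_right (mul_le_mul_of_nonneg_left hcl ?_) ?_
          · positivity
          · positivity
      _ = ((n : ℝ) ^ (2 * k - 1) * n) * (close C0 t q n * G.rho ^ n * Real.sqrt n) := by ring
      _ = (n : ℝ) ^ (2 * k) * (close C0 t q n * G.rho ^ n * Real.sqrt n) := by rw [h8]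
      _ ≤ (n : ℝ) ^ (2 * k) * (C' * (n : ℝ) ^ k) := mul_le_mul_of_nonneg_left h6 (by positivity)
      _ = C' * (n : ℝ) ^ (3 * k) := by
          have h9 : (n : ℝ) ^ (3 * k) = (n : ℝ) ^ (2 * k) * (n : ℝ) ^ k := by
            rw [← pow_add]
            congr 1
            ring
          rw [h9]
          ring
      _ ≤ (C' + 1) * (n : ℝ) ^ (3 * k) := mul_le_mul_of_nonneg_right (by linarith) h7
  · intro z hz
    have h7 : ∀ m, 0 ≤ close C0 t q m := fun m =>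
      sum_nonneg fun m _ => sum_nonneg fun g _ => mul_nonneg (ht.cap.nonneg m g) (hq0 _ _)
    have h8 : ‖((‖z‖ : ℝ) : ℂ)‖ < G.rho := by
      rw [Complex.norm_real, norm_norm]
      exact hz
    have h9 := (hF ((‖z‖ : ℝ) : ℂ) h8).summable
    have h10 : (fun m : ℕ => ((close C0 t q m : ℝ) : ℂ) * ((‖z‖ : ℝ) : ℂ) ^ m) = fun m : ℕ =>
        (((close C0 t q m * ‖z‖ ^ m : ℝ)) : ℂ) := by
      ext m
      push_cast
      ring
    rw [h10] at h9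
    have h11 : Summable fun m : ℕ => close C0 t q m * ‖z‖ ^ m := by
      exact_mod_cast h9
    refine h11.congr fun m => ?_
    rw [norm_mul, norm_pow, Complex.norm_real, Real.norm_of_nonneg (h7 m)]
  · intro z hz
    rw [(hF z hz).tsum_eq]
    have h7 := GMKaux.form_bound k hC hθ0 hθ1 hG N z hz.le (gf0 b' z) (gf0 b z)
    have h8 := GMKaux.gf_weighted k hC hθ0 hθ1 hC1 hW1 hG ht N b' hb' z hz
    have h9 := GMKaux.gf_weighted k hC hθ0 hθ1 hC1 hW1 hG hs N b hb z hz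
    have h10 : 0 ≤ Real.sqrt ‖(G.rho : ℂ) - z‖ * ‖(G.rho : ℂ) - z‖ ^ k := by positivity
    have h11 : 0 ≤ 16 ^ k * momp (4 * k) C θ := by positivity
    calc ‖∑ g ∈ Icc (1 : ℤ) N, gf0 b' z g * pwKh G k N z (gf0 b z) g‖ *
          (Real.sqrt ‖(G.rho : ℂ) - z‖ * ‖(G.rho : ℂ) - z‖ ^ k)
        ≤ 16 ^ k * momp (4 * k) C θ *
          ((nsq N (mulg k (gf0 b' z)) + nsq N (mulg k (gf0 b z))) / 2) *
          (Real.sqrt ‖(G.rho : ℂ) - z‖ * ‖(G.rho : ℂ) - z‖ ^ k) :=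
          mul_le_mul_of_nonneg_right h7 h10
      _ = 16 ^ k * momp (4 * k) C θ * ((nsq N (mulg k (gf0 b' z)) *
          (Real.sqrt ‖(G.rho : ℂ) - z‖ * ‖(G.rho : ℂ) - z‖ ^ k) + nsq N (mulg k (gf0 b z)) *
          (Real.sqrt ‖(G.rho : ℂ) - z‖ * ‖(G.rho : ℂ) - z‖ ^ k)) / 2) := by ring
      _ ≤ 16 ^ k * momp (4 * k) C θ * ((Q + Q) / 2) := by
          refine mul_le_mul_of_nonneg_left ?_ h11
          have h12 := add_le_add h8 h9
          exact div_le_div_of_nonneg_right h12 (by norm_num)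
      _ = 16 ^ k * momp (4 * k) C θ * Q := by ring

end Pool.Agent.KCG
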