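import Pool.Agent.KCS.StA
import Pool.Agent.KCG.GM2
import Pool.Agent.KCG.FA

/-! MODULE KCS_GMP: the power mean inequality along the recursion. -/

set_option autoImplicit false

open Finset Filter Topology

namespace Pool.Agent.KCG.GMPaux

open Pool.Agent.Gap Pool.Agent.KCG.GM2

/-! ### The moments as linear functionals -/

lemma mr_eq (r : ℕ) (P : Polynomial ℝ) :
    mr r P = Polynomial.lsum (fun m => LinearMap.mulRight ℝ ((m : ℝ) ^ r)) P := rfl

lemma mr_zero (r : ℕ) : mr r 0 = 0 := by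
  rw [mr_eq, map_zero]

lemma mr_add (r : ℕ) (P Q : Polynomial ℝ) : mr r (P + Q) = mr r P + mr r Q := by
  rw [mr_eq, mr_eq, mr_eq, map_add]

lemma mr_sum (r : ℕ) {ι : Type*} (s : Finset ι) (f : ι → Polynomial ℝ) :
    mr r (∑ i ∈ s, f i) = ∑ i ∈ s, mr r (f i) := by
  simp only [mr_eq, map_sum]

lemma mr_C_mul (r : ℕ) (c : ℝ) (P : Polynomial ℝ) : mr r (Polynomial.C c * P) = c * mr r P := by
  rw [← Polynomial.smul_eq_C_mul, mr_eq, mr_eq, map_smul, smul_eq_mul]

lemma mr_monomial (r m : ℕ) (c : ℝ) : mr r (Polynomial.monomial m c) = c * (m : ℝ) ^ r := by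
  unfold mr
  rw [Polynomial.sum_monomial_index]
  simp

lemma mr_C (r : ℕ) (hr : 1 ≤ r) (c : ℝ) : mr r (Polynomial.C c) = 0 := by
  rw [← Polynomial.monomial_zero_left, mr_monomial, Nat.cast_zero, zero_pow (by omega), mul_zero]

lemma mr_X_pow_mul (r a : ℕ) (P : Polynomial ℝ) :
    mr r (Polynomial.X ^ a * P) = ∑ i ∈ P.support, P.coeff i * ((i : ℝ) + a) ^ r := by
  conv_lhs => rw [P.as_sum_support, mul_sum, mr_sum]
  refine sum_congr rfl fun i _ => ?_
  rw [Polynomial.X_pow_mul_monomial, mr_monomial]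
  push_cast
  rfl

lemma mr_supp (r : ℕ) (P : Polynomial ℝ) :
    mr r P = ∑ i ∈ P.support, P.coeff i * (i : ℝ) ^ r := rfl

/-- convexity of the power -/
lemma pow_ineq (r k : ℕ) (hk : 1 ≤ k) (m a : ℝ) (hm : 0 ≤ m) (ha : 0 ≤ a) :
    (m + a) ^ (r + 1) ≤ ((k : ℝ) + 1) ^ r * (m ^ (r + 1) / (k : ℝ) ^ r + a ^ (r + 1)) := by
  have hk0 : (0 : ℝ) < k := by exact_mod_cast hk
  have hk1 : (0 : ℝ) < (k : ℝ) + 1 := by linarith
  have hc : ConvexOn ℝ (Set.Ici 0) fun x : ℝ => x ^ (r + 1) := convexOn_pow (r + 1)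
  have hx : ((k : ℝ) + 1) / k * m ∈ Set.Ici (0 : ℝ) := by rw [Set.mem_Ici]; positivity
  have hy : ((k : ℝ) + 1) * a ∈ Set.Ici (0 : ℝ) := by rw [Set.mem_Ici]; positivity
  have hw1 : 0 ≤ (k : ℝ) / (k + 1) := by positivity
  have hw2 : 0 ≤ 1 / ((k : ℝ) + 1) := by positivity
  have hw : (k : ℝ) / (k + 1) + 1 / ((k : ℝ) + 1) = 1 := by field_simp
  have h := hc.2 hx hy hw1 hw2 hw
  simp only [smul_eq_mul] at h
  have h1 : (k : ℝ) / (k + 1) * (((k : ℝ) + 1) / k * m) + 1 / ((k : ℝ) + 1) * (((k : ℝ) + 1) * a) =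
      m + a := by
    field_simp
  have h2 : (k : ℝ) / (k + 1) * (((k : ℝ) + 1) / k * m) ^ (r + 1) +
      1 / ((k : ℝ) + 1) * (((k : ℝ) + 1) * a) ^ (r + 1) =
      ((k : ℝ) + 1) ^ r * (m ^ (r + 1) / (k : ℝ) ^ r + a ^ (r + 1)) := by
    rw [mul_pow, div_pow, mul_pow, pow_succ ((k : ℝ) + 1) r, pow_succ (k : ℝ) r]
    field_simp
  rw [h1, h2] at h
  exact h

lemma mr_shift_le (r k a : ℕ) (hk : 1 ≤ k) (P : Polynomial ℝ) (hP : ∀ i, 0 ≤ P.coeff i) :
    mr (r + 1) (Polynomial.X ^ a * P) ≤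
      ((k : ℝ) + 1) ^ r * (mr (r + 1) P / (k : ℝ) ^ r + (a : ℝ) ^ (r + 1) * P.eval 1) := by
  rw [mr_X_pow_mul, mr_supp, Polynomial.eval_eq_sum, Polynomial.sum_def, sum_div, mul_sum,
    ← sum_add_distrib, mul_sum]
  refine sum_le_sum fun i _ => ?_
  have h := mul_le_mul_of_nonneg_left
    (pow_ineq r k hk (i : ℝ) (a : ℝ) (by positivity) (by positivity)) (hP i)
  refine h.trans (le_of_eq ?_)
  rw [one_pow]
  ring

/-! ### The source -/

lemma pwS_nonneg {G : GapKernel} {r N : ℕ} {b : ℕ → ℤ → ℝ} (hb : ∀ n g, 0 ≤ b n g) (n : ℕ)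
    (g : ℤ) (hg : 1 ≤ g) : 0 ≤ pwS G r N b n g := by
  refine sum_nonneg fun i _ => ?_
  split_ifs
  · refine sum_nonneg fun g' hg' => ?_
    rw [mem_Icc] at hg'
    have h1 : (0 : ℝ) ≤ g := by exact_mod_cast (by omega : (0 : ℤ) ≤ g)
    have h2 : (0 : ℝ) ≤ g' := by exact_mod_cast (by omega : (0 : ℤ) ≤ g')
    exact mul_nonneg (mul_nonneg (G.K_nonneg _ _ _) (by positivity)) (hb _ _)
  · exact le_rfl

/-- the array of the powers of the areas is nonnegative -/
lemma q_nonneg {G : GapKernel} {r N : ℕ} {b q : ℕ → ℤ → ℝ} (hb : ∀ n g, 0 ≤ b n g)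
    (hq : IsArr G (pwS G r N b) 0 N q) (n : ℕ) : ∀ g, 0 ≤ q n g := by
  induction n using Nat.strong_induction_on with
  | _ n ih =>
    intro g
    by_cases hg : 1 ≤ g ∧ g ≤ (N : ℤ)
    · rw [hq.step n g hg.1 hg.2]
      refine add_nonneg (pwS_nonneg hb n g hg.1) (sum_nonneg fun i hi => ?_)
      split_ifs with h
      · refine sum_nonneg fun g' _ => ?_
        exact mul_nonneg (mul_nonneg (G.K_nonneg _ _ _) (wt_nonneg _ _ _ _))
          (ih _ (by have := (G.pos_mem i hi).1; omega) g')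
      · exact le_rfl
    · rw [hq.zero n g (by omega)]

/-- the moment of order `r + 1` against the array of the powers of the areas of the pieces -/
lemma mr_le {G : GapKernel} {C0 : ℕ} {s : ℕ → ℤ → ℝ} (hs : IsCap C0 s)
    {B : ℕ → ℤ → Polynomial ℝ} (hB : IsSol G s B) {r N : ℕ} {b q : ℕ → ℤ → ℝ}
    (hb : IsArr G s 0 N b) (hq : IsArr G (pwS G (r + 1) N b) 0 N q) (k : ℕ) :
    C0 + (G.R + 1) * (k + 1) ≤ N → ∀ g, mr (r + 1) (B k g) ≤ (k : ℝ) ^ r * q k g := by
  have hb0 := arr_nonneg' hs.nonneg hb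
  have hq0 := q_nonneg hb0 hq
  induction k using Nat.strong_induction_on with
  | _ k ih =>
    intro hN g
    have hN' : (C0 : ℤ) + (G.R + 1) * (k + 1) ≤ N := by exact_mod_cast hN
    have hRk : (0 : ℤ) ≤ G.R * k := by positivity
    have hN2 : (C0 : ℤ) + G.R * k + G.R ≤ N := by nlinarith
    by_cases hg1 : 1 ≤ g
    swap
    · rw [hB.zero k g (by omega), hq.zero k g (by omega), mr_zero, mul_zero]
    by_cases hgN : g ≤ (N : ℤ)
    swap
    · rw [sol_supp hs hB k g (by omega), hq.zero k g (by omega), mr_zero, mul_zero]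
    rw [hB.step k g hg1, hq.step k g hg1 hgN, mr_add, mr_C _ (by omega), zero_add, mr_sum]
    unfold pwS
    rw [← sum_add_distrib, mul_sum]
    refine sum_le_sum fun i hi => ?_
    have hi1 := (G.pos_mem i hi).1
    split_ifs with h
    · rw [mr_sum, ← sum_add_distrib, mul_sum]
      -- termwise
      have hgR : (0 : ℝ) ≤ g := by exact_mod_cast (by omega : (0 : ℤ) ≤ g)
      have hterm : ∀ g' ∈ Icc (1 : ℤ) N, mr (r + 1) (Polynomial.C (G.K i g g') *
          Polynomial.X ^ ((i.2 : ℤ) * (g + g')).toNat * B (k - i.1) g') ≤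
          (k : ℝ) ^ r * (G.K i g g' * ((i.2 : ℝ) * ((g : ℝ) + (g' : ℝ))) ^ (r + 1) *
            b (k - i.1) g' + G.K i g g' * GapKernel.wt 0 i g g' * q (k - i.1) g') := by
        intro g' hg'
        rw [mem_Icc] at hg'
        have hg'R : (0 : ℝ) ≤ g' := by exact_mod_cast (by omega : (0 : ℤ) ≤ g')
        have hw : GapKernel.wt 0 i g g' = 1 := by simp [GapKernel.wt]
        have hbe : b (k - i.1) g' = (B (k - i.1) g').eval 1 := by
          have := B1 G C0 s hs B hB N 0 b le_rfl hb (k - i.1) (by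
            refine le_trans ?_ hN
            have : (k - i.1 : ℕ) + 1 ≤ k + 1 := by omega
            exact Nat.add_le_add_left (Nat.mul_le_mul_left _ this) _) g'
          simpa using this
        have ha : (((((i.2 : ℤ) * (g + g')).toNat : ℕ)) : ℝ) = (i.2 : ℝ) * ((g : ℝ) + (g' : ℝ)) := by
          have h1 : (((((i.2 : ℤ) * (g + g')).toNat : ℕ) : ℤ) : ℝ) =
              (((i.2 : ℤ) * (g + g') : ℤ) : ℝ) := by
            rw [Int.toNat_of_nonneg]
            have : (0 : ℤ) ≤ g + g' := by omega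
            positivity
          rw [Int.cast_natCast] at h1
          rw [h1]
          push_cast
          ring
        rw [mul_assoc, mr_C_mul, hw, hbe]
        set P := B (k - i.1) g' with hP
        set e : ℝ := (i.2 : ℝ) * ((g : ℝ) + (g' : ℝ)) with he
        have he0 : 0 ≤ e := by positivity
        have hP0 : 0 ≤ P.eval 1 := sol_eval_nonneg hs hB _ _
        have hq1 := hq0 (k - i.1) g'
        have heP : 0 ≤ e ^ (r + 1) * P.eval 1 := mul_nonneg (by positivity) hP0
        have hkey : mr (r + 1) (Polynomial.X ^ ((i.2 : ℤ) * (g + g')).toNat * P) ≤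
            (k : ℝ) ^ r * (e ^ (r + 1) * P.eval 1 + q (k - i.1) g') := by
          rcases Nat.eq_zero_or_pos (k - i.1) with h0 | h0
          · have hPC : P = Polynomial.C (s 0 g') := by
              rw [hP, h0, hB.step 0 g' hg'.1, sum_eq_zero, add_zero]
              intro i' hi'
              have := (G.pos_mem i' hi').1
              rw [if_neg (by omega)]
            have h1k : (1 : ℝ) ≤ k := by
              have : 1 ≤ k := by omega
              exact_mod_cast this
            have h1kr : (1 : ℝ) ≤ (k : ℝ) ^ r := one_le_pow₀ h1k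
            have h5 : mr (r + 1) (Polynomial.X ^ ((i.2 : ℤ) * (g + g')).toNat * P) =
                e ^ (r + 1) * P.eval 1 := by
              rw [hPC, Polynomial.eval_C, ← Polynomial.monomial_zero_left,
                Polynomial.X_pow_mul_monomial, mr_monomial, zero_add, ha]
              ring
            rw [h5]
            calc e ^ (r + 1) * P.eval 1 ≤ e ^ (r + 1) * P.eval 1 + q (k - i.1) g' := by linarith
              _ = 1 * (e ^ (r + 1) * P.eval 1 + q (k - i.1) g') := (one_mul _).symm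
              _ ≤ _ := mul_le_mul_of_nonneg_right h1kr (by linarith)
          · have h1 := mr_shift_le r (k - i.1) (((i.2 : ℤ) * (g + g')).toNat) h0 P
              (fun j => hB.coeff_nonneg hs.nonneg _ _ _)
            rw [ha] at h1
            have h2 := ih (k - i.1) (by omega) (by
              refine le_trans ?_ hN
              have : (k - i.1 : ℕ) + 1 ≤ k + 1 := by omega
              exact Nat.add_le_add_left (Nat.mul_le_mul_left _ this) _) g'
            rw [← hP] at h2
            set k' : ℕ := k - i.1 with hk'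
            have hk'0 : (0 : ℝ) < k' := by exact_mod_cast h0
            have hk'k : (k' : ℝ) + 1 ≤ k := by
              have : k' + 1 ≤ k := by omega
              exact_mod_cast this
            have h3 : mr (r + 1) P / (k' : ℝ) ^ r ≤ q k' g' := by
              rw [div_le_iff₀ (by positivity)]
              linarith
            calc mr (r + 1) (Polynomial.X ^ ((i.2 : ℤ) * (g + g')).toNat * P)
                ≤ ((k' : ℝ) + 1) ^ r * (mr (r + 1) P / (k' : ℝ) ^ r + e ^ (r + 1) * P.eval 1) := h1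
              _ ≤ ((k' : ℝ) + 1) ^ r * (e ^ (r + 1) * P.eval 1 + q k' g') :=
                  mul_le_mul_of_nonneg_left (by linarith) (by positivity)
              _ ≤ _ := mul_le_mul_of_nonneg_right
                  (pow_le_pow_left₀ (by positivity) hk'k r) (by linarith)
        calc G.K i g g' * mr (r + 1) (Polynomial.X ^ ((i.2 : ℤ) * (g + g')).toNat * P)
            ≤ G.K i g g' * ((k : ℝ) ^ r * (e ^ (r + 1) * P.eval 1 + q (k - i.1) g')) :=
              mul_le_mul_of_nonneg_left hkey (G.K_nonneg _ _ _)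
          _ = _ := by ring
      have hnn : ∀ g' ∈ Icc (1 : ℤ) N, 0 ≤ (k : ℝ) ^ r * (G.K i g g' *
          ((i.2 : ℝ) * ((g : ℝ) + (g' : ℝ))) ^ (r + 1) * b (k - i.1) g' +
            G.K i g g' * GapKernel.wt 0 i g g' * q (k - i.1) g') := by
        intro g' hg'
        rw [mem_Icc] at hg'
        have hg'R : (0 : ℝ) ≤ g' := by exact_mod_cast (by omega : (0 : ℤ) ≤ g')
        have h1 := G.K_nonneg i g g'
        have h2 := hb0 (k - i.1) g'
        have h3 := hq0 (k - i.1) g'
        have h4 := wt_nonneg 0 i g g'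
        positivity
      calc ∑ g' ∈ Icc (g - G.R) (g + G.R), mr (r + 1) (Polynomial.C (G.K i g g') *
            Polynomial.X ^ ((i.2 : ℤ) * (g + g')).toNat * B (k - i.1) g')
          = ∑ g' ∈ Icc (g - G.R) (g + G.R) ∩ Icc (1 : ℤ) N, mr (r + 1) (Polynomial.C (G.K i g g') *
            Polynomial.X ^ ((i.2 : ℤ) * (g + g')).toNat * B (k - i.1) g') := by
            symm
            refine sum_subset inter_subset_left fun g' hg' hg'2 => ?_
            rw [mem_inter, not_and] at hg'2
            have h5 := hg'2 hg'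
            rw [mem_Icc, not_and_or, not_le, not_le] at h5
            rw [mem_Icc] at hg'
            rcases h5 with h5 | h5
            · rw [G.K_out' i g g' (by omega), mul_assoc, mr_C_mul, zero_mul]
            · have h6 : (G.R : ℤ) * ((k - i.1 : ℕ) : ℤ) + G.R ≤ G.R * k := by
                have h2 : (((k - i.1 : ℕ) : ℤ)) + 1 ≤ k := by omega
                calc (G.R : ℤ) * ((k - i.1 : ℕ) : ℤ) + G.R = G.R * (((k - i.1 : ℕ) : ℤ) + 1) := by
                      ring
                  _ ≤ G.R * k := mul_le_mul_of_nonneg_left h2 (by positivity)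
              rw [sol_supp hs hB (k - i.1) g' (by omega), mul_zero, mr_zero]
        _ ≤ ∑ g' ∈ Icc (g - G.R) (g + G.R) ∩ Icc (1 : ℤ) N, (k : ℝ) ^ r *
            (G.K i g g' * ((i.2 : ℝ) * ((g : ℝ) + (g' : ℝ))) ^ (r + 1) * b (k - i.1) g' +
            G.K i g g' * GapKernel.wt 0 i g g' * q (k - i.1) g') :=
            sum_le_sum fun g' hg' => hterm g' (mem_inter.1 hg').2
        _ ≤ _ := sum_le_sum_of_subset_of_nonneg inter_subset_right fun g' hg' _ => hnn g' hg'
    · rw [mr_zero]
      simp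

end Pool.Agent.KCG.GMPaux

namespace Pool.Agent.KCG

/-- GMP. -/
theorem gmp : GMP_Stmt := by
  intro r hr G C0 s hs B hB N b q hb hq n hN g
  obtain ⟨r', rfl⟩ : ∃ r', r = r' + 1 := ⟨r - 1, by omega⟩
  rw [Nat.add_sub_cancel]
  exact GMPaux.mr_le hs hB hb hq n hN g

end Pool.Agent.KCG
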