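import Pool.Agent.KCS.StC
import Pool.Agent.KCC.Rho

/-!
# Project KCS (MP_f6626d_co), module KEC: the critical kernels and sources are Cauchy sequences
-/

set_option autoImplicit false

namespace Pool.Agent.KCC.KEC

open Finset Filter Topology Pool.Agent.Lib27 Pool.Agent.KCC

/-- grouping of the pieces by half length, width and jump -/
lemma group (hs : K5S_Stmt) (k n : ℕ) (f : ℕ → ℕ → ℤ → ℝ) :
    ∑ p ∈ Pc k n, f (hl p) (htn p) (jump p) = ∑ i ∈ KW.SS n,
      ∑ d ∈ Icc (-(n : ℤ)) n, f i.1 i.2 d * ((KW.PcT k n i d).card : ℝ) := by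
  classical
  have hmap : ∀ p ∈ Pc k n, (((hl p, htn p), jump p) : (ℕ × ℕ) × ℤ) ∈
      KW.SS n ×ˢ Icc (-(n : ℤ)) n := by
    intro p hp
    rw [mem_product]
    exact KW.piece_mem hs hp
  rw [← sum_fiberwise_of_maps_to hmap, sum_product]
  refine sum_congr rfl fun i _ => sum_congr rfl fun d _ => ?_
  have hfib : (Pc k n).filter (fun p => (((hl p, htn p), jump p) : (ℕ × ℕ) × ℤ) = (i, d)) =
      KW.PcT k n i d := by
    ext p
    rw [mem_filter, KW.mem_PcT]
    constructor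
    · rintro ⟨h1, h2⟩
      rw [Prod.mk.injEq, Prod.ext_iff] at h2
      simp only at h2
      exact ⟨h1, h2.1.1, h2.1.2, h2.2⟩
    · rintro ⟨h1, h2, h3, h4⟩
      refine ⟨h1, ?_⟩
      rw [Prod.mk.injEq, Prod.ext_iff]
      simp only
      exact ⟨⟨h2, h3⟩, h4⟩
  rw [hfib]
  have e : ∀ p ∈ KW.PcT k n i d, f (hl p) (htn p) (jump p) = f i.1 i.2 d := by
    intro p hp
    rw [KW.mem_PcT] at hp
    rw [hp.2.1, hp.2.2.1, hp.2.2.2]
  rw [sum_congr rfl e, sum_const, nsmul_eq_mul, mul_comm]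

lemma mbar_eq {C θ : ℝ} {k n : ℕ} (hs : K5S_Stmt) (D : Dat C θ k n) (hD : ExD D) :
    D.G.mbar = ∑ p ∈ Pc k n, (hl p : ℝ) * D.G.rho ^ hl p := by
  obtain ⟨h1, h2, _, h4⟩ := hD
  rw [group hs k n (fun a _ _ => (a : ℝ) * D.G.rho ^ a)]
  unfold KCG.GapKernel.mbar KCG.GapKernel.tot
  rw [h1, h2]
  refine sum_congr rfl fun i _ => ?_
  rw [mul_sum]
  refine sum_congr rfl fun d _ => ?_
  rw [h4]

lemma hbar_eq {C θ : ℝ} {k n : ℕ} (hs : K5S_Stmt) (D : Dat C θ k n) (hD : ExD D) :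
    D.G.hbar = ∑ p ∈ Pc k n, (htn p : ℝ) * D.G.rho ^ hl p := by
  obtain ⟨h1, h2, _, h4⟩ := hD
  rw [group hs k n (fun a b _ => (b : ℝ) * D.G.rho ^ a)]
  unfold KCG.GapKernel.hbar KCG.GapKernel.tot
  rw [h1, h2]
  refine sum_congr rfl fun i _ => ?_
  rw [mul_sum]
  refine sum_congr rfl fun d _ => ?_
  rw [h4]

lemma sig2_eq {C θ : ℝ} {k n : ℕ} (hs : K5S_Stmt) (D : Dat C θ k n) (hD : ExD D) :
    D.G.sig2 = ∑ p ∈ Pc k n, (jump p : ℝ) ^ 2 * D.G.rho ^ hl p := by
  obtain ⟨h1, h2, _, h4⟩ := hD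
  rw [group hs k n (fun a _ d => (d : ℝ) ^ 2 * D.G.rho ^ a)]
  unfold KCG.GapKernel.sig2
  rw [h1, h2]
  refine sum_congr rfl fun i _ => ?_
  rw [mul_sum]
  refine sum_congr rfl fun d _ => ?_
  rw [h4]
  ring

lemma kc_eq {C θ : ℝ} {k n : ℕ} (hs : K5S_Stmt) (D : Dat C θ k n) (hD : ExD D) (g g' : ℤ) :
    D.G.Kc g g' = ∑ p ∈ (allowed k n g).filter (fun p => jump p = g' - g),
      D.G.rho ^ hl p := by
  classical
  obtain ⟨h1, _, h3, _⟩ := hD
  unfold KCG.GapKernel.Kc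
  rw [h1]
  have hmap : ∀ p ∈ (allowed k n g).filter (fun p => jump p = g' - g),
      (hl p, htn p) ∈ KW.SS n := by
    intro p hp
    rw [mem_filter, KW.mem_allowed] at hp
    exact (KW.piece_mem hs hp.1.1).1
  rw [← sum_fiberwise_of_maps_to hmap]
  refine sum_congr rfl fun i _ => ?_
  rw [h3]
  have hfib : ((allowed k n g).filter (fun p => jump p = g' - g)).filter
      (fun p => (hl p, htn p) = i) = KW.alT k n i g g' := by
    ext p
    rw [mem_filter, mem_filter, KW.mem_alT, Prod.ext_iff]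
    simp only
    tauto
  rw [hfib]
  have e : ∀ p ∈ KW.alT k n i g g', D.G.rho ^ hl p = D.G.rho ^ i.1 := by
    intro p hp
    rw [KW.mem_alT] at hp
    rw [hp.2.1]
  rw [sum_congr rfl e, sum_const, nsmul_eq_mul, mul_comm]

lemma q_le {k n : ℕ} {q rho : ℝ} (hq1 : ∑ p ∈ Pc k n, q ^ hl p ≤ 1) (h0 : 0 < rho)
    (h1 : ∑ p ∈ Pc k n, rho ^ hl p = 1) : q ≤ rho := by
  by_contra hcon
  push Not at hcon
  have hne : (Pc k n).Nonempty := by
    by_contra h
    rw [not_nonempty_iff_eq_empty] at h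
    rw [h, sum_empty] at h1
    exact zero_ne_one h1
  have h4 : ∑ p ∈ Pc k n, rho ^ hl p < ∑ p ∈ Pc k n, q ^ hl p :=
    sum_lt_sum_of_nonempty hne fun p hp =>
      pow_lt_pow_left₀ hcon h0.le (by have := RHO.hl_pos hp; omega)
  linarith

open Classical in
lemma ker_le {C θ : ℝ} {k n m : ℕ} (hs : K5S_Stmt) (hnm : n ≤ m) (D : Dat C θ k n)
    (D' : Dat C θ k m) (hD : ExD D) (hD' : ExD D') {q : ℝ} (hq : 0 < q) (hq1 : q ≤ D.G.rho)
    (hq2 : q ≤ D'.G.rho) (M : ℕ) (g : ℤ) :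
    ∑ g' ∈ Icc (1 : ℤ) M, |D.G.Kc g g' - D'.G.Kc g g'| ≤
      2 * (1 - ∑ p ∈ Pc k n, q ^ hl p) := by
  have hsub : Pc k n ⊆ Pc k m := RHO.Pc_mono hnm
  obtain ⟨f, hf⟩ : ∃ f : Wd × Wd → ℝ, f = fun p => if p ∈ Pc k n then D.G.rho ^ hl p else 0 :=
    ⟨_, rfl⟩
  obtain ⟨f', hf'⟩ : ∃ f' : Wd × Wd → ℝ, f' = fun p => D'.G.rho ^ hl p := ⟨_, rfl⟩
  obtain ⟨f0, hf0⟩ : ∃ f0 : Wd × Wd → ℝ, f0 = fun p => if p ∈ Pc k n then q ^ hl p else 0 :=
    ⟨_, rfl⟩
  have a1 : ∀ p, f0 p ≤ f p := by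
    intro p
    rw [hf0, hf]
    simp only
    split_ifs
    · exact pow_le_pow_left₀ hq.le hq1 _
    · exact le_rfl
  have a2 : ∀ p, f0 p ≤ f' p := by
    intro p
    rw [hf0, hf']
    simp only
    split_ifs
    · exact pow_le_pow_left₀ hq.le hq2 _
    · exact pow_nonneg (hq.le.trans hq2) _
  have a3 : ∀ p, 0 ≤ (f p - f0 p) + (f' p - f0 p) := fun p => by
    have := a1 p
    have := a2 p
    linarith
  have b1 : ∀ g', |D.G.Kc g g' - D'.G.Kc g g'| ≤
      ∑ p ∈ (allowed k m g).filter (fun p => jump p = g' - g),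
        ((f p - f0 p) + (f' p - f0 p)) := by
    intro g'
    have e1 : D.G.Kc g g' = ∑ p ∈ (allowed k m g).filter (fun p => jump p = g' - g), f p := by
      rw [kc_eq hs D hD, hf, ← sum_filter]
      refine sum_congr ?_ fun _ _ => rfl
      ext p
      simp only [mem_filter, KW.mem_allowed]
      constructor
      · rintro ⟨⟨h1, h2⟩, h3⟩
        exact ⟨⟨⟨hsub h1, h2⟩, h3⟩, h1⟩
      · rintro ⟨⟨⟨_, h2⟩, h3⟩, h1⟩
        exact ⟨⟨h1, h2⟩, h3⟩
    have e2 : D'.G.Kc g g' = ∑ p ∈ (allowed k m g).filter (fun p => jump p = g' - g), f' p := by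
      rw [kc_eq hs D' hD', hf']
    rw [e1, e2, ← sum_sub_distrib]
    refine (abs_sum_le_sum_abs _ _).trans (sum_le_sum fun p _ => ?_)
    have := a1 p
    have := a2 p
    rw [abs_le]
    constructor <;> linarith
  have b2 : ∑ g' ∈ Icc (1 : ℤ) M, ∑ p ∈ (allowed k m g).filter (fun p => jump p = g' - g),
      ((f p - f0 p) + (f' p - f0 p)) ≤ ∑ p ∈ allowed k m g, ((f p - f0 p) + (f' p - f0 p)) := by
    simp_rw [sum_filter]
    rw [sum_comm]
    refine sum_le_sum fun p _ => ?_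
    have e : ∀ g' ∈ Icc (1 : ℤ) M,
        (if jump p = g' - g then (f p - f0 p) + (f' p - f0 p) else 0) =
        (if g' = g + jump p then (f p - f0 p) + (f' p - f0 p) else 0) := by
      intro g' _
      by_cases h : jump p = g' - g
      · rw [if_pos h, if_pos (by omega)]
      · rw [if_neg h, if_neg (by omega)]
    rw [sum_congr rfl e, sum_ite_eq']
    split_ifs
    · exact le_rfl
    · exact a3 p
  have b3 : ∑ p ∈ allowed k m g, ((f p - f0 p) + (f' p - f0 p)) ≤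
      ∑ p ∈ Pc k m, ((f p - f0 p) + (f' p - f0 p)) := by
    refine sum_le_sum_of_subset_of_nonneg ?_ fun p _ _ => a3 p
    intro p hp
    exact ((KW.mem_allowed _ _ _ _).1 hp).1
  have c1 : ∀ r : ℝ, ∑ p ∈ Pc k m, (if p ∈ Pc k n then r ^ hl p else 0) =
      ∑ p ∈ Pc k n, r ^ hl p := by
    intro r
    rw [← sum_filter]
    refine sum_congr ?_ fun _ _ => rfl
    ext p
    rw [mem_filter]
    exact ⟨fun h => h.2, fun h => ⟨hsub h, h⟩⟩
  have b4 : ∑ p ∈ Pc k m, ((f p - f0 p) + (f' p - f0 p)) =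
      2 * (1 - ∑ p ∈ Pc k n, q ^ hl p) := by
    have d1 : ∑ p ∈ Pc k m, f p = 1 := by
      rw [hf, c1]
      exact D.crit
    have d2 : ∑ p ∈ Pc k m, f' p = 1 := by
      rw [hf']
      exact D'.crit
    have d3 : ∑ p ∈ Pc k m, f0 p = ∑ p ∈ Pc k n, q ^ hl p := by
      rw [hf0, c1]
    rw [sum_add_distrib, sum_sub_distrib, sum_sub_distrib, d1, d2, d3]
    ring
  calc ∑ g' ∈ Icc (1 : ℤ) M, |D.G.Kc g g' - D'.G.Kc g g'|
      ≤ ∑ g' ∈ Icc (1 : ℤ) M, ∑ p ∈ (allowed k m g).filter (fun p => jump p = g' - g),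
        ((f p - f0 p) + (f' p - f0 p)) := sum_le_sum fun g' _ => b1 g'
    _ ≤ _ := b2
    _ ≤ _ := b3
    _ = _ := b4

/-- the sources, abstractly -/
lemma src_cau {q eta C' : ℝ} (hq : 0 < q) (he : 0 < eta) (a : ℤ → ℕ → ℝ)
    (ha : ∀ g j, 0 ≤ a g j)
    (hC : ∀ g : ℤ, 1 ≤ g → ∀ M : ℕ, ∑ j ∈ range (M + 1), a g j * ((1 + eta) * q) ^ j ≤ C')
    (N : ℕ → ℕ) (hN : Monotone N) (hN' : Tendsto N atTop atTop) (rho : ℕ → ℝ)
    (hrho : ∀ n, q ≤ rho n) (hlim : Tendsto (fun n => (rho n / q) ^ N n) atTop (𝓝 1))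
    {δ : ℝ} (hδ : 0 < δ) : ∃ n1 : ℕ, ∀ n m : ℕ, n1 ≤ n → n1 ≤ m → ∀ g : ℤ, 1 ≤ g →
      |∑ j ∈ range (N n + 1), rho n ^ j * a g j - ∑ j ∈ range (N m + 1), rho m ^ j * a g j| ≤
        δ := by
  have hC' : 0 ≤ C' := by
    refine le_trans ?_ (hC 1 le_rfl 0)
    exact sum_nonneg fun j _ => mul_nonneg (ha _ _) (by positivity)
  have h1 : ∀ g : ℤ, 1 ≤ g → ∀ M : ℕ, ∑ j ∈ range (M + 1), q ^ j * a g j ≤ C' := by
    intro g hg M
    refine le_trans (sum_le_sum fun j _ => ?_) (hC g hg M)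
    rw [mul_comm]
    refine mul_le_mul_of_nonneg_left (pow_le_pow_left₀ hq.le ?_ _) (ha _ _)
    nlinarith
  obtain ⟨L, hL⟩ : ∃ L : ℕ → ℤ → ℝ, L = fun n g => ∑ j ∈ range (N n + 1), q ^ j * a g j :=
    ⟨_, rfl⟩
  obtain ⟨err, herr⟩ : ∃ err : ℕ → ℝ, err = fun n => ((rho n / q) ^ N n - 1) * C' +
      C' * ((1 + eta)⁻¹) ^ N n := ⟨_, rfl⟩
  have hx : ∀ n, 1 ≤ rho n / q := fun n => (one_le_div hq).2 (hrho n)
  have e1 : ∀ n, ∀ g : ℤ, 1 ≤ g → 0 ≤ ∑ j ∈ range (N n + 1), rho n ^ j * a g j - L n g ∧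
      ∑ j ∈ range (N n + 1), rho n ^ j * a g j - L n g ≤ ((rho n / q) ^ N n - 1) * C' := by
    intro n g hg
    have hLe : ∑ j ∈ range (N n + 1), rho n ^ j * a g j - L n g =
        ∑ j ∈ range (N n + 1), (rho n ^ j - q ^ j) * a g j := by
      rw [hL]
      simp only
      rw [← sum_sub_distrib]
      refine sum_congr rfl fun j _ => ?_
      ring
    rw [hLe]
    constructor
    · refine sum_nonneg fun j _ => mul_nonneg ?_ (ha _ _)
      have := pow_le_pow_left₀ hq.le (hrho n) j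
      linarith
    · calc ∑ j ∈ range (N n + 1), (rho n ^ j - q ^ j) * a g j
          ≤ ∑ j ∈ range (N n + 1), ((rho n / q) ^ N n - 1) * (q ^ j * a g j) := by
            refine sum_le_sum fun j hj => ?_
            rw [mem_range] at hj
            have h2 : rho n ^ j = (rho n / q) ^ j * q ^ j := by
              rw [← mul_pow, div_mul_cancel₀ _ hq.ne']
            have h3 : (rho n / q) ^ j ≤ (rho n / q) ^ N n :=
              pow_le_pow_right₀ (hx n) (by omega)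
            have h4 : 0 ≤ q ^ j * a g j := mul_nonneg (by positivity) (ha _ _)
            calc (rho n ^ j - q ^ j) * a g j = ((rho n / q) ^ j - 1) * (q ^ j * a g j) := by
                  rw [h2]
                  ring
              _ ≤ _ := mul_le_mul_of_nonneg_right (by linarith) h4
        _ = ((rho n / q) ^ N n - 1) * ∑ j ∈ range (N n + 1), q ^ j * a g j := by
            rw [mul_sum]
        _ ≤ _ := mul_le_mul_of_nonneg_left (h1 g hg _)
            (by linarith [one_le_pow₀ (hx n) (n := N n)])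
  have e2 : ∀ n m : ℕ, n ≤ m → ∀ g : ℤ, 1 ≤ g → 0 ≤ L m g - L n g ∧
      L m g - L n g ≤ C' * ((1 + eta)⁻¹) ^ N n := by
    intro n m hnm g hg
    have hle : N n + 1 ≤ N m + 1 := by
      have := hN hnm
      omega
    have hLe : L m g - L n g = ∑ j ∈ Ico (N n + 1) (N m + 1), q ^ j * a g j := by
      rw [hL]
      simp only
      rw [sum_Ico_eq_sub _ hle]
    rw [hLe]
    constructor
    · exact sum_nonneg fun j _ => mul_nonneg (by positivity) (ha _ _)
    · calc ∑ j ∈ Ico (N n + 1) (N m + 1), q ^ j * a g j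
          ≤ ∑ j ∈ Ico (N n + 1) (N m + 1),
            ((1 + eta)⁻¹) ^ N n * (a g j * ((1 + eta) * q) ^ j) := by
            refine sum_le_sum fun j hj => ?_
            rw [mem_Ico] at hj
            have h2 : (1 : ℝ) ≤ ((1 + eta)⁻¹) ^ N n * (1 + eta) ^ j := by
              rw [inv_pow, inv_mul_eq_div, one_le_div (by positivity)]
              exact pow_le_pow_right₀ (by linarith) (by omega)
            have h4 : 0 ≤ q ^ j * a g j := mul_nonneg (by positivity) (ha _ _)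
            calc q ^ j * a g j = 1 * (q ^ j * a g j) := (one_mul _).symm
              _ ≤ ((1 + eta)⁻¹) ^ N n * (1 + eta) ^ j * (q ^ j * a g j) :=
                  mul_le_mul_of_nonneg_right h2 h4
              _ = _ := by
                  rw [mul_pow]
                  ring
        _ = ((1 + eta)⁻¹) ^ N n *
            ∑ j ∈ Ico (N n + 1) (N m + 1), a g j * ((1 + eta) * q) ^ j := by rw [mul_sum]
        _ ≤ ((1 + eta)⁻¹) ^ N n * C' := by
            refine mul_le_mul_of_nonneg_left ?_ (by positivity)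
            refine le_trans ?_ (hC g hg (N m))
            refine sum_le_sum_of_subset_of_nonneg ?_ fun j _ _ =>
              mul_nonneg (ha _ _) (by positivity)
            intro j hj
            rw [mem_Ico] at hj
            rw [mem_range]
            exact hj.2
        _ = _ := mul_comm _ _
  have herr0 : Tendsto err atTop (𝓝 0) := by
    have h2 : Tendsto (fun n => ((1 + eta)⁻¹ : ℝ) ^ N n) atTop (𝓝 0) := by
      have h3 : (1 + eta)⁻¹ < (1 : ℝ) := inv_lt_one_of_one_lt₀ (by linarith)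
      exact (tendsto_pow_atTop_nhds_zero_of_lt_one (by positivity) h3).comp hN'
    have h3 := ((hlim.sub_const 1).mul_const C').add (h2.const_mul C')
    simp only [sub_self, zero_mul, mul_zero, add_zero] at h3
    rw [herr]
    exact h3
  have hp : ∀ n, 0 ≤ C' * ((1 + eta)⁻¹) ^ N n := fun n => by positivity
  have hp' : ∀ n, 0 ≤ ((rho n / q) ^ N n - 1) * C' := fun n =>
    mul_nonneg (by linarith [one_le_pow₀ (hx n) (n := N n)]) hC'
  have key : ∀ n m : ℕ, n ≤ m → ∀ g : ℤ, 1 ≤ g →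
      |∑ j ∈ range (N n + 1), rho n ^ j * a g j - ∑ j ∈ range (N m + 1), rho m ^ j * a g j| ≤
        err n + err m := by
    intro n m hnm g hg
    have u1 := e1 n g hg
    have u2 := e1 m g hg
    have u3 := e2 n m hnm g hg
    have u4 := hp m
    have u5 := hp n
    have u6 := hp' n
    have u7 := hp' m
    rw [herr, abs_le]
    simp only
    constructor
    · linarith [u1.1, u2.2, u3.2]
    · linarith [u1.2, u2.1, u3.1]
  obtain ⟨n1, hn1⟩ := eventually_atTop.1 (herr0.eventually_lt_const (half_pos hδ))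
  refine ⟨n1, fun n m hn hm g hg => ?_⟩
  have v1 := hn1 n hn
  have v2 := hn1 m hm
  rcases le_total n m with h | h
  · exact (key n m h g hg).trans (by linarith)
  · rw [abs_sub_comm]
    exact (key m n h g hg).trans (by linarith)

/-- caps of gap `g` with at least two steps -/
lemma cap_sum (hc : K5C_Stmt) {k : ℕ} {r C : ℝ} (hr : 0 < r)
    (t4 : ∀ M : ℕ, ∑ m ∈ range (M + 1), ∑ g ∈ Icc (1 : ℤ) m,
      ((CapSet k g (2 * m + 2)).card : ℝ) * r ^ m ≤ C) (g : ℤ) (hg : 1 ≤ g) (M : ℕ) :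
    ∑ j ∈ range (M + 1), ((CapSet k g (2 * j + 2)).card : ℝ) * r ^ j ≤ C := by
  refine le_trans (sum_le_sum fun j _ => ?_) (t4 M)
  by_cases h : g ≤ (j : ℤ)
  · exact single_le_sum (f := fun g : ℤ => ((CapSet k g (2 * j + 2)).card : ℝ) * r ^ j)
      (fun _ _ => by positivity) (mem_Icc.2 ⟨hg, h⟩)
  · rw [KW.CapSet_empty hc k g (2 * j + 2) hg (by push_cast; omega)]
    simp only [card_empty, Nat.cast_zero, zero_mul]
    exact sum_nonneg fun _ _ => by positivity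

lemma cap_sum' (hc : K5C_Stmt) {k : ℕ} {r C : ℝ} (hr : 0 < r)
    (t4 : ∀ M : ℕ, ∑ m ∈ range (M + 1), ∑ g ∈ Icc (1 : ℤ) m,
      ((CapSet k g (2 * m + 2)).card : ℝ) * r ^ m ≤ C) (g : ℤ) (hg : 1 ≤ g) (M : ℕ) :
    ∑ j ∈ range (M + 1), ((CapSet k g (2 * j)).card : ℝ) * r ^ j ≤ r * C := by
  have h0 := cap_sum hc hr t4 g hg
  rw [sum_range_succ']
  rw [KW.CapSet_empty hc k g (2 * 0) hg (by push_cast; omega)]
  simp only [card_empty, Nat.cast_zero, zero_mul, add_zero]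
  have h1 : ∑ j ∈ range M, ((CapSet k g (2 * (j + 1))).card : ℝ) * r ^ (j + 1) =
      r * ∑ j ∈ range M, ((CapSet k g (2 * j + 2)).card : ℝ) * r ^ j := by
    rw [mul_sum]
    refine sum_congr rfl fun j _ => ?_
    rw [show 2 * (j + 1) = 2 * j + 2 by ring]
    ring
  rw [h1]
  refine mul_le_mul_of_nonneg_left ?_ hr.le
  refine le_trans ?_ (h0 M)
  exact sum_le_sum_of_subset_of_nonneg (range_mono (by omega)) fun _ _ _ => by positivity

lemma mx_mono (N0 : ℕ) : Monotone (SEQ.mx N0) := fun a b h => by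
  unfold SEQ.mx
  omega

lemma mx_tend (N0 : ℕ) : Tendsto (SEQ.mx N0) atTop atTop :=
  tendsto_atTop_mono (fun n => le_max_left n N0) tendsto_id

end Pool.Agent.KCC.KEC

namespace Pool.Agent.KCC

open Finset Filter Topology Pool.Agent.Lib27 KEC

/-- Module KEC. -/
theorem kec (hP : PSM_Stmt) (h5S : K5S_Stmt) (h5C : K5C_Stmt) : KEC_Stmt := by
  intro k q eta C0 C θ N0 hk hTP hN0 D hD
  have hTP' := hTP
  obtain ⟨hq, he, hC, t1, t2, t3, t4, t5⟩ := hTP'
  have hle : ∀ n, q ≤ (D n).G.rho := fun n => q_le (t1 _) (D n).G.rho_pos (D n).crit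
  obtain ⟨p1, p2⟩ := hP k q eta C0 hk hTP
  have hev : ∀ᶠ n : ℕ in atTop, 0 < (D n).G.rho ∧ ∑ p ∈ Pc k n, (D n).G.rho ^ hl p = 1 := by
    filter_upwards [eventually_ge_atTop N0] with n hn
    refine ⟨(D n).G.rho_pos, ?_⟩
    have h1 := congrArg (fun N => ∑ p ∈ Pc k N, (D n).G.rho ^ hl p) (SEQ.mx_eq N0 n hn)
    exact h1.symm.trans (D n).crit
  obtain ⟨_, p3, p4⟩ := p2 (fun n => (D n).G.rho) hev
  have hr : 0 < (1 + eta) * q := by positivity
  have p3' : Tendsto (fun n => ((D n).G.rho / q) ^ SEQ.mx N0 n) atTop (𝓝 1) := by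
    refine p3.congr' ?_
    filter_upwards [eventually_ge_atTop N0] with n hn
    exact congrArg (fun N => ((D n).G.rho / q) ^ N) (SEQ.mx_eq N0 n hn).symm
  have hker : ∀ δ : ℝ, 0 < δ → ∃ n1 : ℕ, ∀ n m : ℕ, n1 ≤ n → n1 ≤ m → ∀ (M : ℕ) (g : ℤ),
      1 ≤ g → ∑ g' ∈ Icc (1 : ℤ) M, |(D n).G.Kc g g' - (D m).G.Kc g g'| ≤ δ := by
    intro δ hδ
    have h1 : Tendsto (fun n => 2 * (1 - ∑ p ∈ Pc k (SEQ.mx N0 n), q ^ hl p)) atTop (𝓝 0) := by
      have := ((p1.comp (mx_tend N0)).const_sub 1).const_mul 2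
      simpa using this
    obtain ⟨n1, hn1⟩ := eventually_atTop.1 (h1.eventually_lt_const hδ)
    refine ⟨n1, fun n m hn hm M g _ => ?_⟩
    rcases le_total n m with h | h
    · exact (ker_le h5S (mx_mono N0 h) (D n) (D m) (hD n) (hD m) hq (hle n) (hle m) M g).trans
        (hn1 n hn).le
    · have := (ker_le h5S (mx_mono N0 h) (D m) (D n) (hD m) (hD n) hq (hle m) (hle n) M g).trans
        (hn1 m hm).le
      refine le_trans (le_of_eq ?_) this
      refine sum_congr rfl fun g' _ => abs_sub_comm _ _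
  refine ⟨⟨hker, ?_⟩, ⟨hker, ?_⟩, ?_⟩
  · intro δ hδ
    obtain ⟨n1, h1⟩ := src_cau hq he (fun g j => ((CapSet k g (2 * j)).card : ℝ))
      (fun _ _ => by positivity) (fun g hg M => cap_sum' h5C hr t4 g hg M) (SEQ.mx N0)
      (mx_mono N0) (mx_tend N0) (fun n => (D n).G.rho) hle p3' hδ
    refine ⟨n1, fun n m hn hm g hg => ?_⟩
    have h2 := h1 n m hn hm g hg
    have e : ∀ n, KCG.csrc (D n).G.rho (SEQ.mx N0 n) (capS k (SEQ.mx N0 n)) g =
        ∑ j ∈ range (SEQ.mx N0 n + 1), (D n).G.rho ^ j * ((CapSet k g (2 * j)).card : ℝ) := by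
      intro n
      unfold KCG.csrc
      refine sum_congr rfl fun j hj => ?_
      rw [mem_range] at hj
      unfold capS
      rw [if_pos ⟨hg, by omega⟩]
    rw [e, e]
    exact h2
  · intro δ hδ
    obtain ⟨n1, h1⟩ := src_cau hq he (fun g j => ((CapSet k g (2 * j + 2)).card : ℝ))
      (fun _ _ => by positivity) (fun g hg M => cap_sum h5C hr t4 g hg M) (SEQ.mx N0)
      (mx_mono N0) (mx_tend N0) (fun n => (D n).G.rho) hle p3' hδ
    refine ⟨n1, fun n m hn hm g hg => ?_⟩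
    have h2 := h1 n m hn hm g hg
    have e : ∀ n, KCG.csrc (D n).G.rho (SEQ.mx N0 n) (capT k (SEQ.mx N0 n)) g =
        ∑ j ∈ range (SEQ.mx N0 n + 1), (D n).G.rho ^ j *
          ((CapSet k g (2 * j + 2)).card : ℝ) := by
      intro n
      unfold KCG.csrc
      refine sum_congr rfl fun j hj => ?_
      rw [mem_range] at hj
      unfold capT
      rw [if_pos ⟨hg, by omega⟩]
    rw [e, e]
    exact h2
  · have hlim : ∀ (f : Wd × Wd → ℝ) (c : ℝ), (∀ p, 0 ≤ f p) →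
        (∀ (n : ℕ) (p : Wd × Wd), p ∈ Pc k n → f p ≤ c * (hl p : ℝ) ^ 2) →
        ∃ l : ℝ, Tendsto (fun n : ℕ => ∑ p ∈ Pc k (SEQ.mx N0 n), f p * (D n).G.rho ^ hl p) atTop
          (𝓝 l) := by
      intro f c hf0 hf
      obtain ⟨l, hl'⟩ := p4 f c hf0 hf
      refine ⟨l, hl'.congr' ?_⟩
      filter_upwards [eventually_ge_atTop N0] with n hn
      exact congrArg (fun N => ∑ p ∈ Pc k N, f p * (D n).G.rho ^ hl p)
        (SEQ.mx_eq N0 n hn).symm
    have hone : ∀ (n : ℕ) (p : Wd × Wd), p ∈ Pc k n → (hl p : ℝ) ≤ (hl p : ℝ) ^ 2 := by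
      intro n p hp
      have h1 : (1 : ℝ) ≤ (hl p : ℝ) := by exact_mod_cast (h5S k n p hp).2.1
      nlinarith
    obtain ⟨mb, hmb⟩ := hlim (fun p => (hl p : ℝ)) 1 (fun p => by positivity)
      (fun n p hp => by
        rw [one_mul]
        exact hone n p hp)
    obtain ⟨hb, hhb⟩ := hlim (fun p => (htn p : ℝ)) 1 (fun p => by positivity)
      (fun n p hp => by
        rw [one_mul]
        have h1 : (htn p : ℝ) ≤ (hl p : ℝ) := by
          exact_mod_cast (h5S k n p hp).2.2.2.2.2.1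
        exact h1.trans (hone n p hp))
    obtain ⟨sg, hsg⟩ := hlim (fun p => (jump p : ℝ) ^ 2) 1 (fun p => by positivity)
      (fun n p hp => by
        rw [one_mul]
        have h1 := (h5S k n p hp).2.2.2.2.2.2.1
        have h2 : |(jump p : ℝ)| ≤ (hl p : ℝ) := by
          have : |jump p| ≤ (hl p : ℤ) := by omega
          have h3 : ((|jump p| : ℤ) : ℝ) ≤ ((hl p : ℤ) : ℝ) := by exact_mod_cast this
          simpa using h3
        rw [← sq_abs]
        exact pow_le_pow_left₀ (abs_nonneg _) h2 2)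
    refine ⟨mb, hb, sg, ⟨fun n => (D n).cls, ?_, ?_, ?_⟩⟩
    · refine hmb.congr fun n => ?_
      exact (mbar_eq h5S (D n) (hD n)).symm
    · refine hhb.congr fun n => ?_
      exact (hbar_eq h5S (D n) (hD n)).symm
    · refine hsg.congr fun n => ?_
      exact (sig2_eq h5S (D n) (hD n)).symm

end Pool.Agent.KCC
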