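import Pool.Agent.KCS.StC

/-!
# Project KCS (MP_f6626d_co), module MAR: moments of the integer area of the canonical words
-/

set_option autoImplicit false

namespace Pool.Agent.KCC.MARm

open Finset Filter Topology MeasureTheory Pool.Agent.Lib27 Pool.Agent.AreaLaw
open Pool.Agent.Gap (IsCap closeP AreaModel)

lemma mr_add (r : ℕ) (P Q : Polynomial ℝ) : KCG.mr r (P + Q) = KCG.mr r P + KCG.mr r Q := by
  unfold KCG.mr
  rw [Polynomial.sum_add_index]
  · intro i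
    simp
  · intro i a b
    ring

lemma mr_X_pow (r a : ℕ) : KCG.mr r ((Polynomial.X : Polynomial ℝ) ^ a) = (a : ℝ) ^ r := by
  unfold KCG.mr
  rw [Polynomial.X_pow_eq_monomial, Polynomial.sum_monomial_index]
  · simp
  · simp

lemma mr_sum {ι : Type} (r : ℕ) (s : Finset ι) (a : ι → ℕ) :
    KCG.mr r (∑ i ∈ s, (Polynomial.X : Polynomial ℝ) ^ (a i)) = ∑ i ∈ s, ((a i : ℕ) : ℝ) ^ r := by
  classical
  induction s using Finset.induction_on with
  | empty => simp [KCG.mr]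
  | insert i s hi ih => rw [sum_insert hi, sum_insert hi, mr_add, mr_X_pow, ih]

end Pool.Agent.KCC.MARm

namespace Pool.Agent.KCC

open Finset Filter Topology MeasureTheory Pool.Agent.Lib27 Pool.Agent.AreaLaw
open Pool.Agent.Gap (IsCap closeP AreaModel)

theorem mar (hD : DTX_Stmt) (hO : OMX_Stmt) (hM : KCG.GMK_Stmt) (hP : PSM_Stmt) : MAR_Stmt := by
  intro k r q eta C0 hk hr hT
  obtain ⟨C, θ, hC, hθ, hθ1, N0, hN0, hDat⟩ := hD k q eta C0 hk hT
  obtain ⟨C1, hC1, hG⟩ := hM r C θ hr hC hθ hθ1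
  obtain ⟨a, b, ha, hb, hcard, -⟩ := hO k q eta C0 hk hT
  obtain ⟨-, hPr⟩ := hP k q eta C0 hk hT
  have key : ∀ n : ℕ, ∃ rho : ℝ, N0 ≤ n → 0 < rho ∧ ∑ p ∈ Pc k n, rho ^ hl p = 1 ∧
      rho ^ n * (∑ x ∈ Om k n, (Ar k n x.2.2.2 : ℝ) ^ (2 * r)) * ((n : ℝ) * Real.sqrt n) ≤
        C1 * (n : ℝ) ^ (3 * r) := by
    intro n
    by_cases hn : N0 ≤ n
    · obtain ⟨D, -⟩ := hDat n hn
      refine ⟨D.G.rho, fun _ => ⟨D.G.rho_pos, D.crit, ?_⟩⟩
      have h1 := hG D.G D.cls n (capS k n) (capT k n) D.cap_s D.cap_t D.B D.sol n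
      rw [← D.count, MARm.mr_sum] at h1
      exact h1
    · exact ⟨1, fun h => absurd h hn⟩
  choose rho hrho using key
  obtain ⟨hq, -⟩ := hPr rho (by
    filter_upwards [eventually_ge_atTop N0] with n hn
    exact ⟨(hrho n hn).1, (hrho n hn).2.1⟩)
  have hq0 : 0 < q := hT.1
  refine ⟨C1 * (2 / a), ?_⟩
  filter_upwards [eventually_ge_atTop N0, hq, hcard.eventually (lt_mem_nhds (half_lt_self ha)),
    eventually_ge_atTop 1] with n hn hqn hcn hn1
  obtain ⟨h0, -, h1⟩ := hrho n hn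
  set S := ∑ x ∈ Om k n, (Ar k n x.2.2.2 : ℝ) ^ (2 * r) with hS
  have hS0 : 0 ≤ S := sum_nonneg fun x _ => by positivity
  set m : ℝ := (n : ℝ) * Real.sqrt n with hm
  have hm0 : 0 < m := by
    have : (0 : ℝ) < n := by exact_mod_cast hn1
    positivity
  have h2 : a / 2 < ((Om k n).card : ℝ) * m * rho n ^ n :=
    hcn.trans_le (mul_le_mul_of_nonneg_left (pow_le_pow_left₀ hq0.le hqn n) (by positivity))
  have h3 : 0 < rho n ^ n := pow_pos h0 n
  have h4 : S * (a / 2) ≤ C1 * (n : ℝ) ^ (3 * r) * ((Om k n).card : ℝ) := by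
    calc S * (a / 2) ≤ S * (((Om k n).card : ℝ) * m * rho n ^ n) :=
          mul_le_mul_of_nonneg_left h2.le hS0
      _ = (rho n ^ n * S * m) * ((Om k n).card : ℝ) := by ring
      _ ≤ C1 * (n : ℝ) ^ (3 * r) * ((Om k n).card : ℝ) :=
          mul_le_mul_of_nonneg_right h1 (by positivity)
  have h5 : S = S * (a / 2) * (2 / a) := by field_simp
  calc S = S * (a / 2) * (2 / a) := h5
    _ ≤ C1 * (n : ℝ) ^ (3 * r) * ((Om k n).card : ℝ) * (2 / a) :=
        mul_le_mul_of_nonneg_right h4 (by positivity)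
    _ = C1 * (2 / a) * (n : ℝ) ^ (3 * r) * ((Om k n).card : ℝ) := by ring

end Pool.Agent.KCC
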