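import Pool.Agent.KCS.CNX

/-! MODULE KCS_MCC: moments of the area of column-convex polygons. -/

set_option autoImplicit false

namespace Pool.Agent.KCC

open Finset Filter Topology MeasureTheory Pool.Agent.Lib27 Pool.Agent.AreaLaw

namespace MCCaux

lemma three_pow (x y z : ℝ) (hx : 0 ≤ x) (hy : 0 ≤ y) (hz : 0 ≤ z) (m : ℕ) :
    (x + y + z) ^ m ≤ 3 ^ m * (x ^ m + y ^ m + z ^ m) := by
  have hx' : 0 ≤ x ^ m := pow_nonneg hx m
  have hy' : 0 ≤ y ^ m := pow_nonneg hy m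
  have hz' : 0 ≤ z ^ m := pow_nonneg hz m
  have key : ∀ w : ℝ, 0 ≤ w → x + y + z ≤ 3 * w → w ^ m ≤ x ^ m + y ^ m + z ^ m →
      (x + y + z) ^ m ≤ 3 ^ m * (x ^ m + y ^ m + z ^ m) := by
    intro w hw h1 h2
    calc (x + y + z) ^ m ≤ (3 * w) ^ m := pow_le_pow_left₀ (by positivity) h1 m
      _ = 3 ^ m * w ^ m := mul_pow _ _ _
      _ ≤ _ := mul_le_mul_of_nonneg_left h2 (by positivity)
  rcases le_total x y with h1 | h1
  · rcases le_total y z with h2 | h2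
    · exact key z hz (by linarith) (by linarith)
    · exact key y hy (by linarith) (by linarith)
  · rcases le_total x z with h2 | h2
    · exact key z hz (by linarith) (by linarith)
    · exact key x hx (by linarith) (by linarith)

lemma log_le_sqrt {n : ℕ} (hn : 1 ≤ n) : Real.log n ≤ 2 * Real.sqrt n := by
  have hn0 : (0 : ℝ) < n := by exact_mod_cast hn
  have hs : 0 < Real.sqrt n := Real.sqrt_pos.2 hn0
  have h1 := Real.log_le_sub_one_of_pos hs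
  have h2 : Real.log n = 2 * Real.log (Real.sqrt n) := by
    rw [Real.log_sqrt hn0.le]
    ring
  rw [h2]
  linarith

lemma nlog_pow {n : ℕ} (hn : 1 ≤ n) (r : ℕ) :
    ((n : ℝ) * Real.log n) ^ (2 * r) ≤ 4 ^ r * (n : ℝ) ^ (3 * r) := by
  have hn0 : (0 : ℝ) < n := by exact_mod_cast hn
  have hn1 : (1 : ℝ) ≤ n := by exact_mod_cast hn
  have h0 : 0 ≤ Real.log n := Real.log_nonneg hn1
  have h1 := log_le_sqrt hn
  have h2 : ((n : ℝ) * Real.log n) ^ 2 ≤ 4 * (n : ℝ) ^ 3 := by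
    have h3 : Real.log n ^ 2 ≤ (2 * Real.sqrt n) ^ 2 := pow_le_pow_left₀ h0 h1 2
    have h4 : (2 * Real.sqrt n) ^ 2 = 4 * n := by
      rw [mul_pow, Real.sq_sqrt hn0.le]; norm_num
    rw [h4] at h3
    calc ((n : ℝ) * Real.log n) ^ 2 = (n : ℝ) ^ 2 * Real.log n ^ 2 := by ring
      _ ≤ (n : ℝ) ^ 2 * (4 * n) := mul_le_mul_of_nonneg_left h3 (by positivity)
      _ = _ := by ring
  calc ((n : ℝ) * Real.log n) ^ (2 * r) = (((n : ℝ) * Real.log n) ^ 2) ^ r := by rw [pow_mul]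
    _ ≤ (4 * (n : ℝ) ^ 3) ^ r := pow_le_pow_left₀ (by positivity) h2 r
    _ = _ := by rw [mul_pow, ← pow_mul]

lemma pow_split {x K : ℝ} (hx : 0 ≤ x) (hxK : x ≤ K) {m : ℕ} (hm : 1 ≤ m) :
    x ^ m ≤ K ^ (m - 1) * x := by
  obtain ⟨j, rfl⟩ : ∃ j, m = j + 1 := ⟨m - 1, by omega⟩
  rw [Nat.add_sub_cancel, pow_succ]
  exact mul_le_mul_of_nonneg_right (pow_le_pow_left₀ hx hxK j) hx

/-- the words without cut -/
lemma noCut_pow (k n m : ℕ) : ∑ w ∈ NoCut k n, (((|dbl 0 w| : ℤ) : ℝ) / 2) ^ m ≤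
    (2 * (n : ℝ) ^ 2) ^ m * ((NoCut k n).card : ℝ) := by
  have h : ∀ w ∈ NoCut k n, (((|dbl 0 w| : ℤ) : ℝ) / 2) ^ m ≤ (2 * (n : ℝ) ^ 2) ^ m := by
    intro w hw
    refine pow_le_pow_left₀ (by positivity) ?_ m
    rw [mem_NoCut, mem_W] at hw
    have h1 := K5S.abs_dbl_le w
    rw [hw.1.1] at h1
    have h2 : ((|dbl 0 w| : ℤ) : ℝ) ≤ (((2 * n : ℕ) : ℤ) : ℝ) ^ 2 := by exact_mod_cast h1
    push_cast at h2 ⊢
    nlinarith
  calc ∑ w ∈ NoCut k n, (((|dbl 0 w| : ℤ) : ℝ) / 2) ^ m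
      ≤ ∑ w ∈ NoCut k n, (2 * (n : ℝ) ^ 2) ^ m := sum_le_sum h
    _ = (2 * (n : ℝ) ^ 2) ^ m * ((NoCut k n).card : ℝ) := by
        rw [sum_const, nsmul_eq_mul]; ring

/-- they are negligible -/
lemma noCut_small {k : ℕ} {q eta C0 : ℝ} (hTP : TP k q eta C0) (m : ℕ) :
    Tendsto (fun n : ℕ => (∑ w ∈ NoCut k n, (((|dbl 0 w| : ℤ) : ℝ) / 2) ^ m) *
      ((n : ℝ) * Real.sqrt n) * q ^ n) atTop (𝓝 0) := by
  obtain ⟨hq, heta, hC0, -, -, -, -, hN⟩ := hTP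
  have h1 : |(1 + eta)⁻¹| < 1 := by
    rw [abs_of_pos (by positivity)]
    exact inv_lt_one_of_one_lt₀ (by linarith)
  have h2 := (tendsto_pow_const_mul_const_pow_of_abs_lt_one (2 * m + 3) h1).const_mul (2 ^ m * C0)
  rw [mul_zero] at h2
  refine squeeze_zero' (Eventually.of_forall fun n => by positivity) ?_ h2
  filter_upwards [eventually_ge_atTop 1] with n hn
  have hn0 : (0 : ℝ) < n := by exact_mod_cast hn
  have h3 := hN n hn
  rw [mul_pow] at h3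
  have h4 : (0 : ℝ) < (1 + eta) ^ n := by positivity
  have h5 : ((NoCut k n).card : ℝ) * q ^ n ≤ C0 * n * ((1 + eta) ^ n)⁻¹ := by
    rw [← div_eq_mul_inv, le_div_iff₀ h4]
    calc ((NoCut k n).card : ℝ) * q ^ n * (1 + eta) ^ n
        = ((NoCut k n).card : ℝ) * ((1 + eta) ^ n * q ^ n) := by ring
      _ ≤ C0 * n := h3
  have h6 := noCut_pow k n m
  have h7 := CNXaux.sqrt_le_self hn
  calc (∑ w ∈ NoCut k n, (((|dbl 0 w| : ℤ) : ℝ) / 2) ^ m) * ((n : ℝ) * Real.sqrt n) * q ^ n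
      ≤ ((2 * (n : ℝ) ^ 2) ^ m * ((NoCut k n).card : ℝ)) * ((n : ℝ) * n) * q ^ n := by
        gcongr
    _ = ((2 * (n : ℝ) ^ 2) ^ m * ((n : ℝ) * n)) * (((NoCut k n).card : ℝ) * q ^ n) := by ring
    _ ≤ ((2 * (n : ℝ) ^ 2) ^ m * ((n : ℝ) * n)) * (C0 * n * ((1 + eta) ^ n)⁻¹) := by
        gcongr
    _ = 2 ^ m * C0 * ((n : ℝ) ^ (2 * m + 3) * ((1 + eta)⁻¹) ^ n) := by
        rw [inv_pow, mul_pow, ← pow_mul, pow_add (n : ℝ) (2 * m) 3]
        ring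

end MCCaux

open CNT CNXaux MCCaux

/-- MCC. -/
theorem mcc (hR : MAR_Stmt) (hN : NED_Stmt) (hB : OMB_Stmt) (hO : OMX_Stmt) (hD : DTX_Stmt)
    (hP : PSM_Stmt) (hTR : TR_Stmt) (hV : VCR_Stmt) : MCC_Stmt := by
  have _ := hV
  intro k r q eta C0 hk hr hTP
  have hq : 0 < q := hTP.1
  obtain ⟨a, b, ha, hb, hlim1, hlim2⟩ := hO k q eta C0 hk hTP
  obtain ⟨C, θ, hC, hθ, hθ1, N0, hN0, hDn⟩ := hD k q eta C0 hk hTP
  have hR' : ∀ n : ℕ, ∃ ρ : ℝ, N0 ≤ n → 0 < ρ ∧ ρ ≤ 1 ∧ ∑ p ∈ Pc k n, ρ ^ hl p = 1 ∧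
      Tails C θ k n ρ := by
    intro n
    by_cases hn : N0 ≤ n
    · obtain ⟨D, -⟩ := hDn n hn
      exact ⟨D.G.rho, fun _ => ⟨D.G.rho_pos, D.rho_le, D.crit, D.tails⟩⟩
    · exact ⟨0, fun h => absurd h hn⟩
  choose rho hrho using hR'
  obtain ⟨C1, hC1, hNear⟩ := hN (4 * r + 2) C θ hC hθ hθ1
  obtain ⟨C2, hC2⟩ := hR k r q eta C0 hk hr hTP
  obtain ⟨-, hPr⟩ := hP k q eta C0 hk hTP
  obtain ⟨hqr, -, -⟩ := hPr rho (by
    filter_upwards [eventually_ge_atTop N0] with n hn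
    exact ⟨(hrho n hn).1, (hrho n hn).2.2.1⟩)
  have hXpos : ∀ᶠ n : ℕ in atTop, a / 2 < ((Om k n).card : ℝ) * ((n : ℝ) * Real.sqrt n) * q ^ n :=
    hlim1.eventually (lt_mem_nhds (by linarith))
  have hNs : ∀ᶠ n : ℕ in atTop, (∑ w ∈ NoCut k n, (((|dbl 0 w| : ℤ) : ℝ) / 2) ^ (2 * r)) *
      ((n : ℝ) * Real.sqrt n) * q ^ n < a / 2 :=
    (noCut_small hTP (2 * r)).eventually (gt_mem_nhds (by linarith))
  set c3 : ℝ := 4 ^ (2 * r - 1) * C1 * (2 / a) with hc3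
  have hc30 : 0 ≤ c3 := by positivity
  set C3 : ℝ := 3 ^ (2 * r) * (|C2| + 4 ^ r * C1 ^ (2 * r) + c3) with hC3
  have hC30 : 0 ≤ C3 := by positivity
  refine ⟨C3 + 1, ?_⟩
  filter_upwards [hXpos, hNs, hqr, hC2, eventually_ge_atTop N0, eventually_ge_atTop 2]
    with n hx hns hqn hmar hn0' hn2
  have hn1 : 1 ≤ n := by omega
  have hn0 : (0 : ℝ) < n := by exact_mod_cast hn1
  have hn1' : (1 : ℝ) ≤ n := by exact_mod_cast hn1
  have hs : 0 < Real.sqrt n := Real.sqrt_pos.2 hn0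
  have hqn0 : 0 < q ^ n := by positivity
  obtain ⟨hr0, hr1, hr2, hr3⟩ := hrho n hn0'
  set E : ℝ := ((Om k n).card : ℝ) with hE
  set Nn : ℝ := ∑ w ∈ NoCut k n, (((|dbl 0 w| : ℤ) : ℝ) / 2) ^ (2 * r) with hNn
  have hE0 : 0 ≤ E := Nat.cast_nonneg _
  have hpos : 0 < ((n : ℝ) * Real.sqrt n) * q ^ n := by positivity
  have hNE : Nn ≤ E := by
    have h1 : Nn * (((n : ℝ) * Real.sqrt n) * q ^ n) ≤ E * (((n : ℝ) * Real.sqrt n) * q ^ n) := by
      calc Nn * (((n : ℝ) * Real.sqrt n) * q ^ n) = Nn * ((n : ℝ) * Real.sqrt n) * q ^ n := by ring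
        _ ≤ E * ((n : ℝ) * Real.sqrt n) * q ^ n := by linarith
        _ = _ := by ring
    exact le_of_mul_le_mul_right h1 hpos
  -- the canonical words
  set L : ℝ := C1 * ((n : ℝ) * Real.log n) with hL
  have hlog : 0 ≤ Real.log n := Real.log_nonneg hn1'
  have hL0 : 0 ≤ L := by positivity
  have hL1 : L ^ (2 * r) ≤ 4 ^ r * C1 ^ (2 * r) * (n : ℝ) ^ (3 * r) := by
    rw [hL, mul_pow]
    calc C1 ^ (2 * r) * ((n : ℝ) * Real.log n) ^ (2 * r)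
        ≤ C1 ^ (2 * r) * (4 ^ r * (n : ℝ) ^ (3 * r)) :=
          mul_le_mul_of_nonneg_left (nlog_pow hn1 r) (by positivity)
      _ = _ := by ring
  have hned := hNear k n (rho n) hk hn2 hr0 hr1 hr2 hr3
  have hterm : ∀ x ∈ Om k n, (((|dq x| : ℤ) : ℝ) / 2) ^ (2 * r) ≤
      3 ^ (2 * r) * ((Ar k n x.2.2.2 : ℝ) ^ (2 * r) + L ^ (2 * r) + (4 * (n : ℝ) ^ 2) ^ (2 * r - 1) *
        max 0 (|((|dq x| : ℤ) : ℝ) / 2 - (Ar k n x.2.2.2 : ℝ)| - L)) := by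
    intro x hx'
    obtain ⟨hb1, hb2⟩ := hB k n x hk hn2 hx'
    have hu0 : (0 : ℝ) ≤ ((|dq x| : ℤ) : ℝ) := by positivity
    have hA0 : (0 : ℝ) ≤ (Ar k n x.2.2.2 : ℝ) := Nat.cast_nonneg _
    set u : ℝ := ((|dq x| : ℤ) : ℝ) / 2 with hu
    set A : ℝ := (Ar k n x.2.2.2 : ℝ) with hA
    set Z : ℝ := max 0 (|u - A| - L) with hZ
    have hu1 : 0 ≤ u := by positivity
    have hZ0 : 0 ≤ Z := le_max_left _ _
    have hn2' : (0 : ℝ) ≤ (n : ℝ) ^ 2 := by positivity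
    have hZ1 : Z ≤ 4 * (n : ℝ) ^ 2 := by
      refine max_le (by positivity) ?_
      have : |u - A| ≤ 4 * (n : ℝ) ^ 2 := by
        rw [abs_le]
        constructor <;> linarith
      linarith
    have h1 : u ≤ A + L + Z := by
      have h2 : |u - A| - L ≤ Z := le_max_right _ _
      have h3 := le_abs_self (u - A)
      linarith
    calc u ^ (2 * r) ≤ (A + L + Z) ^ (2 * r) := pow_le_pow_left₀ hu1 h1 _
      _ ≤ 3 ^ (2 * r) * (A ^ (2 * r) + L ^ (2 * r) + Z ^ (2 * r)) :=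
          three_pow A L Z hA0 hL0 hZ0 _
      _ ≤ _ := by
          refine mul_le_mul_of_nonneg_left ?_ (by positivity)
          have := pow_split hZ0 hZ1 (show 1 ≤ 2 * r by omega)
          linarith
  have hM : ∑ x ∈ Om k n, (((|dq x| : ℤ) : ℝ) / 2) ^ (2 * r) ≤ C3 * (n : ℝ) ^ (3 * r) * E := by
    refine (sum_le_sum hterm).trans ?_
    rw [← mul_sum, sum_add_distrib, sum_add_distrib, ← mul_sum, sum_const, nsmul_eq_mul]
    have h1 : ∑ x ∈ Om k n, (Ar k n x.2.2.2 : ℝ) ^ (2 * r) ≤ |C2| * (n : ℝ) ^ (3 * r) * E := by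
      refine hmar.trans ?_
      gcongr
      exact le_abs_self _
    have h2 : E * L ^ (2 * r) ≤ 4 ^ r * C1 ^ (2 * r) * (n : ℝ) ^ (3 * r) * E := by
      calc E * L ^ (2 * r) ≤ E * (4 ^ r * C1 ^ (2 * r) * (n : ℝ) ^ (3 * r)) :=
            mul_le_mul_of_nonneg_left hL1 hE0
        _ = _ := by ring
    have h3 : (4 * (n : ℝ) ^ 2) ^ (2 * r - 1) * ∑ x ∈ Om k n,
        max 0 (|((|dq x| : ℤ) : ℝ) / 2 - (Ar k n x.2.2.2 : ℝ)| - L) ≤
        c3 * (n : ℝ) ^ (3 * r) * E := by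
      have h4 : (1 : ℝ) / q ^ n ≤ (2 / a) * (E * (n : ℝ) ^ 2) := by
        rw [div_le_iff₀ hqn0]
        have h5 : 1 ≤ (2 / a) * (E * ((n : ℝ) * Real.sqrt n) * q ^ n) := by
          rw [div_mul_eq_mul_div, le_div_iff₀ ha]
          linarith
        have h6 : Real.sqrt n ≤ n := sqrt_le_self hn1
        calc (1 : ℝ) ≤ (2 / a) * (E * ((n : ℝ) * Real.sqrt n) * q ^ n) := h5
          _ ≤ (2 / a) * (E * ((n : ℝ) * n) * q ^ n) := by gcongr
          _ = _ := by ring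
      have h5 : C1 / ((n : ℝ) ^ (4 * r + 2) * rho n ^ n) ≤
          C1 / (n : ℝ) ^ (4 * r + 2) * ((2 / a) * (E * (n : ℝ) ^ 2)) := by
        have h6 : q ^ n ≤ rho n ^ n := pow_le_pow_left₀ hq.le hqn n
        calc C1 / ((n : ℝ) ^ (4 * r + 2) * rho n ^ n) ≤ C1 / ((n : ℝ) ^ (4 * r + 2) * q ^ n) := by
              gcongr
          _ = C1 / (n : ℝ) ^ (4 * r + 2) * (1 / q ^ n) := by field_simp
          _ ≤ _ := mul_le_mul_of_nonneg_left h4 (by positivity)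
      have h6 := hned.trans h5
      have e1 : (4 * (n : ℝ) ^ 2) ^ (2 * r - 1) = 4 ^ (2 * r - 1) * (n : ℝ) ^ (4 * r - 2) := by
        rw [mul_pow, ← pow_mul]
        congr 2
        omega
      have e2 : (n : ℝ) ^ (4 * r + 2) = (n : ℝ) ^ (4 * r - 2) * (n : ℝ) ^ 4 := by
        rw [← pow_add]
        congr 1
        omega
      have h7 : (1 : ℝ) ≤ (n : ℝ) ^ (3 * r) := one_le_pow₀ hn1'
      have h8 : (0 : ℝ) < (n : ℝ) ^ (4 * r - 2) := by positivity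
      calc (4 * (n : ℝ) ^ 2) ^ (2 * r - 1) * _
          ≤ (4 * (n : ℝ) ^ 2) ^ (2 * r - 1) *
            (C1 / (n : ℝ) ^ (4 * r + 2) * ((2 / a) * (E * (n : ℝ) ^ 2))) :=
            mul_le_mul_of_nonneg_left h6 (by positivity)
        _ = c3 * E * (1 / (n : ℝ) ^ 2) := by
            rw [e1, e2, hc3]
            field_simp
        _ ≤ c3 * E * (n : ℝ) ^ (3 * r) := by
            refine mul_le_mul_of_nonneg_left ?_ (by positivity)
            refine le_trans ?_ h7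
            rw [div_le_one (by positivity)]
            exact one_le_pow₀ hn1'
        _ = _ := by ring
    calc 3 ^ (2 * r) * _ ≤ 3 ^ (2 * r) * (|C2| * (n : ℝ) ^ (3 * r) * E +
          4 ^ r * C1 ^ (2 * r) * (n : ℝ) ^ (3 * r) * E + c3 * (n : ℝ) ^ (3 * r) * E) :=
          mul_le_mul_of_nonneg_left (add_le_add (add_le_add h1 h2) h3) (by positivity)
      _ = _ := by rw [hC3]; ring
  -- assembly
  have hsum : ∑ s ∈ ColConvex k n, area n s ^ (2 * r) =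
      4 * n * ∑ x ∈ Om k n, (((|dq x| : ℤ) : ℝ) / 2) ^ (2 * r) + Nn := by
    have h := hTR k n hk hn2 (fun x => (((|x| : ℤ) : ℝ) / 2) ^ (2 * r))
    simp only [abs_abs] at h
    simp only [area_dbl]
    exact h
  have hcard := (split hTR k n hk hn2).1
  have hNc0 : (0 : ℝ) ≤ ((NoCut k n).card : ℝ) := Nat.cast_nonneg _
  have hpw : (1 : ℝ) ≤ (n : ℝ) ^ (3 * r) := one_le_pow₀ hn1'
  rw [hsum, hcard]
  calc 4 * (n : ℝ) * ∑ x ∈ Om k n, (((|dq x| : ℤ) : ℝ) / 2) ^ (2 * r) + Nn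
      ≤ 4 * n * (C3 * (n : ℝ) ^ (3 * r) * E) + (n : ℝ) ^ (3 * r) * (4 * n * E) := by
        refine add_le_add (mul_le_mul_of_nonneg_left hM (by positivity)) (hNE.trans ?_)
        calc E = 1 * (1 * E) := by ring
          _ ≤ (n : ℝ) ^ (3 * r) * (4 * n * E) := by
              refine mul_le_mul hpw ?_ (by positivity) (by positivity)
              exact mul_le_mul_of_nonneg_right (by linarith) hE0
    _ = (C3 + 1) * (n : ℝ) ^ (3 * r) * (4 * n * E + 0) := by ring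
    _ ≤ _ := by
        refine mul_le_mul_of_nonneg_left ?_ (by positivity)
        linarith

end Pool.Agent.KCC
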