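import Pool.Agent.KCS.StC
import Pool.Agent.KCC.Near

/-!
# Project KCS (MP_f6626d_co), module NED: excess of the error of the area functional

`NEAR` (`KCC/Near.lean`) with an arbitrary power of `n` and only the excess over `C1 n log n`.
-/

set_option autoImplicit false

namespace Pool.Agent.KCC.NED

open Finset Filter Topology Pool.Agent.Lib27 Pool.Agent.KCC Pool.Agent.KCC.NEAR

lemma inner' (h4 : K4_Stmt) (hc : K5C_Stmt) (hpos : POS_Stmt) {k n m L : ℕ} {rho e Zb : ℝ}
    {x : ℤ} {T : Wd} (hrho : 0 < rho) (hx : 1 ≤ x) (hm : m ≤ n)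
    (hT : T ∈ CapSet k x (2 * m + 2))
    (hE : Gs k rho (fE k n L) (n - m) x ≤ e)
    (hZ : Gs k rho (fun _ _ => 1) (n - m) x ≤ Zb) :
    ∑ w ∈ ArchSet k x (2 * (n - m)),
      max 0 (|((|dbl 0 (glue w T)| : ℤ) : ℝ) / 2 - (Ar k n w : ℝ)| - 16 * L * n) ≤
      (rho ^ n)⁻¹ * (rho ^ m * (e + 4 * vv L m * Zb)) := by
  obtain ⟨hT1, hT2⟩ := mem_CapSet hT
  have hcast : ((n - m : ℕ) : ℝ) = n - m := by rw [Nat.cast_sub hm]
  have hxm : x ≤ m := by
    have h3 := (hc.1 x T hx hT2).2.1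
    rw [hT1] at h3
    push_cast at h3
    omega
  have hxm' : (x : ℝ) ≤ m := by exact_mod_cast hxm
  have hm1 : (1 : ℝ) ≤ m := by
    have : (1 : ℤ) ≤ m := hx.trans hxm
    exact_mod_cast this
  have hx0 : (0 : ℝ) < x := by exact_mod_cast hx
  have hTd : |(dbl 0 T : ℝ)| ≤ 4 * ((m : ℝ) + 1) ^ 2 := by
    have := cap_le hc (N := m + 1) hx (by rw [show 2 * (m + 1) = 2 * m + 2 by ring]; exact hT)
    push_cast at this
    exact this
  have hpt : ∀ w ∈ ArchSet k x (2 * (n - m)),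
      |((|dbl 0 (glue w T)| : ℤ) : ℝ) / 2 - (Ar k n w : ℝ)| ≤
      16 * L * n + (fE k n L (n - m) w + 4 * vv L m * 1) := by
    intro w hw
    obtain ⟨hw1, hw2⟩ := mem_ArchSet hw
    have e1 := h4.2 x w T hx hw2 hT2
    have e2 := hpos x w T hx hw2 hT2
    rw [abs_of_pos e2, e1]
    have e3 : ((dbl 0 w + dbl 0 T - 4 * x : ℤ) : ℝ) / 2 - (Ar k n w : ℝ) =
        (((dbl 0 w : ℝ) - 2 * (Ar k n w : ℝ)) + (dbl 0 T : ℝ)) / 2 - 2 * x := by
      push_cast
      ring
    rw [e3]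
    have h5 : |(((dbl 0 w : ℝ) - 2 * (Ar k n w : ℝ)) + (dbl 0 T : ℝ)) / 2 - 2 * x| ≤
        (Dd k n w + |(dbl 0 T : ℝ)|) / 2 + 2 * x := by
      have e4 : |(((dbl 0 w : ℝ) - 2 * (Ar k n w : ℝ)) + (dbl 0 T : ℝ))| ≤
          Dd k n w + |(dbl 0 T : ℝ)| := abs_add_le _ _
      have e5 := abs_sub ((((dbl 0 w : ℝ) - 2 * (Ar k n w : ℝ)) + (dbl 0 T : ℝ)) / 2)
        (2 * (x : ℝ))
      rw [abs_div, abs_of_pos (show (0 : ℝ) < 2 by norm_num),
        abs_of_pos (show (0 : ℝ) < 2 * x by linarith)] at e5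
      linarith
    have h6 := Dd_le k n L (n - m) w
    rw [hcast] at h6
    have h7 := sq_le_vv L m
    have h8 := fE_nonneg k n L (n - m) w
    have h9 : (0 : ℝ) ≤ L * m := by positivity
    have h10 : (0 : ℝ) ≤ L * ((n : ℝ) - m) := by
      rw [← hcast]
      positivity
    refine h5.trans ?_
    nlinarith
  have hpt' : ∀ w ∈ ArchSet k x (2 * (n - m)),
      max 0 (|((|dbl 0 (glue w T)| : ℤ) : ℝ) / 2 - (Ar k n w : ℝ)| - 16 * L * n) ≤
      fE k n L (n - m) w + 4 * vv L m * 1 := by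
    intro w hw
    have h8 := fE_nonneg k n L (n - m) w
    have h9 := vv_nonneg L m
    exact max_le (by linarith) (by linarith [hpt w hw])
  refine (sum_le_sum hpt').trans ?_
  rw [sum_add_distrib, ← mul_sum]
  have hE' : ∑ w ∈ ArchSet k x (2 * (n - m)), fE k n L (n - m) w ≤
      (rho ^ (n - m))⁻¹ * e := by
    unfold Gs at hE
    rw [inv_mul_eq_div, le_div_iff₀ (by positivity), mul_comm]
    exact hE
  have hZ' : ∑ w ∈ ArchSet k x (2 * (n - m)), (1 : ℝ) ≤ (rho ^ (n - m))⁻¹ * Zb := by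
    unfold Gs at hZ
    rw [inv_mul_eq_div, le_div_iff₀ (by positivity), mul_comm]
    exact hZ
  have hinv : (rho ^ (n - m))⁻¹ = (rho ^ n)⁻¹ * rho ^ m := by
    have : rho ^ n = rho ^ (n - m) * rho ^ m := by rw [← pow_add]; congr 1; omega
    rw [this]
    field_simp
  have hfin : (rho ^ n)⁻¹ * (rho ^ m * (e + 4 * vv L m * Zb)) =
      (rho ^ (n - m))⁻¹ * e + 4 * vv L m * ((rho ^ (n - m))⁻¹ * Zb) := by
    rw [hinv]; ring
  rw [hfin]
  apply add_le_add hE'
  exact mul_le_mul_of_nonneg_left hZ' (mul_nonneg (by norm_num) (vv_nonneg _ _))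

/-- mean excess of the error of the area functional -/
theorem ned (h2 : K2_Stmt) (h4 : K4_Stmt) (hs : K5S_Stmt) (hc : K5C_Stmt) (har : AR_Stmt)
    (hpos : POS_Stmt) : NED_Stmt := by
  classical
  intro D C θ hC hθ0 hθ1
  set q : ℝ := θ ^ (((3 : ℕ) : ℝ)⁻¹) with hq
  have hq3 : q ^ 3 = θ := Real.rpow_inv_natCast_pow hθ0.le (by norm_num)
  have hq0 : 0 < q := Real.rpow_pos_of_pos hθ0 _
  have hq1 : q < 1 := Real.rpow_lt_one hθ0.le hθ1 (by positivity)
  obtain ⟨B, hB0, hB⟩ := exists_bound hq0.le hq1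
  have hlq : 0 < -Real.log q := by
    have := Real.log_neg hq0 hq1
    linarith
  set K : ℝ := ((D + 1 : ℕ) : ℝ) / (-Real.log q) with hK
  have hK0 : 0 < K := div_pos (by positivity) hlq
  have h1θ : 0 < 1 - θ := by linarith
  have h1q : 0 < 1 - q := by linarith
  set C' : ℝ := C / θ with hC'
  have hC'0 : 0 < C' := by positivity
  have hCC' : C ≤ C' := by
    rw [hC', le_div_iff₀ hθ0]
    nlinarith
  set Zb : ℝ := C' * (1 / (1 - θ)) with hZb
  have hZb0 : 0 < Zb := by positivity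
  set a0 : ℝ := C' * (B * (1 / (1 - q))) with ha0
  have ha00 : 0 < a0 := by positivity
  refine ⟨16 * (K + 2) + a0 * Zb * (5 + Zb), by positivity, ?_⟩
  intro k n rho hk hn hrho hrho1 hmass ht
  obtain ⟨ht1, ht2, -⟩ := ht
  set L : ℕ := ⌈K * Real.log n⌉₊ with hL
  set a : ℝ := a0 * q ^ L with ha
  have ha1 : 0 < a := by positivity
  have hn0 : (0 : ℝ) < n := by positivity
  have hn2 : (2 : ℝ) ≤ n := by exact_mod_cast hn
  have hlog : 1 ≤ 2 * Real.log n := by
    have h1 : Real.log 2 ≤ Real.log n := Real.log_le_log (by norm_num) hn2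
    have h2 := Real.log_two_gt_d9
    norm_num at h2 ⊢
    linarith
  -- caps
  have hcap : ∀ N x, N ≤ n → 1 ≤ x → Cs k rho N x ≤ C' * θ ^ N := by
    intro N x hN hx
    rcases lt_or_ge (N : ℤ) (x + 1) with hNx | hNx
    · unfold NEAR.Cs
      rw [CapSet_far hc hx hNx, card_empty, Nat.cast_zero, mul_zero]
      positivity
    · obtain ⟨m, rfl⟩ : ∃ m, N = m + 1 := ⟨N - 1, by omega⟩
      push_cast at hNx
      have h3 : ((CapSet k x (2 * m + 2)).card : ℝ) * rho ^ m ≤ C * θ ^ m := by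
        refine le_trans ?_ (ht2 m (by omega))
        exact single_le_sum (f := fun g => ((CapSet k g (2 * m + 2)).card : ℝ) * rho ^ m)
          (fun g _ => by positivity) (mem_Icc.2 ⟨hx, by omega⟩)
      have h4 : C' * θ ^ (m + 1) = C * θ ^ m := by
        rw [hC']
        field_simp
        ring
      rw [h4]
      refine le_trans ?_ h3
      unfold NEAR.Cs
      rw [show 2 * (m + 1) = 2 * m + 2 by ring, mul_comm]
      apply mul_le_mul_of_nonneg_left _ (by positivity)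
      exact pow_le_pow_of_le_one hrho.le hrho1 (Nat.le_succ m)
  -- long pieces
  have hvv : ∀ m, θ ^ m * vv L m ≤ (B * q ^ L) * q ^ m := by
    intro m
    unfold vv
    split_ifs with hm
    · have e1 : θ ^ m = q ^ m * q ^ m * q ^ m := by
        rw [← hq3, ← pow_mul, ← pow_add, ← pow_add]; congr 1; ring
      have e2 : q ^ m ≤ q ^ L := pow_le_pow_of_le_one hq0.le hq1.le hm.le
      have e3 : 4 * (m : ℝ) ^ 2 * q ^ m * q ^ m ≤ B * q ^ L :=
        mul_le_mul (hB m) e2 (by positivity) hB0.le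
      have e4 : θ ^ m * (4 * (m : ℝ) ^ 2) =
          (4 * (m : ℝ) ^ 2 * q ^ m * q ^ m) * q ^ m := by rw [e1]; ring
      rw [e4]
      exact mul_le_mul_of_nonneg_right e3 (by positivity)
    · rw [mul_zero]; positivity
  have hvsum : ∀ (D' : ℝ) (N : ℕ), 0 ≤ D' → D' ≤ C' →
      ∑ m ∈ range N, D' * θ ^ m * vv L m ≤ a := by
    intro D' N hD0 hD
    have h3 : ∑ m ∈ range N, D' * θ ^ m * vv L m ≤
        ∑ m ∈ range N, (C' * (B * q ^ L)) * q ^ m := by
      apply sum_le_sum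
      intro m _
      have e1 := mul_le_mul_of_nonneg_left (hvv m) hD0
      have e2 : D' * (B * q ^ L * q ^ m) ≤ C' * (B * q ^ L * q ^ m) :=
        mul_le_mul_of_nonneg_right hD (by positivity)
      linarith
    refine h3.trans ?_
    rw [← mul_sum]
    have e1 := mul_le_mul_of_nonneg_left (geo hq0.le hq1 N)
      (show 0 ≤ C' * (B * q ^ L) by positivity)
    refine e1.trans (le_of_eq ?_)
    rw [ha, ha0]; ring
  have hA : ∑ p ∈ Pc k n, mu rho p * vv L (hl p) ≤ a := by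
    have hmaps : ∀ p ∈ Pc k n, hl p ∈ range (n + 1) := by
      intro p hp
      have := len_hl hs hp
      rw [mem_range]; omega
    rw [← sum_fiberwise_of_maps_to hmaps]
    refine le_trans (sum_le_sum fun m _ => ?_) (hvsum C (n + 1) hC.le hCC')
    have e1 : ∑ p ∈ (Pc k n).filter (fun p => hl p = m), mu rho p * vv L (hl p) =
        (((Pc k n).filter (fun p => hl p = m)).card : ℝ) * rho ^ m * vv L m := by
      rw [mul_assoc, ← nsmul_eq_mul, ← sum_const]
      apply sum_congr rfl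
      intro p hp
      rw [mem_filter] at hp
      unfold mu
      rw [hp.2]
    rw [e1]
    exact mul_le_mul_of_nonneg_right (ht1 m) (vv_nonneg _ _)
  have hmass' : ∑ p ∈ Pc k n, mu rho p = 1 := hmass
  -- total weight of the arches
  have hZ : ∀ j x, j ≤ n → 1 ≤ x → Gs k rho (fun _ _ => 1) j x ≤ Zb := by
    intro j x hj hx
    have := solve h2 hs hk hrho (f := fun _ _ => 1) (u := fun _ => 1) (v := fun _ => 0)
      (cN := fun N => C' * θ ^ N) (Zb := 0) (A := 0) (fun _ => le_rfl) (fun _ => zero_le_one)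
      hcap (fun N => by positivity) hmass' (by simp) (fun _ _ _ _ _ _ => le_rfl)
      (fun _ _ _ _ _ _ _ _ _ => by simp) le_rfl (fun _ _ _ _ _ => by simp) j hj j x le_rfl hx
    refine this.trans ?_
    simp only [mul_one, mul_zero, add_zero]
    rw [← mul_sum]
    exact mul_le_mul_of_nonneg_left (geo hθ0.le hθ1 _) hC'0.le
  -- error of the arches
  have hE : ∀ j x, j ≤ n → 1 ≤ x → Gs k rho (fE k n L) j x ≤ a + n * (a * Zb) := by
    intro j x hj hx
    have := solve h2 hs hk hrho (f := fE k n L) (u := vv L) (v := vv L)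
      (cN := fun N => C' * θ ^ N) (Zb := Zb) (A := a) (vv_nonneg L) (vv_nonneg L)
      hcap (fun N => by positivity) hmass' hA
      (fun N x T hN hx hT => fE_cap hc har hk hN hx hT)
      (fun N x p w hNn hx hp hN hw => fE_step h4 hs har hk hNn hx hp hN hw) hZb0.le
      (fun j x m hj hx => mul_le_mul_of_nonneg_left (hZ j x hj hx) (vv_nonneg _ _)) n le_rfl
      j x hj hx
    refine this.trans ?_
    exact add_le_add (hvsum C' _ hC'0.le le_rfl) le_rfl
  set e : ℝ := a + n * (a * Zb) with he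
  have he0 : 0 ≤ e := by positivity
  -- the polygons
  have hsumOm : ∀ F : (_ : ℤ) × (_ : ℕ) × (Wd × Wd) → ℝ, ∑ q ∈ Om k n, F q =
      ∑ x ∈ Icc (1 : ℤ) n, ∑ m ∈ range (n + 1), ∑ T ∈ CapSet k x (2 * m + 2),
        ∑ w ∈ ArchSet k x (2 * (n - m)), F ⟨x, m, T, w⟩ := by
    intro F
    unfold Om
    rw [sum_sigma]
    apply sum_congr rfl
    intro x _
    rw [sum_sigma]
    apply sum_congr rfl
    intro M _
    rw [sum_product]
  have hmain : ∑ q ∈ Om k n, max 0 (|((|dq q| : ℤ) : ℝ) / 2 - (Ar k n q.2.2.2 : ℝ)| -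
      16 * L * n) ≤ (rho ^ n)⁻¹ *
        ∑ m ∈ range (n + 1), C * θ ^ m * (e + 4 * vv L m * Zb) := by
    have hc3 := caps hc (L := L) he0 hZb0.le ht2
    refine le_trans ?_ (mul_le_mul_of_nonneg_left hc3 (by positivity : (0 : ℝ) ≤ (rho ^ n)⁻¹))
    rw [hsumOm]
    simp only [mul_sum]
    apply sum_le_sum
    intro x hx
    apply sum_le_sum
    intro m hm
    apply sum_le_sum
    intro T hT
    rw [mem_Icc] at hx
    rw [mem_range] at hm
    exact inner' h4 hc hpos (L := L) hrho hx.1 (by omega) hT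
      (hE _ _ (by omega) hx.1) (hZ _ _ (by omega) hx.1)
  have hsum : ∑ m ∈ range (n + 1), C * θ ^ m * (e + 4 * vv L m * Zb) ≤ Zb * e + 4 * a * Zb := by
    have e1 : ∑ m ∈ range (n + 1), C * θ ^ m * (e + 4 * vv L m * Zb) =
        (C * ∑ m ∈ range (n + 1), θ ^ m) * e +
          4 * (∑ m ∈ range (n + 1), C * θ ^ m * vv L m) * Zb := by
      rw [mul_sum, sum_mul, mul_sum, sum_mul, ← sum_add_distrib]
      apply sum_congr rfl
      intro k _
      ring
    rw [e1]
    apply add_le_add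
    · apply mul_le_mul_of_nonneg_right _ he0
      refine (mul_le_mul_of_nonneg_left (geo hθ0.le hθ1 _) hC.le).trans ?_
      exact mul_le_mul_of_nonneg_right hCC' (by positivity)
    · apply mul_le_mul_of_nonneg_right _ hZb0.le
      have := hvsum C (n + 1) hC.le hCC'
      linarith
  have hqL : q ^ L ≤ ((n : ℝ) ^ (D + 1))⁻¹ := by
    have e1 : q ^ L = Real.exp (L * Real.log q) := by
      rw [Real.exp_nat_mul, Real.exp_log hq0]
    have e2 : ((n : ℝ) ^ (D + 1))⁻¹ = Real.exp (-(((D + 1 : ℕ) : ℝ) * Real.log n)) := by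
      rw [Real.exp_neg, Real.exp_nat_mul, Real.exp_log hn0]
    rw [e1, e2]
    apply Real.exp_le_exp.2
    have e3 : K * Real.log n ≤ L := Nat.le_ceil _
    have e4 := mul_le_mul_of_nonneg_right e3 hlq.le
    have hKq : K * (-Real.log q) = ((D + 1 : ℕ) : ℝ) := div_mul_cancel₀ _ hlq.ne'
    have e5 : K * Real.log n * (-Real.log q) = ((D + 1 : ℕ) : ℝ) * Real.log n := by
      rw [← hKq]; ring
    rw [e5] at e4
    linarith
  have hL2 : 16 * (L : ℝ) ≤ 16 * (K + 2) * Real.log n := by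
    have e1 : (L : ℝ) < K * Real.log n + 1 := Nat.ceil_lt_add_one (by positivity)
    linarith
  have hrn : 0 < rho ^ n := by positivity
  have hfirst : 16 * (L : ℝ) * n ≤
      (16 * (K + 2) + a0 * Zb * (5 + Zb)) * ((n : ℝ) * Real.log n) := by
    have e1 := mul_le_mul_of_nonneg_right hL2 hn0.le
    have e2 : 0 ≤ a0 * Zb * (5 + Zb) * ((n : ℝ) * Real.log n) := by
      have : 0 ≤ Real.log n := by linarith
      positivity
    linarith
  have hsecond : (rho ^ n)⁻¹ * ∑ m ∈ range (n + 1), C * θ ^ m * (e + 4 * vv L m * Zb) ≤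
      (16 * (K + 2) + a0 * Zb * (5 + Zb)) / ((n : ℝ) ^ D * rho ^ n) := by
    have e1 : Zb * e + 4 * a * Zb ≤ a0 * Zb * (5 + Zb) / (n : ℝ) ^ D := by
      have e2 : Zb * e + 4 * a * Zb = a0 * Zb * (5 + n * Zb) * q ^ L := by
        rw [he, ha]; ring
      rw [e2]
      have e3 : a0 * Zb * (5 + n * Zb) ≤ a0 * Zb * (5 + Zb) * n := by
        have : 5 + n * Zb ≤ (5 + Zb) * n := by nlinarith
        have h2 := mul_le_mul_of_nonneg_left this (show 0 ≤ a0 * Zb by positivity)
        linarith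
      have e4 : a0 * Zb * (5 + n * Zb) * q ^ L ≤
          a0 * Zb * (5 + Zb) * n * ((n : ℝ) ^ (D + 1))⁻¹ :=
        mul_le_mul e3 hqL (by positivity) (by positivity)
      refine e4.trans (le_of_eq ?_)
      rw [pow_succ]
      field_simp
    have e5 := hsum.trans e1
    have e6 := mul_le_mul_of_nonneg_left e5 (inv_nonneg.2 hrn.le)
    refine e6.trans ?_
    have e7 : (rho ^ n)⁻¹ * (a0 * Zb * (5 + Zb) / (n : ℝ) ^ D) =
        a0 * Zb * (5 + Zb) / ((n : ℝ) ^ D * rho ^ n) := by field_simp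
    rw [e7]
    apply div_le_div_of_nonneg_right _ (by positivity)
    linarith
  refine le_trans (sum_le_sum fun x _ => ?_) (hmain.trans hsecond)
  exact max_le_max le_rfl (by linarith)

end Pool.Agent.KCC.NED

namespace Pool.Agent.KCC

/-- NED : mean excess of the error of the area functional. -/
theorem ned (hK2 : K2_Stmt) (h4 : K4_Stmt) (h5S : K5S_Stmt) (h5C : K5C_Stmt) (hAR : AR_Stmt)
    (hPOS : POS_Stmt) : NED_Stmt := NED.ned hK2 h4 h5S h5C hAR hPOS

end Pool.Agent.KCC
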