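import Pool.Agent.KCS.StC
import Pool.Agent.KCC.K5S
import Pool.Agent.KCC.Ar

/-!
# KCS_OMB: trivial bounds for the canonical words (MP_f6626d_co, by helper30)
-/

set_option autoImplicit false

namespace Pool.Agent.KCC

open Finset Filter Topology MeasureTheory Pool.Agent.Lib27 Pool.Agent.AreaLaw
open Pool.Agent.SapR (rot2 wordsUpTo)

namespace OMB

/-- length of a canonical word -/
lemma length_glue (w T : Wd) (N m : ℕ) (hw : w.length = N) (hT : T.length = 2 * m + 2) :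
    (glue w T).length = N + 2 * m := by
  unfold glue strip rot2
  rw [List.length_append, List.length_map, List.length_dropLast, List.length_tail, hw, hT]
  omega

/-- the arithmetic of one step of the induction -/
lemma step_arith (N h t g g' : ℤ) (h1 : 1 ≤ g) (h2 : 1 ≤ g') (h3 : g + 1 ≤ N)
    (h4 : g' + 1 ≤ N - h) (h5 : 1 ≤ t) (h6 : t ≤ h) :
    2 * (N - h) ^ 2 + t * (g + g') ≤ 2 * N ^ 2 := by
  have h7 : t * (g + g') ≤ h * (g + g') := mul_le_mul_of_nonneg_right h6 (by omega)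
  have h8 : h * (g + g') ≤ h * (2 * N - h - 2) := mul_le_mul_of_nonneg_left (by omega) (by omega)
  nlinarith

/-- bound for the area functional of an arch -/
lemma Ar_le (h5S : K5S_Stmt) (h5C : K5C_Stmt) (k n : ℕ) : ∀ (L : ℕ) (w : Wd) (g : ℤ) (N : ℕ),
    w.length = L → 1 ≤ g → w ∈ ArchSet k g (2 * N) → Ar k n w ≤ 2 * N ^ 2 := by
  classical
  intro L
  induction L using Nat.strong_induction_on with
  | _ L ih =>
    intro w g N hL hg hw
    obtain ⟨hl1, ha, -⟩ := (AR.mem_ArchSet _ _ _ _).1 hw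
    have hep : (ep 0 w).2 / 2 = g := AR.Arch_ep g w ha
    by_cases h : ∃ q : (Wd × Wd) × Wd, Dec k n ((ep 0 w).2 / 2) w q
    · obtain ⟨q, hs, hq⟩ : ∃ q, Dec k n ((ep 0 w).2 / 2) w q ∧ Ar k n w = Ar k n q.2 +
          (ht q.1 * (2 * ((ep 0 w).2 / 2) + jump q.1)).toNat := by
        refine ⟨h.choose, h.choose_spec, ?_⟩
        conv_lhs => rw [Ar]
        rw [dif_pos h]
      rw [hep] at hs hq
      rw [hq]
      obtain ⟨s1, s2, s3⟩ := hs
      have hp : q.1 ∈ Pc k n ∧ 1 ≤ g ∧ 1 ≤ g + jump q.1 := by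
        unfold allowed at s1
        rw [mem_filter] at s1
        exact ⟨s1.1, s1.2.1, s1.2.2.1⟩
      obtain ⟨k1, k2, -, k4, k5, k6, -, -, -⟩ := h5S k n q.1 hp.1
      have hlen : w.length = q.1.1.length + q.2.length + q.1.2.length := by
        conv_lhs => rw [s3]
        simp only [List.length_append]
      have e1 : w.length - (q.1.1.length + q.1.2.length) = 2 * (N - hl q.1) := by omega
      rw [e1] at s2
      have hlt : q.2.length < L := by omega
      have i1 := ih q.2.length hlt q.2 (g + jump q.1) (N - hl q.1) rfl hp.2.2 s2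
      obtain ⟨m1, m2, -⟩ := (AR.mem_ArchSet _ _ _ _).1 s2
      obtain ⟨-, a1, -, -⟩ := h5C.1 (g + jump q.1) q.2 hp.2.2 m2
      obtain ⟨-, a2, -, -⟩ := h5C.1 g w hg ha
      have hNh : hl q.1 ≤ N := by omega
      have b1 := step_arith (N : ℤ) (hl q.1 : ℤ) (ht q.1) g (g + jump q.1) hg hp.2.2 (by omega)
        (by omega) (by omega) (by omega)
      have b2 : ((N - hl q.1 : ℕ) : ℤ) = (N : ℤ) - hl q.1 := by omega
      have b3 : (0 : ℤ) ≤ ht q.1 * (2 * g + jump q.1) := mul_nonneg (by omega) (by omega)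
      have b4 : (((ht q.1 * (2 * g + jump q.1)).toNat : ℕ) : ℤ) = ht q.1 * (2 * g + jump q.1) :=
        Int.toNat_of_nonneg b3
      have b5 : ((Ar k n q.2 : ℕ) : ℤ) ≤ 2 * ((N : ℤ) - hl q.1) ^ 2 := by
        rw [← b2]
        exact_mod_cast i1
      have b6 : g + (g + jump q.1) = 2 * g + jump q.1 := by ring
      rw [b6] at b1
      have b7 : ((Ar k n q.2 + (ht q.1 * (2 * g + jump q.1)).toNat : ℕ) : ℤ) ≤
          ((2 * N ^ 2 : ℕ) : ℤ) := by
        push_cast
        rw [b4]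
        linarith
      exact_mod_cast b7
    · rw [Ar, dif_neg h]
      exact Nat.zero_le _

end OMB

/-- **Module KCS_OMB** -/
theorem omb (_hK2 : K2_Stmt) (h5S : K5S_Stmt) (h5C : K5C_Stmt) (_hAR : AR_Stmt) : OMB_Stmt := by
  classical
  intro k n x _ _ hx
  unfold Om at hx
  rw [mem_sigma, mem_Icc, mem_sigma, mem_range, mem_product] at hx
  obtain ⟨⟨hg, -⟩, hm, hT, hw⟩ := hx
  have hT1 := ((AR.mem_CapSet _ _ _ _).1 hT).1
  have hw1 := ((AR.mem_ArchSet _ _ _ _).1 hw).1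
  constructor
  · have h1 := K5S.abs_dbl_le (glue x.2.2.2 x.2.2.1)
    rw [OMB.length_glue _ _ _ _ hw1 hT1] at h1
    have h2 : 2 * (n - x.2.1) + 2 * x.2.1 = 2 * n := by omega
    rw [h2] at h1
    have h3 : ((|dq x| : ℤ) : ℝ) ≤ ((((2 * n : ℕ) : ℤ) ^ 2 : ℤ) : ℝ) := by
      unfold dq
      exact_mod_cast h1
    refine h3.trans (le_of_eq ?_)
    push_cast
    ring
  · have h1 := OMB.Ar_le h5S h5C k n _ x.2.2.2 x.1 (n - x.2.1) rfl hg hw
    have h2 : (n - x.2.1) ^ 2 ≤ n ^ 2 := Nat.pow_le_pow_left (Nat.sub_le _ _) 2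
    have h3 : Ar k n x.2.2.2 ≤ 4 * n ^ 2 := by omega
    exact_mod_cast h3

end Pool.Agent.KCC
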