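import Pool.Agent.KCS.StC
import Pool.Agent.KCC.Bnd
import Pool.Agent.KCC.Sq2

/-!
# Project KCS (MP_f6626d_co), module OMX: number of canonical words and sum of their integer areas,
with constants
-/

set_option autoImplicit false

namespace Pool.Agent.KCC.OMX

open Finset Filter Topology
open Pool.Agent.KCG Pool.Agent.KCG.GFIN
open Pool.Agent.Gap (closeP cap1 epsn epsn_zero B0 B0_isSol mn stair_side)

/-- values at one index -/
theorem dat_facts {C θ : ℝ} {k m n : ℕ} (D : Dat C θ k m) (hm : m = n) :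
    ∑ p ∈ Pc k n, D.G.rho ^ hl p = 1 ∧
    (closeP m (capT k m) D.B n).eval 1 = ((Om k n).card : ℝ) ∧
    (closeP m (capT k m) D.B n).derivative.eval 1 = ∑ q ∈ Om k n, (Ar k n q.2.2.2 : ℝ) := by
  subst hm
  refine ⟨D.crit, ?_, ?_⟩
  · rw [← D.count, Polynomial.eval_finsetSum]
    simp
  · rw [← D.count, Polynomial.derivative_sum, Polynomial.eval_finsetSum]
    refine sum_congr rfl fun q _ => ?_
    rw [Polynomial.derivative_X_pow, Polynomial.eval_mul, Polynomial.eval_C,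
      Polynomial.eval_pow, Polynomial.eval_X, one_pow, mul_one]

/-- the limits at infinity of the critical solutions converge to a positive number -/
theorem crit_lim (hA : KCG.ACV_Stmt) {C θ C1 Cv : ℝ} (hC : 0 < C) (hθ : 0 < θ) (hθ1 : θ < 1)
    (hC1 : 0 < C1) {G : ℕ → KCG.GapKernel} {C0 : ℕ → ℕ} {s : ℕ → ℕ → ℤ → ℝ} {A : ℕ → ℝ}
    (hcls : ∀ n, KCG.Cls C θ (G n)) (h : KCG.CritLim C1 Cv G C0 s A)
    (hc : KCG.KCau G (fun n => KCG.csrc (G n).rho (C0 n) (s n))) :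
    ∃ a : ℝ, 0 < a ∧ Tendsto A atTop (𝓝 a) := by
  obtain ⟨vc, hvc⟩ := h
  obtain ⟨a, ha⟩ := hA C θ C1 Cv hC hθ hθ1 hC1 G (fun n => KCG.csrc (G n).rho (C0 n) (s n)) vc A
    hcls (fun n => (hvc n).1) (fun n M => (hvc n).2.2.2 M) hc
  exact ⟨a, lt_of_lt_of_le (inv_pos.2 hC1) (ge_of_tendsto' ha fun n => (hvc n).2.1), ha⟩

end Pool.Agent.KCC.OMX

namespace Pool.Agent.KCC

open Finset Filter Topology
open Pool.Agent.KCG Pool.Agent.KCG.GFIN Pool.Agent.KCC.OMX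
open Pool.Agent.Gap (closeP cap1 epsn epsn_zero B0 B0_isSol mn stair_side)

/-- MODULE OMX -/
theorem omx (hD : DTX_Stmt) (hP : PSM_Stmt) (hK : KEC_Stmt) (hL : KCG.GLTX_Stmt)
    (hA : KCG.ACV_Stmt) (hG : KCG.GLT_Stmt) (hM : KCG.GM2_Stmt) (oLT1 : Gap.LT1_Stmt)
    (oM2 : Gap.M2_Stmt) (oBAL : Gap.BAL_Stmt) : OMX_Stmt := by
  intro k q eta C0 hk hTP
  obtain ⟨C, θ, hC, hθ, hθ1, N0, hN0, hDD⟩ := hD k q eta C0 hk hTP
  have hq : 0 < q := hTP.1
  choose D0 hD0 using hDD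
  obtain ⟨D, hDE⟩ : ∃ D : ∀ n, Dat C θ k (SEQ.mx N0 n), ∀ n, ExD (D n) :=
    ⟨fun n => D0 (SEQ.mx N0 n) (le_max_right _ _), fun n => hD0 _ _⟩
  obtain ⟨kS, kT, mb, hb, sg, hKS⟩ := hK k q eta C0 C θ N0 hk hTP hN0 D hDE
  obtain ⟨Mx, hMx⟩ := par_mem hC hθ hθ1
  have hmb : 0 < mb := lt_of_lt_of_le one_pos
    (ge_of_tendsto' hKS.lim_m fun n => (hMx _ (hKS.cls n)).1.1)
  have hhb : 0 < hb := lt_of_lt_of_le one_pos
    (ge_of_tendsto' hKS.lim_h fun n => (hMx _ (hKS.cls n)).1.2.1)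
  have hsg : 0 < sg := lt_of_lt_of_le (pow_pos (inv_pos.2 hC) 2)
    (ge_of_tendsto' hKS.lim_s fun n => (hMx _ (hKS.cls n)).1.2.2)
  obtain ⟨C1, Cv, hC1, hCv, hLT⟩ := hL C θ hC hθ hθ1
  obtain ⟨As, At, hAs, hAt, hlim⟩ := hLT (fun n => (D n).G) mb hb sg (fun n => SEQ.mx N0 n)
    (fun n => capS k (SEQ.mx N0 n)) (fun n => capT k (SEQ.mx N0 n)) (fun n => (D n).B) hKS
    (fun n => (D n).cap_s) (fun n => (D n).cap_t) (fun n => (D n).sol) B0 B0_isSol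
  obtain ⟨as, has0, has⟩ := crit_lim hA hC hθ hθ1 hC1 (fun n => (D n).cls) hAs kS
  obtain ⟨at', hat0, hat⟩ := crit_lim hA hC hθ hθ1 hC1 (fun n => (D n).cls) hAt kT
  obtain ⟨L, m0, C', hL0, hm0, hC', hLL, hexp⟩ := stair_side oLT1 oM2 oBAL
  obtain ⟨b, c, hb0, hc0, _, hmn, _⟩ := seq_side hG hM hL0 hm0 hLL hexp hC hθ hθ1
    (fun n => (D n).G) hmb hhb hsg (fun n => SEQ.mx N0 n) (fun n => capS k (SEQ.mx N0 n))
    (fun n => capT k (SEQ.mx N0 n)) (fun n => (D n).B) hKS (fun n => (D n).cap_s)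
    (fun n => (D n).cap_t) (fun n => (D n).sol)
    (fun n => closeP (SEQ.mx N0 n) (capT k (SEQ.mx N0 n)) (D n).B n) (fun n => rfl)
  -- the scale
  have hβ0 : 0 < 2 * sg / mb := by positivity
  have h2 : Tendsto (fun n : ℕ => ((⌊2 * sg / mb * n⌋₊ : ℕ) : ℝ) / n) atTop
      (𝓝 (2 * sg / mb)) :=
    (tendsto_nat_floor_mul_div_atTop hβ0.le).comp tendsto_natCast_atTop_atTop
  have h3 : Tendsto (fun n : ℕ => ⌊2 * sg / mb * (n : ℝ)⌋₊) atTop atTop :=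
    tendsto_nat_floor_atTop.comp (tendsto_natCast_atTop_atTop.const_mul_atTop hβ0)
  have h4 := hlim (fun n => ⌊2 * sg / mb * (n : ℝ)⌋₊) h2 0 le_rfl
  have hlam : lamS mb hb sg 0 = 0 := by unfold lamS; ring
  simp only [hlam, epsn_zero, neg_zero, Real.exp_zero] at h4
  have hL1 := hLL 0 le_rfl
  simp only [epsn_zero, neg_zero, Real.exp_zero] at hL1
  have h5 := hL1.comp h3
  have h6 : Tendsto (fun n : ℕ => Real.sqrt (2 * sg / mb) * ((D n).G.mbar * (As n * At n)))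
      atTop (𝓝 (Real.sqrt (2 * sg / mb) * (mb * (as * at')))) :=
    (hKS.lim_m.mul (has.mul hat)).const_mul _
  have h7 := h4.add (h6.mul h5)
  rw [zero_add] at h7
  have h8 : Tendsto (fun n : ℕ => ((n : ℝ) * Real.sqrt n) * (D n).G.rho ^ n *
      (closeP (SEQ.mx N0 n) (capT k (SEQ.mx N0 n)) (D n).B n).eval 1) atTop
      (𝓝 (Real.sqrt (2 * sg / mb) * (mb * (as * at')) * L 0)) := by
    refine h7.congr fun n => ?_
    simp only [Function.comp_apply]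
    ring
  have hev : ∀ᶠ n : ℕ in atTop, 0 < (D n).G.rho ∧ ∑ p ∈ Pc k n, (D n).G.rho ^ hl p = 1 := by
    filter_upwards [eventually_ge_atTop N0] with n hn
    exact ⟨(D n).G.rho_pos, (dat_facts (D n) (SEQ.mx_eq N0 n hn)).1⟩
  obtain ⟨_, h9, _⟩ := (hP k q eta C0 hk hTP).2 (fun n => (D n).G.rho) hev
  have h10 := h8.div h9 one_ne_zero
  rw [div_one] at h10
  refine ⟨Real.sqrt (2 * sg / mb) * (mb * (as * at')) * L 0, b, by positivity, hb0, ?_, ?_⟩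
  · refine h10.congr' ?_
    filter_upwards [eventually_ge_atTop N0] with n hn
    obtain ⟨_, e2, _⟩ := dat_facts (D n) (SEQ.mx_eq N0 n hn)
    have hr : (D n).G.rho ^ n ≠ 0 := (pow_pos (D n).G.rho_pos n).ne'
    have hqn : q ^ n ≠ 0 := (pow_pos hq n).ne'
    simp only [Pi.div_apply]
    rw [e2, div_pow]
    field_simp
  · refine hmn.congr' ?_
    filter_upwards [eventually_ge_atTop N0] with n hn
    obtain ⟨_, e2, e3⟩ := dat_facts (D n) (SEQ.mx_eq N0 n hn)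
    unfold mn
    simp only
    rw [e2, e3, mul_comm ((Om k n).card : ℝ)]

end Pool.Agent.KCC
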