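import Pool.Agent.KCS.StC
import Pool.Agent.KCC.Rho

/-!
# Project KCS (MP_f6626d_co), module PSM: convergence of sums over the pieces
-/

set_option autoImplicit false

namespace Pool.Agent.KCC.PSM

open Finset Filter Topology Pool.Agent.Lib27 Pool.Agent.KCC

/-- the critical sum at `q` is exponentially close to `1` -/
lemma near {k : ℕ} {q eta C : ℝ} (hTP : TP k q eta C) (n : ℕ) :
    1 - C / (1 + eta) ^ n ≤ ∑ p ∈ Pc k n, q ^ hl p := by
  obtain ⟨hq, he, hC, h1, h2, h3, _, _⟩ := hTP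
  rw [sub_le_iff_le_add]
  refine le_of_forall_pos_lt_add fun δ hδ => ?_
  obtain ⟨N, hN⟩ := RHO.near_one hq he hC h2 h3 hδ
  have h5 := RHO.tail_le hq he h3 (n := n) (N := N)
  linarith

/-- the critical weight of the truncated kernel -/
lemma weight {k : ℕ} {q eta C : ℝ} (hTP : TP k q eta C) {n : ℕ} {rho : ℝ}
    (hpn : 2 * C < (1 + eta) ^ n) (hrho : 0 < rho) (hsum : ∑ p ∈ Pc k n, rho ^ hl p = 1) :
    q ≤ rho ∧ rho / q ≤ 1 + 2 * (C / (1 + eta) ^ n) := by
  have hnear := near hTP n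
  obtain ⟨hq, he, hC, h1, h2, h3, _, _⟩ := hTP
  have hle : q ≤ rho := by
    by_contra hcon
    push Not at hcon
    have hne : (Pc k n).Nonempty := by
      by_contra h
      rw [not_nonempty_iff_eq_empty] at h
      rw [h, sum_empty] at hsum
      exact zero_ne_one hsum
    have h4 : ∑ p ∈ Pc k n, rho ^ hl p < ∑ p ∈ Pc k n, q ^ hl p :=
      sum_lt_sum_of_nonempty hne fun p hp =>
        pow_lt_pow_left₀ hcon hrho.le (by have := RHO.hl_pos hp; omega)
    linarith [h1 n]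
  refine ⟨hle, ?_⟩
  have hp0 : (0 : ℝ) < (1 + eta) ^ n := by positivity
  obtain ⟨ε, hε⟩ : ∃ ε : ℝ, ε = C / (1 + eta) ^ n := ⟨_, rfl⟩
  rw [← hε] at hnear ⊢
  have hε0 : 0 < ε := by rw [hε]; positivity
  have hε1 : ε ≤ 1 / 2 := by
    rw [hε, div_le_iff₀ hp0]
    linarith
  have hx1 : 1 ≤ rho / q := by rwa [one_le_div hq]
  have h6 : rho / q * ∑ p ∈ Pc k n, q ^ hl p ≤ 1 := by
    rw [← hsum, mul_sum]
    refine sum_le_sum fun p hp => ?_
    have h7 : rho ^ hl p = (rho / q) ^ hl p * q ^ hl p := by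
      rw [← mul_pow, div_mul_cancel₀ _ hq.ne']
    rw [h7]
    refine mul_le_mul_of_nonneg_right ?_ (by positivity)
    calc rho / q = (rho / q) ^ 1 := (pow_one _).symm
      _ ≤ (rho / q) ^ hl p := pow_le_pow_right₀ hx1 (RHO.hl_pos hp)
  have h8 : rho / q * (1 - ε) ≤ 1 :=
    le_trans (mul_le_mul_of_nonneg_left (by linarith) (by linarith)) h6
  have h10 : (1 : ℝ) ≤ (1 + 2 * ε) * (1 - ε) := by nlinarith
  have h11 : 0 < 1 - ε := by linarith
  by_contra hcon
  push Not at hcon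
  have := mul_lt_mul_of_pos_right hcon h11
  linarith

lemma tend_err {eta C : ℝ} (he : 0 < eta) :
    Tendsto (fun n : ℕ => C / (1 + eta) ^ n) atTop (𝓝 0) := by
  have h := tendsto_pow_const_div_const_pow_of_one_lt 0 (show (1 : ℝ) < 1 + eta by linarith)
  have h2 := h.const_mul C
  rw [mul_zero] at h2
  refine h2.congr fun n => ?_
  rw [pow_zero]
  ring

lemma tend_err_n {eta C : ℝ} (he : 0 < eta) :
    Tendsto (fun n : ℕ => (n : ℝ) * (2 * (C / (1 + eta) ^ n))) atTop (𝓝 0) := by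
  have h := tendsto_pow_const_div_const_pow_of_one_lt 1 (show (1 : ℝ) < 1 + eta by linarith)
  have h2 := h.const_mul (2 * C)
  rw [mul_zero] at h2
  refine h2.congr fun n => ?_
  rw [pow_one]
  ring

lemma hl_le {k n : ℕ} {p : Wd × Wd} (hp : p ∈ Pc k n) : hl p ≤ n := by
  rw [mem_Pc] at hp
  have := hp.2
  unfold hl
  omega

/-- boundedness of the weighted sums -/
lemma bdd {k : ℕ} {q eta C : ℝ} (hTP : TP k q eta C) (f : Wd × Wd → ℝ) (c : ℝ)
    (hf : ∀ (n : ℕ) (p : Wd × Wd), p ∈ Pc k n → f p ≤ c * (hl p : ℝ) ^ 2) :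
    ∃ B : ℝ, ∀ n : ℕ, ∑ p ∈ Pc k n, f p * q ^ hl p ≤ B := by
  obtain ⟨hq, he, hC, h1, h2, h3, _, _⟩ := hTP
  have h4 := tendsto_pow_const_div_const_pow_of_one_lt 2 (show (1 : ℝ) < 1 + eta by linarith)
  obtain ⟨M, hM⟩ := h4.bddAbove_range
  have hM' : ∀ h : ℕ, (h : ℝ) ^ 2 ≤ M * (1 + eta) ^ h := by
    intro h
    have h5 : (h : ℝ) ^ 2 / (1 + eta) ^ h ≤ M := hM ⟨h, rfl⟩
    rwa [div_le_iff₀ (by positivity)] at h5
  have hM0 : 0 ≤ M := by
    have := hM' 0
    simp at this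
    exact this
  refine ⟨|c| * M * C, fun n => ?_⟩
  calc ∑ p ∈ Pc k n, f p * q ^ hl p
      ≤ ∑ p ∈ Pc k n, |c| * M * ((1 + eta) * q) ^ hl p := by
        refine sum_le_sum fun p hp => ?_
        have h6 : f p ≤ |c| * (M * (1 + eta) ^ hl p) := by
          calc f p ≤ c * (hl p : ℝ) ^ 2 := hf n p hp
            _ ≤ |c| * (hl p : ℝ) ^ 2 := mul_le_mul_of_nonneg_right (le_abs_self c) (by positivity)
            _ ≤ |c| * (M * (1 + eta) ^ hl p) := mul_le_mul_of_nonneg_left (hM' _) (abs_nonneg c)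
        calc f p * q ^ hl p ≤ |c| * (M * (1 + eta) ^ hl p) * q ^ hl p :=
              mul_le_mul_of_nonneg_right h6 (by positivity)
          _ = |c| * M * ((1 + eta) * q) ^ hl p := by rw [mul_pow]; ring
    _ = |c| * M * ∑ p ∈ Pc k n, ((1 + eta) * q) ^ hl p := by rw [mul_sum]
    _ ≤ |c| * M * C := mul_le_mul_of_nonneg_left (h3 n) (by positivity)

end Pool.Agent.KCC.PSM

namespace Pool.Agent.KCC

open Finset Filter Topology Pool.Agent.Lib27 PSM

/-- Module PSM. -/
theorem psm : PSM_Stmt := by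
  intro k q eta C _ hTP
  have hTP' := hTP
  obtain ⟨hq, he, hC, h1, h2, h3, _, _⟩ := hTP'
  refine ⟨?_, ?_⟩
  · have h4 : Tendsto (fun n : ℕ => 1 - C / (1 + eta) ^ n) atTop (𝓝 1) := by
      have := (tend_err (C := C) he).const_sub 1
      rwa [sub_zero] at this
    exact tendsto_of_tendsto_of_tendsto_of_le_of_le h4 tendsto_const_nhds
      (fun n => near hTP n) (fun n => h1 n)
  · intro rho hrho
    have hev : ∀ᶠ n : ℕ in atTop, q ≤ rho n ∧ rho n / q ≤ 1 + 2 * (C / (1 + eta) ^ n) := by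
      have h5 : ∀ᶠ n : ℕ in atTop, 2 * C < (1 + eta) ^ n :=
        (tendsto_pow_atTop_atTop_of_one_lt (show (1 : ℝ) < 1 + eta by linarith)).eventually_gt_atTop _
      filter_upwards [h5, hrho] with n h6 h7
      exact weight hTP h6 h7.1 h7.2
    have hpw : Tendsto (fun n : ℕ => (rho n / q) ^ n) atTop (𝓝 1) := by
      have h5 : Tendsto (fun n : ℕ => Real.exp ((n : ℝ) * (2 * (C / (1 + eta) ^ n)))) atTop
          (𝓝 1) := by
        have := (Real.continuous_exp.tendsto 0).comp (tend_err_n (C := C) he)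
        rwa [Real.exp_zero] at this
      refine tendsto_of_tendsto_of_tendsto_of_le_of_le' tendsto_const_nhds h5 ?_ ?_
      · filter_upwards [hev] with n h6
        exact one_le_pow₀ ((one_le_div hq).2 h6.1)
      · filter_upwards [hev] with n h6
        have h7 : 0 ≤ rho n / q := div_nonneg (hq.le.trans h6.1) hq.le
        calc (rho n / q) ^ n ≤ (Real.exp (2 * (C / (1 + eta) ^ n))) ^ n :=
              pow_le_pow_left₀ h7 (h6.2.trans
                (by linarith [Real.add_one_le_exp (2 * (C / (1 + eta) ^ n))])) n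
          _ = Real.exp ((n : ℝ) * (2 * (C / (1 + eta) ^ n))) := by rw [← Real.exp_nat_mul]
    refine ⟨hev.mono fun n h => h.1, hpw, ?_⟩
    intro f c hf0 hf
    obtain ⟨B, hB⟩ := bdd hTP f c hf
    have hmono : Monotone fun n : ℕ => ∑ p ∈ Pc k n, f p * q ^ hl p := by
      intro n m hnm
      exact sum_le_sum_of_subset_of_nonneg (RHO.Pc_mono hnm)
        fun p _ _ => mul_nonneg (hf0 p) (by positivity)
    have hbd : BddAbove (Set.range fun n : ℕ => ∑ p ∈ Pc k n, f p * q ^ hl p) :=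
      ⟨B, by rintro _ ⟨n, rfl⟩; exact hB n⟩
    have hlim := tendsto_atTop_ciSup hmono hbd
    refine ⟨⨆ n : ℕ, ∑ p ∈ Pc k n, f p * q ^ hl p, ?_⟩
    have hup : Tendsto (fun n : ℕ => (rho n / q) ^ n * ∑ p ∈ Pc k n, f p * q ^ hl p) atTop
        (𝓝 (⨆ n : ℕ, ∑ p ∈ Pc k n, f p * q ^ hl p)) := by
      have := hpw.mul hlim
      rwa [one_mul] at this
    refine tendsto_of_tendsto_of_tendsto_of_le_of_le' hlim hup ?_ ?_
    · filter_upwards [hev] with n h6
      refine sum_le_sum fun p _ => ?_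
      exact mul_le_mul_of_nonneg_left (pow_le_pow_left₀ hq.le h6.1 _) (hf0 p)
    · filter_upwards [hev] with n h6
      rw [mul_sum]
      refine sum_le_sum fun p hp => ?_
      have h7 : rho n ^ hl p = (rho n / q) ^ hl p * q ^ hl p := by
        rw [← mul_pow, div_mul_cancel₀ _ hq.ne']
      have h8 : (rho n / q) ^ hl p ≤ (rho n / q) ^ n :=
        pow_le_pow_right₀ ((one_le_div hq).2 h6.1) (hl_le hp)
      calc f p * rho n ^ hl p = (rho n / q) ^ hl p * (f p * q ^ hl p) := by rw [h7]; ring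
        _ ≤ (rho n / q) ^ n * (f p * q ^ hl p) :=
            mul_le_mul_of_nonneg_right h8 (mul_nonneg (hf0 p) (by positivity))

end Pool.Agent.KCC
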