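import Pool.Agent.KCS.GWK
import Pool.Agent.KCS.GMP
import Pool.Agent.KCS.GMC
import Pool.Agent.KCS.GEX
import Pool.Agent.KCS.GLTX
import Pool.Agent.KCS.DTX
import Pool.Agent.KCS.PSM
import Pool.Agent.KCS.KEC
import Pool.Agent.KCS.OMX
import Pool.Agent.KCS.CNX
import Pool.Agent.KCS.NED
import Pool.Agent.KCS.OMB
import Pool.Agent.KCS.CMO
import Pool.Agent.KCS.FN3
import Pool.Agent.KCS.ACV
import Pool.Agent.KCS.MAR
import Pool.Agent.KCS.AMG
import Pool.Agent.KCS.AMO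
import Pool.Agent.KCS.FEQ
import Pool.Agent.KCS.CV1
import Pool.Agent.KCS.CV2
import Pool.Agent.KCS.CBA
import Pool.Agent.KCS.CRA
import Pool.Agent.KCS.IDN
import Pool.Agent.KCS.GMK
import Pool.Agent.KCS.MRC
import Pool.Agent.KCS.MCC
import Pool.Agent.KCC.Main

/-!
# Project KCS (MP_f6626d_co): the area law for column-convex polygons with all moments and sharp
asymptotics, final theorem
-/

set_option autoImplicit false

namespace Pool.Agent.KCC

/-- the general moment theorem (module AMG) -/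
theorem amg_stmt : KCS.AMG_Stmt := by
  intro ν hν W hW T hT hpos hconv r C hC
  exact KCS.AMG.amg ν W T (Filter.Eventually.of_forall hT) hpos
    (fun x hx => by convert hconv x hx) r C hC

/-- the area law, all moments, number of polygons and mean area with constants -/
theorem main3 : FINAL3_Stmt := by
  have hK2 : K2_Stmt := k2_thm pla_thm
  have hAR : AR_Stmt := ar_thm hK2
  have hTAIL : TAIL_Stmt := tal_thm xbr_thm XM.bey_main
  have hKW : KW_Stmt := kw_thm hK2 k5s_thm k5f_thm k5r_thm k5b_thm k5c_thm hAR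
  have hK1 : K1_Stmt := k1_thm rot_thm (glub_thm pos_thm) pos_thm
  have hTR : TR_Stmt := tr_thm hK1 vcr_thm
  have hDAT : DAT_Stmt := dat_thm hTAIL hKW k5s_thm k5b_thm k5c_thm
  have hNEAR : NEAR_Stmt := near_thm hK2 k4_thm k5s_thm k5c_thm hAR pos_thm
  have hCDF : CDF_Stmt := cdf_thm hTR pos_thm
  have hSEQ : SEQ_Stmt := seq_thm hNEAR k5c_thm
  have hC2 : KCG.GC2_Stmt := KCG.gc2
  have hC : KCG.GC_Stmt := KCG.GC.gc hC2
  have hRE : KCG.GRE_Stmt := KCG.gre hC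
  have hSUP : KCG.GSUP_Stmt := KCG.gsup hC hRE
  have hW : KCG.GW_Stmt := KCG.gw hC hSUP
  have hM2 : KCG.GM2_Stmt := KCG.gm2 hC2 hRE hSUP hW
  have hJ2 : KCG.GJ2_Stmt := KCG.GJ2.gj2 hC2 hC hRE hSUP hW
  have hV : KCG.GV_Stmt := KCG.gv hRE hSUP
  obtain ⟨oLT, oLT1, oM2, oBAL, oST, oSUP, oW⟩ := KCG.old_gap
  have hGLTX : KCG.GLTX_Stmt :=
    KCG.gltx (KCG.gex hRE hSUP hW hV KCG.gvl oST KCG.geb oSUP oW) hJ2
  have hDTX : DTX_Stmt := dtx hK2 k5s_thm k5f_thm k5r_thm k5b_thm k5c_thm hAR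
  have hKEC : KEC_Stmt := kec psm k5s_thm k5c_thm
  have hOMX : OMX_Stmt := omx hDTX psm hKEC hGLTX (KCG.acv hC) KCG.glt_main hM2 oLT1 oM2 oBAL
  have hCNX : CNX_Stmt := cnx hOMX hDTX psm hNEAR hTR vcr_thm pos_thm
  have hNED : NED_Stmt := ned hK2 k4_thm k5s_thm k5c_thm hAR pos_thm
  have hOMB : OMB_Stmt := omb hK2 k5s_thm k5c_thm hAR
  have hBND : BND_Stmt := bnd_thm KCG.glt_main hM2 oLT1 oM2 oBAL
  have hCNT : CNT_Stmt := cnt_thm hBND (sq2_thm hNEAR) rho_thm hDAT hNEAR hTR vcr_thm pos_thm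
  have hGRO : GRO_Stmt := gro_thm (blo_thm pla_thm)
  have hGMK : KCG.GMK_Stmt := KCG.gmk KCG.gmp KCG.gmc (KCG.gwk hC hSUP hW)
  have hMAR : MAR_Stmt := mar hDTX hOMX hGMK psm
  have hMCC : MCC_Stmt := mcc hMAR hNED hOMB hOMX hDTX psm hTR vcr_thm
  have hCRA : KCS.CRA_Stmt := KCS.t_CRA KCS.mrc KCS.cv1 KCS.cv2 KCS.cba
  have hIDN : KCS.IDN_Stmt := KCS.idn KCS.feq hCRA amg_stmt
  exact fn3_thm KCG.gfine_main (conv_thm hDAT hCDF hSEQ) stc_thm hGRO hTAIL hCNX mum_thm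
    (lmq_thm hCNT hGRO mum_thm) (cmo hCNX hMCC amo hTAIL) hIDN

end Pool.Agent.KCC
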