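import Pool.Agent.KCS.StA
import Pool.Agent.KCS.FinalDefs
import Pool.Agent.KCC.Stmts3
import Pool.Agent.KCC.Kw
import Pool.Agent.KCC.Seq

/-!
# Project KCS (MP_f6626d_co): sharp constants and all moments for column-convex polygons

Statements of the combinatorial part (over `Pool/Agent/KCC`). Every doc string contains the complete
proof. `TP k q eta C` (in `KCC/Stmts3.lean`) are the tail bounds for one `k`; `TAIL_Stmt` gives them.
-/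

set_option autoImplicit false

namespace Pool.Agent.KCC

open Finset Filter Topology MeasureTheory Pool.Agent.Lib27 Pool.Agent.AreaLaw
open Pool.Agent.SapR (rot2 wordsUpTo)
open Pool.Agent.Gap (IsCap closeP AreaModel)

/-! ### A. Kernels -/

/-- the data `D` have the explicit kernel (`KW.kern`): pieces of half length `i.1`, width `i.2` -/
def ExD {C θ : ℝ} {k n : ℕ} (D : Dat C θ k n) : Prop :=
  D.G.S = KW.SS n ∧ D.G.R = n ∧
    (∀ i g g', D.G.K i g g' = ((KW.alT k n i g g').card : ℝ)) ∧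
    (∀ i d, D.G.T i d = ((KW.PcT k n i d).card : ℝ))

/-- DTX (module KCS_DTX): `DAT_Stmt` with the explicit kernel and the given `q`.
PROOF: copy `dat_thm` (`KCC/Dat.lean`) with `KW.kern` and the facts of `kw_thm` (`KCC/Kw.lean`: `kern_loc`,
`kern_crit`, `kern_level`, ..., `count`) instead of the existential `KW_Stmt`; the four clauses of `ExD`
hold by `rfl`. -/
def DTX_Stmt : Prop := ∀ (k : ℕ) (q eta C0 : ℝ), 1 ≤ k → TP k q eta C0 → ∃ C θ : ℝ, 0 < C ∧ 0 < θ ∧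
  θ < 1 ∧ ∃ N0 : ℕ, 2 ≤ N0 ∧ ∀ n : ℕ, N0 ≤ n → ∃ D : Dat C θ k n, ExD D

/-- PSM (module KCS_PSM): convergence of sums over the pieces. PROOF (lemmas in `KCC/Rho.lean`).
(1) `E n := 1 - ∑_{Pc k n} q ^ hl ≥ 0` is at most `C (1 + eta) ^ (-n)`: `RHO.near_one`, `RHO.tail_le`
(as `hS` in `rho_thm`). (2) `rho_thm`: `q ≤ rho n` for large `n`, and its proof gives
`rho / q ≤ 1 + 2 C / (1 + eta) ^ n`, so `1 ≤ (rho n / q) ^ n ≤ exp (2 n C / (1 + eta) ^ n) → 1`.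
(3) `∑_{Pc k n} f q ^ hl` is increasing in `n` and bounded, because
`f p q ^ hl ≤ c hl ^ 2 (1 + eta) ^ (-hl) ((1 + eta) q) ^ hl ≤ c' ((1 + eta) q) ^ hl`; it converges.
(4) `0 ≤ ∑_{Pc k n} f (rho n ^ hl - q ^ hl) ≤ ((rho n / q) ^ n - 1) ∑_{Pc k n} f q ^ hl → 0`, because
`hl p ≤ n` on `Pc k n` (length `≤ 2 n`). -/
def PSM_Stmt : Prop := ∀ (k : ℕ) (q eta C : ℝ), 1 ≤ k → TP k q eta C →
  Tendsto (fun n : ℕ => ∑ p ∈ Pc k n, q ^ hl p) atTop (𝓝 1) ∧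
  ∀ rho : ℕ → ℝ, (∀ᶠ n : ℕ in atTop, 0 < rho n ∧ ∑ p ∈ Pc k n, rho n ^ hl p = 1) →
    (∀ᶠ n : ℕ in atTop, q ≤ rho n) ∧ Tendsto (fun n : ℕ => (rho n / q) ^ n) atTop (𝓝 1) ∧
    ∀ (f : Wd × Wd → ℝ) (c : ℝ), (∀ p, 0 ≤ f p) →
      (∀ (n : ℕ) (p : Wd × Wd), p ∈ Pc k n → f p ≤ c * (hl p : ℝ) ^ 2) →
      ∃ l : ℝ, Tendsto (fun n : ℕ => ∑ p ∈ Pc k n, f p * rho n ^ hl p) atTop (𝓝 l)

/-- KEC (module KCS_KEC): the critical kernels and sources are Cauchy, the three parameters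
converge. PROOF. For `n ≥ N0` write `rho n = (D n).G.rho`; `mx N0 n = max n N0`.
`Kc_n g g' = ∑_{p ∈ allowed k n g, g + jump p = g'} rho n ^ hl p` (grouping as in `KW.group`). For
`n ≤ m` a piece of `Pc k m` of half length `≤ n` is in `Pc k n` (`RHO.mem_of_hl`), and the same for
`allowed`, so, as `(0 ≤) q ≤ rho n, rho m`, with `E n = 1 - ∑_{Pc k n} q ^ hl`:
`∑_{g'} |Kc_n - Kc_m| g g' ≤ ∑_{Pc k n} |rho n ^ hl - rho m ^ hl| + ∑_{Pc k m \ Pc k n} rho m ^ hl`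
`≤ E n + E m + E n`: the first sum is at most `∑_{Pc k n} (rho n ^ hl - q ^ hl) + ∑_{Pc k m} (rho m ^ hl - q ^ hl)`,
which is `E n + E m` by criticality, the second is `1 - ∑_{Pc k n} rho m ^ hl ≤ E n`. By PSM `E n → 0`.
Sources: with `a_j g = #CapSet k g (2 j)` (resp. `#CapSet k g (2 j + 2)`), `csrc = ∑_{j ≤ n} rho n ^ j a_j g`;
`∑_{j ≤ n} q ^ j a_j g` increases with `n` and the increments are at most
`∑_{j > n} q ^ j a_j g ≤ C' (1 + eta) ^ (-n)` uniformly in `g ≥ 1` (by TP: single `g`, and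
`#CapSet k g (2 j) = 0` for `j < g + 1`), and `∑_{j ≤ n} (rho n ^ j - q ^ j) a_j g ≤
((rho n / q) ^ n - 1) C'`. Parameters: `mbar = ∑_{Pc k n} hl rho ^ hl`, `hbar = ∑ htn rho ^ hl`,
`sig2 = ∑ jump ^ 2 rho ^ hl` (group by `(hl, htn)` and `jump`), PSM with `f = hl, htn, jump ^ 2` (sizes:
`K5S_Stmt`: `htn ≤ hl`, `|jump| + 1 ≤ hl`; outside of `Pc` put `f p = 0`). -/
def KEC_Stmt : Prop := ∀ (k : ℕ) (q eta C0 C θ : ℝ) (N0 : ℕ), 1 ≤ k → TP k q eta C0 → 2 ≤ N0 →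
  ∀ D : ∀ n, Dat C θ k (SEQ.mx N0 n), (∀ n, ExD (D n)) →
    KCG.KCau (fun n => (D n).G)
      (fun n => KCG.csrc (D n).G.rho (SEQ.mx N0 n) (capS k (SEQ.mx N0 n))) ∧
    KCG.KCau (fun n => (D n).G)
      (fun n => KCG.csrc (D n).G.rho (SEQ.mx N0 n) (capT k (SEQ.mx N0 n))) ∧
    ∃ mb hb sg : ℝ, KCG.KSeq C θ (fun n => (D n).G) mb hb sg

/-! ### B. Sharp constants -/

/-- OMX (module KCS_OMX): number of canonical words and sum of their integer areas, with constants.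
PROOF. `DTX` gives `D n` for `n ≥ N0`; put `D' n = D (mx N0 n)`, `G n = (D' n).G`, `C0 n = mx N0 n`,
`s n = capS k (mx N0 n)`, `t n = capT k (mx N0 n)`, `B n = (D' n).B` (as in `SEQ.seqM`). `KEC`: `KSeq` with
limits `mb, hb, sg` (all positive: `KCG.GFIN.par_mem` and `ge_of_tendsto`). `GLTX` gives `As, At` with
`CritLim`; by `ACV` (with the critical solutions of `CritLim`, `KEC`) `As → as`, `At → at`, both `≥ C1⁻¹ > 0`.
`KCG.GFIN.stair_side` (from the old `LT1`, `M2`, `BAL`) gives `L, m0`, `L 0 > 0` with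
`n√n 4^(-n) closeP_stair n → L 0`; use `lam = 0` and `n0 n = ⌊(2 sg / mb) n⌋` in `GLTX`:
`n√n rho_n ^ n (closeP ... n).eval 1 → √(2 sg/mb) mb as at L 0 > 0`. For `n ≥ N0` the value `eval 1` is
`card (Om k n)` (`Dat.count`, see `sq2_thm`), and `(rho n / q) ^ n → 1` by `PSM` (`Dat.crit`). Mean:
`KCG.GFIN.seq_side` for the same sequence: `mn P n = P'(1) / (n√n P(1)) → b > 0`, and
`P'(1) = ∑_{Om} Ar` (`sq2_thm`). -/
def OMX_Stmt : Prop := ∀ (k : ℕ) (q eta C0 : ℝ), 1 ≤ k → TP k q eta C0 → ∃ a b : ℝ, 0 < a ∧ 0 < b ∧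
  Tendsto (fun n : ℕ => ((Om k n).card : ℝ) * ((n : ℝ) * Real.sqrt n) * q ^ n) atTop (𝓝 a) ∧
  Tendsto (fun n : ℕ => (∑ x ∈ Om k n, (Ar k n x.2.2.2 : ℝ)) /
    (((Om k n).card : ℝ) * ((n : ℝ) * Real.sqrt n))) atTop (𝓝 b)

/-- CNX (module KCS_CNX): number of polygons and mean area with constants. PROOF (as `CNT`,
`KCC/Cnt.lean`): `card ColConvex = 4 n card Om + card NoCut` (`TR` with `F = 1`, `VCR` for the
left side), `card NoCut * ((1 + eta) q) ^ n ≤ C n` (TP), so the first limit is `4 a`. For the mean: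
`∑ area = 4 n ∑_{Om} |dq| / 2 + ∑_{NoCut} |dbl| / 2` (`TR` with `F x = x / 2`; `area n s = |dbl 0 (ofFn s)| / 2`,
see `Cnt.lean`), `NEAR` (with the `Tails` of `DAT`, `rho n ≥ q` and `(rho n / q) ^ n → 1`) bounds
`∑_{Om} ||dq| / 2 - Ar|` by `C1 n log n card Om + C1 / (n ^ 5 rho ^ n) = o(n√n card Om)`, and
`|dbl| ≤ 4 n ^ 2` on `NoCut` (exponentially few). -/
def CNX_Stmt : Prop := ∀ (k : ℕ) (q eta C0 : ℝ), 1 ≤ k → TP k q eta C0 → ∃ a b : ℝ, 0 < a ∧ 0 < b ∧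
  Tendsto (fun n : ℕ => ((ColConvex k n).card : ℝ) * Real.sqrt n * q ^ n) atTop (𝓝 a) ∧
  Tendsto (fun n : ℕ => ((∑ s ∈ ColConvex k n, area n s) / ((ColConvex k n).card : ℝ)) /
    ((n : ℝ) * Real.sqrt n)) atTop (𝓝 b)

/-! ### C. Moments -/

/-- NED (module KCS_NED): `NEAR_Stmt` with an arbitrary power and only the excess over
`C1 n log n`. PROOF: copy `NEAR.near` (`KCC/Near.lean`) with `K := (D + 1) / (-log q)` instead of
`6 / (-log q)`; in `NEAR.inner` the pointwise bound `hpt` is `| | ≤ 16 L n + (fE + 4 vv L m)`, so the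
excess over `16 L n` is at most `fE + 4 vv L m`, and the first term of the final estimate
disappears; `q ^ L ≤ n ^ (-(D+1))`; `16 L ≤ 16 (K + 2) log n`. -/
def NED_Stmt : Prop := ∀ (D : ℕ) (C θ : ℝ), 0 < C → 0 < θ → θ < 1 → ∃ C1 : ℝ, 0 < C1 ∧
  ∀ (k n : ℕ) (rho : ℝ), 1 ≤ k → 2 ≤ n → 0 < rho → rho ≤ 1 →
    ∑ p ∈ Pc k n, rho ^ hl p = 1 → Tails C θ k n rho →
    ∑ x ∈ Om k n, max 0 (|((|dq x| : ℤ) : ℝ) / 2 - (Ar k n x.2.2.2 : ℝ)| -
      C1 * ((n : ℝ) * Real.log n)) ≤ C1 / ((n : ℝ) ^ D * rho ^ n)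

/-- OMB (module KCS_OMB): trivial bounds. PROOF. `glue w T` has `2 n` steps, so
`|dq| ≤ (2 n) ^ 2` (`SapR.H66.abs_dbl_le`). `Ar k n w ≤ 2 N ^ 2` for `w ∈ ArchSet k g (2 N)`, `N ≤ n + 1`,
`g ≥ 1`, by induction on `N` with `K2_Stmt` (every arch is a cap or `p.1 ++ v ++ p.2`; apply K2 with a
function `F` which is the indicator of the word, or use `Ar.lean`) and `AR_Stmt`: caps have `Ar = 0`,
and `2 (N - h) ^ 2 + ht (2 g + jump) ≤ 2 N ^ 2` with `h = hl p`, `ht ≤ h`, `2 g + jump ≤ 2 N` (as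
`2 g + 2 ≤ 2 N`, `2 (g + jump) + 2 ≤ 2 (N - h)` by `K5C_Stmt`) and `h ≤ N`. -/
def OMB_Stmt : Prop := ∀ (k n : ℕ) (x : (_ : ℤ) × (_ : ℕ) × (Wd × Wd)), 1 ≤ k → 2 ≤ n → x ∈ Om k n →
  ((|dq x| : ℤ) : ℝ) ≤ 4 * (n : ℝ) ^ 2 ∧ (Ar k n x.2.2.2 : ℝ) ≤ 4 * (n : ℝ) ^ 2

/-- MAR (module KCS_MAR): moments of the integer area of the canonical words. PROOF. `DTX` (or
`DAT_Stmt`) gives for `n ≥ N0` a kernel of the class with
`∑_{Om} X ^ Ar = closeP n (capT k n) B n`, so `∑_{Om} Ar ^ (2 r) = mr (2 r) (closeP ...)` and `GMK` gives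
`rho ^ n ∑_{Om} Ar ^ (2 r) n√n ≤ C1 n ^ (3 r)`. Lower bound of `card Om`: `OMX` (`card Om n√n q ^ n → a > 0`)
and `q ≤ rho n` (as in `PSM`; `∑_{Pc k n} q ^ hl ≤ 1 = ∑_{Pc k n} rho ^ hl`). -/
def MAR_Stmt : Prop := ∀ (k r : ℕ) (q eta C0 : ℝ), 1 ≤ k → 1 ≤ r → TP k q eta C0 → ∃ C1 : ℝ,
  ∀ᶠ n : ℕ in atTop, ∑ x ∈ Om k n, (Ar k n x.2.2.2 : ℝ) ^ (2 * r) ≤
    C1 * (n : ℝ) ^ (3 * r) * ((Om k n).card : ℝ)

/-- MCC (module KCS_MCC): moments of the area of column-convex polygons. PROOF. `TR_Stmt` with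
`F x = (x / 2) ^ (2 r)` and `F = 1`: `∑ area ^ (2 r) = 4 n ∑_{Om} (|dq| / 2) ^ (2 r) + ∑_{NoCut} (|dbl| / 2) ^ (2 r)`.
NoCut: `|dbl| ≤ 4 n ^ 2`, `card NoCut ≤ C n ((1 + eta) q) ^ (-n)`, exponentially smaller than
`card Om ≥ c q ^ (-n) n ^ (-3/2)` (OMX). Om: with `E = ||dq| / 2 - Ar|`, `X = max 0 (E - C1 n log n)`
(`NED` with `D = 4 r + 2`): `(|dq| / 2) ^ (2 r) ≤ 3 ^ (2 r) (Ar ^ (2 r) + (C1 n log n) ^ (2 r) + X ^ (2 r))`,
`X ≤ 4 n ^ 2` by `OMB`, so `∑ X ^ (2 r) ≤ (4 n ^ 2) ^ (2 r - 1) ∑ X ≤ (4 n ^ 2) ^ (2 r - 1) C1 / (n ^ (4 r + 2) rho ^ n)`,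
`rho ≥ q`; and `(n log n) ^ (2 r) ≤ C n ^ (3 r)`. Use MAR for the first term. -/
def MCC_Stmt : Prop := ∀ (k r : ℕ) (q eta C0 : ℝ), 1 ≤ k → 1 ≤ r → TP k q eta C0 → ∃ C1 : ℝ,
  ∀ᶠ n : ℕ in atTop, ∑ s ∈ ColConvex k n, area n s ^ (2 * r) ≤
    C1 * (n : ℝ) ^ (3 * r) * ((ColConvex k n).card : ℝ)

/-- AMO (module KCS_AMO): convergence in law and a bound of the moment of order `r + 1` give the
convergence of the moment of order `r`. PROOF. Let `X_n ≥ 0` be `area / mean` on `F n` with the uniform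
law, `G_n x = 1 - areaCdf n (F n) x = P(X_n > x)` for `x ≥ 0` (large `n`), `G x = ν (Ioi x)`.
`r = 0` is trivial. For `r ≥ 1`: `E X_n ^ r = ∫_0^∞ r x ^ (r-1) G_n x dx` (finite sum of
`∫_0^{X} r x ^ (r-1) dx`), `G_n x → G x` for all `x` except the countably many atoms of `ν`
(`Measure.countable_meas_pos_of_disjoint...`, or the atoms via `MeasureTheory.countable_meas_singleton_pos`-type lemmas), and
`G_n x ≤ min 1 (C x ^ (-(r+1)))` (Markov), so by dominated convergence (dominating function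
`r x ^ (r-1)` on `(0,1]`, `C r x ^ (-2)` on `(1,∞)`) `E X_n ^ r → ∫_0^∞ r x ^ (r-1) ν (Ioi x) dx`. The limit is
`∫ x ^ r dν`: `ν (Iio 0) = 0` because `areaCdf n (F n) x = 0` for `x < 0` (the area of every word of `F n`
times the positive cardinality is nonnegative and the right side is negative), and the layer cake
formula (`MeasureTheory.lintegral_rpow_eq_lintegral_meas_lt_mul` or `integral_rpow...`), which also gives the
integrability. -/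
def AMO_Stmt : Prop := ∀ ν : Measure ℝ, IsProbabilityMeasure ν →
  ∀ F : ∀ n : ℕ, Finset (Fin (2 * n) → Fin 4), (∀ᶠ n : ℕ in atTop, 0 < ∑ s ∈ F n, area n s) →
    (∀ x : ℝ, ν {x} = 0 →
      Tendsto (fun n : ℕ => areaCdf n (F n) x) atTop (𝓝 (ν (Set.Iic x)).toReal)) →
    ∀ (r : ℕ) (C : ℝ), (∀ᶠ n : ℕ in atTop, areaMoment n (F n) (r + 1) ≤ C) →
      Integrable (fun x : ℝ => x ^ r) ν ∧
        Tendsto (fun n : ℕ => areaMoment n (F n) r) atTop (𝓝 (∫ x, x ^ r ∂ν))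

/-- CMO (module KCS_CMO): for fixed `k` all moments converge. PROOF. `AMO` for `F n = ColConvex k n`; by
`CNX` the mean is `~ b n√n`, `b > 0` (so the sum of the areas is positive for large `n`), the bound of
`areaMoment n (ColConvex k n) (r + 1)`: by `MCC` with `2 r' ≥ r + 1` and the power mean inequality
(`E A ^ (r+1) ≤ 1 + E A ^ (2 r')` for `A / n√n` in place of `A`). -/
def CMO_Stmt : Prop := ∀ ν : Measure ℝ, IsProbabilityMeasure ν → ∀ k : ℕ, 1 ≤ k →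
  (∀ x : ℝ, ν {x} = 0 →
    Tendsto (fun n : ℕ => areaCdf n (ColConvex k n) x) atTop (𝓝 (ν (Set.Iic x)).toReal)) →
  ∀ r : ℕ, Integrable (fun x : ℝ => x ^ r) ν ∧
    Tendsto (fun n : ℕ => areaMoment n (ColConvex k n) r) atTop (𝓝 (∫ x, x ^ r ∂ν))

end Pool.Agent.KCC
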