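import Pool.Agent.KCS.StC
import Pool.Agent.KCS.AMG

/-!
# Project KCS, module AMO: convergence of the area moments (helper22)
-/

set_option autoImplicit false

namespace Pool.Agent.KCC

open Finset Filter Topology MeasureTheory Pool.Agent.Lib27 Pool.Agent.AreaLaw

namespace AMOx

lemma area_nonneg (n : ℕ) (s : Fin (2 * n) → Fin 4) : 0 ≤ area n s := by
  unfold area
  positivity

open Classical in
lemma card_sub {α : Type} (F : Finset α) (p : α → Prop) :
    (univ.filter fun y : {s // s ∈ F} => p y).card = (F.filter p).card := by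
  have h1 := Finset.sum_coe_sort F (fun s => if p s then 1 else 0)
  rw [Finset.card_filter, Finset.card_filter]
  exact h1

end AMOx

open Classical in
theorem amo : AMO_Stmt := by
  intro ν hν F hpos hconv r C hC
  have e1 : ∀ n : ℕ, ∑ y : {s // s ∈ F n}, area n y = ∑ s ∈ F n, area n s := fun n =>
    Finset.sum_coe_sort (F n) (fun s => area n s)
  have e2 : ∀ (n k : ℕ), ∑ y : {s // s ∈ F n}, area n y ^ k = ∑ s ∈ F n, area n s ^ k :=
    fun n k => Finset.sum_coe_sort (F n) (fun s => area n s ^ k)
  have h := Pool.Agent.KCS.AMG.amg ν (fun n => {s // s ∈ F n}) (fun n y => area n y)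
    (Eventually.of_forall fun n y => AMOx.area_nonneg n _) (by simpa only [e1] using hpos)
    (by
      intro x hx
      refine (hconv x hx).congr fun n => ?_
      unfold areaCdf
      rw [Fintype.card_coe, e1, AMOx.card_sub (F n)
        (fun s => area n s * ((F n).card : ℝ) ≤ x * ∑ s ∈ F n, area n s)])
    r C (by
      filter_upwards [hC] with n hn
      rw [Fintype.card_coe, e1, e2]
      exact hn)
  refine ⟨h.1, h.2.congr fun n => ?_⟩
  rw [Fintype.card_coe, e1, e2]
  rfl

end Pool.Agent.KCC
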