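import Pool.Agent.KCS.StA
import Pool.Agent.KCG.GW

/-! Module KCS_GWK: weighted bounds for all powers of the gap. -/

set_option autoImplicit false

open Finset Filter Topology

namespace Pool.Agent.KCG

open Pool.Agent.Gap Pool.Agent.KCG.H22

namespace GWKm

/-- the moment constant of the class, general exponent -/
noncomputable def MomP (p : ℕ) (C θ : ℝ) : ℝ := ∑' m : ℕ, (2 * (m : ℝ) + 2) ^ p * (C * θ ^ m)

lemma mom_summable (p : ℕ) {C θ : ℝ} (hθ : 0 < θ) (hθ1 : θ < 1) :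
    Summable (fun m : ℕ => (2 * (m : ℝ) + 2) ^ p * (C * θ ^ m)) := by
  have h : Summable (fun m : ℕ => (m : ℝ) ^ p * θ ^ m) :=
    summable_pow_mul_geometric_of_norm_lt_one p (by rw [Real.norm_eq_abs, abs_of_pos hθ]; exact hθ1)
  have h1 : Summable (fun m : ℕ => ((m + 1 : ℕ) : ℝ) ^ p * θ ^ (m + 1)) :=
    (summable_nat_add_iff 1).mpr h
  refine (h1.mul_left (2 ^ p * C / θ)).congr fun m => ?_
  push_cast
  have h2 : (2 * (m : ℝ) + 2) ^ p = 2 ^ p * ((m : ℝ) + 1) ^ p := by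
    rw [← mul_pow]
    ring
  rw [h2, pow_succ]
  field_simp

lemma mom_nonneg (p : ℕ) {C θ : ℝ} (hC : 0 < C) (hθ : 0 < θ) : 0 ≤ MomP p C θ :=
  tsum_nonneg fun m => by positivity

lemma mom_le (p : ℕ) {C θ : ℝ} (hC : 0 < C) (hθ : 0 < θ) (hθ1 : θ < 1) {G : GapKernel}
    (hG : Cls C θ G) (s : Finset ℤ) :
    ∑ d ∈ s, G.kk d * (|(d : ℝ)| + 2) ^ p ≤ MomP p C θ := by
  classical
  have h1 : ∑ d ∈ s, G.kk d * (|(d : ℝ)| + 2) ^ p =
      ∑ i ∈ G.S, G.rho ^ i.1 * ∑ d ∈ s, G.T i d * (|(d : ℝ)| + 2) ^ p := by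
    unfold GapKernel.kk
    simp_rw [Finset.sum_mul, Finset.mul_sum]
    rw [Finset.sum_comm]
    exact Finset.sum_congr rfl fun i _ => Finset.sum_congr rfl fun d _ => by ring
  rw [h1]
  have h2 : ∀ i ∈ G.S, G.rho ^ i.1 * ∑ d ∈ s, G.T i d * (|(d : ℝ)| + 2) ^ p ≤
      (2 * (i.1 : ℝ) + 2) ^ p * (G.rho ^ i.1 * G.tot i) := by
    intro i _
    have h3 : ∑ d ∈ s, G.T i d * (|(d : ℝ)| + 2) ^ p ≤
        ∑ d ∈ s, G.T i d * (2 * (i.1 : ℝ) + 2) ^ p := by
      refine Finset.sum_le_sum fun d _ => ?_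
      rcases le_or_gt (|d|) (2 * (i.1 : ℤ)) with h | h
      · refine mul_le_mul_of_nonneg_left ?_ (G.T_nonneg i d)
        have h' : |(d : ℝ)| ≤ 2 * (i.1 : ℝ) := by exact_mod_cast h
        exact pow_le_pow_left₀ (by positivity) (by linarith) p
      · rw [hG.loc.T_loc i d h]
        simp
    have h4 : ∑ d ∈ s, G.T i d ≤ G.tot i := by
      have := G.sum_T_shift i 0 s
      simpa using this
    rw [← Finset.sum_mul] at h3
    calc G.rho ^ i.1 * ∑ d ∈ s, G.T i d * (|(d : ℝ)| + 2) ^ p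
        ≤ G.rho ^ i.1 * ((∑ d ∈ s, G.T i d) * (2 * (i.1 : ℝ) + 2) ^ p) :=
          mul_le_mul_of_nonneg_left h3 (pow_nonneg G.rho_pos.le _)
      _ ≤ G.rho ^ i.1 * (G.tot i * (2 * (i.1 : ℝ) + 2) ^ p) :=
          mul_le_mul_of_nonneg_left (mul_le_mul_of_nonneg_right h4 (by positivity))
            (pow_nonneg G.rho_pos.le _)
      _ = _ := by ring
  refine (Finset.sum_le_sum h2).trans ?_
  rw [← Finset.sum_fiberwise_of_maps_to (g := Prod.fst) (t := G.S.image Prod.fst)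
    (fun i hi => Finset.mem_image_of_mem _ hi)]
  have h5 : ∀ m ∈ G.S.image Prod.fst, ∑ i ∈ G.S.filter (fun i => i.1 = m),
      (2 * (i.1 : ℝ) + 2) ^ p * (G.rho ^ i.1 * G.tot i) ≤
        (2 * (m : ℝ) + 2) ^ p * (C * θ ^ m) := by
    intro m _
    have h6 : ∑ i ∈ G.S.filter (fun i => i.1 = m),
        (2 * (i.1 : ℝ) + 2) ^ p * (G.rho ^ i.1 * G.tot i) =
        (2 * (m : ℝ) + 2) ^ p * ∑ i ∈ G.S.filter (fun i => i.1 = m), G.rho ^ m * G.tot i := by
      rw [Finset.mul_sum]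
      refine Finset.sum_congr rfl fun i hi => ?_
      rw [(Finset.mem_filter.mp hi).2]
    rw [h6]
    exact mul_le_mul_of_nonneg_left (hG.dec m) (by positivity)
  refine (Finset.sum_le_sum h5).trans ?_
  exact (mom_summable p hθ hθ1).sum_le_tsum _ (fun m _ => by positivity)

lemma mom_shift (p : ℕ) {C θ : ℝ} (hC : 0 < C) (hθ : 0 < θ) (hθ1 : θ < 1) {G : GapKernel}
    (hG : Cls C θ G) (s : Finset ℤ) (g' : ℤ) :
    ∑ g ∈ s, G.kk (g' - g) * (|((g' - g : ℤ) : ℝ)| + 2) ^ p ≤ MomP p C θ := by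
  have h := mom_le p hC hθ hθ1 hG (s.image (fun g => g' - g))
  rwa [Finset.sum_image (by intro a _ b _ h; simpa using h)] at h

/-- polynomial weights in the jump are controlled by the moment constant -/
lemma sum_w_le (p : ℕ) {C θ : ℝ} (hC : 0 < C) (hθ : 0 < θ) (hθ1 : θ < 1) {G : GapKernel}
    (hG : Cls C θ G) (N : ℕ) (w : ℤ → ℝ) (hw : ∀ d : ℤ, w d ≤ (|(d : ℝ)| + 2) ^ p)
    (y : ℤ → ℝ) (hy : ∀ g, 0 ≤ y g) :
    ∑ g ∈ Icc (1 : ℤ) N, ∑ g' ∈ Icc (1 : ℤ) N, G.kk (g' - g) * (w (g' - g) * y g') ≤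
      MomP p C θ * ∑ g ∈ Icc (1 : ℤ) N, y g := by
  rw [Finset.sum_comm, Finset.mul_sum]
  refine Finset.sum_le_sum fun g' _ => ?_
  have h1 : ∑ g ∈ Icc (1 : ℤ) N, G.kk (g' - g) * (w (g' - g) * y g') ≤
      ∑ g ∈ Icc (1 : ℤ) N, G.kk (g' - g) * (|((g' - g : ℤ) : ℝ)| + 2) ^ p * y g' := by
    refine Finset.sum_le_sum fun g _ => ?_
    rw [mul_assoc]
    exact mul_le_mul_of_nonneg_left (mul_le_mul_of_nonneg_right (hw _) (hy g')) (G.kk_nonneg _)
  refine h1.trans ?_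
  rw [← Finset.sum_mul]
  exact mul_le_mul_of_nonneg_right (mom_shift p hC hθ hθ1 hG _ g') (hy g')

/-- the differences of the powers -/
lemma pow_diff (k : ℕ) {x y : ℝ} (hx : 1 ≤ x) (hy : 1 ≤ y) :
    |x ^ (k + 1) - y ^ (k + 1)| ≤ ((k : ℝ) + 1) * (|y - x| * (|y - x| + 1) ^ k) * y ^ k := by
  have h1 := abs_pow_sub_pow_le x y (k + 1)
  have h0 := abs_nonneg (y - x)
  have h2 : max |x| |y| ≤ (|y - x| + 1) * y := by
    rw [abs_of_pos (by linarith : 0 < x), abs_of_pos (by linarith : 0 < y)]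
    have h3 := neg_abs_le (y - x)
    refine max_le ?_ ?_
    · nlinarith
    · nlinarith
  have h4 : (max |x| |y|) ^ k ≤ ((|y - x| + 1) * y) ^ k :=
    pow_le_pow_left₀ (le_max_of_le_left (abs_nonneg x)) h2 k
  rw [Nat.add_sub_cancel] at h1
  rw [abs_sub_comm x y] at h1
  refine h1.trans ?_
  calc |y - x| * ((k + 1 : ℕ) : ℝ) * max |x| |y| ^ k
      ≤ |y - x| * ((k + 1 : ℕ) : ℝ) * ((|y - x| + 1) * y) ^ k :=
        mul_le_mul_of_nonneg_left h4 (by positivity)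
    _ = _ := by
        push_cast
        rw [mul_pow]
        ring

/-- source term -/
lemma source_le {N : ℕ} {v e : ℤ → ℂ} {W : ℝ} (hv : ∀ g, ‖v g‖ ≤ W) (k : ℕ) :
    ∑ g ∈ Icc (1 : ℤ) N, ((g : ℝ) ^ k) ^ 2 * (‖v g‖ * ‖e g‖) ≤ W * lw (2 * k) N e := by
  unfold lw
  rw [Finset.mul_sum]
  refine Finset.sum_le_sum fun g hg => ?_
  have h0 : 0 ≤ ((g : ℝ) ^ k) ^ 2 := sq_nonneg _
  calc ((g : ℝ) ^ k) ^ 2 * (‖v g‖ * ‖e g‖) ≤ ((g : ℝ) ^ k) ^ 2 * (W * ‖e g‖) :=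
        mul_le_mul_of_nonneg_left (mul_le_mul_of_nonneg_right (hv g) (norm_nonneg _)) h0
    _ = _ := by
        rw [← pow_mul, mul_comm k 2]
        ring

end GWKm

open GWKm in
/-- MODULE KCS_GWK -/
theorem gwk (hC : GC_Stmt) (hSUP : GSUP_Stmt) (hW : GW_Stmt) : GWK_Stmt := by
  intro k
  induction k with
  | zero =>
    intro C θ hC0 hθ hθ1
    obtain ⟨C1, hC1, h⟩ := hW C θ hC0 hθ hθ1
    refine ⟨C1, hC1, ?_⟩
    intro G hG N z v e hz hzne hs
    exact (h G hG N 0 z v e le_rfl hz hzne hs).1 0 (by norm_num)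
  | succ k ih =>
    intro C θ hC0 hθ hθ1
    obtain ⟨c, hc, hCo⟩ := hC C θ hC0 hθ hθ1
    obtain ⟨Cs, hCs, hSU⟩ := hSUP C θ hC0 hθ hθ1
    obtain ⟨K, hK, hIH⟩ := ih C θ hC0 hθ hθ1
    set M : ℝ := GW.Mom C θ + MomP (2 * k + 2) C θ + 1 with hM
    have hm1 := GW.mom_nonneg hC0 hθ
    have hm2 := mom_nonneg (2 * k + 2) hC0 hθ
    have hM0 : 0 < M := by linarith
    have hMM : GW.Mom C θ ≤ M := by linarith
    have hMM2 : MomP (2 * k + 2) C θ ≤ M := by linarith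
    set C₁ : ℝ := M / (2 * c) + 1 / 2 with hC₁
    have hC₁0 : 0 ≤ C₁ := by positivity
    refine ⟨(2 / c) * (Cs + C₁ * (((k : ℝ) + 1) ^ 2 * M * K)), by positivity, ?_⟩
    intro G hG N z v e hz hzne hs
    have hCoer : Coer G c := fun N eps z f h1 h2 h3 => hCo G hG N eps z f h1 h2 h3
    have hMd : ∀ f : ℤ → ℂ, Supp N f → ∑ g ∈ Icc (1 : ℤ) N, ∑ g' ∈ Icc (1 : ℤ) N,
        G.kk (g' - g) * ‖f g' - f g‖ ^ 2 ≤ M * En N f := fun f hf =>
      (GW.kk_diff hC0 hθ hθ1 hG hf).trans (mul_le_mul_of_nonneg_right hMM (En_nonneg N f))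
    obtain ⟨hv1, -⟩ := hSU G hG N 0 z v e le_rfl hz hs
    have hI := hIH G hG N z v e hz hzne hs
    set L : ℝ := lw (2 * (k + 1) + 4) N e with hL
    have hL0 : 0 ≤ L := GW.lw_nonneg _ N e
    have hv : ∀ g, ‖v g‖ ≤ Cs * L := fun g =>
      (hv1 g).trans (mul_le_mul_of_nonneg_left (GW.lw_mono (by omega) N e) hCs.le)
    set δ : ℝ := ‖(G.rho : ℂ) - z‖ with hδ
    have hδ0 : 0 < δ := norm_pos_iff.mpr (sub_ne_zero.mpr (Ne.symm hzne))
    have hδ2 : δ ≤ 1 := by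
      have h1 : δ ≤ 2 * G.rho := delta_le hz
      have h2 := GW.rho_le G
      linarith
    set t : ℝ := Real.sqrt δ with ht
    have ht0 : 0 < t := Real.sqrt_pos.mpr hδ0
    have ht1 : t ≤ 1 := by rw [ht]; exact Real.sqrt_le_one.mpr hδ2
    set D : ℝ := t * δ ^ k with hD
    have hD0 : 0 < D := by positivity
    have hD1 : D ≤ 1 := by
      rw [hD]
      exact mul_le_one₀ ht1 (by positivity) (pow_le_one₀ hδ0.le hδ2)
    set ζ : ℤ → ℝ := fun g => (g : ℝ) ^ (k + 1) with hζ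
    set B : ℤ → ℤ → ℝ := fun d g =>
      ((k : ℝ) + 1) * (|(d : ℝ)| * (|(d : ℝ)| + 1) ^ k) * ‖mulg k v g‖ with hB
    have hB0 : ∀ d g, 0 ≤ B d g := by
      intro d g
      simp only [hB]
      positivity
    have hBe : ∀ d g, B (-d) g = B d g := by
      intro d g
      simp only [hB]
      push_cast
      rw [abs_neg]
    have hζB : ∀ g ∈ Icc (1 : ℤ) N, ∀ g' ∈ Icc (1 : ℤ) N,
        |ζ g - ζ g'| * ‖v g'‖ ≤ B (g' - g) g' := by
      intro g hg g' hg'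
      rw [Finset.mem_Icc] at hg hg'
      have hg1 : (1 : ℝ) ≤ g := by exact_mod_cast hg.1
      have hg1' : (1 : ℝ) ≤ g' := by exact_mod_cast hg'.1
      simp only [hB, hζ, mulg]
      push_cast
      rw [norm_mul, norm_pow, Complex.norm_intCast, ← mul_assoc]
      refine mul_le_mul_of_nonneg_right ?_ (norm_nonneg _)
      rw [abs_of_pos (by linarith : (0 : ℝ) < g')]
      exact pow_diff k hg1 hg1'
    have hw := GW.weighted hc hM0 hCoer le_rfl hz hs hMd ζ B hB0 hBe hζB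
    rw [← hδ, ← hC₁] at hw
    have hsrc := source_le (N := N) (e := e) hv (k + 1)
    have hsrc2 : Cs * L * lw (2 * (k + 1)) N e ≤ Cs * L * L :=
      mul_le_mul_of_nonneg_left (GW.lw_mono (by omega) N e) (by positivity)
    have hBs : ∑ g ∈ Icc (1 : ℤ) N, ∑ g' ∈ Icc (1 : ℤ) N, G.kk (g' - g) * B (g' - g) g' ^ 2 ≤
        ((k : ℝ) + 1) ^ 2 * (M * nsq N (mulg k v)) := by
      have h1 := sum_w_le (2 * k + 2) hC0 hθ hθ1 hG N
        (fun d => (|(d : ℝ)| * (|(d : ℝ)| + 1) ^ k) ^ 2) (by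
        intro d
        have h0 := abs_nonneg (d : ℝ)
        calc (|(d : ℝ)| * (|(d : ℝ)| + 1) ^ k) ^ 2
            ≤ ((|(d : ℝ)| + 2) * (|(d : ℝ)| + 2) ^ k) ^ 2 := by
              refine pow_le_pow_left₀ (by positivity) ?_ 2
              exact mul_le_mul (by linarith) (pow_le_pow_left₀ (by positivity) (by linarith) k)
                (by positivity) (by positivity)
          _ = (|(d : ℝ)| + 2) ^ (2 * k + 2) := by ring)
        (fun g => ‖mulg k v g‖ ^ 2) (fun g => sq_nonneg _)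
      have h2 : ∑ g ∈ Icc (1 : ℤ) N, ∑ g' ∈ Icc (1 : ℤ) N, G.kk (g' - g) * B (g' - g) g' ^ 2 =
          ((k : ℝ) + 1) ^ 2 * ∑ g ∈ Icc (1 : ℤ) N, ∑ g' ∈ Icc (1 : ℤ) N,
            G.kk (g' - g) * ((|((g' - g : ℤ) : ℝ)| * (|((g' - g : ℤ) : ℝ)| + 1) ^ k) ^ 2 *
              ‖mulg k v g'‖ ^ 2) := by
        rw [Finset.mul_sum]
        refine Finset.sum_congr rfl fun g _ => ?_
        rw [Finset.mul_sum]
        refine Finset.sum_congr rfl fun g' _ => ?_
        simp only [hB]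
        ring
      rw [h2]
      refine mul_le_mul_of_nonneg_left ?_ (by positivity)
      exact h1.trans (mul_le_mul_of_nonneg_right hMM2 (nsq_nonneg N (mulg k v)))
    have hV : (fun g => (ζ g : ℂ) * v g) = mulg (k + 1) v := by
      funext g
      simp only [hζ, mulg]
      push_cast
      ring
    rw [hV] at hw
    have hE := En_nonneg N (mulg (k + 1) v)
    have hP := Pot_nonneg (le_refl (0 : ℝ)) N (mulg (k + 1) v)
    have hn := nsq_nonneg N (mulg (k + 1) v)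
    -- the bound of the induction with the larger weight
    have hI2 : nsq N (mulg k v) ≤ K * L ^ 2 / D := by
      refine hI.trans ?_
      refine div_le_div_of_nonneg_right ?_ hD0.le
      refine mul_le_mul_of_nonneg_left ?_ hK.le
      exact pow_le_pow_left₀ (GW.lw_nonneg _ N e) (GW.lw_mono (by omega) N e) 2
    have hL2 : Cs * L * L ≤ Cs * L ^ 2 / D := by
      rw [le_div_iff₀ hD0]
      have : 0 ≤ Cs * L * L := by positivity
      nlinarith
    have hk3 : c / 2 * (δ * nsq N (mulg (k + 1) v)) ≤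
        (Cs + C₁ * (((k : ℝ) + 1) ^ 2 * M * K)) * L ^ 2 / D := by
      have h2 : c / 2 * (δ * nsq N (mulg (k + 1) v)) ≤ c / 2 * (δ * nsq N (mulg (k + 1) v) +
          En N (mulg (k + 1) v) + Pot 0 N (mulg (k + 1) v)) :=
        mul_le_mul_of_nonneg_left (by linarith) (by positivity)
      have h3 := mul_le_mul_of_nonneg_left hBs hC₁0
      have h4 : C₁ * (((k : ℝ) + 1) ^ 2 * (M * nsq N (mulg k v))) ≤
          C₁ * (((k : ℝ) + 1) ^ 2 * (M * (K * L ^ 2 / D))) := by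
        refine mul_le_mul_of_nonneg_left ?_ hC₁0
        refine mul_le_mul_of_nonneg_left ?_ (by positivity)
        exact mul_le_mul_of_nonneg_left hI2 hM0.le
      calc c / 2 * (δ * nsq N (mulg (k + 1) v))
          ≤ Cs * L ^ 2 / D + C₁ * (((k : ℝ) + 1) ^ 2 * (M * (K * L ^ 2 / D))) := by linarith
        _ = _ := by ring
    have hden : t * δ ^ (k + 1) = D * δ := by
      rw [hD, pow_succ]
      ring
    rw [hden, le_div_iff₀ (by positivity)]
    have h5 : c / 2 * (nsq N (mulg (k + 1) v) * (D * δ)) ≤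
        (Cs + C₁ * (((k : ℝ) + 1) ^ 2 * M * K)) * L ^ 2 := by
      rw [le_div_iff₀ hD0] at hk3
      linarith
    have h6 := mul_le_mul_of_nonneg_left h5 (by positivity : 0 ≤ 2 / c)
    have h7 : 2 / c * (c / 2 * (nsq N (mulg (k + 1) v) * (D * δ))) =
        nsq N (mulg (k + 1) v) * (D * δ) := by field_simp
    rw [h7] at h6
    refine h6.trans (le_of_eq ?_)
    ring

end Pool.Agent.KCG
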