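import Pool.Agent.KCG.Stmts

/-!
# Project KCS (MP_f6626d_co): sharp constants and all moments for column-convex polygons

Statements of the analysis part (over `Pool/Agent/KCG`: `GapKernel`, `Cls`, `ClsCap`, `IsSol`, ...).
Every doc string contains the complete proof.
-/

set_option autoImplicit false

open Finset Filter Topology

namespace Pool.Agent.KCG

open Pool.Agent.Gap

/-! ### A. Weighted bounds for all powers of the gap -/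

/-- GWK (module KCS_GWK): the bound of `GW_Stmt` (at `eps = 0`) for every power `k`.

PROOF (induction on `k`, from the lemmas of `Pool/Agent/KCG/GW.lean`; `GC_Stmt`, `GSUP_Stmt`,
`GW_Stmt` are available as hypotheses). Put `δ = ‖ρ - z‖`, `L = lw (2 k + 4) N e` (so
`lw p N e ≤ L` for `p ≤ 2 k + 4`, because `1 ≤ g`), `δ ≤ 2 ρ ≤ 2`. `k = 0` is `GW_Stmt`. Step from `k` to
`k + 1`: `GW.weighted` with `ζ g = g ^ (k + 1)` and
`B d g = (k + 1) * |d| * (|d| + 1) ^ k * ‖mulg k v g‖`; indeed for `g, g' ≥ 1`, `d = g' - g`: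
`|g ^ (k+1) - g' ^ (k+1)| ≤ (k+1) |d| max(g,g') ^ k` and `max(g,g') ≤ (1 + |d|) g'`. The source term is
`∑ ζ ^ 2 ‖v‖ ‖e‖ ≤ (sup ‖v‖) * lw (2 (k+1)) N e ≤ C L * L` by `GSUP_Stmt`. The kernel term is
`∑ kk (g' - g) B ^ 2 ≤ (k+1) ^ 2 * M * nsq N (mulg k v)`, where
`M = ∑_m (2 m + 2) ^ (2 k + 2) C θ ^ m` bounds `∑_d kk d (|d| + 2) ^ (2 k + 2)` (copy `GW.mom_le` with
the exponent `4` replaced by `p`; `GW.sum_dg_le`). So
`δ * nsq N (mulg (k+1) v) ≤ C' (L ^ 2 + L ^ 2 / (√δ δ ^ k)) ≤ C'' L ^ 2 / (√δ δ ^ k)` (use `δ ≤ 2`). -/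
def GWK_Stmt : Prop := ∀ (k : ℕ) (C θ : ℝ), 0 < C → 0 < θ → θ < 1 → ∃ C1 : ℝ, 0 < C1 ∧
  ∀ G : GapKernel, Cls C θ G →
  ∀ (N : ℕ) (z : ℂ) (v e : ℤ → ℂ), ‖z‖ ≤ G.rho → z ≠ (G.rho : ℂ) → G.Solves 0 z N v e →
    nsq N (mulg k v) ≤
      C1 * (lw (2 * k + 4) N e) ^ 2 / (Real.sqrt ‖(G.rho : ℂ) - z‖ * ‖(G.rho : ℂ) - z‖ ^ k)

/-! ### B. All moments of the closed polynomials -/

/-- `r`-th moment of a polynomial (as a measure on the exponents) -/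
noncomputable def mr (r : ℕ) (P : Polynomial ℝ) : ℝ := P.sum (fun m c => c * (m : ℝ) ^ r)

/-- source: the array `b` multiplied by the `r`-th power of the area of one piece (`r = 2`:
`GM2.sqS`) -/
noncomputable def pwS (G : GapKernel) (r N : ℕ) (b : ℕ → ℤ → ℝ) (n : ℕ) (g : ℤ) : ℝ :=
  ∑ i ∈ G.S, if i.1 ≤ n then
    ∑ g' ∈ Icc (1 : ℤ) N, G.K i g g' * ((i.2 : ℝ) * ((g : ℝ) + (g' : ℝ))) ^ r * b (n - i.1) g' else 0

/-- GMP (module KCS_GMP): the power mean inequality along the recursion. An arch of half length `n`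
has at most `n` pieces, so the `r`-th power of its area is at most `n ^ (r-1)` times the sum of the
`r`-th powers of the areas of its pieces.

PROOF. Copy `GM2.m2_le'` (`Pool/Agent/KCG/GM2.lean`, `r = 2`) with `m2` replaced by `mr r`, the
factor `k` by `k ^ (r - 1)` and `sqS` by `pwS G r`. The one new inequality: for a polynomial `P` with
nonnegative coefficients, `a ≥ 0` and `k ≥ 1`,
`mr r (X ^ a * P) ≤ (k+1) ^ (r-1) / k ^ (r-1) * mr r P + (k+1) ^ (r-1) * a ^ r * P.eval 1`; it follows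
coefficientwise from `(m + a) ^ r ≤ (k+1) ^ (r-1) (m ^ r / k ^ (r-1) + a ^ r)`, which is the convexity
of `x ^ r` (`inner_le_nnorm_mul_nnorm`-free: `(m + a) = (k/(k+1)) * ((k+1)/k * m) + (1/(k+1)) * ((k+1) a)`,
`Real.pow_arith_mean_le_arith_mean_pow` or `ConvexOn` of `x ^ r` on `x ≥ 0`). Coefficients of the
solution are nonnegative (`closeP_coeff_nonneg`, its lemma for `B`; or `sol_good`). The case
`n - i.1 = 0`: `B 0 g` is the constant `s 0 g`. -/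
def GMP_Stmt : Prop := ∀ (r : ℕ), 1 ≤ r → ∀ (G : GapKernel) (C0 : ℕ) (s : ℕ → ℤ → ℝ), IsCap C0 s →
  ∀ B, IsSol G s B → ∀ (N : ℕ) (b q : ℕ → ℤ → ℝ), IsArr G s 0 N b →
    IsArr G (pwS G r N b) 0 N q → ∀ n : ℕ, C0 + (G.R + 1) * (n + 1) ≤ N → ∀ g : ℤ,
      mr r (B n g) ≤ (n : ℝ) ^ (r - 1) * q n g

/-- GMC (module KCS_GMC): coefficients from a singularity of order `k + 1/2`.

PROOF. Copy `Gap.coef_bound` (used in `Pool/Agent/KCG/GM2.lean`, `coef_scaled`, where `k = 1`; see there).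
Rescaled: `a m * rho ^ m` has generating function with radius `1`. Cauchy on the circle
`|z| = r = 1 - 1/(2 n)` (or `exp (-1/n)`): `|a n| rho ^ n ≤ r ^ (-n) / (2 π) ∫ A' / |1 - r e^{iφ}| ^ (k + 1/2)`,
and `|1 - r e^{iφ}| ≥ c max (1/n, |φ|)`, so for `k ≥ 1` the integral is at most `C n ^ (k - 1/2)`. -/
def GMC_Stmt : Prop := ∀ (k : ℕ) (A C : ℝ), 1 ≤ k → 0 ≤ A → 0 < C → ∃ C' : ℝ, 0 ≤ C' ∧
  ∀ (rho : ℝ) (a : ℕ → ℝ), 0 < rho → C⁻¹ ≤ rho →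
    (∀ z : ℂ, ‖z‖ < rho → Summable fun m : ℕ => ‖((a m : ℝ) : ℂ) * z ^ m‖) →
    (∀ z : ℂ, ‖z‖ < rho → ‖∑' m : ℕ, ((a m : ℝ) : ℂ) * z ^ m‖ *
      (Real.sqrt ‖(rho : ℂ) - z‖ * ‖(rho : ℂ) - z‖ ^ k) ≤ A) →
    ∀ n : ℕ, 1 ≤ n → |a n| * rho ^ n * Real.sqrt n ≤ C' * (n : ℝ) ^ k

/-- GMK (module KCS_GMK): moments of order `2 k` of the closed polynomials:
`rho ^ n * (2 k)-th moment ≤ C1 n ^ (3 k - 3/2)`.

PROOF. Copy `gm2` (`Pool/Agent/KCG/GM2.lean`), with `sqS` replaced by `pwS G (2 k)`, from GMP (with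
`r = 2 k`), GMC and GWK: `closeP` of the solution has `mr (2 k) ≤ n ^ (2 k - 1) * close C0 t q n`, the
generating function of `close C0 t q` is `∑_g gf b' (g) * (pwK gf b)(g)` (adjoint), and
`|…| ≤ C (nsq N (mulg k (gf b')) + nsq N (mulg k (gf b)))` because for `g, g' ≥ 1` with
`|g - g'| ≤ 2 i.1`: `(h (g + g')) ^ (2 k) ≤ i.1 ^ (2 k) (4 i.1) ^ (2 k) (g g') ^ k` (copy
`GM2.form_bound`, the moment `4` of the class becomes `4 k`). By GWK (and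
`lw (2 k + 4)` of the caps is bounded as in `GM2.lw_cap`) this is `≤ C / (√δ δ ^ k)`, GMC gives
`close C0 t q n * rho ^ n ≤ C n ^ (k - 1/2)`. -/
def GMK_Stmt : Prop := ∀ (k : ℕ) (C θ : ℝ), 1 ≤ k → 0 < C → 0 < θ → θ < 1 → ∃ C1 : ℝ, 0 < C1 ∧
  ∀ G : GapKernel, Cls C θ G → ∀ (C0 : ℕ) (s t : ℕ → ℤ → ℝ), ClsCap C θ G C0 s →
    ClsCap C θ G C0 t → ∀ B, IsSol G s B → ∀ n : ℕ,
    G.rho ^ n * mr (2 * k) (closeP C0 t B n) * ((n : ℝ) * Real.sqrt n) ≤ C1 * (n : ℝ) ^ (3 * k)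

/-! ### C. The constant in the local limit theorem -/

/-- the critical source (`GE.sr` of `Pool/Agent/KCG/GE.lean`, by `rfl`) -/
noncomputable def csrc (rho : ℝ) (C0 : ℕ) (s : ℕ → ℤ → ℝ) (g : ℤ) : ℝ :=
  ∑ m ∈ range (C0 + 1), rho ^ m * s m g

/-- `A n` is the limit at infinity of the critical solution of the kernel `G n` with the critical
source of the caps `s n`, with uniform constants. -/
def CritLim (C1 Cv : ℝ) (G : ℕ → GapKernel) (C0 : ℕ → ℕ) (s : ℕ → ℕ → ℤ → ℝ) (A : ℕ → ℝ) : Prop :=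
  ∃ vc : ℕ → ℤ → ℝ, ∀ n, CritSol C1 (G n) (csrc (G n).rho (C0 n) (s n)) (vc n) ∧
    C1⁻¹ ≤ A n ∧ A n ≤ C1 ∧ ∀ M : ℕ, ∑ g ∈ Icc (1 : ℤ) M, (g : ℝ) ^ 2 * (vc n g - A n) ^ 2 ≤ Cv

/-- GEX (helper12): `GE_Stmt` with the meaning of the constants `A n`. -/
def GEX_Stmt : Prop := ∀ C θ : ℝ, 0 < C → 0 < θ → θ < 1 → ∃ C1 Cv : ℝ, 0 < C1 ∧ 0 < Cv ∧
  ∀ (G : ℕ → GapKernel) (mb hb sg : ℝ) (C0 : ℕ → ℕ) (s : ℕ → ℕ → ℤ → ℝ), KSeq C θ G mb hb sg →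
    (∀ n, ClsCap C θ (G n) (C0 n) (s n)) →
  ∃ A : ℕ → ℝ, CritLim C1 Cv G C0 s A ∧ ∀ (n0 N : ℕ → ℕ),
    Tendsto (fun n : ℕ => (n0 n : ℝ) / n) atTop (𝓝 (2 * sg / mb)) →
    (∀ n : ℕ, 4 * n ^ 2 + 4 * (n0 n) ^ 2 ≤ N n) →
    ∀ (lam : ℝ) (w : ℂ), 0 ≤ lam → 0 < w.re →
    ∀ (v v0 : ℕ → ℤ → ℂ),
      (∀ n, 1 ≤ n → 1 ≤ n0 n →
        (G n).Solves (epsn lam n) (zn (G n).rho w n) (N n) (v n)
          (capz (C0 n) (s n) 0 (zn (G n).rho w n)) ∧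
        stair.Solves (epsn (lamS mb hb sg lam) (n0 n)) (zn (1 / 4) w (n0 n)) (N n) (v0 n)
          (src1 (zn (1 / 4) w (n0 n)))) →
      Tendsto (fun n : ℕ => nsq (N n) (fun g => v n g - (A n : ℂ) * v0 n g) / Real.sqrt n)
        atTop (𝓝 0)

/-- GLTX (helper12): `GLT_Stmt` with an explicit factor: `cr n = √(2 sg / mb) mbar_n A_n A'_n` with the
limits `A_n`, `A'_n` of the two critical solutions. -/
def GLTX_Stmt : Prop := ∀ C θ : ℝ, 0 < C → 0 < θ → θ < 1 → ∃ C1 Cv : ℝ, 0 < C1 ∧ 0 < Cv ∧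
  ∀ (G : ℕ → GapKernel) (mb hb sg : ℝ) (C0 : ℕ → ℕ) (s t : ℕ → ℕ → ℤ → ℝ)
    (B : ℕ → ℕ → ℤ → Polynomial ℝ), KSeq C θ G mb hb sg →
    (∀ n, ClsCap C θ (G n) (C0 n) (s n)) → (∀ n, ClsCap C θ (G n) (C0 n) (t n)) →
    (∀ n, IsSol (G n) (s n) (B n)) → ∀ B0, Gap.IsSol stair cap1 B0 →
  ∃ As At : ℕ → ℝ, CritLim C1 Cv G C0 s As ∧ CritLim C1 Cv G C0 t At ∧ ∀ (n0 : ℕ → ℕ),
    Tendsto (fun n : ℕ => (n0 n : ℝ) / n) atTop (𝓝 (2 * sg / mb)) →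
    ∀ lam : ℝ, 0 ≤ lam →
      Tendsto (fun n : ℕ => ((n : ℝ) * Real.sqrt n) * (G n).rho ^ n
          * (closeP (C0 n) (t n) (B n) n).eval (Real.exp (-(epsn lam n)))
        - (Real.sqrt (2 * sg / mb) * ((G n).mbar * (As n * At n))) *
          (((n0 n : ℝ) * Real.sqrt (n0 n)) * (1 / 4 : ℝ) ^ (n0 n)
          * (closeP 1 cap1 B0 (n0 n)).eval (Real.exp (-(epsn (lamS mb hb sg lam) (n0 n))))))
        atTop (𝓝 0)

/-- the critical kernels and the critical sources of a sequence form uniform Cauchy sequences -/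
structure KCau (G : ℕ → GapKernel) (s : ℕ → ℤ → ℝ) : Prop where
  ker : ∀ δ : ℝ, 0 < δ → ∃ n1 : ℕ, ∀ n m : ℕ, n1 ≤ n → n1 ≤ m → ∀ (M : ℕ) (g : ℤ), 1 ≤ g →
    ∑ g' ∈ Icc (1 : ℤ) M, |(G n).Kc g g' - (G m).Kc g g'| ≤ δ
  src : ∀ δ : ℝ, 0 < δ → ∃ n1 : ℕ, ∀ n m : ℕ, n1 ≤ n → n1 ≤ m → ∀ g : ℤ, 1 ≤ g →
    |s n g - s m g| ≤ δ

/-- ACV (module KCS_ACV): the limits at infinity of the critical solutions of a Cauchy sequence of
kernels converge.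

PROOF (from `GC_Stmt`, the coercivity, used with `eps = 0`, `z = ρ` and real functions). We show that
`A` is a Cauchy sequence. Fix `n, m`, `w = v n - v m`; `|w| ≤ C1` everywhere, `w g = 0` for `g ≤ 0`
(`CritSol.low/up/zero`). For `g ≥ 1`, summing over all `g' ≥ 1` (only finitely many terms are nonzero;
use one large common range, `Kc g g' = 0` for `|g' - g| > R` or `g' ≤ 0`):
`w g - ∑_{g'} Kc_n g g' w g' = e g := (s n g - s m g) + ∑_{g'} (Kc_n - Kc_m) g g' * v m g'`, so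
`|e g| ≤ (1 + C1) δ` if `δ` is the Cauchy bound of `n, m`. Let `L ≥ 1`, `χ g = 1` for `g ≤ L`,
`2 - g / L` for `L ≤ g ≤ 2 L`, `0` beyond, `f = χ w`, supported in `1..2 L`. By symmetry of `Kc_n`
`form f ((1 - Kc_n) f) = ∑_g χ(g)^2 w(g) e(g) + (1/2) ∑_{g,g' ≥ 1} Kc_n g g' w(g) w(g') (χ(g) - χ(g'))^2`.
The first sum is at most `2 L * C1 * (1 + C1) δ`. In the second `|χ(g) - χ(g')| ≤ min(1, |d| / L)`,
`d = g' - g`, and it is `0` unless `L - |d| ≤ g ≤ 2 L + |d|`; at most `L + 2 |d| + 1 ≤ 4 L |d|` values of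
`g` for given `d ≠ 0`, and `∑_d (sup_g Kc_n g (g + d)) |d| ^ 3 ≤ ∑_d kk d |d|^3 ≤ M` with
`M = ∑_m (2 m) ^ 3 C θ ^ m` (`Kc g g' ≤ kk (g' - g)`, `GapKernel.Kc_le`; `GW.mom_le`): the second sum is at
most `2 C1 ^ 2 M / L`. By `GC_Stmt` (constant `c`) `c * En (2 L) f ≤ 2 L C1 (1 + C1) δ + 2 C1 ^ 2 M / L`.
For `1 ≤ g ≤ L`, `|w g| = |f g| ≤ √(g * En f)` (Cauchy-Schwarz from `f 0 = 0`), and
`|A n - A m| ≤ |A n - v n g| + |w g| + |v m g - A m| ≤ 2 √Cv / g + √(g * En f)` (the single term `g` of the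
sum in the hypothesis). Given `ε`: choose `g`, then `L`, then `δ`, then `n1`. -/
def ACV_Stmt : Prop := ∀ C θ C1 Cv : ℝ, 0 < C → 0 < θ → θ < 1 → 0 < C1 →
  ∀ (G : ℕ → GapKernel) (s v : ℕ → ℤ → ℝ) (A : ℕ → ℝ), (∀ n, Cls C θ (G n)) →
    (∀ n, CritSol C1 (G n) (s n) (v n)) →
    (∀ (n M : ℕ), ∑ g ∈ Icc (1 : ℤ) M, (g : ℝ) ^ 2 * (v n g - A n) ^ 2 ≤ Cv) →
    KCau G s → ∃ a : ℝ, Tendsto A atTop (𝓝 a)

end Pool.Agent.KCG
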